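import Pool.Agent.Lib.MP_f02ea4_nt.TC.C15Check

/-!
# An odd perfect number free of sixth powers is prime to `15`: the certificates
-/

set_option autoImplicit false

namespace Pool.Agent.TC.C15

open Tr

/-- Lucas certificates -/
def luc15 : List (ℕ × ℕ × List ℕ) := [
  (262209281, 3, [2, 2, 2, 2, 2, 2, 2, 2, 5, 127, 1613]),
  (366340651, 2, [2, 3, 5, 5, 13, 17, 43, 257]),
  (13080080081, 3, [2, 2, 2, 2, 5, 71, 1433, 1607])]

theorem luc15_ok : Pool.Agent.Lib.MP_f02ea4_nt.Exc.lucAll luc15 [] = true := by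
  decide +kernel

/-- certified large primes -/
def big15 : List ℕ := luc15.map (fun c => c.1)

theorem big15_prime : ∀ q ∈ big15, q.Prime := by
  intro q hq
  unfold big15 at hq
  rw [List.mem_map] at hq
  obtain ⟨c, hc, rfl⟩ := hq
  exact Pool.Agent.Lib.MP_f02ea4_nt.Exc.lucAll_prime luc15 [] (by simp) luc15_ok c hc

/-- the tree for `3 ^ 2` -/
def t32 : Tr :=
  br 13 (br 7 (ab []) (br 19 (ab []) (br 127 (ab []) (ov 3 3) (br 262209281 (ab []) (ov 13 2) (ab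
  [5]) (ab [])) (ab [])) (br 151 (ab []) (br 911 (ab []) (br 1093 (ab []) (ov 3 3) (ab [11]) (ab
  [])) (ab [5]) (ab [])) (ab [5]) (ab [])) (ab [])) (br 2801 (ab []) (br 37 (ab []) (br 43 (ab
  []) (br 67 (ab []) (ov 3 3) (br 631 (ab []) (ov 3 3) (ab [5]) (ab [])) (ab [])) (br 67 (ab [])
  (ab [31]) (br 761 (ab []) (br 4933 (ab []) (br 127 (ab []) (ov 3 3) (br 193 (ab []) (ov 3 3)
  (br 331 (ab []) (ov 3 3) (ab [5]) (ab [])) (ab [])) (ab [])) (ab [11]) (ab [])) (ab [5]) (ab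
  [])) (ab [])) (ab [])) (ab [11]) (ab [])) (ab [5]) (ab [])) (ab [])) (br 61 (br 31 (ab []) (br
  331 (ab []) (ov 3 3) (ab [5]) (ab [])) (ab [5]) (ab [])) (br 97 (br 7 (ab []) (ov 3 3) (br 2801
  (ab []) (br 37 (ab []) (ov 3 3) (ab [11]) (ab [])) (ab [5]) (ab [])) (ab [])) (ov 3 3) (br 11
  (ab []) (ab [7]) (ab [5]) (ab [])) (ov 3 3)) (br 5 (br 131 (ab []) (br 17293 (ab []) (ov 3 3)
  (br 21491 (ab []) (br 421 (ab []) (ov 3 3) (ov 5 2) (ab [])) (ov 5 2) (ab [])) (ab [])) (ov 5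
  2) (ab [])) (ab [31]) (ab [11]) (ov 3 3)) (br 7 (ab []) (ov 3 3) (br 31 (ab []) (ov 3 3) (ab
  [5]) (ab [])) (ab []))) (br 30941 (ov 3 3) (br 157 (br 79 (ab []) (br 7 (ab []) (ab [19, 43])
  (br 43 (ab []) (br 433 (ab []) (ov 3 3) (ab [11]) (ab [])) (br 433 (ab []) (br 37 (ab []) (ov 3
  3) (ab [11]) (ab [])) (ab [11]) (ab [])) (ab [])) (ab [])) (br 433 (ab []) (br 37 (ab []) (br 7
  (ab []) (ov 3 3) (br 67 (ab []) (ov 3 3) (br 761 (ab []) (br 1693 (ab []) (ov 3 3) (br 821 (ab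
  []) (br 229 (ab []) (ov 3 3) (ab [11]) (ab [])) (ab [5]) (ab [])) (ab [])) (ab [5]) (ab []))
  (ab [])) (ab [])) (br 11 (ab []) (ab [7]) (ab [5]) (ab [])) (ab [])) (br 11 (ab []) (ab [7])
  (ab [5]) (ab [])) (ab [])) (ab [])) (br 433 (br 7 (ab []) (ab [19, 31]) (br 31 (ab []) (br 331
  (ab []) (ov 3 3) (ab [5]) (ab [])) (ab [5]) (ab [])) (ab [])) (br 37 (br 19 (ab []) (ov 3 3)
  (br 151 (ab []) (ov 3 3) (ab [5]) (ab [])) (ab [])) (ov 3 3) (br 11 (ab []) (ab [7]) (ab [5])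
  (ab [])) (ov 3 3)) (br 11 (ab []) (ab [7]) (ab [5]) (ab [])) (br 7 (ab []) (ov 3 3) (br 31 (ab
  []) (ov 3 3) (ab [5]) (ab [])) (ab []))) (br 11 (ab []) (ab [7]) (ab [5]) (ab [])) (br 7 (ab
  []) (br 19 (ab []) (ov 3 3) (br 79 (ab []) (ov 7 3) (br 151 (ab []) (ov 3 3) (ab [5]) (ab []))
  (ab [])) (ab [])) (br 79 (ab []) (br 43 (ab []) (ov 3 3) (br 433 (ab []) (ov 3 3) (ab [11]) (ab
  [])) (ab [])) (br 433 (ab []) (br 37 (ab []) (ov 3 3) (ab [11]) (ab [])) (ab [11]) (ab [])) (ab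
  [])) (ab []))) (ab [5, 11]) (ov 3 3)) (br 7 (ab []) (br 19 (ab []) (ov 3 3) (br 61 (ab []) (ov
  3 3) (ab [5]) (ab [])) (ab [])) (br 61 (ab []) (br 97 (ab []) (ov 3 3) (ab [11]) (ab [])) (ab
  [5]) (ab [])) (ab []))

/-- the tree for `3 ^ 4` -/
def t34 : Tr :=
  br 11 (ab []) (ab [7, 19]) (br 5 (br 3221 (ab []) (br 10378063 (ab []) (br 769 (ab []) (ab
  [31]) (br 541 (ab []) (ab [7]) (ov 5 2) (ab [])) (ab [])) (br 33151 (ab []) (br 366340651 (ab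
  []) (br 3229 (ab []) (ab [7]) (br 202519 (ab []) (ab [7]) (br 11827061 (ab []) (br 397 (ab [])
  (ab [31]) (br 523 (ab []) (ab [13]) (br 3491 (ab []) (br 12190573 (ab []) (br 21472771 (ab [])
  (ov 3 5) (ov 5 2) (ab [])) (br 181 (ab []) (ab [79]) (ov 5 2) (ab [])) (ab [])) (ov 5 2) (ab
  [])) (ab [])) (ab [])) (ov 5 2) (ab [])) (ab [])) (ab [])) (ov 5 2) (ab [])) (ov 5 2) (ab []))
  (ab [])) (ov 5 2) (ab [])) (ab [31]) (ab [71]) (ab [7])) (ab [])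

/-- the tree for `5 ^ 2` -/
def t52 : Tr :=
  br 31 (ab []) (bad 3) (br 11 (ab []) (br 7 (ab []) (bad 3) (br 19 (ab []) (bad 3) (br 151 (ab
  []) (bad 3) (br 911 (ab []) (br 2801 (bad 3) (br 37 (br 43 (ab []) (bad 3) (br 4933 (ab [])
  (bad 3) (br 7541 (ab []) (br 67 (ab []) (bad 3) (br 761 (ab []) (br 17351 (ab []) (ab [13]) (ov
  11 3) (ab [])) (ov 5 3) (ab [])) (ab [])) (ov 5 3) (ab [])) (ab [])) (ab [])) (bad 3) (br 41
  (bad 3) (br 43 (ab []) (bad 3) (br 1723 (ab []) (bad 3) (br 4271 (ab []) (br 199 (ab []) (bad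
  3) (br 71 (ab []) (br 277 (br 139 (ab []) (bad 3) (br 331 (ab []) (bad 3) (ov 5 3) (ab [])) (ab
  [])) (bad 3) (br 331 (ab []) (bad 3) (ov 5 3) (ab [])) (bad 3)) (ov 11 3) (ab [])) (ab [])) (ov
  11 3) (ab [])) (ab [])) (ab [])) (ov 5 3) (bad 3)) (bad 3)) (ov 5 3) (bad 3)) (ov 5 3) (ab []))
  (ab [])) (ab [])) (ab [])) (br 3221 (bad 3) (br 17351 (ab []) (br 13 (br 7 (ab []) (bad 3) (br
  1063 (ab []) (bad 3) (br 1291 (ab []) (bad 3) (ov 5 3) (ab [])) (ab [])) (ab [])) (bad 3) (br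
  1063 (ab []) (bad 3) (br 1291 (ab []) (bad 3) (ov 5 3) (ab [])) (ab [])) (bad 3)) (ov 5 3) (ab
  [])) (ov 5 3) (bad 3)) (ab [])) (ab [])

/-- the tree for `5 ^ 4` -/
def t54 : Tr :=
  br 11 (ab []) (br 7 (ab []) (bad 3) (br 19 (ab []) (bad 3) (br 71 (ab []) (br 151 (ab []) (bad
  3) (br 911 (ab []) (br 2801 (bad 3) (br 37 (br 43 (ab []) (bad 3) (br 4933 (ab []) (bad 3) (br
  31 (ab []) (bad 3) (ov 11 3) (ab [])) (ab [])) (ab [])) (bad 3) (br 41 (bad 3) (br 43 (ab [])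
  (bad 3) (br 1723 (ab []) (bad 3) (br 4271 (ab []) (br 199 (ab []) (bad 3) (br 277 (br 139 (ab
  []) (bad 3) (br 331 (ab []) (bad 3) (br 4933 (ab []) (bad 3) (ov 11 3) (ab [])) (ab [])) (ab
  [])) (bad 3) (br 331 (ab []) (bad 3) (br 4933 (br 2467 (ab []) (bad 3) (ov 11 3) (ab [])) (bad
  3) (ov 11 3) (bad 3)) (ab [])) (bad 3)) (ab [])) (ov 11 3) (ab [])) (ab [])) (ab [])) (br 43
  (ab []) (bad 3) (br 4271 (ab []) (br 199 (ab []) (bad 3) (br 277 (br 139 (ab []) (bad 3) (br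
  331 (ab []) (bad 3) (br 4933 (ab []) (bad 3) (ov 11 3) (ab [])) (ab [])) (ab [])) (bad 3) (br
  331 (ab []) (bad 3) (br 4933 (br 2467 (ab []) (bad 3) (ov 11 3) (ab [])) (bad 3) (ov 11 3) (bad
  3)) (ab [])) (bad 3)) (ab [])) (ov 11 3) (ab [])) (ab [])) (bad 3)) (bad 3)) (br 5113 (br 2557
  (ab []) (bad 3) (br 12011 (ab []) (br 1459 (ab []) (bad 3) (br 31 (ab []) (bad 3) (ov 11 3) (ab
  [])) (ab [])) (br 830833 (ab []) (bad 3) (ov 11 3) (ab [])) (ab [])) (ab [])) (bad 3) (br 4751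
  (ab []) (br 830833 (br 127 (ab []) (bad 3) (br 3271 (ab []) (bad 3) (ov 11 3) (ab [])) (ab []))
  (bad 3) (ov 11 3) (bad 3)) (br 31 (ab []) (bad 3) (ov 11 3) (ab [])) (ab [])) (bad 3)) (bad 3))
  (br 701 (bad 3) (br 2801 (bad 3) (br 37 (br 43 (ab []) (bad 3) (br 4933 (ab []) (bad 3) (ov 11
  3) (ab [])) (ab [])) (bad 3) (ov 11 3) (bad 3)) (br 5113 (br 2557 (ab []) (bad 3) (ov 11 3) (ab
  [])) (bad 3) (ov 11 3) (bad 3)) (bad 3)) (br 101 (bad 3) (br 2801 (bad 3) (br 37 (br 43 (ab [])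
  (bad 3) (br 4933 (ab []) (bad 3) (ov 11 3) (ab [])) (ab [])) (bad 3) (ov 11 3) (bad 3)) (br
  5113 (br 2557 (ab []) (bad 3) (ov 11 3) (ab [])) (bad 3) (ov 11 3) (bad 3)) (bad 3)) (br 31 (ab
  []) (bad 3) (ov 11 3) (ab [])) (bad 3)) (bad 3)) (ab [])) (ab [])) (br 151 (ab []) (bad 3) (br
  211 (ab []) (bad 3) (br 911 (ab []) (br 1361 (bad 3) (br 13 (br 2221 (ab []) (bad 3) (br 2801
  (ab []) (br 37 (ab []) (bad 3) (ov 11 3) (ab [])) (ov 5 5) (ab [])) (ab [])) (bad 3) (br 2221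
  (ov 11 3) (bad 3) (br 2801 (bad 3) (br 37 (br 43 (ab []) (bad 3) (br 4933 (ab []) (bad 3) (ov
  11 3) (ab [])) (ab [])) (bad 3) (ov 11 3) (bad 3)) (ov 5 5) (bad 3)) (bad 3)) (bad 3)) (br 2221
  (ov 11 3) (bad 3) (ov 5 5) (bad 3)) (bad 3)) (ov 11 3) (ab [])) (ab [])) (ab [])) (ab [])) (ab
  [])) (ab [])) (br 71 (ab []) (br 3221 (bad 3) (br 5113 (br 2557 (ab []) (bad 3) (br 12011 (ab
  []) (br 1459 (ab []) (bad 3) (br 31 (ab []) (bad 3) (br 17351 (ab []) (br 13 (ab []) (bad 3)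
  (br 1063 (ab []) (bad 3) (br 1291 (ab []) (bad 3) (ov 11 5) (ab [])) (ab [])) (ab [])) (br
  98887 (ab []) (bad 3) (br 10378063 (ab []) (bad 3) (ov 11 5) (ab [])) (ab [])) (ab [])) (ab
  [])) (ab [])) (br 9065531 (ab []) (br 67 (ab []) (bad 3) (br 761 (ab []) (br 26881 (ab []) (bad
  3) (br 31 (ab []) (bad 3) (br 17351 (ab []) (br 13 (ab []) (bad 3) (br 1063 (ab []) (bad 3) (br
  1291 (ab []) (bad 3) (ov 11 5) (ab [])) (ab [])) (ab [])) (ov 5 5) (ab [])) (ab [])) (ab []))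
  (br 26881 (ab []) (bad 3) (br 31 (ab []) (bad 3) (ov 5 5) (ab [])) (ab [])) (ab [])) (ab []))
  (br 1301 (ab []) (br 997 (ab []) (bad 3) (br 1699 (ab []) (bad 3) (br 41 (ab []) (br 1723 (ab
  []) (bad 3) (br 2141 (ab []) (br 13 (ab []) (bad 3) (br 6101 (ab []) (br 7 (ab []) (bad 3) (br
  31 (ab []) (bad 3) (br 2801 (ab []) (br 37 (ab []) (bad 3) (ov 11 5) (ab [])) (ov 5 5) (ab []))
  (ab [])) (ab [])) (br 30941 (ab []) (br 157 (ab []) (bad 3) (br 31 (ab []) (bad 3) (ov 11 5)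
  (ab [])) (ab [])) (ov 5 5) (ab [])) (ab [])) (ab [])) (br 31 (ab []) (bad 3) (ov 5 5) (ab []))
  (ab [])) (ab [])) (br 2141 (ab []) (br 13 (ab []) (bad 3) (br 30941 (ab []) (br 157 (ab [])
  (bad 3) (br 31 (ab []) (bad 3) (ov 11 5) (ab [])) (ab [])) (ov 5 5) (ab [])) (ab [])) (ov 5 5)
  (ab [])) (ab [])) (ab [])) (ab [])) (br 61 (ab []) (bad 3) (ov 5 5) (ab [])) (ab [])) (ab []))
  (ab [])) (ab [])) (bad 3) (br 4751 (ab []) (br 10378063 (ab []) (bad 3) (br 33151 (ab []) (bad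
  3) (br 22576753 (br 23 (ab []) (br 7 (ab []) (bad 3) (br 79 (ab []) (bad 3) (br 193 (ab [])
  (bad 3) (br 2543 (ab []) (br 43 (ab []) (bad 3) (br 2801 (ab []) (br 37 (ab []) (bad 3) (br 41
  (ab []) (br 1723 (ab []) (bad 3) (br 4271 (ab []) (br 199 (ab []) (bad 3) (br 277 (ab []) (bad
  3) (br 331 (ab []) (bad 3) (br 4933 (ab []) (bad 3) (ov 11 5) (ab [])) (ab [])) (ab [])) (ab
  [])) (ov 11 5) (ab [])) (ab [])) (br 4271 (ab []) (br 199 (ab []) (bad 3) (br 277 (ab []) (bad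
  3) (br 331 (ab []) (bad 3) (br 4933 (ab []) (bad 3) (ov 11 5) (ab [])) (ab [])) (ab [])) (ab
  [])) (ov 11 5) (ab [])) (ab [])) (ab [])) (br 21493 (ab []) (bad 3) (br 181 (ab []) (bad 3) (br
  153701 (ab []) (br 523 (ab []) (bad 3) (br 1789 (ab []) (bad 3) (br 61 (ab []) (bad 3) (ov 5 5)
  (ab [])) (ab [])) (ab [])) (ov 11 5) (ab [])) (ab [])) (ab [])) (ab [])) (ab [])) (br 2801 (ab
  []) (br 37 (ab []) (bad 3) (br 41 (ab []) (br 43 (ab []) (bad 3) (br 1723 (ab []) (bad 3) (br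
  4271 (ab []) (br 199 (ab []) (bad 3) (br 277 (ab []) (bad 3) (br 331 (ab []) (bad 3) (br 4933
  (ab []) (bad 3) (ov 11 5) (ab [])) (ab [])) (ab [])) (ab [])) (ov 11 5) (ab [])) (ab [])) (ab
  [])) (br 43 (ab []) (bad 3) (br 4271 (ab []) (br 199 (ab []) (bad 3) (br 277 (ab []) (bad 3)
  (br 331 (ab []) (bad 3) (br 4933 (ab []) (bad 3) (ov 11 5) (ab [])) (ab [])) (ab [])) (ab []))
  (ov 11 5) (ab [])) (ab [])) (ab [])) (ab [])) (br 14771 (ab []) (br 13 (ab []) (bad 3) (br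
  30941 (ab []) (br 157 (ab []) (bad 3) (br 31 (ab []) (bad 3) (ov 11 5) (ab [])) (ab [])) (br
  1956611 (ab []) (br 277 (ab []) (bad 3) (br 95479 (ab []) (bad 3) (br 211 (ab []) (bad 3) (ov 5
  5) (ab [])) (ab [])) (ab [])) (ov 5 5) (ab [])) (ab [])) (ab [])) (ov 11 5) (ab [])) (ab []))
  (ab [])) (ab [])) (ab [])) (ab [])) (br 193 (ab []) (bad 3) (br 2543 (ab []) (br 7 (ab []) (bad
  3) (br 43 (ab []) (bad 3) (br 2801 (ab []) (br 37 (ab []) (bad 3) (br 41 (ab []) (br 1723 (ab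
  []) (bad 3) (br 4271 (ab []) (br 199 (ab []) (bad 3) (br 277 (ab []) (bad 3) (br 331 (ab [])
  (bad 3) (br 4933 (ab []) (bad 3) (ov 11 5) (ab [])) (ab [])) (ab [])) (ab [])) (ov 11 5) (ab
  [])) (ab [])) (br 4271 (ab []) (br 199 (ab []) (bad 3) (br 277 (ab []) (bad 3) (br 331 (ab [])
  (bad 3) (br 4933 (ab []) (bad 3) (ov 11 5) (ab [])) (ab [])) (ab [])) (ab [])) (ov 11 5) (ab
  [])) (ab [])) (ab [])) (br 21493 (ab []) (bad 3) (br 181 (ab []) (bad 3) (br 153701 (ab []) (br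
  523 (ab []) (bad 3) (br 1789 (ab []) (bad 3) (br 61 (ab []) (bad 3) (ov 5 5) (ab [])) (ab []))
  (ab [])) (ov 11 5) (ab [])) (ab [])) (ab [])) (ab [])) (ab [])) (ab [])) (br 14771 (ab []) (br
  13 (ab []) (bad 3) (br 30941 (ab []) (br 157 (ab []) (bad 3) (br 31 (ab []) (bad 3) (ov 11 5)
  (ab [])) (ab [])) (br 292561 (ab []) (bad 3) (ov 11 5) (ab [])) (ab [])) (ab [])) (ov 11 5) (ab
  [])) (ab [])) (ab [])) (ab [])) (bad 3) (br 169691 (ab []) (br 7 (ab []) (bad 3) (br 127 (ab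
  []) (bad 3) (br 151 (ab []) (bad 3) (br 2801 (bad 3) (br 37 (br 19 (ab []) (bad 3) (br 43 (ab
  []) (bad 3) (br 911 (ab []) (br 4933 (ab []) (bad 3) (br 31 (ab []) (bad 3) (ov 11 5) (ab []))
  (ab [])) (br 701 (ab []) (br 4933 (ab []) (bad 3) (ov 11 5) (ab [])) (ov 5 5) (ab [])) (ab []))
  (ab [])) (ab [])) (bad 3) (br 41 (bad 3) (br 43 (ab []) (bad 3) (br 1723 (ab []) (bad 3) (br
  4271 (ab []) (br 199 (ab []) (bad 3) (br 277 (br 139 (ab []) (bad 3) (br 331 (ab []) (bad 3)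
  (br 4933 (ab []) (bad 3) (ov 11 5) (ab [])) (ab [])) (ab [])) (bad 3) (br 331 (ab []) (bad 3)
  (br 4933 (br 2467 (ab []) (bad 3) (ov 11 5) (ab [])) (bad 3) (ov 11 5) (bad 3)) (ab [])) (bad
  3)) (ab [])) (ov 11 5) (ab [])) (ab [])) (ab [])) (br 43 (ab []) (bad 3) (br 4271 (ab []) (br
  199 (ab []) (bad 3) (br 277 (br 139 (ab []) (bad 3) (br 331 (ab []) (bad 3) (ov 5 5) (ab []))
  (ab [])) (bad 3) (br 331 (ab []) (bad 3) (ov 5 5) (ab [])) (bad 3)) (ab [])) (ov 11 5) (ab []))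
  (ab [])) (bad 3)) (bad 3)) (br 214507 (ab []) (bad 3) (br 101 (bad 3) (br 2621 (bad 3) (br 103
  (ab []) (bad 3) (br 10303 (ab []) (bad 3) (br 30241 (br 15121 (ab []) (bad 3) (ov 5 5) (ab []))
  (bad 3) (ov 5 5) (bad 3)) (ab [])) (ab [])) (ov 5 5) (bad 3)) (ov 5 5) (bad 3)) (ab [])) (bad
  3)) (ab [])) (ab [])) (ab [])) (br 13080080081 (bad 3) (br 13 (br 7 (ab []) (bad 3) (br 619 (ab
  []) (bad 3) (ov 11 5) (ab [])) (ab [])) (bad 3) (br 619 (ab []) (bad 3) (ov 11 5) (ab [])) (bad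
  3)) (br 31 (ab []) (bad 3) (ov 11 5) (ab [])) (bad 3)) (ab [])) (bad 3)) (ab [])) (ab [])) (br
  31 (ab []) (bad 3) (br 17351 (ab []) (br 13 (br 7 (ab []) (bad 3) (br 1063 (ab []) (bad 3) (br
  1291 (ab []) (bad 3) (ov 11 5) (ab [])) (ab [])) (ab [])) (bad 3) (br 1063 (ab []) (bad 3) (br
  1291 (ab []) (bad 3) (ov 11 5) (ab [])) (ab [])) (bad 3)) (br 10378063 (ab []) (bad 3) (ov 11
  5) (ab [])) (ab [])) (ab [])) (ab [])) (bad 3)) (br 5113 (br 2557 (ab []) (bad 3) (br 12011 (ab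
  []) (br 1459 (ab []) (bad 3) (br 31 (ab []) (bad 3) (br 17351 (ab []) (br 13 (ab []) (bad 3)
  (br 1063 (ab []) (bad 3) (br 1291 (ab []) (bad 3) (ov 11 5) (ab [])) (ab [])) (ab [])) (ov 11
  5) (ab [])) (ab [])) (ab [])) (br 9065531 (ab []) (br 67 (ab []) (bad 3) (br 761 (ab []) (br
  26881 (ab []) (bad 3) (br 31 (ab []) (bad 3) (ov 5 5) (ab [])) (ab [])) (br 26881 (ab []) (bad
  3) (ov 5 5) (ab [])) (ab [])) (ab [])) (br 1301 (ab []) (br 997 (ab []) (bad 3) (br 1699 (ab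
  []) (bad 3) (br 41 (ab []) (br 1723 (ab []) (bad 3) (br 2141 (ab []) (br 13 (ab []) (bad 3) (br
  6101 (ab []) (br 7 (ab []) (bad 3) (br 31 (ab []) (bad 3) (ov 11 5) (ab [])) (ab [])) (ov 5 5)
  (ab [])) (ab [])) (ov 5 5) (ab [])) (ab [])) (ov 5 5) (ab [])) (ab [])) (ab [])) (ov 5 5) (ab
  [])) (ab [])) (ab [])) (ab [])) (bad 3) (br 4751 (ab []) (br 22576753 (br 23 (ab []) (br 7 (ab
  []) (bad 3) (br 79 (ab []) (bad 3) (br 193 (ab []) (bad 3) (br 2543 (ab []) (br 43 (ab []) (bad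
  3) (br 2801 (ab []) (br 37 (ab []) (bad 3) (br 41 (ab []) (br 1723 (ab []) (bad 3) (br 4271 (ab
  []) (br 199 (ab []) (bad 3) (br 277 (ab []) (bad 3) (br 331 (ab []) (bad 3) (br 4933 (ab [])
  (bad 3) (ov 11 5) (ab [])) (ab [])) (ab [])) (ab [])) (ov 11 5) (ab [])) (ab [])) (br 4271 (ab
  []) (br 199 (ab []) (bad 3) (br 277 (ab []) (bad 3) (br 331 (ab []) (bad 3) (br 4933 (ab [])
  (bad 3) (ov 11 5) (ab [])) (ab [])) (ab [])) (ab [])) (ov 11 5) (ab [])) (ab [])) (ab [])) (br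
  21493 (ab []) (bad 3) (br 181 (ab []) (bad 3) (br 153701 (ab []) (br 523 (ab []) (bad 3) (br
  1789 (ab []) (bad 3) (br 61 (ab []) (bad 3) (ov 5 5) (ab [])) (ab [])) (ab [])) (ov 11 5) (ab
  [])) (ab [])) (ab [])) (ab [])) (ab [])) (br 2801 (ab []) (br 37 (ab []) (bad 3) (br 41 (ab [])
  (br 43 (ab []) (bad 3) (br 1723 (ab []) (bad 3) (br 4271 (ab []) (br 199 (ab []) (bad 3) (br
  277 (ab []) (bad 3) (br 331 (ab []) (bad 3) (br 4933 (ab []) (bad 3) (ov 11 5) (ab [])) (ab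
  [])) (ab [])) (ab [])) (ov 11 5) (ab [])) (ab [])) (ab [])) (br 43 (ab []) (bad 3) (br 4271 (ab
  []) (br 199 (ab []) (bad 3) (br 277 (ab []) (bad 3) (br 331 (ab []) (bad 3) (br 4933 (ab [])
  (bad 3) (ov 11 5) (ab [])) (ab [])) (ab [])) (ab [])) (ov 11 5) (ab [])) (ab [])) (ab [])) (ab
  [])) (br 14771 (ab []) (br 13 (ab []) (bad 3) (br 30941 (ab []) (br 157 (ab []) (bad 3) (br 31
  (ab []) (bad 3) (ov 11 5) (ab [])) (ab [])) (br 1956611 (ab []) (br 277 (ab []) (bad 3) (br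
  95479 (ab []) (bad 3) (br 211 (ab []) (bad 3) (ov 5 5) (ab [])) (ab [])) (ab [])) (ov 5 5) (ab
  [])) (ab [])) (ab [])) (ov 11 5) (ab [])) (ab [])) (ab [])) (ab [])) (ab [])) (ab [])) (br 193
  (ab []) (bad 3) (br 2543 (ab []) (br 7 (ab []) (bad 3) (br 43 (ab []) (bad 3) (br 2801 (ab [])
  (br 37 (ab []) (bad 3) (br 41 (ab []) (br 1723 (ab []) (bad 3) (br 4271 (ab []) (br 199 (ab [])
  (bad 3) (br 277 (ab []) (bad 3) (br 331 (ab []) (bad 3) (br 4933 (ab []) (bad 3) (ov 11 5) (ab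
  [])) (ab [])) (ab [])) (ab [])) (ov 11 5) (ab [])) (ab [])) (br 4271 (ab []) (br 199 (ab [])
  (bad 3) (br 277 (ab []) (bad 3) (br 331 (ab []) (bad 3) (br 4933 (ab []) (bad 3) (ov 11 5) (ab
  [])) (ab [])) (ab [])) (ab [])) (ov 11 5) (ab [])) (ab [])) (ab [])) (br 21493 (ab []) (bad 3)
  (br 181 (ab []) (bad 3) (br 153701 (ab []) (br 523 (ab []) (bad 3) (br 1789 (ab []) (bad 3) (br
  61 (ab []) (bad 3) (ov 5 5) (ab [])) (ab [])) (ab [])) (ov 11 5) (ab [])) (ab [])) (ab [])) (ab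
  [])) (ab [])) (ab [])) (br 14771 (ab []) (br 13 (ab []) (bad 3) (br 30941 (ab []) (br 157 (ab
  []) (bad 3) (br 31 (ab []) (bad 3) (ov 11 5) (ab [])) (ab [])) (br 292561 (ab []) (bad 3) (ov
  11 5) (ab [])) (ab [])) (ab [])) (ov 11 5) (ab [])) (ab [])) (ab [])) (ab [])) (bad 3) (br
  169691 (ab []) (br 7 (ab []) (bad 3) (br 127 (ab []) (bad 3) (br 151 (ab []) (bad 3) (br 2801
  (bad 3) (br 37 (br 19 (ab []) (bad 3) (br 43 (ab []) (bad 3) (br 911 (ab []) (br 4933 (ab [])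
  (bad 3) (br 31 (ab []) (bad 3) (ov 11 5) (ab [])) (ab [])) (br 701 (ab []) (br 4933 (ab [])
  (bad 3) (ov 11 5) (ab [])) (ov 5 5) (ab [])) (ab [])) (ab [])) (ab [])) (bad 3) (br 41 (bad 3)
  (br 43 (ab []) (bad 3) (br 1723 (ab []) (bad 3) (br 4271 (ab []) (br 199 (ab []) (bad 3) (br
  277 (br 139 (ab []) (bad 3) (br 331 (ab []) (bad 3) (br 4933 (ab []) (bad 3) (ov 11 5) (ab []))
  (ab [])) (ab [])) (bad 3) (br 331 (ab []) (bad 3) (br 4933 (br 2467 (ab []) (bad 3) (ov 11 5)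
  (ab [])) (bad 3) (ov 11 5) (bad 3)) (ab [])) (bad 3)) (ab [])) (ov 11 5) (ab [])) (ab [])) (ab
  [])) (br 43 (ab []) (bad 3) (br 4271 (ab []) (br 199 (ab []) (bad 3) (br 277 (br 139 (ab [])
  (bad 3) (br 331 (ab []) (bad 3) (ov 5 5) (ab [])) (ab [])) (bad 3) (br 331 (ab []) (bad 3) (ov
  5 5) (ab [])) (bad 3)) (ab [])) (ov 11 5) (ab [])) (ab [])) (bad 3)) (bad 3)) (br 214507 (ab
  []) (bad 3) (br 101 (bad 3) (br 2621 (bad 3) (br 103 (ab []) (bad 3) (br 10303 (ab []) (bad 3)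
  (br 30241 (br 15121 (ab []) (bad 3) (ov 5 5) (ab [])) (bad 3) (ov 5 5) (bad 3)) (ab [])) (ab
  [])) (ov 5 5) (bad 3)) (ov 5 5) (bad 3)) (ab [])) (bad 3)) (ab [])) (ab [])) (ab [])) (br
  13080080081 (bad 3) (br 13 (br 7 (ab []) (bad 3) (br 619 (ab []) (bad 3) (ov 11 5) (ab [])) (ab
  [])) (bad 3) (br 619 (ab []) (bad 3) (ov 11 5) (ab [])) (bad 3)) (br 31 (ab []) (bad 3) (ov 11
  5) (ab [])) (bad 3)) (ab [])) (bad 3)) (br 31 (ab []) (bad 3) (br 17351 (ab []) (br 13 (br 7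
  (ab []) (bad 3) (br 1063 (ab []) (bad 3) (br 1291 (ab []) (bad 3) (ov 11 5) (ab [])) (ab []))
  (ab [])) (bad 3) (br 1063 (ab []) (bad 3) (br 1291 (ab []) (bad 3) (ov 11 5) (ab [])) (ab []))
  (bad 3)) (ov 11 5) (ab [])) (ab [])) (ab [])) (bad 3)) (bad 3)) (br 211 (ab []) (bad 3) (br
  1361 (bad 3) (br 13 (br 7 (ab []) (bad 3) (br 2221 (ab []) (bad 3) (br 2801 (ab []) (br 37 (ab
  []) (bad 3) (br 41 (ab []) (br 43 (ab []) (bad 3) (br 1723 (ab []) (bad 3) (br 3221 (ab []) (br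
  4271 (ab []) (br 199 (ab []) (bad 3) (br 277 (ab []) (bad 3) (br 331 (ab []) (bad 3) (ov 5 5)
  (ab [])) (ab [])) (ab [])) (ov 5 5) (ab [])) (ov 5 5) (ab [])) (ab [])) (ab [])) (ov 5 5) (ab
  [])) (ab [])) (ov 5 5) (ab [])) (ab [])) (ab [])) (bad 3) (br 2221 (br 101 (ab []) (br 3221 (ab
  []) (br 10303 (ab []) (bad 3) (br 30241 (ab []) (bad 3) (br 31 (ab []) (bad 3) (ov 5 5) (ab
  [])) (ab [])) (ab [])) (br 10303 (ab []) (bad 3) (br 30241 (ab []) (bad 3) (ov 5 5) (ab []))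
  (ab [])) (ab [])) (br 31 (ab []) (bad 3) (ov 5 5) (ab [])) (ab [])) (bad 3) (br 3221 (bad 3)
  (br 30941 (bad 3) (br 157 (br 79 (ab []) (bad 3) (br 433 (ab []) (bad 3) (br 1811 (ab []) (br
  14083 (ab []) (bad 3) (br 142591 (ab []) (bad 3) (ov 11 5) (ab [])) (ab [])) (ov 5 5) (ab []))
  (ab [])) (ab [])) (bad 3) (br 31 (ab []) (bad 3) (ov 5 5) (ab [])) (bad 3)) (ov 5 5) (bad 3))
  (ov 5 5) (bad 3)) (bad 3)) (bad 3)) (br 2221 (br 101 (ab []) (br 3221 (ab []) (br 10303 (ab [])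
  (bad 3) (br 11831 (ab []) (br 43 (ab []) (bad 3) (br 30241 (ab []) (bad 3) (ov 5 5) (ab []))
  (ab [])) (ov 5 5) (ab [])) (ab [])) (ov 5 5) (ab [])) (ov 5 5) (ab [])) (bad 3) (ov 5 5) (bad
  3)) (bad 3)) (ab [])) (ab [])) (ab [])

theorem t32_ok : run big15 [] t32 [(3, 2)] false = true := by
  decide +kernel

theorem t34_ok : run big15 [] t34 [(3, 4)] false = true := by
  decide +kernel

theorem t52_ok : run big15 [3] t52 [(5, 2)] false = true := by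
  decide +kernel

theorem t54_ok : run big15 [3] t54 [(5, 4)] false = true := by
  decide +kernel

/-- **an odd perfect number free of sixth powers is prime to `15`** -/
theorem coprime_fifteen {N : ℕ} (ho : Odd N) (hN : N.Perfect) (h6 : ∀ n : ℕ, n ^ 6 ∣ N → n = 1) :
    Nat.Coprime N 15 := by
  have hN0 : N ≠ 0 := hN.2.ne'
  have h3 : ¬ 3 ∣ N := by
    intro h
    obtain ⟨p, H⟩ := ctx ho hN h6 (bads := []) (by simp)
    exact root_false H big15_prime (Nat.mem_primeFactors.2 ⟨Nat.prime_three, h, hN0⟩)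
      (t1 := ab []) (t5 := ab []) t32_ok t34_ok (by norm_num) (by norm_num)
  have h5 : ¬ 5 ∣ N := by
    intro h
    obtain ⟨p, H⟩ := ctx ho hN h6 (bads := [3]) (by simpa using h3)
    refine root_false H big15_prime (Nat.mem_primeFactors.2 ⟨Nat.prime_five, h, hN0⟩)
      (t1 := bad 3) (t5 := bad 3) t52_ok t54_ok (fun _ => ?_) (fun _ => ?_)
    · decide +kernel
    · decide +kernel
  rw [show (15 : ℕ) = 3 * 5 by norm_num]
  exact Nat.Coprime.mul_right ((Nat.Prime.coprime_iff_not_dvd Nat.prime_three).2 h3).symm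
    ((Nat.Prime.coprime_iff_not_dvd Nat.prime_five).2 h5).symm

end Pool.Agent.TC.C15
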