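import Pool.Agent.Lib.MP_f02ea4_nt.BE.Defs

/-!
# TASK TC G: the least prime factor is bounded
`Thin` (BE/Defs.lean): for all odd perfect `N`, real `x ≥ 2`, `E ≥ 1`: at most
`C E 2 ^ E x / (log x) ^ 2` prime factors `q ≤ x` of `N` have `v_q ≤ E`.
Proof. Let `E = D + 1`, `C' = C E 2 ^ E`, `z ≥ 4` real and suppose all prime factors of `N` are
`≥ z`. Then `2 = σ(N) / N < ∏ q ∈ N.primeFactors, q / (q - 1) ≤ exp (2 ∑ 1 / q)`
(look for a ready inequality: in Pool/Agent/Lib/MP_f02ea4_nt, e.g. in the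
files HBArith, IdxOmega, RadB, TE: or prove `s N q * (q - 1) < q ^ (v_q + 1)` and multiply; only
`1/2 ≤ ∑ 1/(q-1)` or similar is needed). The sum over `q ≠ p`: all these have `v_q ≤ D ≤ E`, and in
the dyadic block `2 ^ i z ≤ q < 2 ^ (i+1) z` there are at most
`C' 2 ^ (i+1) z / (log (2 ^ (i+1) z)) ^ 2` of them, so the sum of `1 / q` over the block is at most
`2 C' / (log z + (i + 1) log 2) ^ 2`, and the sum over `i ≥ 0` (finitely many blocks contain prime
factors of `N`) is at most `2 C' / (log 2 * log z)` (telescoping: `1 / (a + (i+1) b) ^ 2 ≤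
(1 / (a + i b) - 1 / (a + (i + 1) b)) / b`). The prime `p` adds at most `1 / z`. For `z` large the
total is `< 1 / 4`: contradiction. So `M` can be any integer `≥ z`.
-/

set_option autoImplicit false

namespace Pool.Agent.TC

open Finset Nat Pool.Agent.BE

private theorem TCG_s_le {N q : ℕ} (hq : 2 ≤ q) :
    (s N q : ℝ) ≤ (q : ℝ) ^ N.factorization q * Real.exp (2 / q) := by
  have hq2 : (2 : ℝ) ≤ q := by exact_mod_cast hq
  have hq0 : (0 : ℝ) < q := by linarith
  have hq1 : (0 : ℝ) < (q : ℝ) - 1 := by linarith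
  have e : (s N q : ℝ) = ((q : ℝ) ^ (N.factorization q + 1) - 1) / ((q : ℝ) - 1) := by
    unfold s G
    push_cast
    exact geom_sum_eq (by linarith) _
  rw [e]
  have h1 : (1 : ℝ) + 1 / ((q : ℝ) - 1) ≤ Real.exp (2 / q) := by
    have h2 : 1 / ((q : ℝ) - 1) ≤ 2 / q := by
      rw [div_le_div_iff₀ hq1 hq0]
      linarith
    have h3 := Real.add_one_le_exp (2 / (q : ℝ))
    linarith
  have h4 : ((q : ℝ) ^ (N.factorization q + 1) - 1) / ((q : ℝ) - 1) ≤
      (q : ℝ) ^ N.factorization q * (1 + 1 / ((q : ℝ) - 1)) := by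
    rw [div_le_iff₀ hq1]
    have e2 : (q : ℝ) ^ N.factorization q * (1 + 1 / ((q : ℝ) - 1)) * ((q : ℝ) - 1) =
        (q : ℝ) ^ (N.factorization q + 1) := by
      rw [pow_succ]
      field_simp
      ring
    rw [e2]
    linarith
  exact h4.trans (mul_le_mul_of_nonneg_left h1 (by positivity))

private theorem TCG_log {N : ℕ} (ho : Odd N) (hN : N.Perfect) :
    Real.log 2 ≤ ∑ q ∈ N.primeFactors, 2 / (q : ℝ) := by
  have hN0 : N ≠ 0 := hN.2.ne'
  have hNr : (0 : ℝ) < N := by exact_mod_cast hN.2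
  have h1 : ∏ q ∈ N.primeFactors, (s N q : ℝ) = 2 * N := by
    have := prod_s hN
    exact_mod_cast this
  have h2 : ∏ q ∈ N.primeFactors, (s N q : ℝ) ≤
      ∏ q ∈ N.primeFactors, ((q : ℝ) ^ N.factorization q * Real.exp (2 / q)) := by
    apply Finset.prod_le_prod
    · intro q _
      exact Nat.cast_nonneg _
    · intro q hq
      exact TCG_s_le (Nat.prime_of_mem_primeFactors hq).two_le
  rw [h1, Finset.prod_mul_distrib, ← Real.exp_sum] at h2
  have h3 : ∏ q ∈ N.primeFactors, (q : ℝ) ^ N.factorization q = N := by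
    have h4 := Nat.factorization_prod_pow_eq_self hN0
    rw [Finsupp.prod, Nat.support_factorization] at h4
    exact_mod_cast congrArg (fun n : ℕ => (n : ℝ)) h4
  rw [h3] at h2
  have h5 : 2 ≤ Real.exp (∑ q ∈ N.primeFactors, 2 / (q : ℝ)) := by
    rw [mul_comm] at h2
    exact le_of_mul_le_mul_left h2 hNr
  have h6 := Real.log_le_log (by norm_num) h5
  rwa [Real.log_exp] at h6

private theorem TCG_tel {a b : ℝ} (ha : 0 < a) (hb : 0 < b) (L : ℕ) :
    ∑ i ∈ range L, 1 / (a + (i + 1) * b) ^ 2 ≤ (1 / a - 1 / (a + L * b)) / b := by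
  induction L with
  | zero => simp
  | succ L ih =>
    rw [Finset.sum_range_succ]
    have hx : 0 < a + L * b := by positivity
    have hy : 0 < a + (L + 1) * b := by positivity
    have h1 : 1 / (a + (L + 1) * b) ^ 2 ≤ (1 / (a + L * b) - 1 / (a + (L + 1) * b)) / b := by
      have e : (1 / (a + L * b) - 1 / (a + (L + 1) * b)) / b = 1 / ((a + L * b) * (a + (L + 1) * b)) := by
        field_simp
        ring
      rw [e, sq]
      apply one_div_le_one_div_of_le (by positivity)
      apply mul_le_mul_of_nonneg_right _ hy.le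
      nlinarith
    have e2 : (1 / a - 1 / (a + ((L + 1 : ℕ) : ℝ) * b)) / b =
        (1 / a - 1 / (a + L * b)) / b + (1 / (a + L * b) - 1 / (a + (L + 1) * b)) / b := by
      push_cast
      ring
    rw [e2]
    exact add_le_add ih h1

theorem least_le (hT : Thin) (D : ℕ) : ∃ M : ℕ, ∀ N p : ℕ, Odd N → N.Perfect →
    (∀ q ∈ N.primeFactors, q ≠ p → N.factorization q ≤ D) → N.minFac ≤ M := by
  obtain ⟨C, hC, hT⟩ := hT
  set C' : ℝ := C * ((D + 1 : ℕ) : ℝ) * (2 : ℝ) ^ (D + 1) with hC'
  have hC'0 : 0 < C' := by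
    rw [hC']
    positivity
  have hl2 : 0 < Real.log 2 := Real.log_pos (by norm_num)
  obtain ⟨M0, hM0⟩ := exists_nat_ge (Real.exp (16 * C' / Real.log 2))
  set M : ℕ := M0 + 8 with hM
  refine ⟨M, ?_⟩
  intro N p ho hN hD
  by_contra hlt
  push Not at hlt
  have hM8 : (8 : ℝ) ≤ M := by
    rw [hM]
    push_cast
    linarith [(Nat.cast_nonneg M0 : (0 : ℝ) ≤ M0)]
  have hMr : (0 : ℝ) < M := by linarith
  have hMpos : 0 < M := by omega
  have hlogM : 16 * C' / Real.log 2 ≤ Real.log M := by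
    rw [Real.le_log_iff_exp_le hMr]
    refine hM0.trans ?_
    rw [hM]
    push_cast
    linarith
  have ha : 0 < Real.log M := lt_of_lt_of_le (by positivity) hlogM
  have hq : ∀ q ∈ N.primeFactors, M < q := by
    intro q hq
    exact lt_of_lt_of_le hlt (Nat.minFac_le_of_dvd (Nat.prime_of_mem_primeFactors hq).two_le
      (Nat.dvd_of_mem_primeFactors hq))
  -- the blocks
  set S : Finset ℕ := N.primeFactors.filter (fun q => q ≠ p) with hS
  set g : ℕ → ℕ := fun q => Nat.log 2 (q / M) with hg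
  obtain ⟨L, hL⟩ : ∃ L, ∀ q ∈ S, g q < L := by
    refine ⟨(S.sup g) + 1, fun q hq => Nat.lt_succ_of_le (Finset.le_sup (f := g) hq)⟩
  have hblock : ∀ i, ∀ q ∈ S, g q = i → 2 ^ i * M ≤ q ∧ q < 2 ^ (i + 1) * M := by
    intro i q hqS hgi
    have hqM : M < q := hq q (Finset.mem_filter.1 hqS).1
    have h0 : q / M ≠ 0 := (Nat.div_pos hqM.le hMpos).ne'
    have h1 : 2 ^ i ≤ q / M := by
      rw [← hgi]
      exact Nat.pow_log_le_self 2 h0
    have h2 : q / M < 2 ^ (i + 1) := by
      rw [← hgi]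
      exact Nat.lt_pow_succ_log_self (by norm_num) _
    exact ⟨(Nat.le_div_iff_mul_le hMpos).1 h1, (Nat.div_lt_iff_lt_mul hMpos).1 h2⟩
  have hsumS : ∑ q ∈ S, 1 / (q : ℝ) ≤ ∑ i ∈ range L, 2 * C' * (1 / (Real.log M + (i + 1) * Real.log 2) ^ 2) := by
    rw [← Finset.sum_fiberwise_of_maps_to (g := g) (t := range L) (fun q hq => Finset.mem_range.2 (hL q hq))]
    apply Finset.sum_le_sum
    intro i _
    have hpos : (0 : ℝ) < 2 ^ i * M := by positivity
    have h1 : ∑ q ∈ S.filter (fun q => g q = i), 1 / (q : ℝ) ≤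
        ((S.filter (fun q => g q = i)).card : ℝ) * (1 / (2 ^ i * M)) := by
      rw [← nsmul_eq_mul]
      apply Finset.sum_le_card_nsmul
      intro q hq
      have hqi := hblock i q (Finset.mem_filter.1 hq).1 (Finset.mem_filter.1 hq).2
      apply one_div_le_one_div_of_le hpos
      exact_mod_cast hqi.1
    have h2 : ((S.filter (fun q => g q = i)).card : ℝ) ≤
        C' * (2 ^ (i + 1) * M) / (Real.log (2 ^ (i + 1) * M)) ^ 2 := by
      have h3 := hT N ho hN (2 ^ (i + 1) * M) (by
        have : (1 : ℝ) ≤ 2 ^ (i + 1) := one_le_pow₀ (by norm_num)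
        nlinarith) (D + 1) (by omega)
      refine le_trans ?_ h3
      have h4 : S.filter (fun q => g q = i) ⊆ N.primeFactors.filter
          (fun p : ℕ => (p : ℝ) ≤ 2 ^ (i + 1) * M ∧ N.factorization p ≤ D + 1) := by
        intro q hq
        obtain ⟨h5, h6⟩ := Finset.mem_filter.1 hq
        obtain ⟨h7, h8⟩ := Finset.mem_filter.1 h5
        rw [Finset.mem_filter]
        refine ⟨h7, ?_, ?_⟩
        · have h9 := (hblock i q h5 h6).2.le
          exact_mod_cast h9
        · exact (hD q h7 h8).trans (Nat.le_succ D)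
      exact_mod_cast Finset.card_le_card h4
    have hlog : Real.log (2 ^ (i + 1) * M) = Real.log M + (i + 1) * Real.log 2 := by
      rw [Real.log_mul (by positivity) hMr.ne', Real.log_pow]
      push_cast
      ring
    have hlpos : 0 < Real.log M + ((i : ℝ) + 1) * Real.log 2 := by positivity
    calc ∑ q ∈ S.filter (fun q => g q = i), 1 / (q : ℝ)
        ≤ ((S.filter (fun q => g q = i)).card : ℝ) * (1 / (2 ^ i * M)) := h1
      _ ≤ (C' * (2 ^ (i + 1) * M) / (Real.log (2 ^ (i + 1) * M)) ^ 2) * (1 / (2 ^ i * M)) :=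
          mul_le_mul_of_nonneg_right h2 (by positivity)
      _ = 2 * C' * (1 / (Real.log M + (i + 1) * Real.log 2) ^ 2) := by
          rw [hlog, pow_succ]
          field_simp
  have hS8 : ∑ q ∈ S, 1 / (q : ℝ) ≤ 1 / 8 := by
    refine hsumS.trans ?_
    rw [← Finset.mul_sum]
    have h1 := TCG_tel ha hl2 L
    have h2 : (1 / Real.log M - 1 / (Real.log M + L * Real.log 2)) / Real.log 2 ≤
        (1 / Real.log M) / Real.log 2 := by
      apply div_le_div_of_nonneg_right _ hl2.le
      have : 0 ≤ 1 / (Real.log M + L * Real.log 2) := by positivity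
      linarith
    have h3 : 2 * C' * ((1 / Real.log M) / Real.log 2) ≤ 1 / 8 := by
      have e : 2 * C' * ((1 / Real.log M) / Real.log 2) = (2 * C' / Real.log 2) / Real.log M := by
        field_simp
      rw [e, div_le_iff₀ ha]
      have h4 : 2 * C' / Real.log 2 = 1 / 8 * (16 * C' / Real.log 2) := by ring
      rw [h4]
      exact mul_le_mul_of_nonneg_left hlogM (by norm_num)
    exact (mul_le_mul_of_nonneg_left (h1.trans h2) (by positivity)).trans h3
  -- the prime `p`
  have hall : ∑ q ∈ N.primeFactors, 1 / (q : ℝ) ≤ 1 / 4 := by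
    have h1 : ∑ q ∈ N.primeFactors, 1 / (q : ℝ) =
        ∑ q ∈ S, 1 / (q : ℝ) + ∑ q ∈ N.primeFactors.filter (fun q => ¬ q ≠ p), 1 / (q : ℝ) :=
      (Finset.sum_filter_add_sum_filter_not _ _ _).symm
    have h2 : ∑ q ∈ N.primeFactors.filter (fun q => ¬ q ≠ p), 1 / (q : ℝ) ≤ 1 / 8 := by
      have h3 : N.primeFactors.filter (fun q => ¬ q ≠ p) ⊆ {p} := by
        intro q hq
        rw [Finset.mem_singleton]
        exact not_not.1 (Finset.mem_filter.1 hq).2
      rcases Finset.subset_singleton_iff.1 h3 with h4 | h4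
      · rw [h4]
        norm_num
      · rw [h4, Finset.sum_singleton]
        have h5 : p ∈ N.primeFactors := by
          have h6 : p ∈ N.primeFactors.filter (fun q => ¬ q ≠ p) := by
            rw [h4]
            exact Finset.mem_singleton_self p
          exact (Finset.mem_filter.1 h6).1
        have h7 := hq p h5
        apply one_div_le_one_div_of_le (by norm_num)
        have h8 : (M : ℝ) ≤ p := by exact_mod_cast h7.le
        linarith
    rw [h1]
    linarith
  have hlog := TCG_log ho hN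
  have e : ∑ q ∈ N.primeFactors, 2 / (q : ℝ) = 2 * ∑ q ∈ N.primeFactors, 1 / (q : ℝ) := by
    rw [Finset.mul_sum]
    apply Finset.sum_congr rfl
    intro q _
    ring
  rw [e] at hlog
  have := Real.log_two_gt_d9
  linarith

end Pool.Agent.TC
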