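import Pool.Agent.Lib.MP_f02ea4_nt.TC.Tour
import Pool.Agent.Lib.MP_f02ea4_nt.TC.Least

/-!
# The Euler primes are thin
-/

set_option autoImplicit false

namespace Pool.Agent.TC

open Finset Nat Pool.Agent.BE

theorem one_le_ratio {y : ℝ} (hy : 2 ≤ y) : 1 ≤ 4 * (y / (Real.log y) ^ 2) := by
  have hlog : 0 < Real.log y := Real.log_pos (by linarith)
  have hs : 0 < Real.sqrt y := Real.sqrt_pos.2 (by linarith)
  have h1 : Real.log y ≤ 2 * Real.sqrt y := by
    have h2 : Real.log y = 2 * Real.log (Real.sqrt y) := by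
      rw [Real.log_sqrt (by linarith)]
      ring
    have h3 := Real.log_le_sub_one_of_pos hs
    rw [h2]
    linarith
  have h4 : (Real.log y) ^ 2 ≤ 4 * y := by
    calc (Real.log y) ^ 2 ≤ (2 * Real.sqrt y) ^ 2 := by gcongr
      _ = 4 * (Real.sqrt y) ^ 2 := by ring
      _ = 4 * y := by rw [Real.sq_sqrt (by linarith)]
  rw [← mul_div_assoc, le_div_iff₀ (by positivity)]
  linarith

/-- a common least prime factor with the same exponent -/
theorem CC_minFac {N N' : ℕ} (ho : Odd N) (hN : N.Perfect) (ho' : Odd N') (hN' : N'.Perfect)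
    (h1 : N.minFac = N'.minFac)
    (h2 : N.factorization N.minFac = N'.factorization N'.minFac) : (CC N N').Nonempty := by
  have key : ∀ {L : ℕ}, Odd L → L.Perfect → L.minFac ∈ L.primeFactors := by
    intro L hLo hL
    obtain ⟨q, hq, -⟩ := exists_odd hLo hL
    have h3 : L ≠ 1 := by rintro rfl; simp at hq
    exact Nat.mem_primeFactors.2 ⟨Nat.minFac_prime h3, Nat.minFac_dvd L, hL.2.ne'⟩
  refine ⟨N.minFac, mem_filter.2 ⟨key ho hN, h1 ▸ key ho' hN', ?_⟩⟩
  rw [h2, h1]

theorem euler_thin (hT : Thin) {E : Finset ℕ} (hE : P1 (E : Set ℕ)) (hEe : ∀ a ∈ E, Even a)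
    (B : ℕ) : ∃ C : ℝ, 0 < C ∧ ∀ y : ℝ, 2 ≤ y →
      {N : ℕ | Odd N ∧ N.Perfect ∧ (∀ a ∈ E, Nat.Coprime N (a + 1)) ∧ ∃ p : ℕ, (p : ℝ) ≤ y ∧
        N.factorization p ≤ B ∧
        ∀ q ∈ N.primeFactors, q ≠ p → N.factorization q ∈ E}.Finite ∧
      ({N : ℕ | Odd N ∧ N.Perfect ∧ (∀ a ∈ E, Nat.Coprime N (a + 1)) ∧ ∃ p : ℕ, (p : ℝ) ≤ y ∧
        N.factorization p ≤ B ∧
        ∀ q ∈ N.primeFactors, q ≠ p → N.factorization q ∈ E}.ncard : ℝ) ≤
        C * (y / (Real.log y) ^ 2) := by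
  classical
  obtain ⟨M, hM⟩ := least_le hT (E.sup id)
  obtain ⟨C₁, hC₁, hthin⟩ := hT
  set D : ℕ := max B (E.sup id) + 1 with hD
  set C' : ℝ := C₁ * D * (2 : ℝ) ^ D with hC'
  have hC'0 : 0 < C' := by positivity
  set Q : Finset (ℕ × ℕ × ℕ) := range (M + 1) ×ˢ range (D + 1) ×ˢ range (B + 1) with hQ
  have hQpos : 0 < Q.card := by
    rw [card_pos]
    exact ⟨(0, 0, 0), by simp [hQ]⟩
  refine ⟨Q.card * (2 * C' + 4), by positivity, fun y hy => ?_⟩
  set T : Set ℕ := {N : ℕ | Odd N ∧ N.Perfect ∧ (∀ a ∈ E, Nat.Coprime N (a + 1)) ∧ ∃ p : ℕ,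
        (p : ℝ) ≤ y ∧ N.factorization p ≤ B ∧
        ∀ q ∈ N.primeFactors, q ≠ p → N.factorization q ∈ E} with hTdef
  set W : ℕ := ⌊C' * (y / (Real.log y) ^ 2)⌋₊ with hW
  have hlog : 0 < Real.log y := Real.log_pos (by linarith)
  have hrat : 0 < y / (Real.log y) ^ 2 := by positivity
  have key : ∀ G : Finset ℕ, (G : Set ℕ) ⊆ T → G.card ≤ Q.card * (2 * W + 1) := by
    intro G hG
    have hf : ∀ N : ℕ, ∃ p : ℕ, N ∈ G → ClsS (E : Set ℕ) N p ∧ (p : ℝ) ≤ y ∧
        N.factorization p ≤ B := by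
      intro N
      by_cases hN : N ∈ G
      · obtain ⟨a, b, c, p, d, e, g⟩ := hG (mem_coe.2 hN)
        exact ⟨p, fun _ => ⟨⟨a, b, g, c⟩, d, e⟩⟩
      · exact ⟨0, fun h => absurd h hN⟩
    choose f hf using hf
    have hexp : ∀ N ∈ G, ∀ q ∈ N.primeFactors, N.factorization q ≤ D := by
      intro N hN q hq
      obtain ⟨h1, -, h3⟩ := hf N hN
      by_cases hqp : q = f N
      · rw [hqp, hD]
        exact h3.trans ((le_max_left _ _).trans (Nat.le_succ _))
      · exact (le_sup (f := id) (h1.mem q hq hqp)).trans ((le_max_right _ _).trans (Nat.le_succ _))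
    have hmf : ∀ N ∈ G, N.minFac ∈ N.primeFactors := by
      intro N hN
      obtain ⟨h1, -, -⟩ := hf N hN
      obtain ⟨q, hq, -⟩ := exists_odd h1.odd h1.perf
      have h3 : N ≠ 1 := by rintro rfl; simp at hq
      exact Nat.mem_primeFactors.2 ⟨Nat.minFac_prime h3, Nat.minFac_dvd N, h1.perf.2.ne'⟩
    refine card_le_colours (κ := fun N => (N.minFac, N.factorization N.minFac,
      N.factorization (f N))) (fun N hN => ?_) fun c hc => ?_
    · obtain ⟨h1, -, h3⟩ := hf N hN
      simp only [hQ, mem_product, mem_range]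
      refine ⟨Nat.lt_succ_of_le (hM N (f N) h1.odd h1.perf fun q hq hqp =>
        le_sup (f := id) (h1.mem q hq hqp)), Nat.lt_succ_of_le (hexp N hN _ (hmf N hN)),
        Nat.lt_succ_of_le h3⟩
    · refine group_card hE hEe (f := f) (fun N hN => (hf N (mem_filter.1 hN).1).1)
        (fun N hN N' hN' => ?_) (fun N hN N' hN' => ?_) fun N' hN' => ?_
      · have h1 := mem_filter.1 hN
        have h2 := mem_filter.1 hN'
        have h3 := h1.2.trans h2.2.symm
        simp only [Prod.mk.injEq] at h3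
        exact CC_minFac (hf N h1.1).1.odd (hf N h1.1).1.perf (hf N' h2.1).1.odd
          (hf N' h2.1).1.perf h3.1 h3.2.1
      · have h1 := mem_filter.1 hN
        have h2 := mem_filter.1 hN'
        have h3 := h1.2.trans h2.2.symm
        simp only [Prod.mk.injEq] at h3
        exact h3.2.2
      · have h2 := mem_filter.1 hN'
        have h4 := (hf N' h2.1).1
        rw [hW]
        apply Nat.le_floor
        have h5 := hthin N' h4.odd h4.perf y hy D (by omega)
        have h6 : C₁ * D * (2 : ℝ) ^ D * y / (Real.log y) ^ 2 =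
            C' * (y / (Real.log y) ^ 2) := by
          rw [hC']
          ring
        rw [h6] at h5
        refine le_trans ?_ h5
        have h7 : N'.primeFactors.filter (fun q => q ∈
            (G.filter (fun N => (N.minFac, N.factorization N.minFac,
              N.factorization (f N)) = c)).image f) ⊆ N'.primeFactors.filter
            (fun p : ℕ => (p : ℝ) ≤ y ∧ N'.factorization p ≤ D) := by
          intro q hq
          obtain ⟨h8, h9⟩ := mem_filter.1 hq
          obtain ⟨N, hN, rfl⟩ := mem_image.1 h9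
          exact mem_filter.2 ⟨h8, (hf N (mem_filter.1 hN).1).2.1, hexp N' h2.1 _ h8⟩
        exact_mod_cast card_le_card h7
  obtain ⟨hfin, hcard⟩ := finite_of_bound key
  refine ⟨hfin, ?_⟩
  have hW2 : (W : ℝ) ≤ C' * (y / (Real.log y) ^ 2) := Nat.floor_le (by positivity)
  have h1 := one_le_ratio hy
  calc (T.ncard : ℝ) ≤ Q.card * (2 * W + 1) := by exact_mod_cast hcard
    _ ≤ Q.card * (2 * (C' * (y / (Real.log y) ^ 2)) + 4 * (y / (Real.log y) ^ 2)) := by gcongr
    _ = Q.card * (2 * C' + 4) * (y / (Real.log y) ^ 2) := by ring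

end Pool.Agent.TC
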