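import Pool.Agent.Lib.MP_f02ea4_nt.TC.Gen
import Pool.Agent.Lib.MP_f02ea4_nt.TC.EulThin

/-!
# Finitely many chains
-/

set_option autoImplicit false

namespace Pool.Agent.TC

open Finset Nat Pool.Agent.BE

theorem special_mem' {E : Set ℕ} (hEe : ∀ a ∈ E, Even a) {N p : ℕ} (hC : ClsS E N p) :
    p ∈ N.primeFactors ∧ Odd (N.factorization p) := by
  obtain ⟨q, hq, hqo⟩ := exists_odd hC.odd hC.perf
  by_cases hqp : q = p
  · exact hqp ▸ ⟨hq, hqo⟩
  · exact absurd (hEe _ (hC.mem q hq hqp)) (Nat.not_even_iff_odd.2 hqo)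

theorem special_unique {E : Set ℕ} (hEe : ∀ a ∈ E, Even a) {N p p' : ℕ} (hC : ClsS E N p)
    (hC' : ClsS E N p') : p = p' := by
  by_contra h
  obtain ⟨h1, h2⟩ := special_mem' hEe hC
  exact (Nat.not_even_iff_odd.2 h2) (hEe _ (hC'.mem p h1 h))

theorem nm_of_ne {E : Set ℕ} (hEe : ∀ a ∈ E, Even a) {N p q : ℕ} (hC : ClsS E N p)
    (hq : q ∈ N.primeFactors) (hqp : q ≠ p) : Nm E N q :=
  ⟨hC.mem q hq hqp, normalS hEe hC.perf hC.cop hq (hC.mem q hq hqp)⟩

theorem minFac_mem {N : ℕ} (ho : Odd N) (hN : N.Perfect) : N.minFac ∈ N.primeFactors := by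
  obtain ⟨q, hq, -⟩ := exists_odd ho hN
  have h3 : N ≠ 1 := by rintro rfl; simp at hq
  exact Nat.mem_primeFactors.2 ⟨Nat.minFac_prime h3, Nat.minFac_dvd N, hN.2.ne'⟩

/-- the start of the exploration -/
def St0 (N : ℕ) : ℕ := N.minFac ^ N.factorization N.minFac

theorem st0_eq (N : ℕ) : St0 N = U N {N.minFac} := by
  unfold St0 U
  rw [prod_singleton]

/-- the exploration follows `N` until the special prime is met -/
theorem follow {E : Set ℕ} (hE : P1 E) (hEe : ∀ a ∈ E, Even a) {N p : ℕ} (hC : ClsS E N p)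
    (hp : N.minFac ≠ p) : ∀ i : ℕ, (∀ m < i, nf E (ex E (St0 N) m) ≠ p) →
      ∃ S : Finset ℕ, S ⊆ N.primeFactors ∧ p ∉ S ∧ ex E (St0 N) i = U N S := by
  intro i
  induction i with
  | zero =>
    intro _
    exact ⟨{N.minFac}, singleton_subset_iff.2 (minFac_mem hC.odd hC.perf),
      fun h => hp (mem_singleton.1 h).symm, st0_eq N⟩
  | succ i ih =>
    intro hm
    obtain ⟨S, hS, hpS, hU⟩ := ih fun m hm' => hm m (by omega)
    have hne := hm i (Nat.lt_succ_self i)
    have hstep : ex E (St0 N) (i + 1) = ex E (St0 N) i *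
      nf E (ex E (St0 N) i) ^ fx E (nf E (ex E (St0 N) i)) := rfl
    rw [hU] at hne hstep
    rcases nf_cases (E := E) hC.perf hS with h | ⟨h1, h2, h3⟩
    · exact ⟨S, hS, hpS, by rw [hstep, h, one_pow, mul_one]⟩
    · refine ⟨insert (nf E (U N S)) S, insert_subset h1 hS, ?_, ?_⟩
      · intro h
        exact (mem_insert.1 h).elim (fun h => hne h.symm) hpS
      · rw [hstep, U_insert h2, fx_eq hE (nm_of_ne hEe hC h1 hne) h3]

/-- the special prime is met -/
theorem meets {E : Set ℕ} (hE : P1 E) (hEe : ∀ a ∈ E, Even a) {N p : ℕ} (hC : ClsS E N p)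
    (hp : N.minFac ≠ p) : ∃ i, nf E (ex E (St0 N) i) = p := by
  have hmf := minFac_mem hC.odd hC.perf
  obtain ⟨hpm, hpo⟩ := special_mem' hEe hC
  have hpn : ¬ Nm E N p := fun h => (Nat.not_even_iff_odd.2 hpo) (hEe _ h.1)
  rcases explore hE hC.perf _ {N.minFac} (singleton_subset_iff.2 hmf) rfl with
    ⟨i, -, S', a1, a2, a3, a4, a5, a6⟩ | ⟨S', a1, a2, a3, a4, a5⟩
  · refine ⟨i, ?_⟩
    rw [st0_eq, a3]
    by_contra h
    exact a6 (nm_of_ne hEe hC a4 h)
  · exfalso
    have hpS : p ∉ S' := by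
      intro h
      exact hpn (a3 p h fun h1 => hp (mem_singleton.1 h1).symm)
    have hne : S' ≠ N.primeFactors := fun h => hpS (h ▸ hpm)
    have hS'n : S'.Nonempty := ⟨_, a1 (mem_singleton_self _)⟩
    have h1 := nxt_ne_one hC.odd hC.perf a2 hS'n hne
    obtain ⟨t1, t2, t3⟩ := (nxt_cases hC.odd hC.perf a2).resolve_left h1
    set t := nxt (U N S') with ht
    have htp := Nat.prime_of_mem_primeFactors t1
    have hnd : ¬ t ∣ 2 * U N S' := by
      intro h
      rcases (Nat.Prime.dvd_mul htp).1 h with h | h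
      · have h2 := two_lt hC.odd t1
        have h3 := (Nat.prime_dvd_prime_iff_eq htp Nat.prime_two).1 h
        omega
      · exact t2 ((prime_dvd_U a2 htp).1 h)
    refine nf_one a5 htp t3 hnd ?_
    rw [sigma_U a2] at t3
    obtain ⟨q, hqS, hqd⟩ := (Prime.dvd_finsetProd_iff htp.prime _).1 t3
    have hqp : q ≠ p := fun h => hpS (h ▸ hqS)
    refine ⟨_, (nm_of_ne hEe hC (a2 hqS) hqp).1, ?_⟩
    rcases head_order (Nat.succ_pos _) htp hqd with h | ⟨l, hl, h2, h3⟩
    · exact Or.inl h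
    · exact Or.inr ⟨l, hl, h2, h3⟩

/-- the step in which the special prime is met -/
noncomputable def tau (E : Set ℕ) (N : ℕ) : ℕ :=
  sInf {i | ∃ p, ClsS E N p ∧ nf E (ex E (St0 N) i) = p}

theorem dvd_of_tau {E : Set ℕ} (hE : P1 E) (hEe : ∀ a ∈ E, Even a) {N N' p p' : ℕ}
    (hC : ClsS E N p) (hC' : ClsS E N' p') (hp : N.minFac ≠ p) (hp' : N'.minFac ≠ p')
    (h0 : St0 N = St0 N') (ht : tau E N ≤ tau E N') : p ∣ N' := by
  have hne : {i | ∃ p, ClsS E N p ∧ nf E (ex E (St0 N) i) = p}.Nonempty := by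
    obtain ⟨i, hi⟩ := meets hE hEe hC hp
    exact ⟨i, p, hC, hi⟩
  obtain ⟨r, hCr, hr⟩ := Nat.sInf_mem hne
  have hrp : r = p := special_unique hEe hCr hC
  change nf E (ex E (St0 N) (tau E N)) = r at hr
  rw [hrp, h0] at hr
  obtain ⟨S, hS, -, hU⟩ := follow hE hEe hC' hp' (tau E N) fun m hm h => by
    have hlt : m < tau E N' := lt_of_lt_of_le hm ht
    exact Nat.notMem_of_lt_sInf hlt ⟨p', hC', h⟩
  rw [hU] at hr
  rcases nf_cases (E := E) hC'.perf hS with h | ⟨h1, -, -⟩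
  · exfalso
    have h2 := (Nat.prime_of_mem_primeFactors (special_mem' hEe hC).1).one_lt.ne'
    rw [← hr, h] at h2
    exact h2 rfl
  · rw [hr] at h1
    exact Nat.dvd_of_mem_primeFactors h1

/-- the numbers of the class form finitely many chains -/
theorem chains (hT : Thin) {E : Finset ℕ} (hE : P1 (E : Set ℕ)) (hEe : ∀ a ∈ E, Even a) :
    ∃ (C : ℕ) (κ : ℕ → Fin C) (τ : ℕ → ℕ), ∀ N N' p p' : ℕ, ClsS (E : Set ℕ) N p →
      ClsS (E : Set ℕ) N' p' → κ N = κ N' → τ N ≤ τ N' → p ∣ N' := by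
  classical
  obtain ⟨M, hM⟩ := least_le hT (E.sup id)
  let κ' : ℕ → Fin (M + 1) × Option E := fun N =>
    (Fin.ofNat (M + 1) N.minFac, if h : N.factorization N.minFac ∈ E then some ⟨_, h⟩ else none)
  let e := Fintype.equivFin (Fin (M + 1) × Option E)
  refine ⟨Fintype.card (Fin (M + 1) × Option E), fun N => e (κ' N), tau (E : Set ℕ),
    fun N N' p p' hC hC' h ht => ?_⟩
  have h1 : κ' N = κ' N' := e.injective h
  simp only [κ', Prod.mk.injEq] at h1
  obtain ⟨h2, h3⟩ := h1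
  have hm : ∀ {L r : ℕ}, ClsS (E : Set ℕ) L r → L.minFac < M + 1 := fun {L r} hL =>
    Nat.lt_succ_of_le (hM L r hL.odd hL.perf fun q hq hqr => le_sup (f := id) (hL.mem q hq hqr))
  have h4 : N.minFac = N'.minFac := by
    have h5 := congrArg Fin.val h2
    simp only [Fin.val_ofNat] at h5
    rwa [Nat.mod_eq_of_lt (hm hC), Nat.mod_eq_of_lt (hm hC')] at h5
  have hnotE : ∀ {L r : ℕ}, ClsS (E : Set ℕ) L r → L.factorization L.minFac ∈ E →
      L.minFac ≠ r := by
    intro L r hL h5 h6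
    obtain ⟨-, h7⟩ := special_mem' hEe hL
    rw [← h6] at h7
    exact (Nat.not_even_iff_odd.2 h7) (hEe _ h5)
  by_cases h5 : N.factorization N.minFac ∈ E
  · rw [dif_pos h5] at h3
    by_cases h6 : N'.factorization N'.minFac ∈ E
    · rw [dif_pos h6] at h3
      have h7 : N.factorization N.minFac = N'.factorization N'.minFac := by
        simpa using h3
      refine dvd_of_tau hE hEe hC hC' (hnotE hC h5) (hnotE hC' h6) ?_ ht
      unfold St0
      rw [h7, h4]
    · rw [dif_neg h6] at h3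
      simp at h3
  · have h6 : N.minFac = p := by
      by_contra h7
      exact h5 (hC.mem _ (minFac_mem hC.odd hC.perf) h7)
    rw [← h6, h4]
    exact Nat.minFac_dvd N'

end Pool.Agent.TC
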