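import Pool.Agent.Lib.MP_f02ea4_nt.TC.Unif

/-!
# Two exponents which are not fixed
-/

set_option autoImplicit false

namespace Pool.Agent.TC

open Finset Nat Pool.Agent.BE

/-- the normal form: the least and the largest exponent besides that of `p` -/
theorem normal_form {N : ℕ} (ho : Odd N) (hN : N.Perfect) {d e p : ℕ} (hd : Even d) (he : Even e)
    (hc : Nat.Coprime N ((d + 1) * (e + 1)))
    (h : ∀ q ∈ N.primeFactors, q ≠ p → N.factorization q = d ∨ N.factorization q = e) :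
    ∃ a b : ℕ, 0 < a ∧ ClsS (({a, b} : Finset ℕ) : Set ℕ) N p ∧
      (∀ c ∈ (({a, b} : Finset ℕ) : Set ℕ), Even c) ∧
      (∀ q ∈ N.primeFactors, q ≠ p → a ≤ N.factorization q) ∧
      (∃ q, N.factorization q = a) ∧ ∃ q, N.factorization q = b := by
  classical
  have hne := exists_other ho hN p
  obtain ⟨q₁, h₁, h₁'⟩ := exists_min_image _ (fun q => N.factorization q) hne
  obtain ⟨q₂, h₂, h₂'⟩ := exists_max_image _ (fun q => N.factorization q) hne
  have m₁ := mem_erase.1 h₁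
  have m₂ := mem_erase.1 h₂
  have e₁ := h q₁ m₁.2 m₁.1
  have e₂ := h q₂ m₂.2 m₂.1
  have hcd : Nat.Coprime N (d + 1) := Nat.Coprime.coprime_mul_right_right hc
  have hce : Nat.Coprime N (e + 1) := Nat.Coprime.coprime_mul_left_right hc
  refine ⟨N.factorization q₁, N.factorization q₂, fac_pos m₁.2, ⟨ho, hN, ?_, ?_⟩, ?_, ?_,
    ⟨q₁, rfl⟩, ⟨q₂, rfl⟩⟩
  · intro q hq hqp
    have h3 := h q hq hqp
    have h4 := h₁' q (mem_erase.2 ⟨hqp, hq⟩)
    have h5 := h₂' q (mem_erase.2 ⟨hqp, hq⟩)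
    simp only [coe_insert, coe_singleton, Set.mem_insert_iff, Set.mem_singleton_iff]
    omega
  · intro c hc'
    simp only [coe_insert, coe_singleton, Set.mem_insert_iff, Set.mem_singleton_iff] at hc'
    rcases hc' with rfl | rfl
    · rcases e₁ with h3 | h3 <;> rw [h3] <;> assumption
    · rcases e₂ with h3 | h3 <;> rw [h3] <;> assumption
  · intro c hc'
    simp only [coe_insert, coe_singleton, Set.mem_insert_iff, Set.mem_singleton_iff] at hc'
    rcases hc' with rfl | rfl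
    · rcases e₁ with h3 | h3 <;> rw [h3] <;> assumption
    · rcases e₂ with h3 | h3 <;> rw [h3] <;> assumption
  · intro q hq hqp
    exact h₁' q (mem_erase.2 ⟨hqp, hq⟩)

theorem sum_div_le (L : ℕ) : ∑ a ∈ Ioo 0 (L + 1), (((L / a + 2) * (2 * (L / a + 1) + 1) : ℕ) : ℝ) ≤
    30 * (L : ℝ) ^ 2 := by
  have h1 : ∀ a ∈ Ioo 0 (L + 1), (((L / a + 2) * (2 * (L / a + 1) + 1) : ℕ) : ℝ) ≤
      15 * (L : ℝ) ^ 2 * ((a : ℝ) ^ 2)⁻¹ := by
    intro a ha
    obtain ⟨ha1, ha2⟩ := mem_Ioo.1 ha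
    have hu : 1 ≤ L / a := (Nat.one_le_div_iff ha1).2 (by omega)
    have h2 : (L / a + 2) * (2 * (L / a + 1) + 1) ≤ 15 * (L / a) ^ 2 := by
      have h3 : L / a + 2 ≤ 3 * (L / a) := by omega
      have h4 : 2 * (L / a + 1) + 1 ≤ 5 * (L / a) := by omega
      calc (L / a + 2) * (2 * (L / a + 1) + 1) ≤ (3 * (L / a)) * (5 * (L / a)) :=
            Nat.mul_le_mul h3 h4
        _ = 15 * (L / a) ^ 2 := by ring
    have h5 : (((L / a : ℕ) : ℝ)) ≤ (L : ℝ) / a := Nat.cast_div_le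
    calc (((L / a + 2) * (2 * (L / a + 1) + 1) : ℕ) : ℝ) ≤ ((15 * (L / a) ^ 2 : ℕ) : ℝ) := by
          exact_mod_cast h2
      _ = 15 * (((L / a : ℕ) : ℝ)) ^ 2 := by push_cast; ring
      _ ≤ 15 * ((L : ℝ) / a) ^ 2 := by gcongr
      _ = 15 * (L : ℝ) ^ 2 * ((a : ℝ) ^ 2)⁻¹ := by rw [div_pow]; ring
  refine (sum_le_sum h1).trans ?_
  rw [← mul_sum]
  have h6 := sum_Ioo_inv_sq_le (α := ℝ) 0 (L + 1)
  have h7 : ∑ i ∈ Ioo 0 (L + 1), ((i : ℝ) ^ 2)⁻¹ ≤ 2 := by simpa using h6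
  have h8 : (0 : ℝ) ≤ 15 * (L : ℝ) ^ 2 := by positivity
  nlinarith

/-- at most two different even exponents which are not fixed -/
theorem uniform_two (x : ℝ) (hx : 3 ≤ x) :
    ({N : ℕ | (N : ℝ) ≤ x ∧ Odd N ∧ N.Perfect ∧ ∃ d e p : ℕ, Even d ∧ Even e ∧
      Nat.Coprime N ((d + 1) * (e + 1)) ∧
      ∀ q ∈ N.primeFactors, q ≠ p → N.factorization q = d ∨ N.factorization q = e}.ncard : ℝ) ≤
      360 * (Real.log x) ^ 4 := by
  classical
  set L := ⌊Real.log x⌋₊ with hL
  set T : Set ℕ := {N : ℕ | (N : ℝ) ≤ x ∧ Odd N ∧ N.Perfect ∧ ∃ d e p : ℕ, Even d ∧ Even e ∧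
      Nat.Coprime N ((d + 1) * (e + 1)) ∧
      ∀ q ∈ N.primeFactors, q ≠ p → N.factorization q = d ∨ N.factorization q = e} with hTdef
  set b₀ : ℕ := ∑ a ∈ Ioo 0 (L + 1), (3 * ((L + 1) * (L + 1)) * (L / a + 2)) *
    (2 * (L / a + 1) + 1) with hb₀
  have key : ∀ G : Finset ℕ, (G : Set ℕ) ⊆ T → G.card ≤ b₀ := by
    intro G hG
    have hf : ∀ N : ℕ, ∃ z : ℕ × ℕ × ℕ, N ∈ G → (N : ℝ) ≤ x ∧ 0 < z.1 ∧
        ClsS (({z.1, z.2.1} : Finset ℕ) : Set ℕ) N z.2.2 ∧
        (∀ c ∈ (({z.1, z.2.1} : Finset ℕ) : Set ℕ), Even c) ∧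
        (∀ q ∈ N.primeFactors, q ≠ z.2.2 → z.1 ≤ N.factorization q) ∧
        (∃ q, N.factorization q = z.1) ∧ ∃ q, N.factorization q = z.2.1 := by
      intro N
      by_cases hN : N ∈ G
      · obtain ⟨h1, h2, h3, d, e, p, h4, h5, h6, h7⟩ := hG (mem_coe.2 hN)
        obtain ⟨a, b, h8⟩ := normal_form h2 h3 h4 h5 h6 h7
        exact ⟨(a, b, p), fun _ => ⟨h1, h8⟩⟩
      · exact ⟨0, fun h => absurd h hN⟩
    choose f hf using hf
    have hfac : ∀ N ∈ G, ∀ q, N.factorization q ≤ L := fun N hN q =>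
      fac_le_log hx (hf N hN).2.2.1.odd (hf N hN).1
    have hcard : ∀ N ∈ G, N.primeFactors.card ≤ L / (f N).1 + 1 := fun N hN => by
      obtain ⟨h1, h2, h3, h4, h5, -⟩ := hf N hN
      exact card_le_log h3.odd h3.perf.2.ne' h1 h5 h2
    have hmaps : ∀ N ∈ G, (f N).1 ∈ Ioo 0 (L + 1) := by
      intro N hN
      obtain ⟨h1, h2, h3, h4, h5, ⟨q, h6⟩, -⟩ := hf N hN
      exact mem_Ioo.2 ⟨h2, Nat.lt_succ_of_le (h6 ▸ hfac N hN q)⟩
    rw [card_eq_sum_card_fiberwise hmaps, hb₀]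
    refine sum_le_sum fun a ha => ?_
    set κ : ℕ → ℕ × ℕ × ℕ × ℕ := fun N => (if N.factorization N.minFac = (f N).1 then 0 else
      if N.factorization N.minFac = (f N).2.1 then 1 else 2, (f N).2.1,
      N.factorization (f N).2.2, N.minFac) with hκ
    have hQc : (range 3 ×ˢ range (L + 1) ×ˢ range (L + 1) ×ˢ range (L / a + 2)).card =
        3 * ((L + 1) * (L + 1)) * (L / a + 2) := by
      simp only [card_product, card_range]
      ring
    rw [← hQc]
    refine card_le_colours (κ := κ) (fun N hN => ?_) fun c hc => ?_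
    · obtain ⟨hNG, hNa⟩ := mem_filter.1 hN
      obtain ⟨h1, h2, h3, h4, h5, -, ⟨q, h6⟩⟩ := hf N hNG
      simp only [hκ, mem_product, mem_range]
      refine ⟨by split_ifs <;> omega, Nat.lt_succ_of_le (h6 ▸ hfac N hNG q),
        Nat.lt_succ_of_le (hfac N hNG _), ?_⟩
      have h7 := (least_le_card h3.odd h3.perf).trans (hcard N hNG)
      rw [hNa] at h7
      omega
    · rcases (((G.filter (fun N => (f N).1 = a)).filter
          (fun N => κ N = c))).eq_empty_or_nonempty with h0 | ⟨N₀, hN₀⟩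
      · rw [h0]
        simp
      obtain ⟨g1, g2⟩ := mem_filter.1 hN₀
      obtain ⟨g3, g4⟩ := mem_filter.1 g1
      have hsame : ∀ N ∈ (G.filter (fun N => (f N).1 = a)).filter (fun N => κ N = c),
          N ∈ G ∧ (f N).1 = (f N₀).1 ∧ (f N).2.1 = (f N₀).2.1 ∧
          N.factorization (f N).2.2 = N₀.factorization (f N₀).2.2 ∧ N.minFac = N₀.minFac ∧
          N.factorization N.minFac = N₀.factorization N₀.minFac := by
        intro N hN
        obtain ⟨k1, k2⟩ := mem_filter.1 hN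
        obtain ⟨k3, k4⟩ := mem_filter.1 k1
        have k5 := k2.trans g2.symm
        have k6 : (f N).1 = (f N₀).1 := k4.trans g4.symm
        simp only [hκ, Prod.mk.injEq] at k5
        obtain ⟨k7, k8, k9, k10⟩ := k5
        refine ⟨k3, k6, k8, k9, k10, ?_⟩
        have v1 : ∀ L ∈ G, L.factorization L.minFac = (f L).1 ∨
            L.factorization L.minFac = (f L).2.1 ∨
            L.factorization L.minFac = L.factorization (f L).2.2 := by
          intro L hL
          obtain ⟨-, -, h3, -⟩ := hf L hL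
          have h5 : L.minFac ∈ L.primeFactors := by
            obtain ⟨q, hq, -⟩ := exists_odd h3.odd h3.perf
            have h6 : L ≠ 1 := by rintro rfl; simp at hq
            exact Nat.mem_primeFactors.2 ⟨Nat.minFac_prime h6, Nat.minFac_dvd L, h3.perf.2.ne'⟩
          by_cases h7 : L.minFac = (f L).2.2
          · right; right
            rw [← h7]
          · have h8 := h3.mem _ h5 h7
            simp only [coe_insert, coe_singleton, Set.mem_insert_iff,
              Set.mem_singleton_iff] at h8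
            tauto
        have w1 := v1 N k3
        have w2 := v1 N₀ g3
        split_ifs at k7 <;> omega
      refine group_card (E := (({(f N₀).1, (f N₀).2.1} : Finset ℕ) : Set ℕ))
        (P1_of_card card_le_two) (hf N₀ g3).2.2.2.1 (f := fun N => (f N).2.2)
        (fun N hN => ?_) (fun N hN N' hN' => ?_) (fun N hN N' hN' => ?_) fun N' hN' => ?_
      · obtain ⟨k1, k2, k3, -⟩ := hsame N hN
        rw [← k2, ← k3]
        exact (hf N k1).2.2.1
      · obtain ⟨k1, k2, k3, k4, k5, k6⟩ := hsame N hN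
        obtain ⟨l1, l2, l3, l4, l5, l6⟩ := hsame N' hN'
        exact CC_minFac (hf N k1).2.2.1.odd (hf N k1).2.2.1.perf (hf N' l1).2.2.1.odd
          (hf N' l1).2.2.1.perf (k5.trans l5.symm) (k6.trans l6.symm)
      · obtain ⟨k1, k2, k3, k4, k5, k6⟩ := hsame N hN
        obtain ⟨l1, l2, l3, l4, l5, l6⟩ := hsame N' hN'
        exact k4.trans l4.symm
      · obtain ⟨l1, l2⟩ := mem_filter.1 hN'
        obtain ⟨l3, l4⟩ := mem_filter.1 l1
        have := hcard N' l3
        rw [l4] at this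
        exact (card_filter_le _ _).trans this
  obtain ⟨-, hcard⟩ := finite_of_bound key
  have hl := log_floor hx
  rw [← hL] at hl
  have hlog : 0 ≤ Real.log x := Real.log_nonneg (by linarith)
  calc (T.ncard : ℝ) ≤ (b₀ : ℝ) := by exact_mod_cast hcard
    _ = 3 * (((L : ℝ) + 1) * ((L : ℝ) + 1)) *
        ∑ a ∈ Ioo 0 (L + 1), (((L / a + 2) * (2 * (L / a + 1) + 1) : ℕ) : ℝ) := by
        rw [hb₀, mul_sum]
        push_cast
        refine sum_congr rfl fun a _ => ?_
        ring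
    _ ≤ 3 * (((L : ℝ) + 1) * ((L : ℝ) + 1)) * (30 * (L : ℝ) ^ 2) := by
        have := sum_div_le L
        gcongr
    _ ≤ 3 * ((2 * Real.log x) * (2 * Real.log x)) * (30 * (Real.log x) ^ 2) := by
        have := hl.1
        have := hl.2
        gcongr
    _ = 360 * (Real.log x) ^ 4 := by ring

end Pool.Agent.TC
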