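import Pool.Agent.Lib.MP_f02ea4_nt.TC.SixUnique
import Pool.Agent.Lib.MP_f02ea4_nt.TC.Pairs

/-!
# The statements with two exponents `d`, `e`
-/

set_option autoImplicit false

namespace Pool.Agent.TC

open Finset Nat Pool.Agent.BE

theorem mem_pair {d e a : ℕ} : a ∈ (({d, e} : Finset ℕ) : Set ℕ) ↔ a = d ∨ a = e := by
  simp

theorem clsS_pair {N d e p : ℕ} : ClsS (({d, e} : Finset ℕ) : Set ℕ) N p ↔
    Odd N ∧ N.Perfect ∧ Nat.Coprime N ((d + 1) * (e + 1)) ∧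
      ∀ q ∈ N.primeFactors, q ≠ p → N.factorization q = d ∨ N.factorization q = e := by
  constructor
  · rintro ⟨h1, h2, h3, h4⟩
    refine ⟨h1, h2, Nat.Coprime.mul_right (h4 d (mem_pair.2 (Or.inl rfl)))
      (h4 e (mem_pair.2 (Or.inr rfl))), fun q hq hqp => mem_pair.1 (h3 q hq hqp)⟩
  · rintro ⟨h1, h2, h3, h4⟩
    refine ⟨h1, h2, fun q hq hqp => mem_pair.2 (h4 q hq hqp), fun a ha => ?_⟩
    rcases mem_pair.1 ha with rfl | rfl
    · exact Nat.Coprime.coprime_mul_right_right h3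
    · exact Nat.Coprime.coprime_mul_left_right h3

theorem even_pair {d e : ℕ} (hd : Even d) (he : Even e) :
    ∀ a ∈ (({d, e} : Finset ℕ) : Set ℕ), Even a := by
  intro a ha
  rcases mem_pair.1 ha with rfl | rfl <;> assumption

/-- clause 1 -/
theorem rigid_pair (d e N N' D : ℕ) (ho : Odd N) (hN : N.Perfect) (ho' : Odd N')
    (hN' : N'.Perfect) (hD : 1 < D) (hDN : D ∣ N) (hDN' : D ∣ N')
    (hc : Nat.Coprime D (N / D)) (hc' : Nat.Coprime D (N' / D))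
    (h : ∀ q ∈ (N / D).primeFactors, (N.factorization q = d ∨ N.factorization q = e) ∧
      ¬ q ∣ (d + 1) * (e + 1) ∧ Nat.Coprime (q - 1) (N.factorization q + 1))
    (h' : ∀ q ∈ (N' / D).primeFactors, (N'.factorization q = d ∨ N'.factorization q = e) ∧
      ¬ q ∣ (d + 1) * (e + 1) ∧ Nat.Coprime (q - 1) (N'.factorization q + 1)) : N = N' := by
  have key : ∀ q : ℕ, ¬ q ∣ (d + 1) * (e + 1) →
      ∀ a ∈ (({d, e} : Finset ℕ) : Set ℕ), ¬ q ∣ a + 1 := by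
    intro q hq a ha hqa
    rcases mem_pair.1 ha with rfl | rfl
    · exact hq (hqa.mul_right _)
    · exact hq (hqa.mul_left _)
  refine rigidS_dvd (P1_of_card (E := {d, e}) card_le_two) ho hN ho' hN' hD hDN hDN' hc hc'
    (fun q hq => ?_) (fun q hq => ?_)
  · obtain ⟨a, b, c⟩ := h q hq
    exact ⟨mem_pair.2 a, key q b, c⟩
  · obtain ⟨a, b, c⟩ := h' q hq
    exact ⟨mem_pair.2 a, key q b, c⟩

/-- clause 2 -/
theorem dichotomy_pair (d e N N' p p' q : ℕ) (hd : Even d) (he : Even e) (ho : Odd N)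
    (hN : N.Perfect) (hc : Nat.Coprime N ((d + 1) * (e + 1)))
    (h : ∀ r ∈ N.primeFactors, r ≠ p → N.factorization r = d ∨ N.factorization r = e)
    (ho' : Odd N') (hN' : N'.Perfect) (hc' : Nat.Coprime N' ((d + 1) * (e + 1)))
    (h' : ∀ r ∈ N'.primeFactors, r ≠ p' → N'.factorization r = d ∨ N'.factorization r = e)
    (hq : q ∈ N.primeFactors) (hq' : q ∈ N'.primeFactors)
    (hv : N.factorization q = N'.factorization q) :
    N = N' ∨ (p ∣ N' ∧ N'.factorization p ≠ N.factorization p) ∨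
      (p' ∣ N ∧ N.factorization p' ≠ N'.factorization p') :=
  dichotomy (P1_of_card (E := {d, e}) card_le_two) (even_pair hd he)
    (clsS_pair.2 ⟨ho, hN, hc, h⟩) (clsS_pair.2 ⟨ho', hN', hc', h'⟩)
    ⟨q, mem_filter.2 ⟨hq, hq', hv⟩⟩

/-- in the class `{d, e}` the special prime is a prime factor -/
theorem special_mem {d e N p : ℕ} (hd : Even d) (he : Even e) (ho : Odd N) (hN : N.Perfect)
    (h : ∀ q ∈ N.primeFactors, q ≠ p → N.factorization q = d ∨ N.factorization q = e) :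
    p ∈ N.primeFactors := by
  obtain ⟨q, hq, hqo⟩ := exists_odd ho hN
  by_cases hqp : q = p
  · exact hqp ▸ hq
  · exfalso
    rcases h q hq hqp with h1 | h1
    · rw [h1] at hqo
      exact (Nat.not_even_iff_odd.2 hqo) hd
    · rw [h1] at hqo
      exact (Nat.not_even_iff_odd.2 hqo) he

theorem K_iff {d e p : ℕ} (hp : p.Prime) :
    (∏ a ∈ ({d, e} : Finset ℕ), (a + 1)).primeFactors = ((d + 1) * (e + 1)).primeFactors ∧
      (p ∣ ∏ a ∈ ({d, e} : Finset ℕ), (a + 1) ↔ p ∣ (d + 1) * (e + 1)) := by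
  by_cases h : d = e
  · subst h
    rw [pair_eq_singleton, prod_singleton, Nat.primeFactors_mul (Nat.succ_ne_zero _)
      (Nat.succ_ne_zero _), union_self]
    exact ⟨rfl, ⟨fun h => h.mul_right _, fun h => (hp.dvd_mul.1 h).elim id id⟩⟩
  · rw [prod_pair h]
    exact ⟨rfl, Iff.rfl⟩

/-- clause 4, by the number of prime factors -/
theorem count_pair (hT : Thin) (d e K : ℕ) (hd : Even d) (he : Even e) : ∃ C : ℝ, 0 < C ∧
    (∀ k B : ℕ, {N : ℕ | Odd N ∧ N.Perfect ∧ N.primeFactors.card ≤ k ∧ ∃ p : ℕ,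
      N.factorization p ≤ B ∧
      (∀ q ∈ N.primeFactors, q ≠ p → N.factorization q = d ∨ N.factorization q = e) ∧
      ∑ l ∈ ((d + 1) * (e + 1)).primeFactors, N.factorization l +
        (if p ∣ (d + 1) * (e + 1) then 0 else 1) ≤ K}.Finite ∧
      ({N : ℕ | Odd N ∧ N.Perfect ∧ N.primeFactors.card ≤ k ∧ ∃ p : ℕ,
      N.factorization p ≤ B ∧
      (∀ q ∈ N.primeFactors, q ≠ p → N.factorization q = d ∨ N.factorization q = e) ∧
      ∑ l ∈ ((d + 1) * (e + 1)).primeFactors, N.factorization l +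
        (if p ∣ (d + 1) * (e + 1) then 0 else 1) ≤ K}.ncard : ℝ) ≤ C * B * (k : ℝ) ^ K) ∧
    (∀ (B : ℕ) (x : ℝ), 3 ≤ x → ({N : ℕ | (N : ℝ) ≤ x ∧ Odd N ∧ N.Perfect ∧ ∃ p : ℕ,
      N.factorization p ≤ B ∧
      (∀ q ∈ N.primeFactors, q ≠ p → N.factorization q = d ∨ N.factorization q = e) ∧
      ∑ l ∈ ((d + 1) * (e + 1)).primeFactors, N.factorization l +
        (if p ∣ (d + 1) * (e + 1) then 0 else 1) ≤ K}.ncard : ℝ) ≤
      C * B * (Real.log x / Real.log (Real.log x)) ^ K) ∧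
    (∀ x : ℝ, 3 ≤ x → ({N : ℕ | (N : ℝ) ≤ x ∧ Odd N ∧ N.Perfect ∧ ∃ p : ℕ,
      (∀ q ∈ N.primeFactors, q ≠ p → N.factorization q = d ∨ N.factorization q = e) ∧
      ∑ l ∈ ((d + 1) * (e + 1)).primeFactors, N.factorization l +
        (if p ∣ (d + 1) * (e + 1) then 0 else 1) ≤ K}.ncard : ℝ) ≤
      C * Real.log x * (Real.log x / Real.log (Real.log x)) ^ K) := by
  have hm : Pm {d, e} 1 := pm_of_p1 (P1_of_card card_le_two)
  have hE : ∀ a ∈ ({d, e} : Finset ℕ), Even a := by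
    intro a ha
    simp only [mem_insert, mem_singleton] at ha
    rcases ha with rfl | rfl <;> assumption
  obtain ⟨C₁, h₁⟩ := count hT hE hm K
  obtain ⟨C₂, hC₂, h₂⟩ := up_to hT hE hm K
  obtain ⟨C₃, hC₃, h₃⟩ := up_to_free hT hE hm K
  have hconv : ∀ {N p : ℕ}, Odd N → N.Perfect →
      (∀ q ∈ N.primeFactors, q ≠ p → N.factorization q = d ∨ N.factorization q = e) →
      ∑ l ∈ ((d + 1) * (e + 1)).primeFactors, N.factorization l +
        (if p ∣ (d + 1) * (e + 1) then 0 else 1) ≤ K →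
      (∀ q ∈ N.primeFactors, q ≠ p → N.factorization q ∈ ({d, e} : Finset ℕ)) ∧
      ∑ l ∈ (∏ a ∈ ({d, e} : Finset ℕ), (a + 1)).primeFactors, N.factorization l +
        (if p ∣ ∏ a ∈ ({d, e} : Finset ℕ), (a + 1) then 0 else 1) ≤ K := by
    intro N p ho hN h1 h2
    refine ⟨fun q hq hqp => by simpa using h1 q hq hqp, ?_⟩
    obtain ⟨h3, h4⟩ := K_iff (d := d) (e := e)
      (Nat.prime_of_mem_primeFactors (special_mem hd he ho hN h1))
    rw [h3]
    simp only [h4]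
    exact h2
  refine ⟨(C₁ : ℝ) + C₂ + C₃, by positivity, fun k B => ?_, fun B x hx => ?_, fun x hx => ?_⟩
  · obtain ⟨hf, hc⟩ := h₁ k B
    rw [max_self, one_pow, mul_one] at hc
    have hsub : {N : ℕ | Odd N ∧ N.Perfect ∧ N.primeFactors.card ≤ k ∧ ∃ p : ℕ,
      N.factorization p ≤ B ∧
      (∀ q ∈ N.primeFactors, q ≠ p → N.factorization q = d ∨ N.factorization q = e) ∧
      ∑ l ∈ ((d + 1) * (e + 1)).primeFactors, N.factorization l +
        (if p ∣ (d + 1) * (e + 1) then 0 else 1) ≤ K} ⊆ SS {d, e} K k B := by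
      rintro N ⟨a, b, c, p, g, i, j⟩
      exact ⟨a, b, c, p, g, hconv a b i j⟩
    refine ⟨hf.subset hsub, ?_⟩
    have h4 : ((SS {d, e} K k B).ncard : ℝ) ≤ C₁ * B * (k : ℝ) ^ K := by exact_mod_cast hc
    have h5 := Set.ncard_le_ncard hsub hf
    have h6 : (0 : ℝ) ≤ (B : ℝ) * (k : ℝ) ^ K := by positivity
    calc _ ≤ ((SS {d, e} K k B).ncard : ℝ) := by exact_mod_cast h5
      _ ≤ C₁ * B * (k : ℝ) ^ K := h4
      _ ≤ ((C₁ : ℝ) + C₂ + C₃) * B * (k : ℝ) ^ K := by nlinarith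
  · have hr := ratio_pos hx
    have hset : {N : ℕ | (N : ℝ) ≤ x ∧ Odd N ∧ N.Perfect ∧ ∃ p : ℕ,
      N.factorization p ≤ B ∧
      (∀ q ∈ N.primeFactors, q ≠ p → N.factorization q = d ∨ N.factorization q = e) ∧
      ∑ l ∈ ((d + 1) * (e + 1)).primeFactors, N.factorization l +
        (if p ∣ (d + 1) * (e + 1) then 0 else 1) ≤ K} ⊆ SX {d, e} K B x := by
      rintro N ⟨a, b, c, p, g, i, j⟩
      exact ⟨a, b, c, p, g, hconv b c i j⟩
    have hfin : (SX {d, e} K B x).Finite := by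
      refine (Set.finite_Iic ⌊x⌋₊).subset fun N hN => ?_
      exact Nat.le_floor hN.1
    have h5 := Set.ncard_le_ncard hset hfin
    have h6 : (0 : ℝ) ≤ (B : ℝ) * (Real.log x / Real.log (Real.log x)) ^ K := by positivity
    have h7 : (0 : ℝ) ≤ C₁ := by positivity
    calc _ ≤ ((SX {d, e} K B x).ncard : ℝ) := by exact_mod_cast h5
      _ ≤ C₂ * B * (Real.log x / Real.log (Real.log x)) ^ K := h₂ B x hx
      _ ≤ ((C₁ : ℝ) + C₂ + C₃) * B * (Real.log x / Real.log (Real.log x)) ^ K := by nlinarith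
  · have hr := ratio_pos hx
    have hlog : 0 ≤ Real.log x := Real.log_nonneg (by linarith)
    have hset : {N : ℕ | (N : ℝ) ≤ x ∧ Odd N ∧ N.Perfect ∧ ∃ p : ℕ,
      (∀ q ∈ N.primeFactors, q ≠ p → N.factorization q = d ∨ N.factorization q = e) ∧
      ∑ l ∈ ((d + 1) * (e + 1)).primeFactors, N.factorization l +
        (if p ∣ (d + 1) * (e + 1) then 0 else 1) ≤ K} ⊆
      {N : ℕ | (N : ℝ) ≤ x ∧ Odd N ∧ N.Perfect ∧ ∃ p : ℕ,
        (∀ q ∈ N.primeFactors, q ≠ p → N.factorization q ∈ ({d, e} : Finset ℕ)) ∧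
        ∑ l ∈ (∏ a ∈ ({d, e} : Finset ℕ), (a + 1)).primeFactors, N.factorization l +
          (if p ∣ ∏ a ∈ ({d, e} : Finset ℕ), (a + 1) then 0 else 1) ≤ K} := by
      rintro N ⟨a, b, c, p, i, j⟩
      exact ⟨a, b, c, p, hconv b c i j⟩
    have hfin : {N : ℕ | (N : ℝ) ≤ x ∧ Odd N ∧ N.Perfect ∧ ∃ p : ℕ,
        (∀ q ∈ N.primeFactors, q ≠ p → N.factorization q ∈ ({d, e} : Finset ℕ)) ∧
        ∑ l ∈ (∏ a ∈ ({d, e} : Finset ℕ), (a + 1)).primeFactors, N.factorization l +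
          (if p ∣ ∏ a ∈ ({d, e} : Finset ℕ), (a + 1) then 0 else 1) ≤ K}.Finite := by
      refine (Set.finite_Iic ⌊x⌋₊).subset fun N hN => ?_
      exact Nat.le_floor hN.1
    have h5 := Set.ncard_le_ncard hset hfin
    have h6 : (0 : ℝ) ≤ Real.log x * (Real.log x / Real.log (Real.log x)) ^ K := by positivity
    have h7 : (0 : ℝ) ≤ C₁ := by positivity
    have h8 := h₃ x hx
    calc _ ≤ _ := (Nat.cast_le (α := ℝ)).2 h5
      _ ≤ C₃ * Real.log x * (Real.log x / Real.log (Real.log x)) ^ K := h8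
      _ ≤ ((C₁ : ℝ) + C₂ + C₃) * Real.log x * (Real.log x / Real.log (Real.log x)) ^ K := by
          nlinarith

/-- clause 5 -/
theorem euler_pair (hT : Thin) (d e B : ℕ) (hd : Even d) (he : Even e) : ∃ C : ℝ, 0 < C ∧
    ∀ y : ℝ, 2 ≤ y →
      {N : ℕ | Odd N ∧ N.Perfect ∧ Nat.Coprime N ((d + 1) * (e + 1)) ∧ ∃ p : ℕ, (p : ℝ) ≤ y ∧
        N.factorization p ≤ B ∧ ∀ q ∈ N.primeFactors, q ≠ p →
          N.factorization q = d ∨ N.factorization q = e}.Finite ∧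
      ({N : ℕ | Odd N ∧ N.Perfect ∧ Nat.Coprime N ((d + 1) * (e + 1)) ∧ ∃ p : ℕ, (p : ℝ) ≤ y ∧
        N.factorization p ≤ B ∧ ∀ q ∈ N.primeFactors, q ≠ p →
          N.factorization q = d ∨ N.factorization q = e}.ncard : ℝ) ≤
        C * (y / (Real.log y) ^ 2) := by
  obtain ⟨C, hC, h⟩ := euler_thin hT (E := {d, e}) (P1_of_card card_le_two)
    (even_pair hd he) B
  refine ⟨C, hC, fun y hy => ?_⟩
  obtain ⟨h1, h2⟩ := h y hy
  have hsub : {N : ℕ | Odd N ∧ N.Perfect ∧ Nat.Coprime N ((d + 1) * (e + 1)) ∧ ∃ p : ℕ,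
      (p : ℝ) ≤ y ∧ N.factorization p ≤ B ∧ ∀ q ∈ N.primeFactors, q ≠ p →
        N.factorization q = d ∨ N.factorization q = e} ⊆
      {N : ℕ | Odd N ∧ N.Perfect ∧ (∀ a ∈ ({d, e} : Finset ℕ), Nat.Coprime N (a + 1)) ∧
        ∃ p : ℕ, (p : ℝ) ≤ y ∧ N.factorization p ≤ B ∧
        ∀ q ∈ N.primeFactors, q ≠ p → N.factorization q ∈ ({d, e} : Finset ℕ)} := by
    rintro N ⟨a, b, c, p, g, i, j⟩
    have h3 := clsS_pair.2 ⟨a, b, c, j⟩
    exact ⟨a, b, fun a ha => h3.cop a (mem_coe.2 ha), p, g, i,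
      fun q hq hqp => mem_coe.1 (h3.mem q hq hqp)⟩
  refine ⟨h1.subset hsub, le_trans ?_ h2⟩
  exact (Nat.cast_le (α := ℝ)).2 (Set.ncard_le_ncard hsub h1)

end Pool.Agent.TC
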