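import Pool.Agent.Lib.MP_f02ea4_nt.TC.Gen
import Pool.Agent.Lib.MP_f02ea4_nt.TC.Bridge

/-!
# Counting odd perfect numbers with few primes which are not normal
-/

set_option autoImplicit false

namespace Pool.Agent.TC

open Finset Nat Pool.Agent.BE

theorem gen_card {E : Finset ℕ} (hE2 : E.card ≤ 2) (k B K : ℕ) (G : Finset ℕ)
    (hG : ∀ N ∈ G, Odd N ∧ N.Perfect ∧ N.primeFactors.card ≤ k ∧
      (∀ q ∈ N.primeFactors, N.factorization q ≤ B) ∧
      ∃ Z : Finset ℕ, Z.card ≤ K ∧ ∀ q ∈ N.primeFactors, q ∉ Z → Nm (E : Set ℕ) N q) :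
    G.card ≤ 3 * k * (5 * k ^ 2 * B) ^ K := by
  classical
  rcases Nat.eq_zero_or_pos k with rfl | hk
  · have : G = ∅ := by
      rw [eq_empty_iff_forall_notMem]
      intro N hN
      obtain ⟨ho, hN', h1, -⟩ := hG N hN
      obtain ⟨q, hq, -⟩ := exists_odd ho hN'
      have := card_pos.2 ⟨q, hq⟩
      omega
    rw [this]
    simp
  rcases Nat.eq_zero_or_pos B with rfl | hB
  · have : G = ∅ := by
      rw [eq_empty_iff_forall_notMem]
      intro N hN
      obtain ⟨ho, hN', -, h1, -⟩ := hG N hN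
      obtain ⟨q, hq, -⟩ := exists_odd ho hN'
      have := fac_pos hq
      have := h1 q hq
      omega
    rw [this]
    simp
  set Q := 1 + (k * B + k * B + k * (2 * (k * B))) with hQ
  have h1 : k * B ≤ k ^ 2 * B := Nat.mul_le_mul_right _ (by nlinarith)
  have h2 : 1 ≤ k * B := Nat.mul_pos hk hB
  have hQ5 : Q ≤ 5 * k ^ 2 * B := by
    have h3 : k * (2 * (k * B)) = 2 * (k ^ 2 * B) := by ring
    have h4 : 5 * k ^ 2 * B = 5 * (k ^ 2 * B) := by ring
    rw [hQ, h3, h4]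
    omega
  have hBQ : B ≤ Q := by
    have : B ≤ k * B := Nat.le_mul_of_pos_left B hk
    omega
  have hmem : ∀ N ∈ G, N.minFac ∈ N.primeFactors := by
    intro N hN
    obtain ⟨ho, hN', -⟩ := hG N hN
    obtain ⟨q, hq, -⟩ := exists_odd ho hN'
    have h3 : N ≠ 1 := by rintro rfl; simp at hq
    exact Nat.mem_primeFactors.2 ⟨Nat.minFac_prime h3, Nat.minFac_dvd N, hN'.2.ne'⟩
  -- the state given by the least prime factor
  have hst : ∀ (T : Finset (ℕ × ℕ)) (j : ℕ) (G' : Finset ℕ), G' ⊆ G →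
      (∀ N ∈ G', (N.minFac, N.factorization N.minFac) ∈ T) →
      (∀ N ∈ G', ∃ Z : Finset ℕ, Z.card ≤ j ∧ ∀ q ∈ N.primeFactors, q ∉ ({N.minFac} : Finset ℕ) →
        q ∉ Z → Nm (E : Set ℕ) N q) → G'.card ≤ T.card * Q ^ j := by
    intro T j G' hG' hT hZ
    refine card_le_colours (κ := fun N => (N.minFac, N.factorization N.minFac)) (Q := T) hT
      fun c _ => ?_
    refine st_card hE2 k B j (c.1 ^ c.2) _ fun N hN => ?_
    obtain ⟨hNG, hNc⟩ := mem_filter.1 hN
    obtain ⟨ho, hN', h1, h2, -⟩ := hG N (hG' hNG)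
    obtain ⟨Z, hZc, hZn⟩ := hZ N hNG
    refine ⟨ho, hN', h1, h2, {N.minFac}, singleton_subset_iff.2 (hmem N (hG' hNG)),
      singleton_nonempty _, ?_, Z, hZc, hZn⟩
    rw [← hNc]
    simp [U]
  have hP : ∀ N ∈ G, N.minFac ∈ Icc 1 k := fun N hN => mem_Icc.2
    ⟨(Nat.prime_of_mem_primeFactors (hmem N hN)).pos,
      (least_le_card (hG N hN).1 (hG N hN).2.1).trans (hG N hN).2.2.1⟩
  have hA : (G.filter (fun N => N.factorization N.minFac ∈ E)).card ≤ 2 * k * Q ^ K := by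
    refine (hst (Icc 1 k ×ˢ E) K _ (filter_subset _ _) (fun N hN => ?_) fun N hN => ?_).trans ?_
    · obtain ⟨h3, h4⟩ := mem_filter.1 hN
      exact mem_product.2 ⟨hP N h3, h4⟩
    · obtain ⟨-, -, -, -, Z, hZ, hZn⟩ := hG N (mem_filter.1 hN).1
      exact ⟨Z, hZ, fun q hq _ hqZ => hZn q hq hqZ⟩
    · refine Nat.mul_le_mul_right _ ?_
      rw [card_product, Nat.card_Icc, Nat.add_sub_cancel]
      calc k * E.card ≤ k * 2 := Nat.mul_le_mul_left _ hE2
        _ = 2 * k := Nat.mul_comm _ _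
  have hC : (G.filter (fun N => ¬ N.factorization N.minFac ∈ E)).card ≤ k * Q ^ K := by
    rcases Nat.eq_zero_or_pos K with hK | hK
    · have : G.filter (fun N => ¬ N.factorization N.minFac ∈ E) = ∅ := by
        rw [eq_empty_iff_forall_notMem]
        intro N hN
        obtain ⟨h3, h4⟩ := mem_filter.1 hN
        obtain ⟨-, -, -, -, Z, hZ, hZn⟩ := hG N h3
        have hZ0 : Z = ∅ := by
          rw [hK] at hZ
          simpa using hZ
        exact h4 (hZn N.minFac (hmem N h3) (by rw [hZ0]; simp)).1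
      rw [this]
      simp
    · refine (hst (Icc 1 k ×ˢ Icc 1 B) (K - 1) _ (filter_subset _ _) (fun N hN => ?_)
        fun N hN => ?_).trans ?_
      · obtain ⟨h3, h4⟩ := mem_filter.1 hN
        exact mem_product.2 ⟨hP N h3, mem_Icc.2 ⟨fac_pos (hmem N h3),
          (hG N h3).2.2.2.1 _ (hmem N h3)⟩⟩
      · obtain ⟨h3, h4⟩ := mem_filter.1 hN
        obtain ⟨-, -, -, -, Z, hZ, hZn⟩ := hG N h3
        have hPZ : N.minFac ∈ Z := by
          by_contra h
          exact h4 (hZn N.minFac (hmem N h3) h).1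
        refine ⟨Z.erase N.minFac, ?_, fun q hq hq1 hq2 => hZn q hq fun h => hq2 ?_⟩
        · rw [card_erase_of_mem hPZ]
          omega
        · exact mem_erase.2 ⟨fun h => hq1 (mem_singleton.2 h), h⟩
      · rw [card_product, Nat.card_Icc, Nat.card_Icc, Nat.add_sub_cancel, Nat.add_sub_cancel]
        calc k * B * Q ^ (K - 1) ≤ k * Q * Q ^ (K - 1) :=
              Nat.mul_le_mul_right _ (Nat.mul_le_mul_left _ hBQ)
          _ = k * Q ^ (K - 1 + 1) := by ring
          _ = k * Q ^ K := by rw [Nat.sub_add_cancel hK]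
  have hsplit := card_filter_add_card_filter_not (s := G)
    (fun N : ℕ => N.factorization N.minFac ∈ E)
  calc G.card ≤ 2 * k * Q ^ K + k * Q ^ K := by omega
    _ = 3 * k * Q ^ K := by ring
    _ ≤ 3 * k * (5 * k ^ 2 * B) ^ K := Nat.mul_le_mul_left _ (Nat.pow_le_pow_left hQ5 K)

/-- the primes of `N` which are not normal for `d`, `e` -/
def NN (d e N : ℕ) : Finset ℕ := N.primeFactors.filter (fun q =>
  ¬ ((N.factorization q = d ∨ N.factorization q = e) ∧ ¬ q ∣ (d + 1) * (e + 1) ∧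
    Nat.Coprime (q - 1) (N.factorization q + 1)))

theorem nm_of_notMem {d e N q : ℕ} (hq : q ∈ N.primeFactors) (h : q ∉ NN d e N) :
    Nm (({d, e} : Finset ℕ) : Set ℕ) N q := by
  have h1 : (N.factorization q = d ∨ N.factorization q = e) ∧ ¬ q ∣ (d + 1) * (e + 1) ∧
      Nat.Coprime (q - 1) (N.factorization q + 1) := by
    by_contra h2
    exact h (mem_filter.2 ⟨hq, h2⟩)
  obtain ⟨a, b, c⟩ := h1
  refine ⟨mem_pair.2 a, fun x hx hqx => ?_, ?_⟩
  · rcases mem_pair.1 hx with rfl | rfl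
    · exact b (hqx.mul_right _)
    · exact b (hqx.mul_left _)
  · rintro ⟨l, hl, hl1, hl2⟩
    have h5 := Nat.dvd_gcd hl2 hl1
    rw [c] at h5
    exact hl.one_lt.ne' (Nat.dvd_one.1 h5)

/-- by the number of prime factors and the exponents -/
theorem gen_omega (d e k B K : ℕ) :
    {N : ℕ | Odd N ∧ N.Perfect ∧ N.primeFactors.card ≤ k ∧
      (∀ q ∈ N.primeFactors, N.factorization q ≤ B) ∧ (NN d e N).card ≤ K}.Finite ∧
    {N : ℕ | Odd N ∧ N.Perfect ∧ N.primeFactors.card ≤ k ∧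
      (∀ q ∈ N.primeFactors, N.factorization q ≤ B) ∧ (NN d e N).card ≤ K}.ncard ≤
      3 * k * (5 * k ^ 2 * B) ^ K := by
  refine finite_of_bound fun G hG => gen_card (E := {d, e}) card_le_two k B K G fun N hN => ?_
  obtain ⟨a, b, c, f, g⟩ := hG (mem_coe.2 hN)
  exact ⟨a, b, c, f, NN d e N, g, fun q hq hqZ => nm_of_notMem hq hqZ⟩

theorem card_le_floor {N : ℕ} {x : ℝ} (ho : Odd N) (hN0 : N ≠ 0) (hNx : (N : ℝ) ≤ x) :
    N.primeFactors.card ≤ ⌊Real.log x⌋₊ := by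
  have h1 : 3 ^ N.primeFactors.card ≤ N := by
    calc 3 ^ N.primeFactors.card = ∏ _q ∈ N.primeFactors, 3 := by rw [prod_const]
      _ ≤ ∏ q ∈ N.primeFactors, q := by
          refine prod_le_prod' fun q hq => ?_
          have := two_lt ho hq
          omega
      _ ≤ N := Nat.le_of_dvd (Nat.pos_of_ne_zero hN0) (Nat.prod_primeFactors_dvd N)
  have h2 : ((3 : ℝ)) ^ N.primeFactors.card ≤ x := le_trans (by exact_mod_cast h1) hNx
  have h3 : (N.primeFactors.card : ℝ) * Real.log 3 ≤ Real.log x := by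
    rw [← Real.log_pow]
    exact Real.log_le_log (by positivity) h2
  have hl3 : 1 ≤ Real.log 3 := by
    rw [Real.le_log_iff_exp_le (by norm_num)]
    have := Real.exp_one_lt_d9
    linarith
  apply Nat.le_floor
  have h5 : (0 : ℝ) ≤ (N.primeFactors.card : ℝ) := by positivity
  nlinarith

/-- up to `x`, with fixed `d`, `e` -/
theorem gen_x (d e K : ℕ) (x : ℝ) (hx : 3 ≤ x) :
    ({N : ℕ | (N : ℝ) ≤ x ∧ Odd N ∧ N.Perfect ∧ (NN d e N).card ≤ K}.ncard : ℝ) ≤
      3 * 5 ^ K * (Real.log x) ^ (3 * K + 1) := by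
  set L := ⌊Real.log x⌋₊ with hL
  have h1 := gen_omega d e L L K
  have hsub : {N : ℕ | (N : ℝ) ≤ x ∧ Odd N ∧ N.Perfect ∧ (NN d e N).card ≤ K} ⊆
      {N : ℕ | Odd N ∧ N.Perfect ∧ N.primeFactors.card ≤ L ∧
      (∀ q ∈ N.primeFactors, N.factorization q ≤ L) ∧ (NN d e N).card ≤ K} := by
    rintro N ⟨a, b, c, f⟩
    exact ⟨b, c, card_le_floor b c.2.ne' a, fun q _ => fac_le_log hx b a, f⟩
  have h2 := (Set.ncard_le_ncard hsub h1.1).trans h1.2
  have hl := (log_floor hx).1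
  rw [← hL] at hl
  calc _ ≤ ((3 * L * (5 * L ^ 2 * L) ^ K : ℕ) : ℝ) := (Nat.cast_le (α := ℝ)).2 h2
    _ = 3 * 5 ^ K * (L : ℝ) ^ (3 * K + 1) := by
        have e1 : (L : ℝ) ^ (3 * K + 1) = ((L : ℝ) ^ 3) ^ K * L := by
          rw [pow_add, pow_mul, pow_one]
        push_cast
        rw [e1, show (5 * (L : ℝ) ^ 2 * L) = 5 * (L : ℝ) ^ 3 by ring, mul_pow]
        ring
    _ ≤ 3 * 5 ^ K * (Real.log x) ^ (3 * K + 1) := by gcongr

/-- replacing an exponent which does not occur -/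
theorem NN_replace {d e N L : ℕ} (hfac : ∀ q, N.factorization q ≤ L) :
    ∃ d' ∈ range (L + 1), ∃ e' ∈ range (L + 1), NN d' e' N ⊆ NN d e N := by
  have key : ∀ d e : ℕ, L < d → NN e e N ⊆ NN d e N := by
    intro d e hd q hq
    obtain ⟨h1, h2⟩ := mem_filter.1 hq
    refine mem_filter.2 ⟨h1, fun ⟨a, b, c⟩ => h2 ⟨?_, ?_, c⟩⟩
    · rcases a with a | a
      · exact absurd (hfac q) (by omega)
      · exact Or.inl a
    · intro hd2
      rcases (Nat.Prime.dvd_mul (Nat.prime_of_mem_primeFactors h1)).1 hd2 with h | h <;>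
      exact b (h.mul_left _)
  have comm : ∀ d e : ℕ, NN d e N = NN e d N := by
    intro d e
    unfold NN
    refine filter_congr fun q _ => ?_
    rw [or_comm, mul_comm]
  by_cases hd : d ≤ L
  · by_cases he : e ≤ L
    · exact ⟨d, mem_range.2 (by omega), e, mem_range.2 (by omega), Subset.refl _⟩
    · refine ⟨d, mem_range.2 (by omega), d, mem_range.2 (by omega), ?_⟩
      rw [comm d e]
      exact key e d (by omega)
  · by_cases he : e ≤ L
    · exact ⟨e, mem_range.2 (by omega), e, mem_range.2 (by omega), key d e (by omega)⟩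
    · refine ⟨0, mem_range.2 (by omega), 0, mem_range.2 (by omega), ?_⟩
      intro q hq
      obtain ⟨h1, h2⟩ := mem_filter.1 hq
      refine mem_filter.2 ⟨h1, fun ⟨a, b, c⟩ => ?_⟩
      have := hfac q
      omega

/-- up to `x`, for some `d`, `e` -/
theorem gen_all (K : ℕ) (x : ℝ) (hx : 3 ≤ x) :
    ({N : ℕ | (N : ℝ) ≤ x ∧ Odd N ∧ N.Perfect ∧ ∃ d e : ℕ, (NN d e N).card ≤ K}.ncard : ℝ) ≤
      12 * 5 ^ K * (Real.log x) ^ (3 * K + 3) := by
  classical
  set L := ⌊Real.log x⌋₊ with hL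
  have key : ∀ G : Finset ℕ, (G : Set ℕ) ⊆
      {N : ℕ | (N : ℝ) ≤ x ∧ Odd N ∧ N.Perfect ∧ ∃ d e : ℕ, (NN d e N).card ≤ K} →
      G.card ≤ ((L + 1) * (L + 1)) * (3 * L * (5 * L ^ 2 * L) ^ K) := by
    intro G hG
    have h1 : G ⊆ (range (L + 1) ×ˢ range (L + 1)).biUnion
        (fun z => G.filter (fun N => (NN z.1 z.2 N).card ≤ K)) := by
      intro N hN
      obtain ⟨a, b, c, d, e, f⟩ := hG (mem_coe.2 hN)
      obtain ⟨d', hd', e', he', h⟩ := NN_replace (d := d) (e := e)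
        (fun q => fac_le_log (q := q) hx b a)
      exact mem_biUnion.2 ⟨(d', e'), mem_product.2 ⟨hd', he'⟩, mem_filter.2
        ⟨hN, (card_le_card h).trans f⟩⟩
    refine (card_le_card h1).trans (card_biUnion_le.trans ?_)
    refine (sum_le_card_nsmul _ _ (3 * L * (5 * L ^ 2 * L) ^ K) fun z _ => ?_).trans ?_
    · refine gen_card (E := {z.1, z.2}) card_le_two L L K _ fun N hN => ?_
      obtain ⟨hNG, hNK⟩ := mem_filter.1 hN
      obtain ⟨a, b, c, -⟩ := hG (mem_coe.2 hNG)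
      exact ⟨b, c, card_le_floor b c.2.ne' a, fun q _ => fac_le_log hx b a, NN z.1 z.2 N, hNK,
        fun q hq hqZ => nm_of_notMem hq hqZ⟩
    · simp
  obtain ⟨-, h2⟩ := finite_of_bound key
  have hl := log_floor hx
  rw [← hL] at hl
  have hlog : 0 ≤ Real.log x := Real.log_nonneg (by linarith)
  calc _ ≤ ((((L + 1) * (L + 1)) * (3 * L * (5 * L ^ 2 * L) ^ K) : ℕ) : ℝ) :=
        (Nat.cast_le (α := ℝ)).2 h2
    _ = (((L : ℝ) + 1) * ((L : ℝ) + 1)) * (3 * 5 ^ K * (L : ℝ) ^ (3 * K + 1)) := by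
        have e1 : (L : ℝ) ^ (3 * K + 1) = ((L : ℝ) ^ 3) ^ K * L := by
          rw [pow_add, pow_mul, pow_one]
        push_cast
        rw [e1, show (5 * (L : ℝ) ^ 2 * L) = 5 * (L : ℝ) ^ 3 by ring, mul_pow]
        ring
    _ ≤ ((2 * Real.log x) * (2 * Real.log x)) * (3 * 5 ^ K * (Real.log x) ^ (3 * K + 1)) := by
        have := hl.1
        have := hl.2
        gcongr
    _ = 12 * 5 ^ K * (Real.log x) ^ (3 * K + 3) := by
        rw [show 3 * K + 3 = (3 * K + 1) + 2 by ring, pow_add _ (3 * K + 1) 2]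
        ring

end Pool.Agent.TC
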