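import Pool.Agent.Lib.MP_f02ea4_nt.TC.Rigid

/-!
# Rigidity for sets of exponents
`P1 E`: each prime which divides some `a + 1`, `a ∈ E`, divides all of them but at most one.
-/

set_option autoImplicit false

namespace Pool.Agent.TC

open Finset Nat Pool.Agent.BE

/-- each prime which divides one of the numbers `a + 1`, `a ∈ E`, divides all of them except at
most one -/
def P1 (E : Set ℕ) : Prop := ∀ l : ℕ, l.Prime → ∀ a ∈ E, l ∣ a + 1 →
  ∀ b ∈ E, ∀ c ∈ E, ¬ l ∣ b + 1 → ¬ l ∣ c + 1 → b = c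

theorem P1_of_card {E : Finset ℕ} (hE2 : E.card ≤ 2) : P1 (E : Set ℕ) := by
  intro l _ a ha hla b hb c hc hlb hlc
  by_contra hbc
  have h1 : ({a, b, c} : Finset ℕ) ⊆ E := by
    intro x hx
    simp only [mem_insert, mem_singleton] at hx
    rcases hx with rfl | rfl | rfl
    · exact ha
    · exact hb
    · exact hc
  have hab : a ≠ b := fun h => hlb (h ▸ hla)
  have hac : a ≠ c := fun h => hlc (h ▸ hla)
  have h2 : ({a, b, c} : Finset ℕ).card = 3 := by
    rw [card_insert_of_notMem (by simp [hab, hac]), card_insert_of_notMem (by simp [hbc]),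
      card_singleton]
  have h3 := card_le_card h1
  omega

/-- a prime `r ∤ a + 1`, `r ≢ 1 (mod l)` for all primes `l ∣ a + 1`, does not divide
`σ(q ^ a)` -/
theorem not_dvd_s {E : Set ℕ} {N q r : ℕ} (hv : N.factorization q ∈ E) (hr : r.Prime)
    (hrL : ∀ a ∈ E, ¬ r ∣ a + 1) (h : ∀ a ∈ E, ¬ One a r) : ¬ r ∣ s N q := by
  intro hd
  rcases head_order (Nat.succ_pos _) hr hd with h1 | ⟨l, hl, h1, h2⟩
  · exact hrL _ hv h1
  · exact h _ hv ⟨l, hl, h1, h2⟩

/-- the exponent of `r` is determined by `U N S` if no prime outside of `S` feeds it -/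
theorem fac_of_S {N : ℕ} (ho : Odd N) (hN : N.Perfect) {S : Finset ℕ}
    (hS : S ⊆ N.primeFactors) {r : ℕ} (hr : r ∈ N.primeFactors)
    (h : ∀ q ∈ N.primeFactors, q ∉ S → ¬ r ∣ s N q) :
    (ArithmeticFunction.sigma 1 (U N S)).factorization r = N.factorization r := by
  rw [sigma_U hS, Nat.factorization_prod_apply fun q _ => (s_pos N q).ne',
    ← sum_fac_odd ho hN (r := r) (by have := two_lt ho hr; omega)]
  exact sum_subset hS fun q hq hqS => Nat.factorization_eq_zero_of_not_dvd (h q hq hqS)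

/-- **Rigidity.** -/
theorem rigidS {E : Set ℕ} (hE : P1 E) {N N' : ℕ} (ho : Odd N) (hN : N.Perfect)
    (ho' : Odd N') (hN' : N'.Perfect) (hne : (CC N N').Nonempty)
    (h : ∀ q ∈ N.primeFactors, q ∉ CC N N' → N.factorization q ∈ E ∧ (∀ a ∈ E, ¬ q ∣ a + 1) ∧
      ¬ One (N.factorization q) q)
    (h' : ∀ q ∈ N'.primeFactors, q ∉ CC N N' → N'.factorization q ∈ E ∧
      (∀ a ∈ E, ¬ q ∣ a + 1) ∧ ¬ One (N'.factorization q) q) : N = N' := by
  by_cases h1 : CC N N' = N.primeFactors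
  · exact eq_of_CC ho hN ho' hN' h1
  by_cases h2 : CC N N' = N'.primeFactors
  · exact (eq_of_CC ho' hN' ho hN (by rw [CC_comm, h2])).symm
  exfalso
  set S := CC N N' with hS
  have hU : U N S = U N' S := U_CC N N'
  have hr := nxt_cases ho hN (CC_left N N')
  have hr' := nxt_cases ho' hN' (CC_right N N')
  have hne1 := nxt_ne_one ho hN (CC_left N N') hne h1
  rw [← hS] at hr hr' hne1
  rw [← hU] at hr'
  obtain ⟨a1, a2, a3⟩ := hr.resolve_left hne1
  obtain ⟨b1, b2, b3⟩ := hr'.resolve_left hne1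
  set r := nxt (U N S) with hrdef
  obtain ⟨c1, c2, c3⟩ := h r a1 a2
  obtain ⟨d1, d2, d3⟩ := h' r b1 b2
  have hrp := Nat.prime_of_mem_primeFactors a1
  refine a2 (mem_filter.2 ⟨a1, b1, ?_⟩)
  by_cases hex : ∃ a ∈ E, One a r
  · obtain ⟨a, ha, l, hl, hla, hlr⟩ := hex
    exact hE l hl a ha hla _ c1 _ d1 (fun hh => c3 ⟨l, hl, hh, hlr⟩) (fun hh => d3 ⟨l, hl, hh, hlr⟩)
  · push Not at hex
    have e1 := fac_of_S ho hN (CC_left N N') a1
      (fun q hq hqS => not_dvd_s (h q hq hqS).1 hrp c2 hex)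
    have e2 := fac_of_S ho' hN' (CC_right N N') b1
      (fun q hq hqS => not_dvd_s (h' q hq hqS).1 hrp d2 hex)
    rw [← hS] at e1 e2
    rw [← e1, ← e2, hU]

/-- rigidity with a common unitary divisor `D` -/
theorem rigidS_dvd {E : Set ℕ} (hE : P1 E) {N N' D : ℕ} (ho : Odd N) (hN : N.Perfect)
    (ho' : Odd N') (hN' : N'.Perfect) (hD : 1 < D) (hDN : D ∣ N) (hDN' : D ∣ N')
    (hc : Nat.Coprime D (N / D)) (hc' : Nat.Coprime D (N' / D))
    (h : ∀ q ∈ (N / D).primeFactors, N.factorization q ∈ E ∧ (∀ a ∈ E, ¬ q ∣ a + 1) ∧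
      Nat.Coprime (q - 1) (N.factorization q + 1))
    (h' : ∀ q ∈ (N' / D).primeFactors, N'.factorization q ∈ E ∧ (∀ a ∈ E, ¬ q ∣ a + 1) ∧
      Nat.Coprime (q - 1) (N'.factorization q + 1)) : N = N' := by
  have hsub : D.primeFactors ⊆ CC N N' := by
    intro q hq
    have hqp := Nat.prime_of_mem_primeFactors hq
    have hqD := Nat.dvd_of_mem_primeFactors hq
    refine mem_filter.2 ⟨Nat.mem_primeFactors.2 ⟨hqp, hqD.trans hDN, hN.2.ne'⟩,
      Nat.mem_primeFactors.2 ⟨hqp, hqD.trans hDN', hN'.2.ne'⟩, ?_⟩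
    rw [← fac_unitary hN.2.ne' hDN hc hq, ← fac_unitary hN'.2.ne' hDN' hc' hq]
  have key : ∀ {L : ℕ}, L ≠ 0 → D ∣ L →
      (∀ q ∈ (L / D).primeFactors, L.factorization q ∈ E ∧ (∀ a ∈ E, ¬ q ∣ a + 1) ∧
        Nat.Coprime (q - 1) (L.factorization q + 1)) →
      ∀ q ∈ L.primeFactors, q ∉ CC N N' → L.factorization q ∈ E ∧ (∀ a ∈ E, ¬ q ∣ a + 1) ∧
        ¬ One (L.factorization q) q := by
    intro L hL hDL hh q hq hqC
    have hqp := Nat.prime_of_mem_primeFactors hq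
    have hqD : ¬ q ∣ D := fun h1 => hqC (hsub (Nat.mem_primeFactors.2 ⟨hqp, h1, by omega⟩))
    have h1 : q ∈ (L / D).primeFactors := by
      have h2 : L = D * (L / D) := (Nat.mul_div_cancel' hDL).symm
      have h3 : q ∣ D * (L / D) := by rw [← h2]; exact Nat.dvd_of_mem_primeFactors hq
      refine Nat.mem_primeFactors.2 ⟨hqp, ((Nat.Prime.dvd_mul hqp).1 h3).resolve_left hqD, ?_⟩
      exact (Nat.div_pos (Nat.le_of_dvd (Nat.pos_of_ne_zero hL) hDL) (by omega)).ne'
    obtain ⟨a1, a2, a3⟩ := hh q h1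
    refine ⟨a1, a2, ?_⟩
    rintro ⟨l, hl, hl1, hl2⟩
    have h5 := Nat.dvd_gcd hl2 hl1
    rw [a3] at h5
    exact hl.one_lt.ne' (Nat.dvd_one.1 h5)
  refine rigidS hE ho hN ho' hN' ?_ (key hN.2.ne' hDN h) (key hN'.2.ne' hDN' h')
  obtain ⟨q, hq⟩ := Nat.nonempty_primeFactors.2 hD
  exact ⟨q, hsub hq⟩

/-- in a number prime to the numbers `a + 1` all primes with an exponent in `E` are normal -/
theorem normalS {E : Set ℕ} (hEe : ∀ a ∈ E, Even a) {N : ℕ} (hN : N.Perfect)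
    (hc : ∀ a ∈ E, Nat.Coprime N (a + 1)) {q : ℕ} (hq : q ∈ N.primeFactors)
    (hv : N.factorization q ∈ E) : (∀ a ∈ E, ¬ q ∣ a + 1) ∧ ¬ One (N.factorization q) q := by
  have key : ∀ l : ℕ, l.Prime → ∀ a ∈ E, l ∣ a + 1 → ¬ l ∣ N := by
    intro l hl a ha h0 h1
    have h2 := Nat.dvd_gcd h1 h0
    rw [hc a ha] at h2
    exact hl.one_lt.ne' (Nat.dvd_one.1 h2)
  refine ⟨fun a ha h => key q (Nat.prime_of_mem_primeFactors hq) a ha h
    (Nat.dvd_of_mem_primeFactors hq), ?_⟩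
  rintro ⟨l, hl, hl1, hl2⟩
  have h1 : l ∣ s N q := dvd_G_of_one (Nat.prime_of_mem_primeFactors hq).one_lt.le hl2 hl1
  have h2 : l ≠ 2 := by
    rintro rfl
    obtain ⟨m, hm⟩ := hEe _ hv
    omega
  exact key l hl _ hv hl1 (Nat.dvd_of_mem_primeFactors (head_mem hN hq hl h1 h2))

/-- the class: all exponents but that of `p` are in `E`, prime to the numbers `a + 1` -/
structure ClsS (E : Set ℕ) (N p : ℕ) : Prop where
  odd : Odd N
  perf : N.Perfect
  mem : ∀ q ∈ N.primeFactors, q ≠ p → N.factorization q ∈ E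
  cop : ∀ a ∈ E, Nat.Coprime N (a + 1)

/-- the exponent of a prime found from a part of `N`; `r ≠ p` -/
theorem fac_next {E : Set ℕ} (hEe : ∀ a ∈ E, Even a) {N p : ℕ} (hC : ClsS E N p) {S : Finset ℕ}
    (hS : S ⊆ N.primeFactors) {r : ℕ} (hr : r ∈ N.primeFactors) (hrp : r ≠ p)
    (hrd : r ∣ ArithmeticFunction.sigma 1 (U N S)) (h : ∀ a ∈ E, ¬ One a r) :
    (ArithmeticFunction.sigma 1 (U N S)).factorization r = N.factorization r := by
  have hrpr := Nat.prime_of_mem_primeFactors hr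
  have hv := hC.mem r hr hrp
  have hn := (normalS hEe hC.perf hC.cop hr hv).1
  have hq : ∀ q ∈ N.primeFactors, q ≠ p → ¬ r ∣ s N q := fun q hq hqp =>
    not_dvd_s (hC.mem q hq hqp) hrpr hn h
  have hpS : p ∈ S := by
    rw [sigma_U hS] at hrd
    obtain ⟨q, hqS, hqd⟩ := (Prime.dvd_finsetProd_iff hrpr.prime _).1 hrd
    by_cases hqp : q = p
    · exact hqp ▸ hqS
    · exact absurd hqd (hq q (hS hqS) hqp)
  exact fac_of_S hC.odd hC.perf hS hr fun q hqN hqS => hq q hqN fun hh => hqS (hh ▸ hpS)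

/-- **Dichotomy**: two numbers of the class with a common component are equal or the special
prime of one of them divides the other one, with another exponent -/
theorem dichotomy {E : Set ℕ} (hE : P1 E) (hEe : ∀ a ∈ E, Even a) {N N' p p' : ℕ}
    (hC : ClsS E N p) (hC' : ClsS E N' p') (hne : (CC N N').Nonempty) :
    N = N' ∨ (p ∣ N' ∧ N'.factorization p ≠ N.factorization p) ∨
      (p' ∣ N ∧ N.factorization p' ≠ N'.factorization p') := by
  by_cases h1 : CC N N' = N.primeFactors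
  · exact Or.inl (eq_of_CC hC.odd hC.perf hC'.odd hC'.perf h1)
  by_cases h2 : CC N N' = N'.primeFactors
  · exact Or.inl (eq_of_CC hC'.odd hC'.perf hC.odd hC.perf (by rw [CC_comm, h2])).symm
  right
  set S := CC N N' with hS
  have hU : U N S = U N' S := U_CC N N'
  have hr := nxt_cases hC.odd hC.perf (CC_left N N')
  have hr' := nxt_cases hC'.odd hC'.perf (CC_right N N')
  have hne1 := nxt_ne_one hC.odd hC.perf (CC_left N N') hne h1
  rw [← hS] at hr hr' hne1
  rw [← hU] at hr'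
  obtain ⟨a1, a2, a3⟩ := hr.resolve_left hne1
  obtain ⟨b1, b2, b3⟩ := hr'.resolve_left hne1
  set r := nxt (U N S) with hrdef
  have hdiff : N.factorization r ≠ N'.factorization r := fun hh =>
    a2 (mem_filter.2 ⟨a1, b1, hh⟩)
  by_cases hrp : r = p
  · left
    rw [← hrp]
    exact ⟨Nat.dvd_of_mem_primeFactors b1, hdiff.symm⟩
  by_cases hrp' : r = p'
  · right
    rw [← hrp']
    exact ⟨Nat.dvd_of_mem_primeFactors a1, hdiff⟩
  exfalso
  apply hdiff
  have c1 := hC.mem r a1 hrp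
  have d1 := hC'.mem r b1 hrp'
  have c2 := normalS hEe hC.perf hC.cop a1 c1
  have d2 := normalS hEe hC'.perf hC'.cop b1 d1
  by_cases hex : ∃ a ∈ E, One a r
  · obtain ⟨a, ha, l, hl, hla, hlr⟩ := hex
    exact hE l hl a ha hla _ c1 _ d1 (fun hh => c2.2 ⟨l, hl, hh, hlr⟩)
      (fun hh => d2.2 ⟨l, hl, hh, hlr⟩)
  · push Not at hex
    have e1 := fac_next hEe hC (CC_left N N') a1 hrp a3 hex
    have e2 := fac_next hEe hC' (CC_right N N') b1 hrp' (by rw [← hS, ← hU]; exact b3) hex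
    rw [← hS] at e1 e2
    rw [← e1, ← e2, hU]

end Pool.Agent.TC
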