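import Pool.Agent.Lib.MP_f02ea4_nt.TC.SixUnique
import Pool.Agent.Lib.MP_f02ea4_nt.TC.RigidS

/-!
# Odd perfect numbers free of sixth powers and prime to `15` with a common component
-/

set_option autoImplicit false

namespace Pool.Agent.TC

open Finset Nat Pool.Agent.BE

/-- a divisor of some `σ(q ^ v_q)` which is prime to `2` divides `N` -/
theorem dvd_of_dvd_s {N q l : ℕ} (hN : N.Perfect) (hq : q ∈ N.primeFactors) (hl : l.Prime)
    (h : l ∣ s N q) (h2 : l ≠ 2) : l ∣ N :=
  Nat.dvd_of_mem_primeFactors (head_mem hN hq hl h h2)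

/-- the Euler prime of an odd perfect number free of sixth powers and prime to `3` -/
theorem six_alpha {N p : ℕ} (ho : Odd N) (hN : N.Perfect) (h6 : ∀ n : ℕ, n ^ 6 ∣ N → n = 1)
    (h3 : ¬ 3 ∣ N) (hp : Odd (N.factorization p)) :
    p ∈ N.primeFactors ∧ N.factorization p = 1 ∧ p % 12 = 1 := by
  have hpN : p ∈ N.primeFactors := by
    rw [← Nat.support_factorization, Finsupp.mem_support_iff]
    rintro h
    rw [h] at hp
    exact absurd hp (by decide)
  have hpp := Nat.prime_of_mem_primeFactors hpN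
  have hp3 : p % 3 ≠ 0 := by
    intro h
    have h1 : 3 ∣ p := Nat.dvd_of_mod_eq_zero h
    exact h3 (h1.trans (Nat.dvd_of_mem_primeFactors hpN))
  have hno : ¬ 3 ∣ s N p := fun h => h3 (dvd_of_dvd_s hN hpN Nat.prime_three h (by norm_num))
  have hpo : p % 2 = 1 := by
    have := two_lt ho hpN
    exact Nat.odd_iff.1 (hpp.odd_of_ne_two (by omega))
  have h4 : ¬ 4 ∣ s N p := by
    intro h
    have h7 : 2 ≤ (s N p).factorization 2 :=
      (Nat.prime_two.pow_dvd_iff_le_factorization (s_pos N p).ne').1 (by simpa using h)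
    have h8 := sum_fac_two ho hN
    have h9 : (s N p).factorization 2 ≤ ∑ q ∈ N.primeFactors, (s N q).factorization 2 :=
      single_le_sum (f := fun q => (s N q).factorization 2) (fun _ _ => Nat.zero_le _) hpN
    omega
  rcases one_or_five ho hN (fac_le_five hN.2.ne' h6 hpp) hp with h1 | h1
  · rw [s, h1, G_two] at hno h4
    have e3 : p % 3 = 1 := by omega
    have e4 : p % 4 = 1 := by omega
    exact ⟨hpN, h1, by omega⟩
  · exfalso
    apply hno
    rw [s, h1, G_six]
    rcases (by omega : p % 3 = 1 ∨ p % 3 = 2) with h | h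
    · refine Dvd.dvd.mul_left ?_ _
      have h5 : p ^ 2 % 3 = 1 := by rw [Nat.pow_mod, h]
      simp only [G, sum_range_succ, range_zero, sum_empty]
      have h7 : (p ^ 2) ^ 2 % 3 = 1 := by rw [Nat.pow_mod, h5]
      have h8 : (p ^ 2) ^ 0 = 1 := pow_zero _
      have h9 : (p ^ 2) ^ 1 = p ^ 2 := pow_one _
      omega
    · refine Dvd.dvd.mul_right ?_ _
      omega

theorem six_cls {N p : ℕ} (ho : Odd N) (hN : N.Perfect) (h6 : ∀ n : ℕ, n ^ 6 ∣ N → n = 1)
    (hc : Nat.Coprime N 15) (hp : Odd (N.factorization p)) :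
    ClsS (({2, 4} : Finset ℕ) : Set ℕ) N p := by
  have h3 : ¬ 3 ∣ N := fun h => by
    have := Nat.dvd_gcd h (show 3 ∣ 15 by norm_num)
    rw [hc] at this
    omega
  obtain ⟨hpN, -, -⟩ := six_alpha ho hN h6 h3 hp
  refine ⟨ho, hN, fun q hq hqp => ?_, fun a ha => ?_⟩
  · have h1 := fac_le_five hN.2.ne' h6 (Nat.prime_of_mem_primeFactors hq)
    have h2 := fac_pos hq
    have h4 : ¬ Odd (N.factorization q) := fun h => hqp (odd_unique ho hN hpN hq hp h)
    rw [Nat.not_odd_iff_even, Nat.even_iff] at h4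
    simp only [coe_insert, coe_singleton, Set.mem_insert_iff, Set.mem_singleton_iff]
    omega
  · simp only [coe_insert, coe_singleton, Set.mem_insert_iff, Set.mem_singleton_iff] at ha
    rcases ha with rfl | rfl
    · exact Nat.Coprime.coprime_dvd_right (by norm_num) hc
    · exact Nat.Coprime.coprime_dvd_right (by norm_num) hc

/-- two different such numbers with a common component -/
theorem six_dichotomy {N N' p p' q : ℕ} (ho : Odd N) (hN : N.Perfect)
    (h6 : ∀ n : ℕ, n ^ 6 ∣ N → n = 1) (hc : Nat.Coprime N 15) (hp : Odd (N.factorization p))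
    (ho' : Odd N') (hN' : N'.Perfect) (h6' : ∀ n : ℕ, n ^ 6 ∣ N' → n = 1)
    (hc' : Nat.Coprime N' 15) (hp' : Odd (N'.factorization p'))
    (hq : q ∈ N.primeFactors) (hq' : q ∈ N'.primeFactors)
    (hv : N.factorization q = N'.factorization q) :
    N = N' ∨ N'.factorization p = 4 ∨ N.factorization p' = 4 := by
  have aux : ∀ {L r p : ℕ}, Odd L → L.Perfect → (∀ n : ℕ, n ^ 6 ∣ L → n = 1) →
      Nat.Coprime L 15 → Odd (L.factorization r) → p.Prime → p % 12 = 1 → p ∣ L → p ≠ r →
      L.factorization p = 4 := by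
    intro L r p hoL hL h6L hcL hr hpp hp12 hpL hpr
    have hC := six_cls hoL hL h6L hcL hr
    have hpL' : p ∈ L.primeFactors := Nat.mem_primeFactors.2 ⟨hpp, hpL, hL.2.ne'⟩
    have h1 := hC.mem p hpL' hpr
    simp only [coe_insert, coe_singleton, Set.mem_insert_iff, Set.mem_singleton_iff] at h1
    rcases h1 with h1 | h1
    · exfalso
      have h3 : 3 ∣ s L p := by
        rw [s, h1]
        simp only [G, sum_range_succ, range_zero, sum_empty]
        have h2 : p ^ 2 % 3 = 1 := by
          rw [Nat.pow_mod, show p % 3 = 1 by omega]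
        have h8 : p ^ 0 = 1 := pow_zero _
        have h9 : p ^ 1 = p := pow_one _
        omega
      have h4 := dvd_of_dvd_s hL hpL' Nat.prime_three h3 (by norm_num)
      have h5 := Nat.dvd_gcd h4 (show 3 ∣ 15 by norm_num)
      rw [hcL] at h5
      omega
    · exact h1
  have h3 : ∀ {L : ℕ}, Nat.Coprime L 15 → ¬ 3 ∣ L := fun {L} hcL h => by
    have := Nat.dvd_gcd h (show 3 ∣ 15 by norm_num)
    rw [hcL] at this
    omega
  obtain ⟨a1, a2, a3⟩ := six_alpha ho hN h6 (h3 hc) hp
  obtain ⟨b1, b2, b3⟩ := six_alpha ho' hN' h6' (h3 hc') hp'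
  by_cases hpp : p = p'
  · left
    exact six_unique ho hN ho' hN' h6 h6' hc hc' hp (hpp ▸ hp')
  rcases dichotomy (P1_of_card (E := {2, 4}) card_le_two) (by
      intro a ha
      simp only [coe_insert, coe_singleton, Set.mem_insert_iff, Set.mem_singleton_iff] at ha
      rcases ha with rfl | rfl <;> decide)
    (six_cls ho hN h6 hc hp) (six_cls ho' hN' h6' hc' hp')
    ⟨q, mem_filter.2 ⟨hq, hq', hv⟩⟩ with h | h | h
  · exact Or.inl h
  · exact Or.inr (Or.inl (aux ho' hN' h6' hc' hp' (Nat.prime_of_mem_primeFactors a1) a3 h.1 hpp))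
  · exact Or.inr (Or.inr (aux ho hN h6 hc hp (Nat.prime_of_mem_primeFactors b1) b3 h.1
      (Ne.symm hpp)))

end Pool.Agent.TC
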