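import Pool.Agent.Lib.MP_f02ea4_nt.TC.SixMain

/-!
# Finiteness as a finite computation
-/

set_option autoImplicit false

namespace Pool.Agent.TC

open Finset Nat Pool.Agent.BE

/-- There is `M` such that there are only finitely many odd perfect numbers free of sixth powers and
prime to `15`, if for all primes `5 < q ≤ M` and `a = 2`, `4` the steps from `q ^ a` lead to `3`, `5`
or a prime which is `1` modulo `15`. -/
theorem six_check (hT : Thin) : ∃ M : ℕ,
    (∀ q ≤ M, q.Prime → 5 < q → ∀ a : ℕ, (a = 2 ∨ a = 4) → ∃ r x : ℕ, r.Prime ∧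
      r ∣ ArithmeticFunction.sigma 1 (q ^ a) ∧
      Relation.ReflTransGen (fun a b : ℕ => b.Prime ∧
        b ∣ ArithmeticFunction.sigma 1 (a ^ (if a % 3 = 1 then 4 else 2))) r x ∧
      (x = 3 ∨ x = 5 ∨ x % 15 = 1)) →
    {N : ℕ | Odd N ∧ N.Perfect ∧ (∀ n : ℕ, n ^ 6 ∣ N → n = 1) ∧ Nat.Coprime N 15}.Finite := by
  classical
  obtain ⟨M, hM⟩ := least_le hT 4
  refine ⟨M, fun H => ?_⟩
  refine (six_main hT M).subset ?_
  rintro N ⟨ho, hN, h6, hc⟩
  obtain ⟨p, hpN, hp⟩ := exists_odd ho hN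
  refine ⟨ho, hN, h6, hc, p, hp, ?_⟩
  rintro ⟨h60, -, hF⟩
  have hC := six_cls ho hN h6 hc hp
  have hmem : ∀ q ∈ N.primeFactors, q ≠ p → N.factorization q = 2 ∨ N.factorization q = 4 := by
    intro q hq hqp
    have h1 := hC.mem q hq hqp
    simpa only [coe_insert, coe_singleton, Set.mem_insert_iff, Set.mem_singleton_iff] using h1
  have hq0 := minFac_mem ho hN
  have hq0p := Nat.prime_of_mem_primeFactors hq0
  have hle : N.minFac ≤ M := hM N p ho hN fun q hq hqp => by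
    rcases hmem q hq hqp with h | h <;> omega
  have h5 : 5 < N.minFac := by
    have h7 : ∀ l, l.Prime → l ∣ N → l ≠ 2 ∧ l ≠ 3 ∧ l ≠ 5 := by
      intro l hl hlN
      have hcl : Nat.Coprime l 15 := Nat.Coprime.coprime_dvd_left hlN hc
      refine ⟨?_, ?_, ?_⟩
      · rintro rfl
        exact (Nat.not_even_iff_odd.2 ho) (even_iff_two_dvd.2 hlN)
      · rintro rfl
        revert hcl
        decide
      · rintro rfl
        revert hcl
        decide
    obtain ⟨h8, h9, h10⟩ := h7 _ hq0p (Nat.minFac_dvd N)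
    have h11 := hq0p.two_le
    by_contra hlt
    rw [not_lt] at hlt
    have h12 : N.minFac = 4 := by omega
    rw [h12] at hq0p
    exact absurd hq0p (by decide)
  have key : ∀ x : ℕ, (x = 3 ∨ x = 5 ∨ x % 15 = 1) →
      ¬ (x % 15 = 4 ∨ x % 15 = 7 ∨ x % 15 = 11 ∨ x % 15 = 13) := by
    intro x hx
    omega
  by_cases h0 : N.minFac = p
  · have hp3 : p % 3 = 1 := by omega
    obtain ⟨r, x, hr, hrd, hrx, hx⟩ := H _ hle hq0p h5 4 (Or.inr rfl)
    rw [h0] at hrd
    have h1 := hF {x} fun z hz => ⟨p, Or.inl rfl, by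
      rw [mem_singleton.1 hz]
      refine Relation.ReflTransGen.head ⟨hr, ?_⟩ hrx
      rw [if_pos hp3]
      exact hrd⟩
    obtain ⟨N', -, -, -, -, -, hv⟩ := h1.nonempty
    exact key x hx (hv x (mem_singleton_self x)).2
  · obtain ⟨r, x, hr, hrd, hrx, hx⟩ := H _ hle hq0p h5 _ (hmem _ hq0 h0)
    have h1 := hF {x} fun z hz => ⟨r, Or.inr ⟨N.minFac, hq0, hle, hr, hrd⟩, by
      rw [mem_singleton.1 hz]
      exact hrx⟩
    obtain ⟨N', -, -, -, -, -, hv⟩ := h1.nonempty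
    exact key x hx (hv x (mem_singleton_self x)).2

/-- There is `M` such that `T(d, e, B)` is finite for all `B`, if for all primes `q ≤ M`,
`q ∤ 2 (d + 1) (e + 1)` and `a = d`, `e` the steps from `(q, a)` lead to a pair `(l, c)` with `c > 0`,
`l ∣ (d + 1) (e + 1)`, or to two pairs `(l, c)`, `(l, c')` with `c ≠ c'`. -/
theorem pair_check (hT : Thin) (d e : ℕ) (hd : Even d) (he : Even e) : ∃ M : ℕ,
    (∀ q ≤ M, q.Prime → Nat.Coprime q (2 * ((d + 1) * (e + 1))) → ∀ a : ℕ, (a = d ∨ a = e) →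
      ∃ z w : ℕ × ℕ,
        Relation.ReflTransGen (fun z w : ℕ × ℕ => w.1.Prime ∧
          w.1 ∣ ArithmeticFunction.sigma 1 (z.1 ^ z.2) ∧ w.2 = d + e - z.2) (q, a) z ∧
        Relation.ReflTransGen (fun z w : ℕ × ℕ => w.1.Prime ∧
          w.1 ∣ ArithmeticFunction.sigma 1 (z.1 ^ z.2) ∧ w.2 = d + e - z.2) (q, a) w ∧
        ((0 < z.2 ∧ z.1 ∣ (d + 1) * (e + 1)) ∨ (z.1 = w.1 ∧ z.2 ≠ w.2))) →
    ∀ B : ℕ, {N : ℕ | Odd N ∧ N.Perfect ∧ Nat.Coprime N ((d + 1) * (e + 1)) ∧ ∃ p : ℕ,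
      N.factorization p ≤ B ∧
      ∀ q ∈ N.primeFactors, q ≠ p → N.factorization q = d ∨ N.factorization q = e}.Finite := by
  classical
  obtain ⟨M, hM⟩ := least_le hT (d + e)
  refine ⟨M, fun H B => ?_⟩
  refine (pair_main hT d e B M hd he).subset ?_
  rintro N ⟨ho, hN, hc, p, hpB, hpe⟩
  refine ⟨ho, hN, hc, p, hpB, hpe, ?_⟩
  rintro ⟨-, a, ha, -, hF⟩
  have hq0 := minFac_mem ho hN
  have hq0p := Nat.prime_of_mem_primeFactors hq0
  have hle : N.minFac ≤ M := hM N p ho hN fun q hq hqp => by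
    rcases hpe q hq hqp with h | h <;> omega
  have hcop : Nat.Coprime N.minFac (2 * ((d + 1) * (e + 1))) := by
    refine Nat.Coprime.mul_right ?_ (Nat.Coprime.coprime_dvd_left (Nat.minFac_dvd N) hc)
    exact Nat.Coprime.coprime_dvd_left (Nat.minFac_dvd N) ho.coprime_two_right
  have key : ∀ b : ℕ, (b = d ∨ b = e) →
      ¬ (∀ F : Finset (ℕ × ℕ), (∀ z ∈ F, Relation.ReflTransGen (fun z w : ℕ × ℕ => w.1.Prime ∧
          w.1 ∣ ArithmeticFunction.sigma 1 (z.1 ^ z.2) ∧ w.2 = d + e - z.2) (N.minFac, b) z) →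
        ∃ N' : ℕ, Nat.Coprime N' ((d + 1) * (e + 1)) ∧ ∀ z ∈ F, N'.factorization z.1 = z.2) := by
    intro b hb hall
    obtain ⟨z, w, hz, hw, h⟩ := H _ hle hq0p hcop b hb
    obtain ⟨N', hc', hv⟩ := hall {z, w} (by
      intro x hx
      rcases mem_insert.1 hx with h1 | h1
      · rw [h1]; exact hz
      · rw [mem_singleton.1 h1]; exact hw)
    have hvz := hv z (mem_insert_self _ _)
    have hvw := hv w (mem_insert_of_mem (mem_singleton_self _))
    rcases h with ⟨h1, h2⟩ | ⟨h1, h2⟩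
    · rw [← hvz] at h1
      have h3 : z.1 ∈ N'.primeFactors := by
        rw [← Nat.support_factorization, Finsupp.mem_support_iff]
        exact h1.ne'
      have h4 := Nat.prime_of_mem_primeFactors h3
      have h5 : z.1 ∣ 1 := by
        rw [← hc']
        exact Nat.dvd_gcd (Nat.dvd_of_mem_primeFactors h3) h2
      exact h4.one_lt.ne' (Nat.dvd_one.1 h5)
    · rw [← hvz, ← hvw, h1] at h2
      exact h2 rfl
  by_cases h0 : N.minFac = p
  · refine key a ha fun F hF' => ?_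
    obtain ⟨N', -, -, h3, -, -, -, h7⟩ := (hF F fun z hz => ⟨(p, a), Or.inl rfl, by
      rw [← h0]; exact hF' z hz⟩).nonempty
    exact ⟨N', h3, h7⟩
  · refine key (N.factorization N.minFac) (hpe _ hq0 h0) fun F hF' => ?_
    obtain ⟨N', -, -, h3, -, -, -, h7⟩ := (hF F fun z hz =>
      ⟨(N.minFac, N.factorization N.minFac), Or.inr ⟨hq0, hle, h0, rfl⟩, hF' z hz⟩).nonempty
    exact ⟨N', h3, h7⟩

end Pool.Agent.TC
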