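import Pool.Agent.Lib.MP_f02ea4_nt.TC.FinE

/-!
# The components reached from the special prime occur in infinitely many numbers of the class
-/

set_option autoImplicit false

namespace Pool.Agent.TC

open Finset Nat Pool.Agent.BE

/-- one step: from `q ^ a` to `l ^ (d + e - a)`, `l` a prime factor of `σ(q ^ a)` -/
def StepP (d e : ℕ) (z w : ℕ × ℕ) : Prop :=
  w.1.Prime ∧ w.1 ∣ ArithmeticFunction.sigma 1 (z.1 ^ z.2) ∧ w.2 = d + e - z.2

/-- a path uses finitely many components -/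
theorem exists_pathP {d e : ℕ} {a b : ℕ × ℕ} (h : Relation.ReflTransGen (StepP d e) a b) :
    ∃ W : Finset ℕ, a.1 ∈ W ∧
      Relation.ReflTransGen (fun x y => StepP d e x y ∧ y.1 ∈ W) a b := by
  classical
  induction h with
  | refl => exact ⟨{a.1}, mem_singleton_self _, Relation.ReflTransGen.refl⟩
  | @tail b c _ hbc ih =>
    obtain ⟨W, haW, hW⟩ := ih
    refine ⟨insert c.1 W, mem_insert_of_mem haW, Relation.ReflTransGen.tail (b := b) ?_
      ⟨hbc, mem_insert_self _ W⟩⟩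
    exact Relation.ReflTransGen.mono (r := fun x y => StepP d e x y ∧ y.1 ∈ W)
      (fun x y hxy => ⟨hxy.1, mem_insert_of_mem hxy.2⟩) _ _ hW

/-- the prime factors of `σ(x ^ v_x)` have the other exponent -/
theorem stepP_in {d e L r x l : ℕ} (hd : Even d) (he : Even e)
    (hC : ClsS (({d, e} : Finset ℕ) : Set ℕ) L r) (hx : x ∈ L.primeFactors) (hxr : x ≠ r)
    (hl : l.Prime) (h : l ∣ ArithmeticFunction.sigma 1 (x ^ L.factorization x)) (hlr : l ≠ r) :
    l ∈ L.primeFactors ∧ L.factorization l = d + e - L.factorization x := by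
  have hEe := even_pair hd he
  have hxp := Nat.prime_of_mem_primeFactors hx
  have hxo : Odd x := by
    have := two_lt hC.odd hx
    exact hxp.odd_of_ne_two (by omega)
  have hv := hC.mem x hx hxr
  rw [G_eq_sigma hxp] at h
  have hodd : Odd (s L x) := odd_s hxo (hEe _ hv)
  have hl2 : l ≠ 2 := by
    rintro rfl
    have h1 : 2 ∣ s L x := h
    rw [Nat.odd_iff] at hodd
    omega
  have hlL : l ∈ L.primeFactors := head_mem hC.perf hx hl h hl2
  have hvl := hC.mem l hlL hlr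
  have hnm := normalS hEe hC.perf hC.cop hlL hvl
  have hone : One (L.factorization x) l := by
    rcases head_order (Nat.succ_pos _) hl h with h1 | ⟨k, hk, h2, h3⟩
    · exact absurd h1 (hnm.1 _ hv)
    · exact ⟨k, hk, h2, h3⟩
  have hne : L.factorization l ≠ L.factorization x := by
    intro h1
    rw [← h1] at hone
    exact hnm.2 hone
  refine ⟨hlL, ?_⟩
  rcases mem_pair.1 hv with h1 | h1 <;> rcases mem_pair.1 hvl with h2 | h2 <;> omega

/-- a path which avoids the special prime stays in the number -/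
theorem pathP_in {d e L r : ℕ} {z w : ℕ × ℕ} (hd : Even d) (he : Even e)
    (hC : ClsS (({d, e} : Finset ℕ) : Set ℕ) L r) (hz : z.1 ∈ L.primeFactors)
    (hv : L.factorization z.1 = z.2) {W : Finset ℕ} (hzW : z.1 ∈ W) (hrW : r ∉ W)
    (hW : Relation.ReflTransGen (fun x y => StepP d e x y ∧ y.1 ∈ W) z w) :
    w.1 ∈ W ∧ w.1 ∈ L.primeFactors ∧ L.factorization w.1 = w.2 := by
  induction hW with
  | refl => exact ⟨hzW, hz, hv⟩
  | @tail b c _ hbc ih =>
    obtain ⟨h1, h2, h3⟩ := ih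
    obtain ⟨⟨hcp, hcd, hce⟩, hcW⟩ := hbc
    rw [← h3] at hcd hce
    obtain ⟨h4, h5⟩ := stepP_in hd he hC h2 (fun h => hrW (h ▸ h1)) hcp hcd
      fun h => hrW (h ▸ hcW)
    exact ⟨hcW, h4, h5.trans hce.symm⟩

/-- finitely many numbers of the class have a given special prime with a bounded exponent -/
theorem finite_special {E : Set ℕ} (hE : P1 E) (hEe : ∀ a ∈ E, Even a) (B z : ℕ) :
    {N : ℕ | ClsS E N z ∧ N.factorization z ≤ B}.Finite := by
  refine Set.Finite.of_injOn (f := fun N : ℕ => N.factorization z) (t := Set.Iic B)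
    (fun N hN => hN.2) ?_ (Set.finite_Iic B)
  rintro N ⟨hC, -⟩ N' ⟨hC', -⟩ heq
  obtain ⟨hz, -⟩ := special_mem' hEe hC
  obtain ⟨hz', -⟩ := special_mem' hEe hC'
  simp only at heq
  rcases dichotomy hE hEe hC hC' ⟨_, mem_filter.2 ⟨hz, hz', heq⟩⟩ with h | h | h
  · exact h
  · exact absurd heq.symm h.2
  · exact absurd heq h.2

/-- for all but finitely many numbers `N` of the class, with special prime `p`, there is a
`a ∈ {d, e}` such that every finite set of components reached from `p ^ a` and from the components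
`q ^ v_q`, `q ≤ y`, of `N` occurs in infinitely many numbers `N'` of the class which have the same
exponents as `N` at all `q ≤ y` -/
theorem persist_pair (hT : Thin) (d e B y : ℕ) (hd : Even d) (he : Even e) :
    {N : ℕ | Odd N ∧ N.Perfect ∧ Nat.Coprime N ((d + 1) * (e + 1)) ∧ ∃ p : ℕ,
      N.factorization p ≤ B ∧
      (∀ q ∈ N.primeFactors, q ≠ p → N.factorization q = d ∨ N.factorization q = e) ∧
      ∀ a : ℕ, (a = d ∨ a = e) → ∃ F : Finset (ℕ × ℕ),
        (∀ z ∈ F, ∃ w : ℕ × ℕ, (w = (p, a) ∨ (w.1 ∈ N.primeFactors ∧ w.1 ≤ y ∧ w.1 ≠ p ∧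
          w.2 = N.factorization w.1)) ∧
          Relation.ReflTransGen (fun z w : ℕ × ℕ => w.1.Prime ∧
            w.1 ∣ ArithmeticFunction.sigma 1 (z.1 ^ z.2) ∧ w.2 = d + e - z.2) w z) ∧
        {N' : ℕ | Odd N' ∧ N'.Perfect ∧ Nat.Coprime N' ((d + 1) * (e + 1)) ∧ (∃ p' : ℕ, p' ≠ p ∧
          N'.factorization p' ≤ B ∧ ∀ q ∈ N'.primeFactors, q ≠ p' →
            N'.factorization q = d ∨ N'.factorization q = e) ∧ p ∣ N' ∧
          (∀ q ≤ y, N'.factorization q = N.factorization q) ∧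
          ∀ z ∈ F, N'.factorization z.1 = z.2}.Finite}.Finite := by
  classical
  set E : Finset ℕ := {d, e} with hEdef
  have hE : P1 (E : Set ℕ) := P1_of_card (E := {d, e}) card_le_two
  have hEe : ∀ a ∈ (E : Set ℕ), Even a := even_pair hd he
  obtain ⟨C, κ, τ, hch⟩ := chains hT hE hEe
  set M : ℕ := max B (max d e) with hM
  let f : ℕ → Fin C × (Fin (y + 1) → Fin (M + 1)) := fun N =>
    (κ N, fun i => Fin.ofNat (M + 1) (N.factorization i))
  refine Set.Finite.of_finite_fibers f (Set.toFinite _) ?_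
  rintro c -
  by_contra hinf
  set S : Set ℕ := {N : ℕ | Odd N ∧ N.Perfect ∧ Nat.Coprime N ((d + 1) * (e + 1)) ∧ ∃ p : ℕ,
      N.factorization p ≤ B ∧
      (∀ q ∈ N.primeFactors, q ≠ p → N.factorization q = d ∨ N.factorization q = e) ∧
      ∀ a : ℕ, (a = d ∨ a = e) → ∃ F : Finset (ℕ × ℕ),
        (∀ z ∈ F, ∃ w : ℕ × ℕ, (w = (p, a) ∨ (w.1 ∈ N.primeFactors ∧ w.1 ≤ y ∧ w.1 ≠ p ∧
          w.2 = N.factorization w.1)) ∧
          Relation.ReflTransGen (fun z w : ℕ × ℕ => w.1.Prime ∧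
            w.1 ∣ ArithmeticFunction.sigma 1 (z.1 ^ z.2) ∧ w.2 = d + e - z.2) w z) ∧
        {N' : ℕ | Odd N' ∧ N'.Perfect ∧ Nat.Coprime N' ((d + 1) * (e + 1)) ∧ (∃ p' : ℕ, p' ≠ p ∧
          N'.factorization p' ≤ B ∧ ∀ q ∈ N'.primeFactors, q ≠ p' →
            N'.factorization q = d ∨ N'.factorization q = e) ∧ p ∣ N' ∧
          (∀ q ≤ y, N'.factorization q = N.factorization q) ∧
          ∀ z ∈ F, N'.factorization z.1 = z.2}.Finite} with hS
  set K : Set ℕ := S ∩ f ⁻¹' {c} with hK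
  have hKinf : K.Infinite := hinf
  obtain ⟨N, hNK, hmin⟩ := (InvImage.wf τ (wellFounded_lt (α := ℕ))).has_min K hKinf.nonempty
  obtain ⟨⟨ho, hN, hc, p, hpB, hpe, hF⟩, hfN⟩ := hNK
  have hC : ClsS (E : Set ℕ) N p := clsS_pair.2 ⟨ho, hN, hc, hpe⟩
  obtain ⟨hpN, hpodd⟩ := special_mem' hEe hC
  -- the sets and the paths
  choose! F hF1 hF2 using hF
  have hpaths : ∀ (a : ℕ) (z : ℕ × ℕ), ∃ W : Finset ℕ, (a = d ∨ a = e) → z ∈ F a →
      ∃ w : ℕ × ℕ, (w = (p, a) ∨ (w.1 ∈ N.primeFactors ∧ w.1 ≤ y ∧ w.1 ≠ p ∧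
        w.2 = N.factorization w.1)) ∧ w.1 ∈ W ∧
        Relation.ReflTransGen (fun x y => StepP d e x y ∧ y.1 ∈ W) w z := by
    intro a z
    by_cases hz : (a = d ∨ a = e) ∧ z ∈ F a
    · obtain ⟨w, h1, h2⟩ := hF1 a hz.1 z hz.2
      obtain ⟨W, h3, h4⟩ := exists_pathP (d := d) (e := e) h2
      exact ⟨W, fun _ _ => ⟨w, h1, h3, h4⟩⟩
    · exact ⟨∅, fun h1 h2 => absurd ⟨h1, h2⟩ hz⟩
  choose W hW using hpaths
  set Z : Finset ℕ := insert p (range (y + 1)) ∪ ((F d).biUnion (W d) ∪ (F e).biUnion (W e))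
    with hZ
  have hfin : (⋃ z ∈ (Z : Set ℕ), {N' : ℕ | ClsS (E : Set ℕ) N' z ∧
      N'.factorization z ≤ B}).Finite :=
    Set.Finite.biUnion (finite_toSet Z) fun z _ => finite_special hE hEe B z
  refine (hKinf.sdiff hfin) ((((hF2 d (Or.inl rfl)).union (hF2 e (Or.inr rfl)))).subset ?_)
  rintro N' ⟨hN'K, hN'n⟩
  obtain ⟨⟨ho', hN', hc', p', hp'B, hp'e, -⟩, hfN'⟩ := id hN'K
  have hC' : ClsS (E : Set ℕ) N' p' := clsS_pair.2 ⟨ho', hN', hc', hp'e⟩
  have hp'Z : p' ∉ Z := fun h => hN'n (Set.mem_biUnion (Finset.mem_coe.2 h) ⟨hC', hp'B⟩)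
  have hpp : p' ≠ p := fun h =>
    hp'Z (h ▸ mem_union_left _ (mem_insert_self p _))
  have hp'y : ¬ p' ≤ y := fun h => hp'Z (mem_union_left _ (mem_insert_of_mem
    (mem_range.2 (Nat.lt_succ_of_le h))))
  have hp'W : ∀ a : ℕ, (a = d ∨ a = e) → ∀ z ∈ F a, p' ∉ W a z := by
    intro a ha z hz h
    apply hp'Z
    apply mem_union_right
    rcases ha with rfl | rfl
    · exact mem_union_left _ (mem_biUnion.2 ⟨z, hz, h⟩)
    · exact mem_union_right _ (mem_biUnion.2 ⟨z, hz, h⟩)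
  have hf : f N = f N' := by
    have h1 : f N = c := hfN
    have h2 : f N' = c := hfN'
    rw [h1, h2]
  have hτ : τ N ≤ τ N' := not_lt.1 (hmin N' hN'K)
  have hdvd : p ∣ N' := hch N N' p p' hC hC' (congrArg Prod.fst hf) hτ
  have hpN' : p ∈ N'.primeFactors :=
    Nat.mem_primeFactors.2 ⟨Nat.prime_of_mem_primeFactors hpN, hdvd, hN'.2.ne'⟩
  have hbd : ∀ {L r : ℕ}, ClsS (E : Set ℕ) L r → L.factorization r ≤ B → ∀ q : ℕ,
      L.factorization q < M + 1 := by
    intro L r hL hr q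
    by_cases hq : q ∈ L.primeFactors
    · by_cases hqr : q = r
      · rw [hqr]
        exact Nat.lt_succ_of_le (hr.trans (le_max_left _ _))
      · rcases mem_pair.1 (hL.mem q hq hqr) with h | h <;> rw [h] <;> omega
    · rw [← Nat.support_factorization, Finsupp.notMem_support_iff] at hq
      omega
  have hsame : ∀ q ≤ y, N'.factorization q = N.factorization q := by
    intro q hqy
    have h1 := congrFun (congrArg Prod.snd hf) ⟨q, Nat.lt_succ_of_le hqy⟩
    simp only [f] at h1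
    have h4 := congrArg Fin.val h1
    simp only [Fin.val_ofNat] at h4
    rw [Nat.mod_eq_of_lt (hbd hC hpB q), Nat.mod_eq_of_lt (hbd hC' hp'B q)] at h4
    exact h4.symm
  have hmem := mem_pair.1 (hC'.mem p hpN' hpp.symm)
  have key : ∀ a : ℕ, (a = d ∨ a = e) → N'.factorization p = a →
      ∀ z ∈ F a, N'.factorization z.1 = z.2 := by
    intro a ha hva z hz
    obtain ⟨w, h1, h2, h3⟩ := hW a z ha hz
    have hw : w.1 ∈ N'.primeFactors ∧ N'.factorization w.1 = w.2 := by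
      rcases h1 with h1 | ⟨h4, h5, h6, h7⟩
      · rw [h1]
        exact ⟨hpN', hva⟩
      · have h8 := hsame w.1 h5
        have h9 := fac_pos h4
        refine ⟨?_, h8.trans h7.symm⟩
        rw [← Nat.support_factorization, Finsupp.mem_support_iff]
        omega
    exact (pathP_in hd he hC' hw.1 hw.2 h2 (hp'W a ha z hz) h3).2.2
  rcases hmem with h | h
  · exact Or.inl ⟨ho', hN', hc', ⟨p', hpp, hp'B, hp'e⟩, hdvd, hsame, key d (Or.inl rfl) h⟩
  · exact Or.inr ⟨ho', hN', hc', ⟨p', hpp, hp'B, hp'e⟩, hdvd, hsame, key e (Or.inr rfl) h⟩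

end Pool.Agent.TC
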