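import Pool.Agent.Lib.MP_f02ea4_nt.TC.Reach
import Pool.Agent.Lib.MP_f02ea4_nt.TC.Persist

/-!
# All but finitely many numbers: the statements without definitions
-/

set_option autoImplicit false

namespace Pool.Agent.TC

open Finset Nat Pool.Agent.BE

/-- if `F` is a set of primes with even exponents then a prime outside `F` divides some `σ(x ^ v_x)`,
`x ∈ F` -/
theorem exists_new {L : ℕ} (ho : Odd L) (hL : L.Perfect) {F : Finset ℕ} (hne : F.Nonempty)
    (hF : ∀ x ∈ F, x ∈ L.primeFactors ∧ Even (L.factorization x)) :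
    ∃ x ∈ F, ∃ r : ℕ, r.Prime ∧ r ∉ F ∧
      r ∣ ArithmeticFunction.sigma 1 (x ^ L.factorization x) := by
  have hsub : F ⊆ L.primeFactors := fun x hx => (hF x hx).1
  have hfull : F ≠ L.primeFactors := by
    intro h
    obtain ⟨q, hq, hqo⟩ := exists_odd ho hL
    exact (Nat.not_even_iff_odd.2 hqo) (hF q (h ▸ hq)).2
  obtain ⟨a1, a2, a3⟩ := (nxt_cases ho hL hsub).resolve_left (nxt_ne_one ho hL hsub hne hfull)
  rw [sigma_U hsub] at a3
  have hr := Nat.prime_of_mem_primeFactors a1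
  obtain ⟨x, hx, hxd⟩ := (Prime.dvd_finsetProd_iff hr.prime _).1 a3
  refine ⟨x, hx, _, hr, a2, ?_⟩
  rw [G_eq_sigma (Nat.prime_of_mem_primeFactors (hF x hx).1)]
  exact hxd

theorem six_main (hT : Thin) : ∀ y : ℕ, {N : ℕ | Odd N ∧ N.Perfect ∧
    (∀ n : ℕ, n ^ 6 ∣ N → n = 1) ∧ Nat.Coprime N 15 ∧ ∃ p : ℕ, Odd (N.factorization p) ∧
    ¬ ((p % 60 = 13 ∨ p % 60 = 37) ∧
      (∀ r : ℕ, (r = p ∨ ∃ q ∈ N.primeFactors, q ≤ y ∧ r.Prime ∧
          r ∣ ArithmeticFunction.sigma 1 (q ^ N.factorization q)) →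
        {x : ℕ | Relation.ReflTransGen (fun a b : ℕ => b.Prime ∧
          b ∣ ArithmeticFunction.sigma 1 (a ^ (if a % 3 = 1 then 4 else 2))) r x}.Infinite) ∧
      ∀ F : Finset ℕ,
      (∀ x ∈ F, ∃ r : ℕ, (r = p ∨ ∃ q ∈ N.primeFactors, q ≤ y ∧ r.Prime ∧
          r ∣ ArithmeticFunction.sigma 1 (q ^ N.factorization q)) ∧
        Relation.ReflTransGen (fun a b : ℕ => b.Prime ∧
          b ∣ ArithmeticFunction.sigma 1 (a ^ (if a % 3 = 1 then 4 else 2))) r x) →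
      {N' : ℕ | Odd N' ∧ N'.Perfect ∧ (∀ n : ℕ, n ^ 6 ∣ N' → n = 1) ∧ Nat.Coprime N' 15 ∧
        (∀ q ≤ y, N'.factorization q = N.factorization q) ∧
        ∀ x ∈ F, N'.factorization x = (if x % 3 = 1 then 4 else 2) ∧
          (x % 15 = 4 ∨ x % 15 = 7 ∨ x % 15 = 11 ∨ x % 15 = 13)}.Infinite)}.Finite := by
  classical
  intro y
  refine ((six_finite60 hT).union (persist_six hT y)).subset ?_
  rintro N ⟨ho, hN, h6, hc, p, hp, hn⟩
  by_cases h60 : p % 60 = 13 ∨ p % 60 = 37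
  · right
    by_contra hnot
    have hall : ∀ F : Finset ℕ, (∀ x ∈ F, Reached N p y x) →
        {N' : ℕ | Odd N' ∧ N'.Perfect ∧ (∀ n : ℕ, n ^ 6 ∣ N' → n = 1) ∧ Nat.Coprime N' 15 ∧
        (∀ q ≤ y, N'.factorization q = N.factorization q) ∧
        ∀ x ∈ F, N'.factorization x = (if x % 3 = 1 then 4 else 2) ∧ Good x}.Infinite := by
      intro F hF hfin
      exact hnot ⟨ho, hN, h6, hc, p, hp, F, hF, hfin⟩
    apply hn
    refine ⟨h60, ?_, fun F hF => hall F fun x hx => ?_⟩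
    · intro r0 hr0 hfin
      set F : Finset ℕ := hfin.toFinset with hFdef
      have hmem : ∀ x, x ∈ F ↔ Relation.ReflTransGen Step r0 x := fun x => by
        rw [hFdef, Set.Finite.mem_toFinset]
        rfl
      have hrea : ∀ x ∈ F, Reached N p y x := by
        intro x hx
        rcases hr0 with h4 | ⟨q, h5, h6, h7, h8⟩
        · left
          rw [← h4]
          exact (hmem x).1 hx
        · right
          exact ⟨q, h6, h5, r0, h7, h8, (hmem x).1 hx⟩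
      obtain ⟨N', ho', hN', -, -, -, hv⟩ := (hall F hrea).nonempty
      obtain ⟨x, hx, r, hr, hrF, hrd⟩ := exists_new ho' hN'
        ⟨r0, (hmem r0).2 Relation.ReflTransGen.refl⟩ (F := F) fun x hx => by
          have h1 := (hv x hx).1
          refine ⟨?_, by rw [h1]; split_ifs <;> decide⟩
          rw [← Nat.support_factorization, Finsupp.mem_support_iff, h1]
          split_ifs <;> decide
      rw [(hv x hx).1] at hrd
      exact hrF ((hmem r).2 (Relation.ReflTransGen.tail ((hmem x).1 hx) ⟨hr, hrd⟩))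
    · obtain ⟨r, h4 | ⟨q, h5, h6, h7, h8⟩, h9⟩ := hF x hx
      · left
        rw [← h4]
        exact h9
      · right
        exact ⟨q, h6, h5, r, h7, h8, h9⟩
  · left
    rw [not_or] at h60
    exact ⟨ho, hN, h6, hc, p, hp, h60⟩

theorem pair_main (hT : Thin) (d e B y : ℕ) (hd : Even d) (he : Even e) :
    {N : ℕ | Odd N ∧ N.Perfect ∧ Nat.Coprime N ((d + 1) * (e + 1)) ∧ ∃ p : ℕ,
      N.factorization p ≤ B ∧
      (∀ q ∈ N.primeFactors, q ≠ p → N.factorization q = d ∨ N.factorization q = e) ∧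
      ¬ (¬ (¬ Nat.Coprime (p - 1) (d + 1) ∧ ¬ Nat.Coprime (p - 1) (e + 1)) ∧
        ∃ a : ℕ, (a = d ∨ a = e) ∧
        (∀ w : ℕ × ℕ, (w = (p, a) ∨ (w.1 ∈ N.primeFactors ∧ w.1 ≤ y ∧ w.1 ≠ p ∧
            w.2 = N.factorization w.1)) →
          {z : ℕ × ℕ | Relation.ReflTransGen (fun z w : ℕ × ℕ => w.1.Prime ∧
            w.1 ∣ ArithmeticFunction.sigma 1 (z.1 ^ z.2) ∧ w.2 = d + e - z.2) w z}.Infinite) ∧
        ∀ F : Finset (ℕ × ℕ),
          (∀ z ∈ F, ∃ w : ℕ × ℕ, (w = (p, a) ∨ (w.1 ∈ N.primeFactors ∧ w.1 ≤ y ∧ w.1 ≠ p ∧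
            w.2 = N.factorization w.1)) ∧
            Relation.ReflTransGen (fun z w : ℕ × ℕ => w.1.Prime ∧
              w.1 ∣ ArithmeticFunction.sigma 1 (z.1 ^ z.2) ∧ w.2 = d + e - z.2) w z) →
          {N' : ℕ | Odd N' ∧ N'.Perfect ∧ Nat.Coprime N' ((d + 1) * (e + 1)) ∧
            (∃ p' : ℕ, p' ≠ p ∧ N'.factorization p' ≤ B ∧ ∀ q ∈ N'.primeFactors, q ≠ p' →
              N'.factorization q = d ∨ N'.factorization q = e) ∧ p ∣ N' ∧
            (∀ q ≤ y, N'.factorization q = N.factorization q) ∧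
            ∀ z ∈ F, N'.factorization z.1 = z.2}.Infinite)}.Finite := by
  classical
  refine ((pair_finite hT d e B hd he).union (persist_pair hT d e B y hd he)).subset ?_
  rintro N ⟨ho, hN, hc, p, hpB, hpe, hn⟩
  by_cases hcop : ¬ Nat.Coprime (p - 1) (d + 1) ∧ ¬ Nat.Coprime (p - 1) (e + 1)
  · exact Or.inl ⟨ho, hN, hc, p, hpB, hcop.1, hcop.2, hpe⟩
  right
  by_contra hnot
  apply hn
  refine ⟨hcop, ?_⟩
  by_contra hno
  apply hnot
  refine ⟨ho, hN, hc, p, hpB, hpe, fun a ha => ?_⟩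
  by_contra hF
  have hall : ∀ F : Finset (ℕ × ℕ),
      (∀ z ∈ F, ∃ w : ℕ × ℕ, (w = (p, a) ∨ (w.1 ∈ N.primeFactors ∧ w.1 ≤ y ∧ w.1 ≠ p ∧
        w.2 = N.factorization w.1)) ∧
        Relation.ReflTransGen (fun z w : ℕ × ℕ => w.1.Prime ∧
          w.1 ∣ ArithmeticFunction.sigma 1 (z.1 ^ z.2) ∧ w.2 = d + e - z.2) w z) →
      {N' : ℕ | Odd N' ∧ N'.Perfect ∧ Nat.Coprime N' ((d + 1) * (e + 1)) ∧
        (∃ p' : ℕ, p' ≠ p ∧ N'.factorization p' ≤ B ∧ ∀ q ∈ N'.primeFactors, q ≠ p' →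
          N'.factorization q = d ∨ N'.factorization q = e) ∧ p ∣ N' ∧
        (∀ q ≤ y, N'.factorization q = N.factorization q) ∧
        ∀ z ∈ F, N'.factorization z.1 = z.2}.Infinite := fun F h1 h2 => hF ⟨F, h1, h2⟩
  refine hno ⟨a, ha, ?_, hall⟩
  intro w0 hw0 hfin
  set F : Finset (ℕ × ℕ) := hfin.toFinset with hFdef
  have hmem : ∀ z, z ∈ F ↔ Relation.ReflTransGen (fun z w : ℕ × ℕ => w.1.Prime ∧
      w.1 ∣ ArithmeticFunction.sigma 1 (z.1 ^ z.2) ∧ w.2 = d + e - z.2) w0 z := fun z => by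
    rw [hFdef, Set.Finite.mem_toFinset]
    rfl
  obtain ⟨N', ho', hN', -, -, hpd, hsm, hv⟩ :=
    (hall F fun z hz => ⟨w0, hw0, (hmem z).1 hz⟩).nonempty
  have hw2 : w0.2 = d ∨ w0.2 = e := by
    rcases hw0 with h1 | ⟨h1, -, h2, h3⟩
    · rw [h1]
      exact ha
    · rw [h3]
      exact hpe _ h1 h2
  have hexp : ∀ z ∈ F, z.2 = d ∨ z.2 = e := by
    intro z hz
    have h1 := (hmem z).1 hz
    clear hz
    induction h1 with
    | refl => exact hw2
    | tail _ h2 ih =>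
      obtain ⟨-, -, h3⟩ := h2
      rcases ih with h4 | h4 <;> rw [h4] at h3 <;> omega
  have hE : ∀ z ∈ F, Even z.2 := by
    intro z hz
    rcases hexp z hz with h | h <;> rw [h] <;> assumption
  have hpp : p.Prime := Nat.prime_of_mem_primeFactors
    (special_mem' (even_pair hd he) (clsS_pair.2 ⟨ho, hN, hc, hpe⟩)).1
  have hw1 : w0.1 ∈ N'.primeFactors := by
    rcases hw0 with h1 | ⟨h1, h2, -, -⟩
    · rw [h1]
      exact Nat.mem_primeFactors.2 ⟨hpp, hpd, hN'.2.ne'⟩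
    · have h3 := hsm w0.1 h2
      have h4 := fac_pos h1
      rw [← Nat.support_factorization, Finsupp.mem_support_iff]
      omega
  have hin : ∀ z : ℕ × ℕ, Relation.ReflTransGen (fun z w : ℕ × ℕ => w.1.Prime ∧
      w.1 ∣ ArithmeticFunction.sigma 1 (z.1 ^ z.2) ∧ w.2 = d + e - z.2) w0 z →
      z.1 ∈ N'.primeFactors := by
    intro z hz
    induction hz with
    | refl => exact hw1
    | @tail b c h1 h2 ih =>
      obtain ⟨hcp, hcd, -⟩ := h2
      have hb := (hmem b).2 h1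
      have hvb := hv b hb
      have hbp := Nat.prime_of_mem_primeFactors ih
      rw [← hvb, G_eq_sigma hbp] at hcd
      have hodd : Odd (s N' b.1) := by
        refine odd_s ?_ (by rw [hvb]; exact hE b hb)
        have := two_lt ho' ih
        exact hbp.odd_of_ne_two (by omega)
      refine head_mem hN' ih hcp hcd ?_
      intro h2
      rw [h2] at hcd
      exact (Nat.not_even_iff_odd.2 hodd) (even_iff_two_dvd.2 hcd)
  obtain ⟨x, hx, r, hr, hrF, hrd⟩ := exists_new ho' hN' (F := F.image Prod.fst)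
    ⟨w0.1, mem_image.2 ⟨w0, (hmem _).2 Relation.ReflTransGen.refl, rfl⟩⟩ fun x hx => by
      obtain ⟨z, hz, rfl⟩ := mem_image.1 hx
      exact ⟨hin z ((hmem z).1 hz), by rw [hv z hz]; exact hE z hz⟩
  obtain ⟨z, hz, rfl⟩ := mem_image.1 hx
  rw [hv z hz] at hrd
  exact hrF (mem_image.2 ⟨(r, d + e - z.2), (hmem _).2
    (Relation.ReflTransGen.tail ((hmem z).1 hz) ⟨hr, hrd, rfl⟩), rfl⟩)

end Pool.Agent.TC
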