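import Pool.Agent.Lib.MP_f02ea4_nt.TC.SharpT
import Pool.Agent.Lib.MP_f02ea4_nt.TC.SixB
import Pool.Agent.Lib.MP_f02ea4_nt.TC.Chain
import Pool.Agent.Lib.MP_f02ea4_nt.TC.GenCount
import Pool.Agent.Lib.MP_f02ea4_nt.TC.SixMain
import Pool.Agent.Lib.MP_f02ea4_nt.TC.SixCheck
import Pool.Agent.Lib.MP_f02ea4_nt.TC.C15

/-!
# All odd perfect numbers free of sixth powers
-/

set_option autoImplicit false

namespace Pool.Agent.TC.V6

open Finset Nat Pool.Agent.BE Pool.Agent.TC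

/-- the odd perfect numbers free of sixth powers -/
def V : Set ℕ := {N : ℕ | Odd N ∧ N.Perfect ∧ ∀ n : ℕ, n ^ 6 ∣ N → n = 1}

theorem cop {N : ℕ} (hN : N ∈ V) : Nat.Coprime N 15 := C15.coprime_fifteen hN.1 hN.2.1 hN.2.2

theorem not_three {N : ℕ} (hN : N ∈ V) : ¬ 3 ∣ N := fun h => by
  have h1 := Nat.dvd_gcd h (show 3 ∣ 15 by norm_num)
  rw [cop hN] at h1
  omega

theorem not_five {N : ℕ} (hN : N ∈ V) : ¬ 5 ∣ N := fun h => by
  have h1 := Nat.dvd_gcd h (show 5 ∣ 15 by norm_num)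
  rw [cop hN] at h1
  omega

theorem alpha {N p : ℕ} (hN : N ∈ V) (hp : Odd (N.factorization p)) :
    p ∈ N.primeFactors ∧ N.factorization p = 1 ∧ p % 12 = 1 :=
  six_alpha hN.1 hN.2.1 hN.2.2 (not_three hN) hp

theorem mod_sixty {N p : ℕ} (hN : N ∈ V) (hp : Odd (N.factorization p)) :
    p % 60 = 1 ∨ p % 60 = 13 ∨ p % 60 = 37 := by
  obtain ⟨h1, h2, h3⟩ := alpha hN hp
  have h4 : p % 5 ≠ 0 := fun h => not_five hN
    ((Nat.dvd_of_mod_eq_zero h).trans (Nat.dvd_of_mem_primeFactors h1))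
  have h5 : p % 5 ≠ 4 := by
    intro h
    refine not_five hN (dvd_of_dvd_s hN.2.1 h1 Nat.prime_five ?_ (by norm_num))
    rw [s, h2, G_two]
    omega
  omega

theorem exists_unique {N : ℕ} (hN : N ∈ V) : ∃! p : ℕ, Odd (N.factorization p) := by
  obtain ⟨p, hp, hpo⟩ := exists_odd hN.1 hN.2.1
  exact ⟨p, hpo, fun q hq => odd_unique hN.1 hN.2.1 hp (alpha hN hq).1 hpo hq⟩

theorem euler_unique {N p q : ℕ} (hN : N ∈ V) (hp : Odd (N.factorization p))
    (hq : Odd (N.factorization q)) : p = q := (exists_unique hN).unique hp hq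

theorem unique {N N' p : ℕ} (hN : N ∈ V) (hN' : N' ∈ V) (hp : Odd (N.factorization p))
    (hp' : Odd (N'.factorization p)) : N = N' :=
  six_unique hN.1 hN.2.1 hN'.1 hN'.2.1 hN.2.2 hN'.2.2 (cop hN) (cop hN') hp hp'

/-- if the Euler prime of `N` divides `N'` and is not the Euler prime of `N'` then it has the
exponent `4` in `N'` -/
theorem four {N N' p : ℕ} (hN : N ∈ V) (hN' : N' ∈ V) (hp : Odd (N.factorization p))
    (hd : p ∣ N') (hne : N ≠ N') : N'.factorization p = 4 := by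
  obtain ⟨a1, a2, a3⟩ := alpha hN hp
  have hpp := Nat.prime_of_mem_primeFactors a1
  have hpN' : p ∈ N'.primeFactors := Nat.mem_primeFactors.2 ⟨hpp, hd, hN'.2.1.2.ne'⟩
  have h1 : ¬ Odd (N'.factorization p) := fun h => hne (unique hN hN' hp h)
  have h2 := fac_le_five hN'.2.1.2.ne' hN'.2.2 hpp
  have h3 := fac_pos hpN'
  rw [Nat.not_odd_iff_even, Nat.even_iff] at h1
  by_contra h4
  have h5 : N'.factorization p = 2 := by omega
  refine not_three hN' (dvd_of_dvd_s hN'.2.1 hpN' Nat.prime_three ?_ (by norm_num))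
  rw [s, h5]
  simp only [G, sum_range_succ, range_zero, sum_empty]
  have h6 : p ^ 2 % 3 = 1 := by
    rw [Nat.pow_mod, show p % 3 = 1 by omega]
  have h8 : p ^ 0 = 1 := pow_zero _
  have h9 : p ^ 1 = p := pow_one _
  omega

/-- two different elements of `V` with a common component -/
theorem common {N N' p p' q : ℕ} (hN : N ∈ V) (hN' : N' ∈ V) (hne : N ≠ N')
    (hp : Odd (N.factorization p)) (hp' : Odd (N'.factorization p')) (hq : q ∈ N.primeFactors)
    (hv : N.factorization q = N'.factorization q) :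
    N'.factorization p = 4 ∨ N.factorization p' = 4 := by
  have hq' : q ∈ N'.primeFactors := by
    have h1 := fac_pos hq
    rw [← Nat.support_factorization, Finsupp.mem_support_iff]
    omega
  exact (six_dichotomy hN.1 hN.2.1 hN.2.2 (cop hN) hp hN'.1 hN'.2.1 hN'.2.2 (cop hN') hp' hq hq'
    hv).resolve_left hne

open Classical in
/-- the Euler prime -/
noncomputable def ep (N : ℕ) : ℕ := if h : ∃ p, Odd (N.factorization p) then h.choose else 0

theorem ep_odd {N : ℕ} (hN : N ∈ V) : Odd (N.factorization (ep N)) := by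
  have h := (exists_unique hN).exists
  rw [ep, dif_pos h]
  exact h.choose_spec

/-- the exploration from the component `q ^ v_q` follows `N` until the Euler prime is met -/
theorem follow' {E : Set ℕ} (hE : P1 E) (hEe : ∀ a ∈ E, Even a) {N p q : ℕ} (hC : ClsS E N p)
    (hq : q ∈ N.primeFactors) (hqp : q ≠ p) : ∀ i : ℕ,
      (∀ m < i, nf E (ex E (q ^ N.factorization q) m) ≠ p) →
      ∃ S : Finset ℕ, S ⊆ N.primeFactors ∧ p ∉ S ∧ ex E (q ^ N.factorization q) i = U N S := by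
  intro i
  induction i with
  | zero =>
    intro _
    refine ⟨{q}, singleton_subset_iff.2 hq, fun h => hqp (mem_singleton.1 h).symm, ?_⟩
    unfold U
    rw [prod_singleton]
    rfl
  | succ i ih =>
    intro hm
    obtain ⟨S, hS, hpS, hU⟩ := ih fun m hm' => hm m (by omega)
    have hne := hm i (Nat.lt_succ_self i)
    have hstep : ex E (q ^ N.factorization q) (i + 1) = ex E (q ^ N.factorization q) i *
      nf E (ex E (q ^ N.factorization q) i) ^ fx E (nf E (ex E (q ^ N.factorization q) i)) := rfl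
    rw [hU] at hne hstep
    rcases nf_cases (E := E) hC.perf hS with h | ⟨h1, h2, h3⟩
    · exact ⟨S, hS, hpS, by rw [hstep, h, one_pow, mul_one]⟩
    · refine ⟨insert (nf E (U N S)) S, insert_subset h1 hS, ?_, ?_⟩
      · intro h
        exact (mem_insert.1 h).elim (fun h => hne h.symm) hpS
      · rw [hstep, U_insert h2, fx_eq hE (nm_of_ne hEe hC h1 hne) h3]

/-- the Euler prime is met -/
theorem meets' {E : Set ℕ} (hE : P1 E) (hEe : ∀ a ∈ E, Even a) {N p q : ℕ} (hC : ClsS E N p)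
    (hq : q ∈ N.primeFactors) (hqp : q ≠ p) : ∃ i, nf E (ex E (q ^ N.factorization q) i) = p := by
  have hmf := hq
  obtain ⟨hpm, hpo⟩ := special_mem' hEe hC
  have hpn : ¬ Nm E N p := fun h => (Nat.not_even_iff_odd.2 hpo) (hEe _ h.1)
  have hst : q ^ N.factorization q = U N {q} := by
    unfold U
    rw [prod_singleton]
  rcases explore hE hC.perf _ {q} (singleton_subset_iff.2 hmf) rfl with
    ⟨i, -, S', a1, a2, a3, a4, a5, a6⟩ | ⟨S', a1, a2, a3, a4, a5⟩
  · refine ⟨i, ?_⟩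
    rw [hst, a3]
    by_contra h
    exact a6 (nm_of_ne hEe hC a4 h)
  · exfalso
    have hpS : p ∉ S' := by
      intro h
      exact hpn (a3 p h fun h1 => hqp (mem_singleton.1 h1).symm)
    have hne : S' ≠ N.primeFactors := fun h => hpS (h ▸ hpm)
    have hS'n : S'.Nonempty := ⟨_, a1 (mem_singleton_self _)⟩
    have h1 := nxt_ne_one hC.odd hC.perf a2 hS'n hne
    obtain ⟨t1, t2, t3⟩ := (nxt_cases hC.odd hC.perf a2).resolve_left h1
    set t := nxt (U N S') with ht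
    have htp := Nat.prime_of_mem_primeFactors t1
    have hnd : ¬ t ∣ 2 * U N S' := by
      intro h
      rcases (Nat.Prime.dvd_mul htp).1 h with h | h
      · have h2 := two_lt hC.odd t1
        have h3 := (Nat.prime_dvd_prime_iff_eq htp Nat.prime_two).1 h
        omega
      · exact t2 ((prime_dvd_U a2 htp).1 h)
    refine nf_one a5 htp t3 hnd ?_
    rw [sigma_U a2] at t3
    obtain ⟨r, hrS, hrd⟩ := (Prime.dvd_finsetProd_iff htp.prime _).1 t3
    have hrp : r ≠ p := fun h => hpS (h ▸ hrS)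
    refine ⟨_, (nm_of_ne hEe hC (a2 hrS) hrp).1, ?_⟩
    rcases head_order (Nat.succ_pos _) htp hrd with h | ⟨l, hl, h2, h3⟩
    · exact Or.inl h
    · exact Or.inr ⟨l, hl, h2, h3⟩

/-- the step in which the Euler prime is met -/
noncomputable def tau' (E : Set ℕ) (q a N : ℕ) : ℕ :=
  sInf {i | ∃ p, ClsS E N p ∧ nf E (ex E (q ^ a) i) = p}

theorem dvd_of_tau' {E : Set ℕ} (hE : P1 E) (hEe : ∀ a ∈ E, Even a) {N N' p p' q a : ℕ}
    (hC : ClsS E N p) (hC' : ClsS E N' p') (hq : q ∈ N.primeFactors) (hq' : q ∈ N'.primeFactors)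
    (hqp : q ≠ p) (hqp' : q ≠ p') (ha : N.factorization q = a) (ha' : N'.factorization q = a)
    (ht : tau' E q a N ≤ tau' E q a N') : p ∣ N' := by
  have hne : {i | ∃ p, ClsS E N p ∧ nf E (ex E (q ^ a) i) = p}.Nonempty := by
    obtain ⟨i, hi⟩ := meets' hE hEe hC hq hqp
    rw [ha] at hi
    exact ⟨i, p, hC, hi⟩
  obtain ⟨r, hCr, hr⟩ := Nat.sInf_mem hne
  have hrp : r = p := special_unique hEe hCr hC
  change nf E (ex E (q ^ a) (tau' E q a N)) = r at hr
  rw [hrp] at hr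
  obtain ⟨S, hS, -, hU⟩ := follow' hE hEe hC' hq' hqp' (tau' E q a N) fun m hm h => by
    have hlt : m < tau' E q a N' := lt_of_lt_of_le hm ht
    rw [ha'] at h
    exact Nat.notMem_of_lt_sInf hlt ⟨p', hC', h⟩
  rw [ha'] at hU
  rw [hU] at hr
  rcases nf_cases (E := E) hC'.perf hS with h | ⟨h1, -, -⟩
  · exfalso
    have h2 := (Nat.prime_of_mem_primeFactors (special_mem' hEe hC).1).one_lt.ne'
    rw [← hr, h] at h2
    exact h2 rfl
  · rw [hr] at h1
    exact Nat.dvd_of_mem_primeFactors h1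

/-- ranking a subset of `V` -/
theorem rank {W : Set ℕ} (hW : W ⊆ V) (τ : ℕ → ℕ) (h : ∀ N ∈ W, ∀ N' ∈ W, τ N ≤ τ N' → N ≠ N' →
    ∀ p : ℕ, Odd (N.factorization p) → N'.factorization p = 4) :
    ∃ ρ : ℕ → ℕ, ∀ N ∈ W, ∀ N' ∈ W, (ρ N = ρ N' → N = N') ∧
      (ρ N < ρ N' → ∀ p : ℕ, Odd (N.factorization p) → N'.factorization p = 4) := by
  classical
  let A : ℕ → Set ℕ := fun N => {L | L ∈ W ∧ (τ L < τ N ∨ (τ L = τ N ∧ L < N))}
  have hA : ∀ N ∈ W, (A N).Finite := by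
    intro N hN
    refine Set.Finite.of_finite_image (f := ep)
      ((N.primeFactors.finite_toSet).subset ?_) ?_
    · rintro _ ⟨L, ⟨hL, h2⟩, rfl⟩
      have h3 : N.factorization (ep L) = 4 := h L hL N hN (by omega) (by
        rintro rfl
        omega) _ (ep_odd (hW hL))
      rw [mem_coe, ← Nat.support_factorization, Finsupp.mem_support_iff]
      omega
    · rintro L ⟨hL, -⟩ L' ⟨hL', -⟩ h1
      have h2 := ep_odd (hW hL')
      rw [← h1] at h2
      exact unique (hW hL) (hW hL') (ep_odd (hW hL)) h2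
  have hlt : ∀ N ∈ W, ∀ N' ∈ W, (τ N < τ N' ∨ (τ N = τ N' ∧ N < N')) →
      (A N).ncard < (A N').ncard := by
    intro N hN N' hN' hτ
    refine Set.ncard_lt_ncard ⟨?_, ?_⟩ (hA N' hN')
    · rintro L ⟨hL, h2⟩
      refine ⟨hL, ?_⟩
      omega
    · intro hsub
      have h1 : N ∈ A N := hsub ⟨hN, hτ⟩
      have h2 := h1.2
      omega
  refine ⟨fun N => (A N).ncard, fun N hN N' hN' => ⟨fun he => ?_, fun hl p hp => ?_⟩⟩
  · by_contra hne
    rcases (by omega : (τ N < τ N' ∨ (τ N = τ N' ∧ N < N')) ∨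
        (τ N' < τ N ∨ (τ N' = τ N ∧ N' < N))) with h1 | h1
    · have h2 := hlt N hN N' hN' h1
      simp only at he
      omega
    · have h2 := hlt N' hN' N hN h1
      simp only at he
      omega
  · have hne : N ≠ N' := by
      rintro rfl
      exact lt_irrefl _ hl
    have h1 : ¬ (τ N' < τ N ∨ (τ N' = τ N ∧ N' < N)) := fun h1 => by
      have h2 := hlt N' hN' N hN h1
      simp only at hl
      omega
    exact h N hN N' hN' (by omega) hne p hp

/-- the elements of `V` with a given component form one sequence in which the Euler prime of every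
member divides every later member with the exponent `4` -/
theorem one_sequence (q a : ℕ) (ha : 0 < a) : ∃ ρ : ℕ → ℕ, ∀ N ∈ V, ∀ N' ∈ V,
    N.factorization q = a → N'.factorization q = a → (ρ N = ρ N' → N = N') ∧
      (ρ N < ρ N' → ∀ p : ℕ, Odd (N.factorization p) → N'.factorization p = 4) := by
  have hEe : ∀ a ∈ (({2, 4} : Finset ℕ) : Set ℕ), Even a := by
    intro a ha
    simp only [coe_insert, coe_singleton, Set.mem_insert_iff, Set.mem_singleton_iff] at ha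
    rcases ha with rfl | rfl <;> decide
  obtain ⟨ρ, h⟩ := rank (W := {N ∈ V | N.factorization q = a}) (fun N hN => hN.1)
    (tau' (({2, 4} : Finset ℕ) : Set ℕ) q a) (by
      rintro N ⟨hN, hv⟩ N' ⟨hN', hv'⟩ hτ hne p hp
      obtain ⟨p', hp'⟩ := (exists_unique hN').exists
      have hq : q ∈ N.primeFactors := by
        rw [← Nat.support_factorization, Finsupp.mem_support_iff]
        omega
      have hq' : q ∈ N'.primeFactors := by
        rw [← Nat.support_factorization, Finsupp.mem_support_iff]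
        omega
      have hqp : q ≠ p := by
        rintro rfl
        exact hne (unique hN hN' hp (hv'.trans hv.symm ▸ hp))
      have hqp' : q ≠ p' := by
        rintro rfl
        exact hne (unique hN hN' (hv.trans hv'.symm ▸ hp') hp')
      exact four hN hN' hp (dvd_of_tau' (P1_of_card card_le_two) hEe
        (six_cls hN.1 hN.2.1 hN.2.2 (cop hN) hp) (six_cls hN'.1 hN'.2.1 hN'.2.2 (cop hN') hp')
        hq hq' hqp hqp' hv hv' hτ) hne)
  exact ⟨ρ, fun N hN N' hN' hv hv' => h N ⟨hN, hv⟩ N' ⟨hN', hv'⟩⟩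

/-- finitely many components meet all of `V` -/
theorem cover (hT : Thin) : ∃ S : Finset (ℕ × ℕ), ∀ N ∈ V, ∃ z ∈ S, 0 < z.2 ∧
    N.factorization z.1 = z.2 := by
  obtain ⟨M, hM⟩ := least_le hT 4
  refine ⟨Finset.range (M + 1) ×ˢ Finset.range 6, fun N hN => ?_⟩
  obtain ⟨p, hp⟩ := (exists_unique hN).exists
  have hC := six_cls hN.1 hN.2.1 hN.2.2 (cop hN) hp
  have hle : N.minFac ≤ M := hM N p hN.1 hN.2.1 fun q hq hqp => by
    rcases (clsS_pair.1 hC).2.2.2 q hq hqp with h | h <;> omega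
  have hmf := minFac_mem hN.1 hN.2.1
  have h5 := fac_le_five hN.2.1.2.ne' hN.2.2 (Nat.prime_of_mem_primeFactors hmf)
  exact ⟨(N.minFac, N.factorization N.minFac),
    mem_product.2 ⟨mem_range.2 (Nat.lt_succ_of_le hle), mem_range.2 (by omega)⟩, fac_pos hmf, rfl⟩

theorem counts (hT : Thin) : ∃ C : ℝ,
    (∀ x : ℝ, 3 ≤ x → ({N ∈ V | (N : ℝ) ≤ x}.ncard : ℝ) ≤
      C * (Real.log x / Real.log (Real.log x))) ∧
    (∀ k : ℕ, {N ∈ V | N.primeFactors.card ≤ k}.Finite ∧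
      ({N ∈ V | N.primeFactors.card ≤ k}.ncard : ℝ) ≤ C * k) ∧
    (∀ y : ℝ, 2 ≤ y → {N ∈ V | ∃ p : ℕ, (p : ℝ) ≤ y ∧ Odd (N.factorization p)}.Finite ∧
      ({N ∈ V | ∃ p : ℕ, (p : ℝ) ≤ y ∧ Odd (N.factorization p)}.ncard : ℝ) ≤
        C * (y / (Real.log y) ^ 2)) := by
  obtain ⟨C₁, h₁⟩ := sixth hT
  obtain ⟨C₂, hC₂, h₂⟩ := sixth_up_to hT
  obtain ⟨C₃, hC₃, h₃⟩ := euler_pair hT 2 4 1 even_two (by decide)
  refine ⟨(C₁ : ℝ) + C₂ + C₃, fun x hx => ?_, fun k => ?_, fun y hy => ?_⟩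
  · have h4 := (h₂ x hx).2
    have hset : {N : ℕ | (N : ℝ) ≤ x ∧ Odd N ∧ N.Perfect ∧ (∀ n : ℕ, n ^ 6 ∣ N → n = 1) ∧
        Nat.Coprime N 15} = {N ∈ V | (N : ℝ) ≤ x} := by
      ext N
      constructor
      · rintro ⟨a, b, c, d, e⟩
        exact ⟨⟨b, c, d⟩, a⟩
      · rintro ⟨a, b⟩
        exact ⟨b, a.1, a.2.1, a.2.2, cop a⟩
    rw [hset] at h4
    have hr := ratio_pos hx
    have h5 : (0 : ℝ) ≤ (C₁ + C₃) * (Real.log x / Real.log (Real.log x)) := by positivity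
    nlinarith
  · obtain ⟨hf, -, h4⟩ := h₁ k
    have hset : {N ∈ SF k | Nat.Coprime N 15} = {N ∈ V | N.primeFactors.card ≤ k} := by
      ext N
      constructor
      · rintro ⟨⟨a, b, c, d⟩, e⟩
        exact ⟨⟨a, b, c⟩, d⟩
      · rintro ⟨a, b⟩
        exact ⟨⟨a.1, a.2.1, a.2.2, b⟩, cop a⟩
    rw [hset] at h4
    refine ⟨hf.subset fun N hN => ⟨hN.1.1, hN.1.2.1, hN.1.2.2, hN.2⟩, ?_⟩
    have h5 : (0 : ℝ) ≤ (C₂ + C₃) * (k : ℝ) := by positivity
    have h6 : ({N ∈ V | N.primeFactors.card ≤ k}.ncard : ℝ) ≤ (C₁ : ℝ) * k := by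
      exact_mod_cast h4
    nlinarith
  · obtain ⟨hf, h4⟩ := h₃ y hy
    have hsub : {N ∈ V | ∃ p : ℕ, (p : ℝ) ≤ y ∧ Odd (N.factorization p)} ⊆
        {N : ℕ | Odd N ∧ N.Perfect ∧ Nat.Coprime N ((2 + 1) * (4 + 1)) ∧ ∃ p : ℕ, (p : ℝ) ≤ y ∧
        N.factorization p ≤ 1 ∧ ∀ q ∈ N.primeFactors, q ≠ p →
          N.factorization q = 2 ∨ N.factorization q = 4} := by
      rintro N ⟨hN, p, hpy, hp⟩
      refine ⟨hN.1, hN.2.1, cop hN, p, hpy, (alpha hN hp).2.1.le, fun q hq hqp => ?_⟩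
      exact (clsS_pair.1 (six_cls hN.1 hN.2.1 hN.2.2 (cop hN) hp)).2.2.2 q hq hqp
    refine ⟨hf.subset hsub, ?_⟩
    have h5 : (0 : ℝ) ≤ (C₁ + C₂) * (y / (Real.log y) ^ 2) := by positivity
    have h6 : ({N ∈ V | ∃ p : ℕ, (p : ℝ) ≤ y ∧ Odd (N.factorization p)}.ncard : ℝ) ≤
        C₃ * (y / (Real.log y) ^ 2) :=
      ((Nat.cast_le (α := ℝ)).2 (Set.ncard_le_ncard hsub hf)).trans h4
    nlinarith

theorem main (hT : Thin) (y : ℕ) : {N ∈ V | ∃ p : ℕ, Odd (N.factorization p) ∧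
    ¬ ((p % 60 = 13 ∨ p % 60 = 37) ∧
      {r : ℕ | Relation.ReflTransGen (fun a b : ℕ => b.Prime ∧
        b ∣ ArithmeticFunction.sigma 1 (a ^ (if a % 3 = 1 then 4 else 2))) p r}.Infinite ∧
      (∀ r : ℕ, Relation.ReflTransGen (fun a b : ℕ => b.Prime ∧
        b ∣ ArithmeticFunction.sigma 1 (a ^ (if a % 3 = 1 then 4 else 2))) p r →
          r % 15 = 4 ∨ r % 15 = 7 ∨ r % 15 = 11 ∨ r % 15 = 13) ∧
      ∀ F : Finset ℕ, (∀ r ∈ F, Relation.ReflTransGen (fun a b : ℕ => b.Prime ∧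
        b ∣ ArithmeticFunction.sigma 1 (a ^ (if a % 3 = 1 then 4 else 2))) p r) →
        {N' ∈ V | (∀ q ≤ y, N'.factorization q = N.factorization q) ∧
          ∀ r ∈ F, N'.factorization r = (if r % 3 = 1 then 4 else 2)}.Infinite)}.Finite := by
  refine (six_main hT y).subset ?_
  rintro N ⟨hN, p, hp, hn⟩
  refine ⟨hN.1, hN.2.1, hN.2.2, cop hN, p, hp, ?_⟩
  rintro ⟨h1, h2, h3⟩
  apply hn
  have h4 : ∀ F : Finset ℕ, (∀ r ∈ F, Relation.ReflTransGen (fun a b : ℕ => b.Prime ∧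
        b ∣ ArithmeticFunction.sigma 1 (a ^ (if a % 3 = 1 then 4 else 2))) p r) →
      {N' : ℕ | Odd N' ∧ N'.Perfect ∧ (∀ n : ℕ, n ^ 6 ∣ N' → n = 1) ∧ Nat.Coprime N' 15 ∧
        (∀ q ≤ y, N'.factorization q = N.factorization q) ∧
        ∀ x ∈ F, N'.factorization x = (if x % 3 = 1 then 4 else 2) ∧
          (x % 15 = 4 ∨ x % 15 = 7 ∨ x % 15 = 11 ∨ x % 15 = 13)}.Infinite := fun F hF =>
    h3 F fun x hx => ⟨p, Or.inl rfl, hF x hx⟩
  refine ⟨h1, h2 p (Or.inl rfl), fun r hr => ?_, fun F hF => ?_⟩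
  · obtain ⟨N', -, -, -, -, -, hv⟩ := (h4 {r} fun x hx => by
      rw [mem_singleton.1 hx]
      exact hr).nonempty
    exact (hv r (mem_singleton_self r)).2
  · refine (h4 F hF).mono ?_
    rintro N' ⟨a, b, c, -, d, e⟩
    exact ⟨⟨a, b, c⟩, d, fun r hr => (e r hr).1⟩

theorem check (hT : Thin) : ∃ M : ℕ,
    (∀ q ≤ M, q.Prime → 5 < q → ∀ a : ℕ, (a = 2 ∨ a = 4) → ∃ r x : ℕ, r.Prime ∧
      r ∣ ArithmeticFunction.sigma 1 (q ^ a) ∧
      Relation.ReflTransGen (fun a b : ℕ => b.Prime ∧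
        b ∣ ArithmeticFunction.sigma 1 (a ^ (if a % 3 = 1 then 4 else 2))) r x ∧
      (x = 3 ∨ x = 5 ∨ x % 15 = 1)) → V.Finite := by
  obtain ⟨M, h⟩ := six_check hT
  refine ⟨M, fun H => (h H).subset fun N hN => ⟨hN.1, hN.2.1, hN.2.2, cop hN⟩⟩

end Pool.Agent.TC.V6
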