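import Pool.Agent.Lib.MP_f02ea4_nt.TC.Bridge

/-!
# The counts in the class of the numbers prime to `(d + 1) (e + 1)`
-/

set_option autoImplicit false

namespace Pool.Agent.TC

open Finset Nat Pool.Agent.BE

theorem K_one {d e N p : ℕ} (hc : Nat.Coprime N ((d + 1) * (e + 1))) :
    ∑ l ∈ ((d + 1) * (e + 1)).primeFactors, N.factorization l +
        (if p ∣ (d + 1) * (e + 1) then 0 else 1) ≤ 1 := by
  have key : ∀ l : ℕ, l.Prime → l ∣ (d + 1) * (e + 1) → ¬ l ∣ N := by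
    intro l hl h1 h2
    have h3 := Nat.dvd_gcd h2 h1
    rw [hc] at h3
    exact hl.one_lt.ne' (Nat.dvd_one.1 h3)
  have h1 : ∑ l ∈ ((d + 1) * (e + 1)).primeFactors, N.factorization l = 0 := by
    refine sum_eq_zero fun l hl => Nat.factorization_eq_zero_of_not_dvd ?_
    exact key l (Nat.prime_of_mem_primeFactors hl) (Nat.dvd_of_mem_primeFactors hl)
  rw [h1]
  split_ifs <;> omega

/-- the counts in the class -/
theorem count_T (hT : Thin) (d e : ℕ) (hd : Even d) (he : Even e) : ∃ C : ℝ, 0 < C ∧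
    (∀ k B : ℕ, {N : ℕ | Odd N ∧ N.Perfect ∧ Nat.Coprime N ((d + 1) * (e + 1)) ∧
      N.primeFactors.card ≤ k ∧ ∃ p : ℕ, N.factorization p ≤ B ∧
      ∀ q ∈ N.primeFactors, q ≠ p → N.factorization q = d ∨ N.factorization q = e}.Finite ∧
      ({N : ℕ | Odd N ∧ N.Perfect ∧ Nat.Coprime N ((d + 1) * (e + 1)) ∧
      N.primeFactors.card ≤ k ∧ ∃ p : ℕ, N.factorization p ≤ B ∧
      ∀ q ∈ N.primeFactors, q ≠ p → N.factorization q = d ∨ N.factorization q = e}.ncard : ℝ) ≤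
      C * B * k) ∧
    (∀ (B : ℕ) (x : ℝ), 3 ≤ x → ({N : ℕ | (N : ℝ) ≤ x ∧ Odd N ∧ N.Perfect ∧
      Nat.Coprime N ((d + 1) * (e + 1)) ∧ ∃ p : ℕ, N.factorization p ≤ B ∧
      ∀ q ∈ N.primeFactors, q ≠ p → N.factorization q = d ∨ N.factorization q = e}.ncard : ℝ) ≤
      C * B * (Real.log x / Real.log (Real.log x))) := by
  obtain ⟨C, hC, h₁, h₂, -⟩ := count_pair hT d e 1 hd he
  refine ⟨C, hC, fun k B => ?_, fun B x hx => ?_⟩
  · obtain ⟨hf, hc⟩ := h₁ k B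
    rw [pow_one] at hc
    have hsub : {N : ℕ | Odd N ∧ N.Perfect ∧ Nat.Coprime N ((d + 1) * (e + 1)) ∧
        N.primeFactors.card ≤ k ∧ ∃ p : ℕ, N.factorization p ≤ B ∧
        ∀ q ∈ N.primeFactors, q ≠ p → N.factorization q = d ∨ N.factorization q = e} ⊆
        {N : ℕ | Odd N ∧ N.Perfect ∧ N.primeFactors.card ≤ k ∧ ∃ p : ℕ,
        N.factorization p ≤ B ∧
        (∀ q ∈ N.primeFactors, q ≠ p → N.factorization q = d ∨ N.factorization q = e) ∧
        ∑ l ∈ ((d + 1) * (e + 1)).primeFactors, N.factorization l +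
          (if p ∣ (d + 1) * (e + 1) then 0 else 1) ≤ 1} := by
      rintro N ⟨a, b, c, g, p, i, j⟩
      exact ⟨a, b, g, p, i, j, K_one c⟩
    exact ⟨hf.subset hsub, le_trans ((Nat.cast_le (α := ℝ)).2 (Set.ncard_le_ncard hsub hf)) hc⟩
  · have hc := h₂ B x hx
    rw [pow_one] at hc
    refine le_trans ?_ hc
    refine (Nat.cast_le (α := ℝ)).2 (Set.ncard_le_ncard ?_ ?_)
    · rintro N ⟨g, a, b, c, p, i, j⟩
      exact ⟨g, a, b, p, i, j, K_one c⟩
    · refine (Set.finite_Iic ⌊x⌋₊).subset fun N hN => ?_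
      exact Nat.le_floor hN.1

end Pool.Agent.TC
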