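import Pool.Agent.Lib.MP_f02ea4_nt.TC.SixUnique
import Pool.Agent.Lib.MP_f02ea4_nt.ExcPratt

/-!
# Factor chains for odd perfect numbers free of sixth powers: the checker
-/

set_option autoImplicit false

namespace Pool.Agent.TC.C15

open Finset Nat Pool.Agent.BE

/-- factor chain certificates -/
inductive Tr : Type
  | ab (U : List ℕ) : Tr
  | ov (q k : ℕ) : Tr
  | bad (q : ℕ) : Tr
  | br (q : ℕ) (t1 t2 t4 t5 : Tr) : Tr

/-- `1 + q + ... + q ^ e` -/
def hs (q : ℕ) : ℕ → ℕ
  | 0 => 1
  | e + 1 => hs q e * q + 1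

/-- product of the `σ` of the known components -/
def pS (C : List (ℕ × ℕ)) : ℕ := (C.map (fun c => hs c.1 c.2)).prod

/-- product of the known components -/
def pN (C : List (ℕ × ℕ)) : ℕ := (C.map (fun c => c.1 ^ c.2)).prod

/-- primality test: small primes, or a member of a certified list -/
def isQ (big : List ℕ) (n : ℕ) : Bool := Pool.Agent.Lib.MP_f02ea4_nt.Exc.isP n || big.elem n

/-- the checker; `C` lists known components, `E` tells whether the Euler prime is among them -/
def run (big bads : List ℕ) : Tr → List (ℕ × ℕ) → Bool → Bool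
  | Tr.ab U, C, E =>
      decide ((C.map Prod.fst ++ U).Nodup) &&
      (U.all fun u => isQ big u && !(u == 2) && (pS C % u == 0)) &&
      Nat.blt (2 * (pN C * (U.map fun u => u * u).prod))
        (pS C * (U.map fun u => u * u + u + 1).prod) &&
      (U.all fun u => E || !(u % 4 == 1) ||
        Nat.blt (2 * (pN C * (U.map fun u => u * u).prod) * (u * u + u + 1))
          (pS C * (U.map fun u => u * u + u + 1).prod * ((u + 1) * u)))
  | Tr.ov q k, C, E =>
      isQ big q && !(q == 2) && (pS C % q ^ k == 0) &&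
      (C.any (fun c => c.1 == q && Nat.blt c.2 k) || Nat.blt 5 k ||
        (!((C.map Prod.fst).elem q) && Nat.blt 4 k && (E || !(q % 4 == 1))))
  | Tr.bad q, C, _ => bads.elem q && !(q == 2) && isQ big q && (pS C % q == 0)
  | Tr.br q t1 t2 t4 t5, C, E =>
      isQ big q && !(q == 2) && !((C.map Prod.fst).elem q) && (pS C % q == 0) &&
      run big bads t2 ((q, 2) :: C) E && run big bads t4 ((q, 4) :: C) E &&
      (E || !(q % 4 == 1) || (run big bads t1 ((q, 1) :: C) true &&
        run big bads t5 ((q, 5) :: C) true))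

/-- the situation -/
structure Ctx (N p : ℕ) (bads : List ℕ) : Prop where
  odd : Odd N
  perf : N.Perfect
  pm : p ∈ N.primeFactors
  p4 : p % 4 = 1
  pv : N.factorization p = 1 ∨ N.factorization p = 5
  ev : ∀ q ∈ N.primeFactors, q ≠ p → N.factorization q = 2 ∨ N.factorization q = 4
  bd : ∀ b ∈ bads, ¬ b ∣ N

/-- invariant of the checker -/
structure Inv (N p : ℕ) (C : List (ℕ × ℕ)) (E : Bool) : Prop where
  nd : (C.map Prod.fst).Nodup
  mem : ∀ c ∈ C, c.1 ∈ N.primeFactors ∧ N.factorization c.1 = c.2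
  eu : E = true → p ∈ C.map Prod.fst
  ne : E = false → p ∉ C.map Prod.fst

theorem hs_eq (q : ℕ) : ∀ e : ℕ, hs q e = G (e + 1) q := by
  intro e
  induction e with
  | zero => simp [hs, G]
  | succ e ih =>
    rw [hs, ih]
    unfold G
    rw [sum_range_succ' (fun i => q ^ i) (e + 1), sum_mul, pow_zero]
    refine congrArg (· + 1) (sum_congr rfl fun i _ => ?_)
    rw [pow_succ]

variable {N p : ℕ} {bads big : List ℕ}

theorem isQ_prime (hb : ∀ x ∈ big, x.Prime) {n : ℕ} (h : isQ big n = true) : n.Prime := by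
  unfold isQ at h
  rw [Bool.or_eq_true] at h
  rcases h with h | h
  · exact Pool.Agent.Lib.MP_f02ea4_nt.Exc.isP_prime h
  · exact hb n (List.elem_iff.1 h)

theorem pS_eq {C : List (ℕ × ℕ)} {E : Bool} (I : Inv N p C E) :
    pS C = ∏ q ∈ (C.map Prod.fst).toFinset, s N q := by
  rw [List.prod_toFinset _ I.nd, pS, List.map_map]
  congr 1
  refine List.map_congr_left fun c hc => ?_
  obtain ⟨_, h2⟩ := I.mem c hc
  rw [Function.comp_apply, s, h2, hs_eq]

theorem pN_eq {C : List (ℕ × ℕ)} {E : Bool} (I : Inv N p C E) :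
    pN C = ∏ q ∈ (C.map Prod.fst).toFinset, q ^ N.factorization q := by
  rw [List.prod_toFinset _ I.nd, pN, List.map_map]
  congr 1
  refine List.map_congr_left fun c hc => ?_
  obtain ⟨_, h2⟩ := I.mem c hc
  rw [Function.comp_apply, h2]

theorem keys_sub {C : List (ℕ × ℕ)} {E : Bool} (I : Inv N p C E) :
    (C.map Prod.fst).toFinset ⊆ N.primeFactors := by
  intro q hq
  rw [List.mem_toFinset, List.mem_map] at hq
  obtain ⟨c, hc, rfl⟩ := hq
  exact (I.mem c hc).1

theorem pS_dvd (H : Ctx N p bads) {C : List (ℕ × ℕ)} {E : Bool} (I : Inv N p C E) :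
    pS C ∣ 2 * N := by
  rw [pS_eq I, ← prod_s H.perf]
  exact prod_dvd_prod_of_subset _ _ _ (keys_sub I)

theorem mem_of_dvd (H : Ctx N p bads) {C : List (ℕ × ℕ)} {E : Bool} (I : Inv N p C E)
    {q : ℕ} (hq : q.Prime) (h2 : q ≠ 2) (h : pS C % q = 0) : q ∈ N.primeFactors := by
  have h1 : q ∣ 2 * N := (Nat.dvd_of_mod_eq_zero h).trans (pS_dvd H I)
  rcases (Nat.Prime.dvd_mul hq).1 h1 with h3 | h3
  · exact absurd ((Nat.prime_dvd_prime_iff_eq hq Nat.prime_two).1 h3) h2
  · exact Nat.mem_primeFactors.2 ⟨hq, h3, H.perf.2.ne'⟩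

theorem le_fac (H : Ctx N p bads) {C : List (ℕ × ℕ)} {E : Bool} (I : Inv N p C E)
    {q k : ℕ} (hq : q.Prime) (h2 : q ≠ 2) (h : pS C % q ^ k = 0) : k ≤ N.factorization q := by
  have h1 : q ^ k ∣ 2 * N := (Nat.dvd_of_mod_eq_zero h).trans (pS_dvd H I)
  have h3 : Nat.Coprime (q ^ k) 2 :=
    Nat.Coprime.pow_left _ ((Nat.coprime_primes hq Nat.prime_two).2 h2)
  exact (hq.pow_dvd_iff_le_factorization H.perf.2.ne').1 (h3.dvd_of_dvd_mul_left h1)

theorem le_five (H : Ctx N p bads) {q : ℕ} (hq : q ∈ N.primeFactors) :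
    N.factorization q ≤ 5 := by
  by_cases h : q = p
  · subst h
    rcases H.pv with h | h <;> omega
  · rcases H.ev q hq h with h | h <;> omega

theorem ab_false (H : Ctx N p bads) (hb : ∀ x ∈ big, x.Prime) {C : List (ℕ × ℕ)} {E : Bool}
    (I : Inv N p C E) {U : List ℕ} (h : run big bads (Tr.ab U) C E = true) : False := by
  simp only [run, Bool.and_eq_true, decide_eq_true_eq, List.all_eq_true, Bool.not_eq_true',
    beq_eq_false_iff_ne, beq_iff_eq, Nat.blt_eq, Bool.or_eq_true, ne_eq] at h
  obtain ⟨⟨⟨hnd, hU⟩, h1⟩, h2⟩ := h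
  have hndU : U.Nodup := (List.nodup_append.1 hnd).2.1
  have hdis : ∀ u ∈ U, u ∉ C.map Prod.fst := fun u hu hc =>
    (List.nodup_append.1 hnd).2.2 u hc u hu rfl
  have hmem : ∀ u ∈ U, u ∈ N.primeFactors := fun u hu =>
    mem_of_dvd H I (isQ_prime hb (hU u hu).1.1) (hU u hu).1.2 (hU u hu).2
  set K := (C.map Prod.fst).toFinset with hK
  set T := U.toFinset with hT
  have hKT : Disjoint K T := by
    rw [Finset.disjoint_left]
    intro x hx hx'
    rw [hK, List.mem_toFinset] at hx
    rw [hT, List.mem_toFinset] at hx'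
    exact hdis x hx' hx
  have hTs : T ⊆ N.primeFactors := fun x hx => hmem x (by rwa [hT, List.mem_toFinset] at hx)
  have hsub : K ∪ T ⊆ N.primeFactors := union_subset (keys_sub I) hTs
  have h3 := sigma_U_le H.perf hsub
  unfold Pool.Agent.TC.U at h3
  rw [prod_union hKT, prod_union hKT, ← pS_eq I, ← pN_eq I] at h3
  -- bounds for the primes in `T`
  let nu : ℕ → ℕ := fun u => if u = p then u + 1 else u * u + u + 1
  let du : ℕ → ℕ := fun u => if u = p then u else u * u
  have hb1 : ∀ u ∈ T, nu u * u ^ N.factorization u ≤ s N u * du u := by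
    intro u hu
    have huN := hTs hu
    by_cases hup : u = p
    · simp only [nu, du, if_pos hup]
      have hv := fac_pos huN
      obtain ⟨w, hw⟩ : ∃ w, N.factorization u = w + 1 := ⟨N.factorization u - 1, by omega⟩
      rw [s, hw]
      have h5 : u ^ w + u ^ (w + 1) ≤ G (w + 1 + 1) u := by
        unfold G
        rw [sum_range_succ, sum_range_succ]
        have : 0 ≤ ∑ x ∈ range w, u ^ x := Nat.zero_le _
        omega
      calc (u + 1) * u ^ (w + 1) = (u ^ w + u ^ (w + 1)) * u := by ring
        _ ≤ G (w + 1 + 1) u * u := Nat.mul_le_mul_right _ h5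
    · simp only [nu, du, if_neg hup]
      have hv : 2 ≤ N.factorization u := by
        rcases H.ev u huN hup with h | h <;> omega
      obtain ⟨w, hw⟩ : ∃ w, N.factorization u = w + 2 := ⟨N.factorization u - 2, by omega⟩
      rw [s, hw]
      have h5 : u ^ w + u ^ (w + 1) + u ^ (w + 2) ≤ G (w + 2 + 1) u := by
        unfold G
        rw [sum_range_succ, sum_range_succ, sum_range_succ]
        have : 0 ≤ ∑ x ∈ range w, u ^ x := Nat.zero_le _
        omega
      calc (u * u + u + 1) * u ^ (w + 2) = (u ^ w + u ^ (w + 1) + u ^ (w + 2)) * (u * u) := by ring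
        _ ≤ G (w + 2 + 1) u * (u * u) := Nat.mul_le_mul_right _ h5
  have hb2 : (∏ u ∈ T, nu u) * ∏ u ∈ T, u ^ N.factorization u ≤
      (∏ u ∈ T, s N u) * ∏ u ∈ T, du u := by
    rw [← prod_mul_distrib, ← prod_mul_distrib]
    exact prod_le_prod' hb1
  have hXpos : 0 < ∏ u ∈ T, u ^ N.factorization u :=
    prod_pos fun u hu => pow_pos (Nat.prime_of_mem_primeFactors (hTs hu)).pos _
  have h4 : pS C * (∏ u ∈ T, nu u) ≤ 2 * pN C * ∏ u ∈ T, du u := by
    refine Nat.le_of_mul_le_mul_right ?_ hXpos
    calc pS C * (∏ u ∈ T, nu u) * ∏ u ∈ T, u ^ N.factorization u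
        = pS C * ((∏ u ∈ T, nu u) * ∏ u ∈ T, u ^ N.factorization u) := by ring
      _ ≤ pS C * ((∏ u ∈ T, s N u) * ∏ u ∈ T, du u) := Nat.mul_le_mul_left _ hb2
      _ = pS C * (∏ u ∈ T, s N u) * ∏ u ∈ T, du u := by ring
      _ ≤ 2 * (pN C * ∏ u ∈ T, u ^ N.factorization u) * ∏ u ∈ T, du u :=
        Nat.mul_le_mul_right _ h3
      _ = 2 * pN C * (∏ u ∈ T, du u) * ∏ u ∈ T, u ^ N.factorization u := by ring
  have e1 : (U.map fun u => u * u).prod = ∏ u ∈ T, (u * u) := by
    rw [hT, List.prod_toFinset _ hndU]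
  have e2 : (U.map fun u => u * u + u + 1).prod = ∏ u ∈ T, (u * u + u + 1) := by
    rw [hT, List.prod_toFinset _ hndU]
  rw [e1, e2] at h1 h2
  by_cases hpT : p ∈ T
  · have hpU : p ∈ U := by rwa [hT, List.mem_toFinset] at hpT
    have hE : ¬ E = true := fun hE => hdis p hpU (I.eu hE)
    have h5 := h2 p hpU
    rcases h5 with (h5 | h5) | h5
    · exact hE h5
    · exact h5 H.p4
    have hn : (∏ u ∈ T, nu u) * (p * p + p + 1) = (∏ u ∈ T, (u * u + u + 1)) * (p + 1) := by
      rw [← mul_prod_erase _ _ hpT, ← mul_prod_erase _ (fun u => u * u + u + 1) hpT]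
      have : ∏ u ∈ T.erase p, nu u = ∏ u ∈ T.erase p, (u * u + u + 1) := by
        refine prod_congr rfl fun u hu => ?_
        simp only [nu, if_neg (ne_of_mem_erase hu)]
      rw [this]
      simp only [nu, if_pos]
      ring
    have hd : (∏ u ∈ T, du u) * p = ∏ u ∈ T, (u * u) := by
      rw [← mul_prod_erase _ _ hpT, ← mul_prod_erase _ (fun u => u * u) hpT]
      have : ∏ u ∈ T.erase p, du u = ∏ u ∈ T.erase p, (u * u) := by
        refine prod_congr rfl fun u hu => ?_
        simp only [du, if_neg (ne_of_mem_erase hu)]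
      rw [this]
      simp only [du, if_pos]
      ring
    have h6 := Nat.mul_le_mul_right (p * (p * p + p + 1)) h4
    have h7 : pS C * (∏ u ∈ T, nu u) * (p * (p * p + p + 1)) =
        pS C * (∏ u ∈ T, (u * u + u + 1)) * ((p + 1) * p) := by
      calc pS C * (∏ u ∈ T, nu u) * (p * (p * p + p + 1))
          = pS C * p * ((∏ u ∈ T, nu u) * (p * p + p + 1)) := by ring
        _ = pS C * (∏ u ∈ T, (u * u + u + 1)) * ((p + 1) * p) := by rw [hn]; ring
    have h8 : 2 * pN C * (∏ u ∈ T, du u) * (p * (p * p + p + 1)) =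
        2 * (pN C * ∏ u ∈ T, (u * u)) * (p * p + p + 1) := by
      calc 2 * pN C * (∏ u ∈ T, du u) * (p * (p * p + p + 1))
          = 2 * pN C * ((∏ u ∈ T, du u) * p) * (p * p + p + 1) := by ring
        _ = 2 * (pN C * ∏ u ∈ T, (u * u)) * (p * p + p + 1) := by rw [hd]; ring
    rw [h7, h8] at h6
    exact absurd h5 (not_lt.2 h6)
  · have hn : ∏ u ∈ T, nu u = ∏ u ∈ T, (u * u + u + 1) := by
      refine prod_congr rfl fun u hu => ?_
      have hup : u ≠ p := by
        rintro rfl
        exact hpT hu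
      simp only [nu, if_neg hup]
    have hd : ∏ u ∈ T, du u = ∏ u ∈ T, (u * u) := by
      refine prod_congr rfl fun u hu => ?_
      have hup : u ≠ p := by
        rintro rfl
        exact hpT hu
      simp only [du, if_neg hup]
    rw [hn, hd] at h4
    have h5 : 2 * pN C * ∏ u ∈ T, (u * u) = 2 * (pN C * ∏ u ∈ T, (u * u)) := by ring
    rw [h5] at h4
    exact absurd h1 (not_lt.2 h4)

/-- the checker is sound -/
theorem run_false (H : Ctx N p bads) (hb : ∀ x ∈ big, x.Prime) : ∀ (t : Tr) (C : List (ℕ × ℕ))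
    (E : Bool), Inv N p C E → run big bads t C E = true → False := by
  intro t
  induction t with
  | ab U => exact fun C E I h => ab_false H hb I h
  | ov q k =>
    intro C E I h
    simp only [run, Bool.and_eq_true, Bool.not_eq_true', beq_eq_false_iff_ne, beq_iff_eq,
      Nat.blt_eq, Bool.or_eq_true, ne_eq, List.any_eq_true] at h
    obtain ⟨⟨⟨h1, h2⟩, h3⟩, h4⟩ := h
    have hq := isQ_prime hb h1
    have h5 := le_fac H I hq h2 h3
    rcases h4 with (⟨c, hc, h6, h7⟩ | h4) | ⟨⟨h6, h7⟩, h8⟩
    · have h8 := (I.mem c hc).2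
      rw [h6] at h8
      omega
    · have hk0 : q ∈ N.primeFactors := by
        by_contra hq0
        rw [← Nat.support_factorization, Finsupp.notMem_support_iff] at hq0
        omega
      have := le_five H hk0
      omega
    · have hk0 : q ∈ N.primeFactors := by
        by_contra hq0
        rw [← Nat.support_factorization, Finsupp.notMem_support_iff] at hq0
        omega
      by_cases hqp : q = p
      · subst hqp
        rcases h8 with h8 | h8
        · have h9 := I.eu h8
          rw [← List.elem_iff] at h9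
          rw [h9] at h6
          exact absurd h6 (by decide)
        · exact h8 H.p4
      · rcases H.ev q hk0 hqp with h | h <;> omega
  | bad q =>
    intro C E I h
    simp only [run, Bool.and_eq_true, Bool.not_eq_true', beq_eq_false_iff_ne, beq_iff_eq,
      ne_eq] at h
    obtain ⟨⟨⟨h1, h2⟩, h3⟩, h4⟩ := h
    have h5 := mem_of_dvd H I (isQ_prime hb h3) h2 h4
    exact H.bd q (List.elem_iff.1 h1) (Nat.dvd_of_mem_primeFactors h5)
  | br q t1 t2 t4 t5 ih1 ih2 ih4 ih5 =>
    intro C E I h
    simp only [run, Bool.and_eq_true, Bool.not_eq_true', beq_eq_false_iff_ne, beq_iff_eq,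
      Bool.or_eq_true, ne_eq] at h
    obtain ⟨⟨⟨⟨⟨⟨h1, h2⟩, h3⟩, h4⟩, h5⟩, h6⟩, h7⟩ := h
    have hq := isQ_prime hb h1
    have hqN := mem_of_dvd H I hq h2 h4
    have hqC : q ∉ C.map Prod.fst := by
      intro h8
      rw [← List.elem_iff] at h8
      rw [h8] at h3
      exact absurd h3 (by decide)
    have hnew : ∀ e : ℕ, N.factorization q = e → ∀ E' : Bool, (q = p → E' = true) →
        (q ≠ p → E' = E) → Inv N p ((q, e) :: C) E' := by
      intro e he E' ha hb'
      refine ⟨?_, ?_, ?_, ?_⟩
      · rw [List.map_cons]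
        exact List.nodup_cons.2 ⟨hqC, I.nd⟩
      · intro c hc
        rw [List.mem_cons] at hc
        rcases hc with rfl | hc
        · exact ⟨hqN, he⟩
        · exact I.mem c hc
      · intro hE
        rw [List.map_cons, List.mem_cons]
        by_cases hqp : q = p
        · exact Or.inl hqp.symm
        · rw [hb' hqp] at hE
          exact Or.inr (I.eu hE)
      · intro hE
        rw [List.map_cons, List.mem_cons, not_or]
        have hqp : q ≠ p := fun h => by
          rw [ha h] at hE
          exact absurd hE (by decide)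
        rw [hb' hqp] at hE
        exact ⟨fun h => hqp h.symm, I.ne hE⟩
    by_cases hqp : q = p
    · have hE : ¬ E = true := fun hE => hqC (hqp ▸ I.eu hE)
      have h8 : run big bads t1 ((q, 1) :: C) true = true ∧
          run big bads t5 ((q, 5) :: C) true = true := by
        rcases h7 with (h7 | h7) | h7
        · exact absurd h7 hE
        · exact absurd (hqp ▸ H.p4) h7
        · exact h7
      have hpv := H.pv
      rw [← hqp] at hpv
      rcases hpv with h9 | h9
      · exact ih1 _ _ (hnew 1 h9 true (fun _ => rfl) (fun h => absurd hqp h)) h8.1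
      · exact ih5 _ _ (hnew 5 h9 true (fun _ => rfl) (fun h => absurd hqp h)) h8.2
    · rcases H.ev q hqN hqp with h9 | h9
      · exact ih2 _ _ (hnew 2 h9 E (fun h => absurd h hqp) (fun _ => rfl)) h5
      · exact ih4 _ _ (hnew 4 h9 E (fun h => absurd h hqp) (fun _ => rfl)) h6

theorem ctx {N : ℕ} (ho : Odd N) (hN : N.Perfect) (h6 : ∀ n : ℕ, n ^ 6 ∣ N → n = 1)
    {bads : List ℕ} (hb : ∀ b ∈ bads, ¬ b ∣ N) : ∃ p, Ctx N p bads := by
  obtain ⟨p, hp, hpo⟩ := exists_odd ho hN
  have hpp := Nat.prime_of_mem_primeFactors hp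
  have h15 := one_or_five ho hN (fac_le_five hN.2.ne' h6 hpp) hpo
  have hp2 : p % 2 = 1 := by
    have := two_lt ho hp
    exact Nat.odd_iff.1 (hpp.odd_of_ne_two (by omega))
  have h4 : ¬ 4 ∣ s N p := by
    intro h
    have h7 : 2 ≤ (s N p).factorization 2 :=
      (Nat.prime_two.pow_dvd_iff_le_factorization (s_pos N p).ne').1 (by simpa using h)
    have h8 := sum_fac_two ho hN
    have h9 : (s N p).factorization 2 ≤ ∑ q ∈ N.primeFactors, (s N q).factorization 2 :=
      single_le_sum (f := fun q => (s N q).factorization 2) (fun _ _ => Nat.zero_le _) hp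
    omega
  refine ⟨p, ho, hN, hp, ?_, h15, ?_, hb⟩
  · by_contra hcon
    have h3 : p % 4 = 3 := by omega
    apply h4
    have h5 : 4 ∣ p + 1 := by omega
    rcases h15 with h | h
    · rw [s, h, G_two]; exact h5
    · rw [s, h, G_six]; exact Dvd.dvd.mul_right h5 _
  · intro q hq hqp
    have h1 := fac_le_five hN.2.ne' h6 (Nat.prime_of_mem_primeFactors hq)
    have h2 := fac_pos hq
    have h3 : ¬ Odd (N.factorization q) := fun h => hqp (odd_unique ho hN hp hq hpo h)
    rw [Nat.not_odd_iff_even, Nat.even_iff] at h3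
    omega

/-- a prime which is `3` modulo `4` and whose two trees are certified does not divide `N` -/
theorem root_false (H : Ctx N p bads) (hb : ∀ x ∈ big, x.Prime) {q : ℕ} (hqN : q ∈ N.primeFactors)
    {t1 t2 t4 t5 : Tr} (h2 : run big bads t2 [(q, 2)] false = true)
    (h4 : run big bads t4 [(q, 4)] false = true)
    (h1 : q % 4 = 1 → run big bads t1 [(q, 1)] true = true)
    (h5 : q % 4 = 1 → run big bads t5 [(q, 5)] true = true) : False := by
  have hinv : ∀ e : ℕ, N.factorization q = e → ∀ E : Bool, (E = true ↔ q = p) →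
      Inv N p [(q, e)] E := by
    intro e he E hE
    refine ⟨?_, ?_, ?_, ?_⟩
    · rw [List.map_singleton]
      exact List.nodup_singleton _
    · intro c hc
      rw [List.mem_singleton] at hc
      subst hc
      exact ⟨hqN, he⟩
    · intro h
      rw [List.map_singleton, List.mem_singleton]
      exact (hE.1 h).symm
    · intro h
      rw [List.map_singleton, List.mem_singleton]
      intro h7
      have := hE.2 h7.symm
      rw [h] at this
      exact absurd this (by decide)
  by_cases hqp : q = p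
  · have hq4 : q % 4 = 1 := hqp ▸ H.p4
    have hpv := H.pv
    rw [← hqp] at hpv
    rcases hpv with h | h
    · exact run_false H hb t1 _ _ (hinv 1 h true (by simp [hqp])) (h1 hq4)
    · exact run_false H hb t5 _ _ (hinv 5 h true (by simp [hqp])) (h5 hq4)
  · rcases H.ev q hqN hqp with h | h
    · exact run_false H hb t2 _ _ (hinv 2 h false (by simp [hqp])) h2
    · exact run_false H hb t4 _ _ (hinv 4 h false (by simp [hqp])) h4

end Pool.Agent.TC.C15
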