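import Pool.Agent.Lib.MP_f02ea4_nt.TC.Seq

/-!
# TASK TC X: the number of exceptional steps
Proof. `j ↦ rr N M j` is injective on `J` (`rr_inj`); let `R` be the image, so `J.card = R.card`.
Every `r ∈ R` is in `N.primeFactors` and not in `LL E` (else `r ≤ M`, so `r ∈ sq N M 0 ⊆ sq N M j`,
against `rr_not_mem`). If `r ∈ R`, `r ≠ p` then `One (N.factorization r) r`: a prime
`l ∣ v_r + 1`, `l ∣ r - 1`; `v_r ∈ E` (`hC.mem`), so `l ∈ LL E` (`mem_LL`) and `l ∣ s N r`
(`dvd_G_of_one` of BE/Order.lean with `n = v_r + 1`). So `R.erase p` is contained in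
`{q ∈ N.primeFactors | ∃ l ∈ LL E, l ∣ s N q}`, whose cardinality is at most
`∑ l ∈ LL E, N.factorization l` by `card_head_le` (BE/Base.lean; the primes of `LL E` are odd
because `hE`: all `a ∈ E` are even). If `p ∈ LL E` then `p ∉ R`.
-/

set_option autoImplicit false

namespace Pool.Agent.TC

open Finset Nat Pool.Agent.BE

private theorem TCX_not_LL {E : Finset ℕ} {N : ℕ} {M : Finset ℕ} (ho : Odd N) (hN : N.Perfect)
    (hM : ∀ l ∈ LL E, l ∈ N.primeFactors → l ∈ M) {j : ℕ} (hj : rr N M j ∈ N.primeFactors) : rr N M j ∉ LL E := by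
  intro h
  apply rr_not_mem ho hN hj
  apply sq_mono (Nat.zero_le j)
  rw [sq, Finset.mem_filter]
  exact ⟨hj, hM _ h hj⟩

theorem card_exc {E : Finset ℕ} {N p : ℕ} {M : Finset ℕ} (hE : ∀ a ∈ E, Even a)
    (hC : Cls E N p) (hM : ∀ l ∈ LL E, l ∈ N.primeFactors → l ∈ M) (J : Finset ℕ)
    (hJ : ∀ j ∈ J, rr N M j ∈ N.primeFactors ∧ Exc N p (rr N M j)) :
    J.card ≤ ∑ l ∈ LL E, N.factorization l + (if p ∈ LL E then 0 else 1) := by
  classical
  have ho := hC.odd
  have hN := hC.perf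
  -- the primes of `LL E` are odd
  have hT : ∀ r ∈ LL E, r.Prime ∧ r ≠ 2 := by
    intro r hr
    refine ⟨prime_of_mem_LL hr, ?_⟩
    rintro rfl
    have h2 : 2 ∣ ∏ a ∈ E, (a + 1) := Nat.dvd_of_mem_primeFactors hr
    obtain ⟨a, ha, hd⟩ := (Nat.prime_two.prime.dvd_finsetProd_iff _).1 h2
    obtain ⟨m, hm⟩ := hE a ha
    omega
  set R := J.image (rr N M) with hR
  have hcard : R.card = J.card := by
    apply Finset.card_image_of_injOn
    intro i hi j hj hij
    exact rr_inj ho hN (hJ i hi).1 (hJ j hj).1 hij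
  have hRmem : ∀ r ∈ R, r ∈ N.primeFactors ∧ Exc N p r ∧ r ∉ LL E := by
    intro r hr
    obtain ⟨j, hj, rfl⟩ := Finset.mem_image.1 hr
    exact ⟨(hJ j hj).1, (hJ j hj).2, TCX_not_LL ho hN hM (hJ j hj).1⟩
  have hsub : R.erase p ⊆ N.primeFactors.filter (fun q => ∃ l ∈ LL E, l ∣ s N q) := by
    intro r hr
    obtain ⟨hrp, hrR⟩ := Finset.mem_erase.1 hr
    obtain ⟨h1, h2, _⟩ := hRmem r hrR
    rw [Finset.mem_filter]
    refine ⟨h1, ?_⟩
    rcases h2 with h2 | ⟨l, hl, hla, hlr⟩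
    · exact absurd h2 hrp
    · refine ⟨l, mem_LL (hC.mem r h1 hrp) hl hla, ?_⟩
      exact dvd_G_of_one (Nat.prime_of_mem_primeFactors h1).one_le hlr hla
  have hle : (R.erase p).card ≤ ∑ l ∈ LL E, N.factorization l :=
    (Finset.card_le_card hsub).trans (card_head_le ho hN (LL E) hT)
  rw [← hcard]
  split_ifs with hp
  · have hpR : p ∉ R := fun h => (hRmem p h).2.2 hp
    rw [Finset.erase_eq_of_notMem hpR] at hle
    simpa using hle
  · have := Finset.pred_card_le_card_erase (s := R) (a := p)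
    omega

end Pool.Agent.TC
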