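import Pool.Agent.Lib.MP_f02ea4_nt.TC.Defs

/-!
# TASK TC E: coding a small set of positions
Proof of `enc`: `Z i = (J.orderEmbOfFin rfl ⟨i, h⟩, t (...))` if `h : (i : ℕ) < J.card`, else
`(Fin.last k, default)`.
-/

set_option autoImplicit false

namespace Pool.Agent.TC

open Finset Nat

theorem enc {β : Type*} [Inhabited β] (K k : ℕ) (J : Finset ℕ) (hJ : J.card ≤ K)
    (hk : ∀ j ∈ J, j < k) (t : ℕ → β) :
    ∃ Z : Fin K → Fin (k + 1) × β, (∀ j < k, (∃ i, ((Z i).1 : ℕ) = j) ↔ j ∈ J) ∧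
      ∀ i, ((Z i).1 : ℕ) < k → (Z i).2 = t (Z i).1 := by
  classical
  have hmem : ∀ i : Fin J.card, J.orderEmbOfFin rfl i ∈ J := fun i => Finset.orderEmbOfFin_mem J rfl i
  let Z : Fin K → Fin (k + 1) × β := fun i =>
    if h : (i : ℕ) < J.card then
      (⟨J.orderEmbOfFin rfl ⟨i, h⟩, (hk _ (hmem _)).trans (Nat.lt_succ_self k)⟩,
        t (J.orderEmbOfFin rfl ⟨i, h⟩))
    else (Fin.last k, default)
  have hpos : ∀ (i : Fin K) (h : (i : ℕ) < J.card), Z i =
      (⟨J.orderEmbOfFin rfl ⟨i, h⟩, (hk _ (hmem _)).trans (Nat.lt_succ_self k)⟩,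
        t (J.orderEmbOfFin rfl ⟨i, h⟩)) := fun i h => by simp only [Z, dif_pos h]
  have hneg : ∀ (i : Fin K), ¬ (i : ℕ) < J.card → Z i = (Fin.last k, default) := fun i h => by
    simp only [Z, dif_neg h]
  refine ⟨Z, ?_, ?_⟩
  · intro j hj
    constructor
    · rintro ⟨i, hi⟩
      by_cases h : (i : ℕ) < J.card
      · rw [hpos i h] at hi
        have : J.orderEmbOfFin rfl ⟨i, h⟩ = j := hi
        rw [← this]
        exact hmem _
      · rw [hneg i h] at hi
        have : k = j := hi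
        omega
    · intro hjJ
      have hr : j ∈ Set.range (J.orderEmbOfFin rfl) := by
        rw [Finset.range_orderEmbOfFin]
        exact hjJ
      obtain ⟨i, hi⟩ := hr
      refine ⟨⟨i, i.2.trans_le hJ⟩, ?_⟩
      rw [hpos ⟨i, i.2.trans_le hJ⟩ i.2]
      exact hi
  · intro i hi
    by_cases h : (i : ℕ) < J.card
    · rw [hpos i h]
    · rw [hneg i h] at hi
      exact absurd hi (by simp)

end Pool.Agent.TC
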