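import Pool.Agent.Lib.MP_f02ea4_nt.TC.RigidS

/-!
# The rule gives the right exponent
-/

set_option autoImplicit false

namespace Pool.Agent.TC

open Finset Nat Pool.Agent.BE

/-- each prime which divides one of the numbers `a + 1`, `a ∈ E`, divides all of them except at
most `m` -/
def Pm (E : Finset ℕ) (m : ℕ) : Prop := ∀ l : ℕ, l.Prime → (∃ a ∈ E, l ∣ a + 1) →
  (E.filter (fun b => ¬ l ∣ b + 1)).card ≤ m

theorem Pm.p1 {E : Finset ℕ} (h : Pm E 1) : P1 (E : Set ℕ) := by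
  intro l hl a ha hla b hb c hc hlb hlc
  have h1 := h l hl ⟨a, ha, hla⟩
  rw [card_le_one] at h1
  exact h1 b (mem_filter.2 ⟨hb, hlb⟩) c (mem_filter.2 ⟨hc, hlc⟩)

theorem pm_of_p1 {E : Finset ℕ} (h : P1 (E : Set ℕ)) : Pm E 1 := by
  rintro l hl ⟨a, ha, hla⟩
  rw [card_le_one]
  intro b hb c hc
  exact h l hl a ha hla b (mem_filter.1 hb).1 c (mem_filter.1 hc).1 (mem_filter.1 hb).2
    (mem_filter.1 hc).2

theorem pm_card (E : Finset ℕ) : Pm E (E.card - 1) := by
  rintro l _ ⟨a, ha, hla⟩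
  have h1 : E.filter (fun b => ¬ l ∣ b + 1) ⊆ E.erase a := by
    intro b hb
    refine mem_erase.2 ⟨?_, (mem_filter.1 hb).1⟩
    rintro rfl
    exact (mem_filter.1 hb).2 hla
  exact (card_le_card h1).trans (card_erase_of_mem ha).le

theorem rule_correct {E : Finset ℕ} {m : ℕ} (hm : Pm E m) {N p : ℕ} (hC : Cls E N p)
    {S : Finset ℕ}
    (hS : S ⊆ N.primeFactors) (hL : ∀ l ∈ LL E, l ∈ N.primeFactors → l ∈ S) {r : ℕ}
    (hr : r ∈ N.primeFactors) (hrS : r ∉ S) (hrd : r ∣ ArithmeticFunction.sigma 1 (U N S))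
    (hE : ¬ Exc N p r) :
    ∃ y, y < max 1 m ∧ rule E (U N S) r y = N.factorization r := by
  classical
  have hrp := Nat.prime_of_mem_primeFactors hr
  have hne : r ≠ p := fun h => hE (Or.inl h)
  have hr1 : ¬ One (N.factorization r) r := fun h => hE (Or.inr h)
  have hv : N.factorization r ∈ E := hC.mem r hr hne
  by_cases h : ∃ a ∈ E, One a r
  · have hvc : N.factorization r ∈ cand E r := mem_filter.2 ⟨hv, hr1⟩
    have hcard : (cand E r).card ≤ m := by
      obtain ⟨a, ha, l, hl, hla, hlr⟩ := h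
      refine le_trans (card_le_card ?_) (hm l hl ⟨a, ha, hla⟩)
      intro b hb
      have hb' := mem_filter.1 hb
      exact mem_filter.2 ⟨hb'.1, fun hlb => hb'.2 ⟨l, hl, hlb, hlr⟩⟩
    have hvl : N.factorization r ∈ (cand E r).sort (· ≤ ·) := (mem_sort _).2 hvc
    obtain ⟨y, hy, hy2⟩ := List.mem_iff_getElem.1 hvl
    refine ⟨y, ?_, ?_⟩
    · rw [length_sort] at hy
      exact lt_of_lt_of_le hy (hcard.trans (le_max_right _ _))
    · unfold rule
      rw [if_pos h, List.getD_eq_getElem _ _ hy, hy2]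
  · refine ⟨0, lt_of_lt_of_le Nat.zero_lt_one (le_max_left _ _), ?_⟩
    unfold rule
    rw [if_neg h]
    push Not at h
    have hrL : r ∉ LL E := fun hh => hrS (hL r hh hr)
    have hzero : ∀ q ∈ N.primeFactors, q ≠ p → ¬ r ∣ s N q := by
      intro q hq hqp
      refine not_dvd_s (E := (E : Set ℕ)) (hC.mem q hq hqp) hrp (fun a ha hh => ?_) h
      exact hrL (mem_LL ha hrp hh)
    have hpS : p ∈ S := by
      rw [sigma_U hS] at hrd
      obtain ⟨q, hqS, hqd⟩ := (Prime.dvd_finsetProd_iff hrp.prime _).1 hrd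
      by_cases hqp : q = p
      · exact hqp ▸ hqS
      · exact absurd hqd (hzero q (hS hqS) hqp)
    exact fac_of_S hC.odd hC.perf hS hr fun q hqN hqS => hzero q hqN fun hh => hqS (hh ▸ hpS)

end Pool.Agent.TC
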