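import Pool.Agent.Lib.MP_f02ea4_nt.TC.Seq

/-!
# TASK TC R: the process finds `N`
Proof: induction on `j`. Let `S = sq N M j`, `r = nxt (U N S) = rr N M j`. By `nxt_cases`
(Next.lean) either `r = 1`: then `run .. (j + 1) = U N S * 1 ^ _ = U N S` and
`sq N M (j + 1) = insert 1 S ∩ N.primeFactors = S` (`sq_subset`); or `r ∈ N.primeFactors`, `r ∉ S`:
then the exponent is `N.factorization r` by `hX` and `U N (insert r S) = U N S * r ^ v_r`
(`U_insert`), `insert r S ∩ N.primeFactors = insert r S`.
-/

set_option autoImplicit false

namespace Pool.Agent.TC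

open Finset Nat Pool.Agent.BE

theorem run_eq {E : Finset ℕ} {N : ℕ} {M : Finset ℕ} {k : ℕ} (ho : Odd N) (hN : N.Perfect) {X Y : ℕ → ℕ}
    (hX : ∀ j < k, rr N M j ∈ N.primeFactors →
      (X j ≠ 0 → X j = N.factorization (rr N M j)) ∧
      (X j = 0 → rule E (U N (sq N M j)) (rr N M j) (Y j) = N.factorization (rr N M j))) :
    ∀ j ≤ k, run E (U N (sq N M 0)) X Y j = U N (sq N M j) := by
  intro j
  induction j with
  | zero => intro _; rfl
  | succ j ih =>
    intro hj
    have ih' := ih (by omega)
    rw [run, ih']
    rcases nxt_cases ho hN (sq_subset (N := N) (M := M) j) with h1 | ⟨h2, h3, -⟩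
    · have hs : sq N M (j + 1) = sq N M j := by
        rw [sq, h1]
        ext x
        rw [Finset.mem_inter, Finset.mem_insert]
        constructor
        · rintro ⟨rfl | hx, hx2⟩
          · exact absurd (Nat.prime_of_mem_primeFactors hx2) Nat.not_prime_one
          · exact hx
        · intro hx
          exact ⟨Or.inr hx, sq_subset j hx⟩
      rw [hs, h1, one_pow, mul_one]
    · have hs : sq N M (j + 1) = insert (nxt (U N (sq N M j))) (sq N M j) := by
        rw [sq]
        refine Finset.inter_eq_left.2 ?_
        intro x hx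
        rcases Finset.mem_insert.1 hx with rfl | hx
        · exact h2
        · exact sq_subset j hx
      have hXj := hX j (by omega) h2
      rw [hs, U_insert h3]
      congr 2
      by_cases h0 : X j = 0
      · rw [if_pos h0]
        exact hXj.2 h0
      · rw [if_neg h0]
        exact hXj.1 h0

end Pool.Agent.TC
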