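import Pool.Agent.Lib.MP_f02ea4_nt.TC.CardExc
import Pool.Agent.Lib.MP_f02ea4_nt.TC.Enc
import Pool.Agent.Lib.MP_f02ea4_nt.TC.Run
import Pool.Agent.Lib.MP_f02ea4_nt.TC.Rule
import Pool.Agent.Lib.MP_f02ea4_nt.TC.Least

/-!
# The number of odd perfect numbers with prescribed exponents
-/

set_option autoImplicit false

namespace Pool.Agent.TC

open Finset Nat Pool.Agent.BE

/-- the exponent with a given code; `none` stands for the exponent of `p` -/
def val {E : Finset ℕ} (α : ℕ) : Option E → ℕ
  | none => α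
  | some a => a

/-- as `val`; `none` stands for the exponent `0` -/
def val₀ {E : Finset ℕ} (α : ℕ) : Option (Option E) → ℕ
  | none => 0
  | some o => val α o

open Classical in
/-- the code of the exponent of `q` -/
noncomputable def code (E : Finset ℕ) (N p q : ℕ) : Option E :=
  if h : N.factorization q ∈ E ∧ q ≠ p then some ⟨N.factorization q, h.1⟩ else none

theorem val_code {E : Finset ℕ} {N p q : ℕ} (hC : Cls E N p) (hq : q ∈ N.primeFactors) :
    val (N.factorization p) (code E N p q) = N.factorization q := by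
  unfold code
  by_cases h : q = p
  · subst h
    rw [dif_neg (by simp)]
    rfl
  · rw [dif_pos ⟨hC.mem q hq h, h⟩]
    rfl

open Classical in
/-- the exceptional exponents given by the code `Z` -/
noncomputable def XX {E : Finset ℕ} {K k : ℕ} (α : ℕ) (Z : Fin K → Fin (k + 1) × Option E)
    (j : ℕ) : ℕ :=
  if h : ∃ i, ((Z i).1 : ℕ) = j then val α (Z h.choose).2 else 0

/-- the data from which `N` is found -/
abbrev Data (E : Finset ℕ) (m M K k B : ℕ) : Type :=
  (Fin (M + 1) → Option (Option E)) × (Fin K → Fin (k + 1) × Option E) ×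
    (Fin k → Fin (max 1 m)) × Fin (B + 1)

theorem card_data (E : Finset ℕ) (m M K k B : ℕ) : Fintype.card (Data E m M K k B) =
    (E.card + 1 + 1) ^ (M + 1) * (((k + 1) * (E.card + 1)) ^ K *
      ((max 1 m) ^ k * (B + 1))) := by
  simp only [Data, Fintype.card_prod, Fintype.card_fun, Fintype.card_option, Fintype.card_fin,
    Fintype.card_coe]

/-- the number found from the data -/
noncomputable def dec {E : Finset ℕ} {m M K k B : ℕ} (D : Data E m M K k B) : ℕ :=
  run E (∏ q : Fin (M + 1), (q : ℕ) ^ val₀ (D.2.2.2 : ℕ) (D.1 q)) (XX (D.2.2.2 : ℕ) D.2.1)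
    (fun j => if h : j < k then (D.2.2.1 ⟨j, h⟩ : ℕ) else 0) k

theorem exists_dec {E : Finset ℕ} (hE : ∀ a ∈ E, Even a) {m : ℕ} (hm : Pm E m)
    {N p M K k B : ℕ} (hC : Cls E N p)
    (hM : ∀ l ∈ LL E, l ≤ M) (hmin : N.minFac ≤ M) (hk : N.primeFactors.card ≤ k)
    (hB : N.factorization p ≤ B)
    (hK : ∑ l ∈ LL E, N.factorization l + (if p ∈ LL E then 0 else 1) ≤ K) :
    ∃ D : Data E m M K k B, dec D = N := by
  classical
  have ho := hC.odd
  have hN := hC.perf
  set J : Finset ℕ := (range k).filter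
    (fun j => rr N (range (M + 1)) j ∈ N.primeFactors ∧ Exc N p (rr N (range (M + 1)) j)) with hJdef
  have hJ : J.card ≤ K := (card_exc hE hC (fun l hl _ => mem_range.2 (Nat.lt_succ_of_le (hM l hl))) J fun j hj => (mem_filter.1 hj).2).trans hK
  obtain ⟨Z, hZ1, hZ2⟩ := enc K k J hJ (fun j hj => mem_range.1 (mem_filter.1 hj).1)
    (fun j => code E N p (rr N (range (M + 1)) j))
  have hY : ∀ j : Fin k, ∃ y : Fin (max 1 m), rr N (range (M + 1)) j ∈ N.primeFactors →
      ¬ Exc N p (rr N (range (M + 1)) j) →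
      rule E (U N (sq N (range (M + 1)) j)) (rr N (range (M + 1)) j) y = N.factorization (rr N (range (M + 1)) j) := by
    intro j
    by_cases h : rr N (range (M + 1)) j ∈ N.primeFactors ∧ ¬ Exc N p (rr N (range (M + 1)) j)
    · have h3 : rr N (range (M + 1)) j ∣ ArithmeticFunction.sigma 1 (U N (sq N (range (M + 1)) j)) := by
        rcases nxt_cases ho hN (sq_subset (N := N) (M := range (M + 1)) j) with h1 | h1
        · exfalso
          have h2 := Nat.prime_of_mem_primeFactors h.1
          rw [rr, h1] at h2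
          exact Nat.not_prime_one h2
        · exact h1.2.2
      have hL : ∀ l ∈ LL E, l ∈ N.primeFactors → l ∈ sq N (range (M + 1)) j := fun l hl hlN =>
        sq_mono (Nat.zero_le _) (mem_filter.2 ⟨hlN, mem_range.2 (Nat.lt_succ_of_le (hM l hl))⟩)
      obtain ⟨y, hy, hy2⟩ := rule_correct hm hC (sq_subset j) hL h.1 (rr_not_mem ho hN h.1) h3 h.2
      exact ⟨⟨y, hy⟩, fun _ _ => hy2⟩
    · exact ⟨⟨0, by simp⟩, fun h1 h2 => absurd ⟨h1, h2⟩ h⟩
  choose Y hY using hY
  have hpB : N.factorization p < B + 1 := Nat.lt_succ_of_le hB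
  refine ⟨(fun q => if (q : ℕ) ∈ N.primeFactors then some (code E N p q) else none, Z, Y,
    ⟨N.factorization p, hpB⟩), ?_⟩
  have h0 : (∏ q : Fin (M + 1), (q : ℕ) ^ val₀ (N.factorization p)
      (if (q : ℕ) ∈ N.primeFactors then some (code E N p q) else none)) = U N (sq N (range (M + 1)) 0) := by
    have h1 : ∀ q : Fin (M + 1), (q : ℕ) ^ val₀ (N.factorization p)
        (if (q : ℕ) ∈ N.primeFactors then some (code E N p q) else none) =
        (fun q : ℕ => if q ∈ N.primeFactors then q ^ N.factorization q else 1) (q : ℕ) := by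
      intro q
      by_cases hq : (q : ℕ) ∈ N.primeFactors
      · simp only [hq, if_true]
        rw [val₀, val_code hC hq]
      · simp only [hq, if_false]
        rw [val₀, pow_zero]
    rw [prod_congr rfl fun q _ => h1 q, Fin.prod_univ_eq_prod_range
      (fun q : ℕ => if q ∈ N.primeFactors then q ^ N.factorization q else 1) (M + 1),
      ← prod_filter]
    unfold U sq
    refine prod_congr ?_ fun _ _ => rfl
    ext q
    simp only [mem_filter, mem_range]
    constructor
    · rintro ⟨h1, h2⟩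
      exact ⟨h2, h1⟩
    · rintro ⟨h1, h2⟩
      exact ⟨h2, h1⟩
  have hrun := run_eq (E := E) (N := N) (M := range (M + 1)) (k := k) ho hN (X := XX (N.factorization p) Z)
    (Y := fun j => if h : j < k then (Y ⟨j, h⟩ : ℕ) else 0) (by
      intro j hj hr
      by_cases hex : Exc N p (rr N (range (M + 1)) j)
      · have hjJ : j ∈ J := mem_filter.2 ⟨mem_range.2 hj, hr, hex⟩
        have hi := (hZ1 j hj).2 hjJ
        have hX : XX (N.factorization p) Z j = N.factorization (rr N (range (M + 1)) j) := by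
          unfold XX
          rw [dif_pos hi]
          have h2 := hZ2 hi.choose (by rw [hi.choose_spec]; exact hj)
          rw [h2, hi.choose_spec, val_code hC hr]
        have hpos := fac_pos hr
        exact ⟨fun _ => hX, fun h => by omega⟩
      · have hjJ : j ∉ J := fun h => hex (mem_filter.1 h).2.2
        have hX : XX (N.factorization p) Z j = 0 := by
          unfold XX
          rw [dif_neg fun h => hjJ ((hZ1 j hj).1 h)]
        refine ⟨fun h => absurd hX h, fun _ => ?_⟩
        simp only [hj, dif_pos]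
        exact hY ⟨j, hj⟩ hr hex) k le_rfl
  have hne : (sq N (range (M + 1)) 0).Nonempty := by
    obtain ⟨q, hq, -⟩ := exists_odd ho hN
    have h1 : N ≠ 1 := by rintro rfl; simp at hq
    exact ⟨N.minFac, mem_filter.2 ⟨Nat.mem_primeFactors.2 ⟨Nat.minFac_prime h1,
      Nat.minFac_dvd N, hN.2.ne'⟩, mem_range.2 (Nat.lt_succ_of_le hmin)⟩⟩
  show run E _ _ _ k = N
  simp only
  rw [h0, hrun, sq_full ho hN hne hk, U_full hN.2.ne']

/-- the odd perfect numbers of the class -/
def SS (E : Finset ℕ) (K k B : ℕ) : Set ℕ :=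
  {N : ℕ | Odd N ∧ N.Perfect ∧ N.primeFactors.card ≤ k ∧ ∃ p : ℕ, N.factorization p ≤ B ∧
    (∀ q ∈ N.primeFactors, q ≠ p → N.factorization q ∈ E) ∧
    ∑ l ∈ (∏ a ∈ E, (a + 1)).primeFactors, N.factorization l +
      (if p ∣ ∏ a ∈ E, (a + 1) then 0 else 1) ≤ K}

theorem count (hT : Thin) {E : Finset ℕ} (hE : ∀ a ∈ E, Even a) {m : ℕ} (hm : Pm E m)
    (K : ℕ) :
    ∃ C : ℕ, ∀ k B : ℕ, (SS E K k B).Finite ∧
      (SS E K k B).ncard ≤ C * B * k ^ K * (max 1 m) ^ k := by
  obtain ⟨M₁, hM₁⟩ := least_le hT (E.sup id)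
  set M := max M₁ ((LL E).sup id) with hMdef
  have hML : ∀ l ∈ LL E, l ≤ M := fun l hl =>
    (le_sup (f := id) hl).trans (le_max_right _ _)
  refine ⟨2 * (E.card + 1 + 1) ^ (M + 1) * (2 * (E.card + 1)) ^ K, fun k B => ?_⟩
  have hsub : SS E K k B ⊆ Set.range (dec (E := E) (m := m) (M := M) (K := K) (k := k) (B := B)) := by
    rintro N ⟨ho, hN, hk, p, hB, hmem, hK⟩
    have hC : Cls E N p := ⟨ho, hN, hmem⟩
    have hmin : N.minFac ≤ M := by
      refine (hM₁ N p ho hN fun q hq hqp => ?_).trans (le_max_left _ _)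
      exact le_sup (f := id) (hmem q hq hqp)
    have hK' : ∑ l ∈ LL E, N.factorization l + (if p ∈ LL E then 0 else 1) ≤ K := by
      by_cases hp : p ∈ LL E
      · have h1 : p ∣ ∏ a ∈ E, (a + 1) := Nat.dvd_of_mem_primeFactors hp
        rw [if_pos h1] at hK
        rw [if_pos hp]
        exact hK
      · by_cases hpN : p ∈ N.primeFactors
        · have h1 : ¬ p ∣ ∏ a ∈ E, (a + 1) := fun h => hp (Nat.mem_primeFactors.2
            ⟨Nat.prime_of_mem_primeFactors hpN, h,
              prod_ne_zero_iff.2 fun _ _ => Nat.succ_ne_zero _⟩)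
          rw [if_neg h1] at hK
          rw [if_neg hp]
          exact hK
        · exfalso
          obtain ⟨q, hq, hqo⟩ := exists_odd ho hN
          have hqp : q ≠ p := fun h => hpN (h ▸ hq)
          exact (Nat.not_even_iff_odd.2 hqo) (hE _ (hmem q hq hqp))
    exact exists_dec hE hm hC hML hmin hk hB hK'
  have hfin : (Set.range (dec (E := E) (m := m) (M := M) (K := K) (k := k) (B := B))).Finite :=
    Set.finite_range _
  refine ⟨hfin.subset hsub, ?_⟩
  rcases Nat.eq_zero_or_pos k with rfl | hk0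
  · have : SS E K 0 B = ∅ := by
      rw [Set.eq_empty_iff_forall_notMem]
      rintro N ⟨ho, hN, hk, -⟩
      obtain ⟨q, hq, -⟩ := exists_odd ho hN
      have := card_pos.2 ⟨q, hq⟩
      omega
    rw [this, Set.ncard_empty]
    exact Nat.zero_le _
  rcases Nat.eq_zero_or_pos B with rfl | hB0
  · have : SS E K k 0 = ∅ := by
      rw [Set.eq_empty_iff_forall_notMem]
      rintro N ⟨ho, hN, hk, p, hB, hmem, -⟩
      obtain ⟨q, hq, hqo⟩ := exists_odd ho hN
      have hqp : q ≠ p := by
        rintro rfl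
        have := fac_pos hq
        omega
      exact (Nat.not_even_iff_odd.2 hqo) (hE _ (hmem q hq hqp))
    rw [this, Set.ncard_empty]
    exact Nat.zero_le _
  calc (SS E K k B).ncard
      ≤ (Set.range (dec (E := E) (m := m) (M := M) (K := K) (k := k) (B := B))).ncard :=
        Set.ncard_le_ncard hsub hfin
    _ ≤ Fintype.card (Data E m M K k B) := by
        rw [← Set.image_univ]
        refine (Set.ncard_image_le Set.finite_univ).trans ?_
        rw [Set.ncard_univ, Nat.card_eq_fintype_card]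
    _ = (E.card + 1 + 1) ^ (M + 1) * (((k + 1) * (E.card + 1)) ^ K *
          ((max 1 m) ^ k * (B + 1))) := card_data _ _ _ _ _ _
    _ ≤ (E.card + 1 + 1) ^ (M + 1) * (((2 * k) * (E.card + 1)) ^ K *
          ((max 1 m) ^ k * (2 * B))) := by
        gcongr
        · omega
        · omega
    _ = 2 * (E.card + 1 + 1) ^ (M + 1) * (2 * (E.card + 1)) ^ K * B * k ^ K *
          (max 1 m) ^ k := by
        rw [show (2 * k) * (E.card + 1) = (2 * (E.card + 1)) * k by ring, mul_pow _ k]
        ring

end Pool.Agent.TC
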