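import Pool.Agent.Lib.MP_f02ea4_nt.BE.Order

/-!
# Counting odd perfect numbers with prescribed exponents: the definitions
-/

set_option autoImplicit false

namespace Pool.Agent.TC

open Finset Nat Pool.Agent.BE

/-- the part of `N` made of the primes in `S` -/
def U (N : ℕ) (S : Finset ℕ) : ℕ := ∏ q ∈ S, q ^ N.factorization q

open Classical in
/-- the smallest prime which divides `σ(A)` and does not divide `2 A`; `1` if there is none -/
noncomputable def nxt (A : ℕ) : ℕ :=
  if h : ∃ r : ℕ, r.Prime ∧ r ∣ ArithmeticFunction.sigma 1 A ∧ ¬ r ∣ 2 * A then Nat.find h else 1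

/-- `r` is `1` modulo a prime divisor of `a + 1` -/
def One (a r : ℕ) : Prop := ∃ l : ℕ, l.Prime ∧ l ∣ a + 1 ∧ l ∣ r - 1

open Classical in
/-- the elements `a` of `E` such that `r` is not `1` modulo a prime divisor of `a + 1` -/
noncomputable def cand (E : Finset ℕ) (r : ℕ) : Finset ℕ := E.filter (fun a => ¬ One a r)

open Classical in
/-- the exponent of `r` given by the rule; `y` chooses between the candidates -/
noncomputable def rule (E : Finset ℕ) (A r y : ℕ) : ℕ :=
  if ∃ a ∈ E, One a r then ((cand E r).sort (· ≤ ·)).getD y 0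
  else (ArithmeticFunction.sigma 1 A).factorization r

/-- the process: `X j ≠ 0` is the exponent of an exceptional prime found in step `j`, `Y j` a
choice between the candidates -/
noncomputable def run (E : Finset ℕ) (A₀ : ℕ) (X Y : ℕ → ℕ) : ℕ → ℕ
  | 0 => A₀
  | j + 1 => run E A₀ X Y j * nxt (run E A₀ X Y j) ^
      (if X j = 0 then rule E (run E A₀ X Y j) (nxt (run E A₀ X Y j)) (Y j) else X j)

/-- the set of the prime factors of `N` which the process has found after `j` steps if it starts
with the prime factors in `M` -/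
noncomputable def sq (N : ℕ) (M : Finset ℕ) : ℕ → Finset ℕ
  | 0 => N.primeFactors.filter (· ∈ M)
  | j + 1 => insert (nxt (U N (sq N M j))) (sq N M j) ∩ N.primeFactors

/-- the prime found in step `j` -/
noncomputable def rr (N : ℕ) (M : Finset ℕ) (j : ℕ) : ℕ := nxt (U N (sq N M j))

/-- `N` is an odd perfect number and all its exponents but that of `p` are in `E` -/
structure Cls (E : Finset ℕ) (N p : ℕ) : Prop where
  odd : Odd N
  perf : N.Perfect
  mem : ∀ q ∈ N.primeFactors, q ≠ p → N.factorization q ∈ E

/-- the primes which divide some `a + 1`, `a ∈ E` -/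
def LL (E : Finset ℕ) : Finset ℕ := (∏ a ∈ E, (a + 1)).primeFactors

/-- the exceptional primes -/
def Exc (N p r : ℕ) : Prop := r = p ∨ One (N.factorization r) r

theorem mem_LL {E : Finset ℕ} {a l : ℕ} (ha : a ∈ E) (hl : l.Prime) (h : l ∣ a + 1) : l ∈ LL E :=
  Nat.mem_primeFactors.2 ⟨hl, h.trans (dvd_prod_of_mem _ ha),
    prod_ne_zero_iff.2 fun _ _ => Nat.succ_ne_zero _⟩

theorem prime_of_mem_LL {E : Finset ℕ} {l : ℕ} (h : l ∈ LL E) : l.Prime :=
  Nat.prime_of_mem_primeFactors h

end Pool.Agent.TC
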