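import Pool.Agent.Lib.MP_f02ea4_nt.TC.Chain
import Pool.Agent.Lib.MP_f02ea4_nt.TC.SixB
import Pool.Agent.Lib.MP_f02ea4_nt.TC.Bridge

/-!
# Finitely many numbers with a special prime which can not be an ordinary prime
-/

set_option autoImplicit false

namespace Pool.Agent.TC

open Finset Nat Pool.Agent.BE

/-- a prime `p` with `gcd (p - 1, a + 1) > 1` for all `a ∈ E` divides a number of the class only as its
special prime -/
theorem eq_of_dvd_of_one {E : Set ℕ} (hEe : ∀ a ∈ E, Even a) {N' p p' : ℕ} (hpp : p.Prime)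
    (hC' : ClsS E N' p') (h1 : ∀ a ∈ E, One a p) (hd : p ∣ N') : p = p' := by
  by_contra h
  have hpN' : p ∈ N'.primeFactors := Nat.mem_primeFactors.2 ⟨hpp, hd, hC'.perf.2.ne'⟩
  have hm := hC'.mem p hpN' h
  exact (normalS hEe hC'.perf hC'.cop hpN' hm).2 (h1 _ hm)

/-- the special primes `p` with `gcd (p - 1, a + 1) > 1` for all `a ∈ E` -/
def SpE (E : Set ℕ) : Set ℕ := {p | (∀ a ∈ E, One a p) ∧ ∃ N, ClsS E N p}

theorem spE_finite (hT : Thin) {E : Finset ℕ} (hE : P1 (E : Set ℕ)) (hEe : ∀ a ∈ E, Even a) :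
    (SpE (E : Set ℕ)).Finite := by
  classical
  obtain ⟨C, κ, τ, h⟩ := chains hT hE hEe
  choose f hf using fun p : SpE (E : Set ℕ) => p.2.2
  have hpr : ∀ p : SpE (E : Set ℕ), (p : ℕ).Prime := fun p =>
    Nat.prime_of_mem_primeFactors (special_mem' hEe (hf p)).1
  have hinj : Function.Injective fun p : SpE (E : Set ℕ) => κ (f p) := by
    intro p p' hpp'
    simp only at hpp'
    rcases le_total (τ (f p)) (τ (f p')) with ht | ht
    · have h1 := h _ _ _ _ (hf p) (hf p') hpp' ht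
      exact Subtype.ext (eq_of_dvd_of_one hEe (hpr p) (hf p') p.2.1 h1)
    · have h1 := h _ _ _ _ (hf p') (hf p) hpp'.symm ht
      exact (Subtype.ext (eq_of_dvd_of_one hEe (hpr p') (hf p) p'.2.1 h1)).symm
  have := Finite.of_injective _ hinj
  exact Set.toFinite _

/-- the numbers of the class whose special prime `p` satisfies `gcd (p - 1, a + 1) > 1` for all `a ∈ E`
and has a bounded exponent -/
theorem numE_finite (hT : Thin) {E : Finset ℕ} (hE : P1 (E : Set ℕ)) (hEe : ∀ a ∈ E, Even a)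
    (B : ℕ) : {N : ℕ | ∃ p, ClsS (E : Set ℕ) N p ∧ (∀ a ∈ (E : Set ℕ), One a p) ∧
      N.factorization p ≤ B}.Finite := by
  classical
  have hfin := spE_finite hT hE hEe
  refine Set.Finite.of_injOn (f := fun N : ℕ =>
    if h : ∃ p, ClsS (E : Set ℕ) N p ∧ (∀ a ∈ (E : Set ℕ), One a p) ∧ N.factorization p ≤ B then
      (h.choose, N.factorization h.choose) else (0, 0))
    (t := (SpE (E : Set ℕ)) ×ˢ (Set.Iic B)) ?_ ?_ (hfin.prod (Set.finite_Iic B))
  · intro N hN
    replace hN : ∃ p, ClsS (E : Set ℕ) N p ∧ (∀ a ∈ (E : Set ℕ), One a p) ∧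
      N.factorization p ≤ B := hN
    simp only
    rw [dif_pos hN]
    exact ⟨⟨hN.choose_spec.2.1, N, hN.choose_spec.1⟩, hN.choose_spec.2.2⟩
  · intro N hN N' hN' heq
    replace hN : ∃ p, ClsS (E : Set ℕ) N p ∧ (∀ a ∈ (E : Set ℕ), One a p) ∧
      N.factorization p ≤ B := hN
    replace hN' : ∃ p, ClsS (E : Set ℕ) N' p ∧ (∀ a ∈ (E : Set ℕ), One a p) ∧
      N'.factorization p ≤ B := hN'
    simp only at heq
    rw [dif_pos hN, dif_pos hN', Prod.mk.injEq] at heq
    obtain ⟨h1, h2⟩ := heq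
    have hC := hN.choose_spec.1
    have hC' := hN'.choose_spec.1
    rw [← h1] at hC' h2
    obtain ⟨hp, -⟩ := special_mem' hEe hC
    obtain ⟨hp', -⟩ := special_mem' hEe hC'
    rcases dichotomy hE hEe hC hC' ⟨_, mem_filter.2 ⟨hp, hp', h2⟩⟩ with h | h | h
    · exact h
    · exact absurd h2.symm h.2
    · exact absurd h2 h.2

/-- only finitely many odd perfect numbers without sixth powers, prime to `15`, have an Euler prime
`p` which is `1` modulo `5` -/
theorem six_finite (hT : Thin) : {N : ℕ | Odd N ∧ N.Perfect ∧ (∀ n : ℕ, n ^ 6 ∣ N → n = 1) ∧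
    Nat.Coprime N 15 ∧ ∃ p, Odd (N.factorization p) ∧ p % 5 = 1}.Finite := by
  have hE2 : P1 (({2, 4} : Finset ℕ) : Set ℕ) := P1_of_card (E := {2, 4}) card_le_two
  refine (numE_finite hT (E := {2, 4}) hE2 (by decide) 5).subset ?_
  rintro N ⟨ho, hN, h6, hc, p, hp, hp5⟩
  have h3 : ¬ 3 ∣ N := fun h => by
    have := Nat.dvd_gcd h (show 3 ∣ 15 by norm_num)
    rw [hc] at this
    omega
  obtain ⟨h1, h2, h4⟩ := six_alpha ho hN h6 h3 hp
  refine ⟨p, six_cls ho hN h6 hc hp, ?_, by omega⟩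
  intro a ha
  simp only [coe_insert, coe_singleton, Set.mem_insert_iff, Set.mem_singleton_iff] at ha
  rcases ha with rfl | rfl
  · exact ⟨3, Nat.prime_three, by norm_num, by omega⟩
  · exact ⟨5, Nat.prime_five, by norm_num, by omega⟩

/-- all but finitely many odd perfect numbers without sixth powers, prime to `15`, have an Euler prime
`p` which is `13` or `37` modulo `60` -/
theorem six_finite60 (hT : Thin) : {N : ℕ | Odd N ∧ N.Perfect ∧ (∀ n : ℕ, n ^ 6 ∣ N → n = 1) ∧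
    Nat.Coprime N 15 ∧ ∃ p, Odd (N.factorization p) ∧ p % 60 ≠ 13 ∧ p % 60 ≠ 37}.Finite := by
  refine (six_finite hT).subset ?_
  rintro N ⟨ho, hN, h6, hc, p, hp, h13, h37⟩
  refine ⟨ho, hN, h6, hc, p, hp, ?_⟩
  have hndvd : ∀ l : ℕ, l.Prime → l ∣ 15 → ¬ l ∣ N := fun l hl h15 h => by
    have h1 := Nat.dvd_gcd h h15
    rw [hc] at h1
    exact hl.one_lt.ne' (Nat.dvd_one.1 h1)
  obtain ⟨h1, h2, h4⟩ := six_alpha ho hN h6 (hndvd 3 Nat.prime_three (by norm_num)) hp
  have hpd := Nat.dvd_of_mem_primeFactors h1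
  have h5 : p % 5 ≠ 0 := fun h => hndvd 5 Nat.prime_five (by norm_num)
    ((Nat.dvd_of_mod_eq_zero h).trans hpd)
  have h54 : p % 5 ≠ 4 := by
    intro h
    have h7 : 5 ∣ s N p := by
      rw [s, h2]
      simp only [G, sum_range_succ, range_zero, sum_empty]
      have h8 : p ^ 0 = 1 := pow_zero _
      have h9 : p ^ 1 = p := pow_one _
      omega
    exact hndvd 5 Nat.prime_five (by norm_num)
      (dvd_of_dvd_s hN h1 Nat.prime_five h7 (by norm_num))
  omega

/-- the pair version -/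
theorem pair_finite (hT : Thin) (d e B : ℕ) (hd : Even d) (he : Even e) :
    {N : ℕ | Odd N ∧ N.Perfect ∧ Nat.Coprime N ((d + 1) * (e + 1)) ∧ ∃ p : ℕ,
      N.factorization p ≤ B ∧ ¬ Nat.Coprime (p - 1) (d + 1) ∧ ¬ Nat.Coprime (p - 1) (e + 1) ∧
      ∀ q ∈ N.primeFactors, q ≠ p → N.factorization q = d ∨ N.factorization q = e}.Finite := by
  refine (numE_finite hT (E := {d, e}) (P1_of_card (E := {d, e}) card_le_two)
    (even_pair hd he) B).subset ?_
  rintro N ⟨ho, hN, hc, p, hpB, h1, h2, h3⟩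
  refine ⟨p, clsS_pair.2 ⟨ho, hN, hc, h3⟩, ?_, hpB⟩
  have key : ∀ a : ℕ, ¬ Nat.Coprime (p - 1) (a + 1) → One a p := by
    intro a ha
    obtain ⟨l, hl, hl1, hl2⟩ := Nat.Prime.not_coprime_iff_dvd.1 ha
    exact ⟨l, hl, hl2, hl1⟩
  intro a ha
  simp only [coe_insert, coe_singleton, Set.mem_insert_iff, Set.mem_singleton_iff] at ha
  rcases ha with rfl | rfl
  · exact key _ h1
  · exact key _ h2

/-- the special primes of the pair version -/
theorem pair_primes_finite (hT : Thin) (d e : ℕ) (hd : Even d) (he : Even e) :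
    {p : ℕ | ¬ Nat.Coprime (p - 1) (d + 1) ∧ ¬ Nat.Coprime (p - 1) (e + 1) ∧ ∃ N : ℕ, Odd N ∧
      N.Perfect ∧ Nat.Coprime N ((d + 1) * (e + 1)) ∧
      ∀ q ∈ N.primeFactors, q ≠ p → N.factorization q = d ∨ N.factorization q = e}.Finite := by
  refine (spE_finite hT (E := {d, e}) (P1_of_card (E := {d, e}) card_le_two)
    (even_pair hd he)).subset ?_
  rintro p ⟨h1, h2, N, ho, hN, hc, h3⟩
  have key : ∀ a : ℕ, ¬ Nat.Coprime (p - 1) (a + 1) → One a p := by
    intro a ha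
    obtain ⟨l, hl, hl1, hl2⟩ := Nat.Prime.not_coprime_iff_dvd.1 ha
    exact ⟨l, hl, hl2, hl1⟩
  refine ⟨?_, N, clsS_pair.2 ⟨ho, hN, hc, h3⟩⟩
  intro a ha
  simp only [coe_insert, coe_singleton, Set.mem_insert_iff, Set.mem_singleton_iff] at ha
  rcases ha with rfl | rfl
  · exact key _ h1
  · exact key _ h2

end Pool.Agent.TC
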