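import Pool.Agent.Lib.MP_f02ea4_nt.BE.Base

/-!
# TASK TC L: the least prime factor is at most the number of prime factors
Proof. Let `P = N.minFac`, `w = N.primeFactors.card`. `∏ q ∈ N.primeFactors, s N q = 2 N`
(`prod_s`) and `s N q * (q - 1) < q * q ^ v_q` (`s N q = (q ^ (v_q + 1) - 1) / (q - 1)`), so
`2 < ∏ q / (q - 1)` over the prime factors (real or rational numbers). The prime factors are
`≥ P` and distinct, so the `i`-th (from below, `i = 0, ..., w - 1`) is `≥ P + i` and the product is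
at most `∏ i < w, (P + i) / (P + i - 1) = (P + w - 1) / (P - 1)` (telescoping; induction on a finset
of natural numbers `≥ P` with the maximum removed is convenient: `∏ q ∈ S, q / (q - 1) ≤
(P + S.card - 1) / (P - 1)`). So `2 (P - 1) < P + w - 1`.
-/

set_option autoImplicit false

namespace Pool.Agent.TC

open Finset Nat Pool.Agent.BE

private theorem TCL_prod {P : ℕ} (hP : 2 ≤ P) (S : Finset ℕ) :
    (∀ q ∈ S, P ≤ q) →
      ∏ q ∈ S, ((q : ℚ) / ((q : ℚ) - 1)) ≤ ((P : ℚ) + (S.card : ℚ) - 1) / ((P : ℚ) - 1) := by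
  have hP1 : (0 : ℚ) < (P : ℚ) - 1 := by
    have : (2 : ℚ) ≤ (P : ℚ) := by exact_mod_cast hP
    linarith
  induction S using Finset.induction_on_max with
  | empty =>
    intro _
    simp only [Finset.prod_empty, Finset.card_empty, Nat.cast_zero, add_zero]
    rw [div_self hP1.ne']
  | insert a S hlt ih =>
    intro hS
    have ha : a ∉ S := fun h => (lt_irrefl a) (hlt a h)
    have h1 := ih fun q hq => hS q (Finset.mem_insert_of_mem hq)
    have hcard : P + S.card ≤ a := by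
      have h2 : S ⊆ Finset.Ico P a := fun x hx =>
        Finset.mem_Ico.2 ⟨hS x (Finset.mem_insert_of_mem hx), hlt x hx⟩
      have h3 := Finset.card_le_card h2
      rw [Nat.card_Ico] at h3
      have h4 := hS a (Finset.mem_insert_self a S)
      omega
    rw [Finset.prod_insert ha, Finset.card_insert_of_notMem ha]
    have hc : ((P : ℚ) + (S.card : ℚ)) ≤ (a : ℚ) := by exact_mod_cast hcard
    have hs0 : (0 : ℚ) ≤ (S.card : ℚ) := Nat.cast_nonneg _
    have hm : (0 : ℚ) < (P : ℚ) + (S.card : ℚ) - 1 := by linarith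
    have ha1 : (0 : ℚ) < (a : ℚ) - 1 := by linarith
    have h5 : (a : ℚ) / ((a : ℚ) - 1) ≤
        ((P : ℚ) + (S.card : ℚ)) / ((P : ℚ) + (S.card : ℚ) - 1) := by
      rw [div_le_div_iff₀ ha1 hm]
      nlinarith
    have h6 : (0 : ℚ) ≤ ∏ q ∈ S, ((q : ℚ) / ((q : ℚ) - 1)) := by
      refine Finset.prod_nonneg fun q hq => ?_
      have h7 : (2 : ℚ) ≤ (q : ℚ) := by
        exact_mod_cast hP.trans (hS q (Finset.mem_insert_of_mem hq))
      exact div_nonneg (by linarith) (by linarith)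
    have h8 : (0 : ℚ) ≤ ((P : ℚ) + (S.card : ℚ)) / ((P : ℚ) + (S.card : ℚ) - 1) :=
      div_nonneg (by linarith) hm.le
    calc (a : ℚ) / ((a : ℚ) - 1) * ∏ q ∈ S, ((q : ℚ) / ((q : ℚ) - 1))
        ≤ ((P : ℚ) + (S.card : ℚ)) / ((P : ℚ) + (S.card : ℚ) - 1) *
          (((P : ℚ) + (S.card : ℚ) - 1) / ((P : ℚ) - 1)) := mul_le_mul h5 h1 h6 h8
      _ = ((P : ℚ) + ((S.card + 1 : ℕ) : ℚ) - 1) / ((P : ℚ) - 1) := by
        rw [div_mul_div_cancel₀ hm.ne']
        push_cast
        ring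

private theorem TCL_s {N q : ℕ} (hq : 2 ≤ q) :
    (s N q : ℚ) < (q : ℚ) ^ N.factorization q * ((q : ℚ) / ((q : ℚ) - 1)) := by
  have h2 : (2 : ℚ) ≤ (q : ℚ) := by exact_mod_cast hq
  have h1 : (0 : ℚ) < (q : ℚ) - 1 := by linarith
  have h3 : (s N q : ℚ) * ((q : ℚ) - 1) = (q : ℚ) ^ (N.factorization q + 1) - 1 := by
    unfold s G
    push_cast
    exact geom_sum_mul (q : ℚ) (N.factorization q + 1)
  rw [← mul_div_assoc, lt_div_iff₀ h1, h3, pow_succ]
  linarith

theorem least_le_card {N : ℕ} (ho : Odd N) (hN : N.Perfect) :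
    N.minFac ≤ N.primeFactors.card := by
  have hN0 : N ≠ 0 := hN.2.ne'
  have hN1 : N ≠ 1 := by
    rintro rfl
    have h := hN.1
    simp at h
  have hP := Nat.minFac_prime hN1
  have hmem : N.minFac ∈ N.primeFactors :=
    Nat.mem_primeFactors.2 ⟨hP, Nat.minFac_dvd N, hN0⟩
  have hge : ∀ q ∈ N.primeFactors, N.minFac ≤ q := fun q hq =>
    Nat.minFac_le_of_dvd (Nat.prime_of_mem_primeFactors hq).two_le (Nat.dvd_of_mem_primeFactors hq)
  have h1 := TCL_prod hP.two_le N.primeFactors hge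
  have h2 : ∏ q ∈ N.primeFactors, (s N q : ℚ) <
      ∏ q ∈ N.primeFactors, ((q : ℚ) ^ N.factorization q * ((q : ℚ) / ((q : ℚ) - 1))) := by
    refine Finset.prod_lt_prod_of_nonempty (fun q _ => ?_) (fun q hq => ?_) ⟨_, hmem⟩
    · exact_mod_cast s_pos N q
    · exact TCL_s (Nat.prime_of_mem_primeFactors hq).two_le
  have h3 : ∏ q ∈ N.primeFactors, (s N q : ℚ) = 2 * (N : ℚ) := by
    rw [← Nat.cast_prod, prod_s hN]
    push_cast
    ring
  have h4 : ∏ q ∈ N.primeFactors, (q : ℚ) ^ N.factorization q = (N : ℚ) := by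
    have h5 := Nat.prod_factorization_pow_eq_self hN0
    rw [Finsupp.prod, Nat.support_factorization] at h5
    exact_mod_cast h5
  rw [Finset.prod_mul_distrib, h3, h4] at h2
  have hNpos : (0 : ℚ) < (N : ℚ) := by exact_mod_cast hN.2
  have h6 : (2 : ℚ) < ∏ q ∈ N.primeFactors, ((q : ℚ) / ((q : ℚ) - 1)) := by
    by_contra hle
    rw [not_lt] at hle
    have := mul_le_mul_of_nonneg_left hle hNpos.le
    linarith
  have h7 := h6.trans_le h1
  have hP2 : (2 : ℚ) ≤ (N.minFac : ℚ) := by exact_mod_cast hP.two_le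
  rw [lt_div_iff₀ (by linarith)] at h7
  have h8 : (N.minFac : ℚ) < (N.primeFactors.card : ℚ) + 1 := by linarith
  have h9 : N.minFac < N.primeFactors.card + 1 := by exact_mod_cast h8
  omega

end Pool.Agent.TC
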