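import Mathlib

/-!
# TASK TC O: the number of prime factors of an integer up to `x`
Proof. Let `k = N.primeFactors.card`. The product of the prime factors divides `N` and the product
of `k` distinct integers `≥ 2` is `≥ k !`, so `k ! ≤ N ≤ x` and `k ^ (k / 2) ≤ x`-type bounds give
`k log k ≤ 4 log x` (e.g. `k ! ≥ (k / 3) ^ k`, or at least `k / 2` factors are `≥ k / 2`). If
`k ≤ sqrt (log x)` use `sqrt t ≤ C t / log t` for `t = log x > 1` (`Real.log_le_...`: `log t ≤ 2
sqrt t`). Otherwise `log k ≥ (1 / 2) log log x`. (`log (log x) > 0` because `log 3 > 1`.)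
-/

set_option autoImplicit false

namespace Pool.Agent.TC

open Finset Nat

private theorem TCO_fact (S : Finset ℕ) (h : ∀ a ∈ S, 1 ≤ a) : (S.card)! ≤ ∏ a ∈ S, a := by
  induction S using Finset.induction_on_max with
  | empty => simp
  | insert a s hlt ih =>
    have ha : a ∉ s := fun hm => lt_irrefl a (hlt a hm)
    rw [Finset.card_insert_of_notMem ha, Finset.prod_insert ha, Nat.factorial_succ]
    have h1 : s ⊆ Finset.Ico 1 a := by
      intro b hb
      rw [Finset.mem_Ico]
      exact ⟨h b (Finset.mem_insert_of_mem hb), hlt b hb⟩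
    have h2 := Finset.card_le_card h1
    rw [Nat.card_Ico] at h2
    have h3 := h a (Finset.mem_insert_self a s)
    exact Nat.mul_le_mul (by omega) (ih fun b hb => h b (Finset.mem_insert_of_mem hb))

theorem omega_le : ∃ C : ℝ, 0 < C ∧ ∀ (N : ℕ) (x : ℝ), 3 ≤ x → N ≠ 0 → (N : ℝ) ≤ x →
    (N.primeFactors.card : ℝ) ≤ C * (Real.log x / Real.log (Real.log x)) := by
  refine ⟨16, by norm_num, ?_⟩
  intro N x hx hN hNx
  set k : ℕ := N.primeFactors.card with hk
  set t : ℝ := Real.log x with ht
  have hx0 : (0 : ℝ) < x := by linarith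
  have ht1 : 1 < t := by
    rw [ht, Real.lt_log_iff_exp_lt hx0]
    have := Real.exp_one_lt_d9
    linarith
  have ht0 : 0 < t := by linarith
  have hlt : 0 < Real.log t := Real.log_pos ht1
  have hsq : 0 < √t := Real.sqrt_pos.2 ht0
  have hsqt : √t * √t = t := Real.mul_self_sqrt ht0.le
  -- `log t ≤ 2 sqrt t`
  have h1 : Real.log t ≤ 2 * √t := by
    have h2 : Real.log t = 2 * Real.log (√t) := by
      rw [Real.log_sqrt ht0.le]
      ring
    have h3 := Real.log_le_sub_one_of_pos hsq
    rw [h2]
    linarith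
  have hgoal : (k : ℝ) * Real.log t ≤ 16 * t → (k : ℝ) ≤ 16 * (t / Real.log t) := by
    intro h
    rw [mul_div_assoc', le_div_iff₀ hlt]
    exact h
  apply hgoal
  by_cases hc : (k : ℝ) ≤ 8 * √t
  · calc (k : ℝ) * Real.log t ≤ (8 * √t) * (2 * √t) :=
          mul_le_mul hc h1 hlt.le (by positivity)
      _ = 16 * (√t * √t) := by ring
      _ = 16 * t := by rw [hsqt]
  · push Not at hc
    have hk0 : (0 : ℝ) < k := lt_trans (by positivity) hc
    have hfac : k ! ≤ N := by
      have h2 : k ! ≤ ∏ a ∈ N.primeFactors, a :=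
        TCO_fact _ fun a ha => (Nat.prime_of_mem_primeFactors ha).one_lt.le
      exact h2.trans (Nat.le_of_dvd (Nat.pos_of_ne_zero hN) (Nat.prod_primeFactors_dvd N))
    have h3 : (k : ℝ) ^ k / (k ! : ℝ) ≤ Real.exp k := Real.pow_div_factorial_le_exp k hk0.le k
    have hf0 : (0 : ℝ) < (k ! : ℝ) := by exact_mod_cast Nat.factorial_pos k
    have h4 : (k : ℝ) ^ k ≤ Real.exp k * x := by
      rw [div_le_iff₀ hf0] at h3
      refine h3.trans (mul_le_mul_of_nonneg_left ?_ (Real.exp_pos _).le)
      exact le_trans (by exact_mod_cast hfac) hNx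
    have h5 : (k : ℝ) * Real.log k ≤ k + t := by
      have h6 := Real.log_le_log (pow_pos hk0 k) h4
      rw [Real.log_pow, Real.log_mul (Real.exp_pos _).ne' hx0.ne', Real.log_exp] at h6
      exact h6
    have h7 : 2 + Real.log t / 2 ≤ Real.log k := by
      have h8 : Real.exp (2 + Real.log t / 2) ≤ k := by
        rw [Real.exp_add]
        have h9 : Real.exp (Real.log t / 2) = √t := by
          rw [← Real.log_sqrt ht0.le, Real.exp_log hsq]
        rw [h9]
        have h10 : Real.exp 2 ≤ 8 := by
          have e1 : Real.exp 2 = Real.exp 1 * Real.exp 1 := by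
            rw [← Real.exp_add]
            norm_num
          rw [e1]
          have := Real.exp_one_lt_d9
          have h11 := Real.exp_pos 1
          nlinarith
        exact (mul_le_mul_of_nonneg_right h10 hsq.le).trans hc.le
      rwa [Real.le_log_iff_exp_le hk0]
    have h12 : (k : ℝ) * (2 + Real.log t / 2) ≤ k + t :=
      (mul_le_mul_of_nonneg_left h7 hk0.le).trans h5
    nlinarith

end Pool.Agent.TC
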