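import Pool.Agent.Lib.MP_f02ea4_nt.TC.Sixth
import Pool.Agent.Lib.MP_f02ea4_nt.TC.Omega

/-!
# The number of odd perfect numbers of the class up to `x`
-/

set_option autoImplicit false

namespace Pool.Agent.TC

open Finset Nat Pool.Agent.BE

theorem loglog_pos {x : ℝ} (hx : 3 ≤ x) : 0 < Real.log (Real.log x) := by
  apply Real.log_pos
  rw [Real.lt_log_iff_exp_lt (by linarith)]
  have := Real.exp_one_lt_d9
  linarith

theorem ratio_pos {x : ℝ} (hx : 3 ≤ x) : 0 < Real.log x / Real.log (Real.log x) :=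
  div_pos (Real.log_pos (by linarith)) (loglog_pos hx)

theorem fac_le_log {N q : ℕ} {x : ℝ} (hx : 3 ≤ x) (ho : Odd N) (hNx : (N : ℝ) ≤ x) :
    N.factorization q ≤ ⌊Real.log x⌋₊ := by
  apply Nat.le_floor
  by_cases hq : q ∈ N.primeFactors
  · have h1 := two_lt ho hq
    have hN0 : N ≠ 0 := (Nat.mem_primeFactors.1 hq).2.2
    have h2 : 3 ^ N.factorization q ≤ N := by
      calc 3 ^ N.factorization q ≤ q ^ N.factorization q := Nat.pow_le_pow_left (by omega) _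
        _ ≤ N := Nat.le_of_dvd (Nat.pos_of_ne_zero hN0) (Nat.ordProj_dvd N q)
    have h3 : ((3 : ℝ)) ^ N.factorization q ≤ x := by
      refine le_trans ?_ hNx
      exact_mod_cast h2
    have h4 : (N.factorization q : ℝ) * Real.log 3 ≤ Real.log x := by
      rw [← Real.log_pow]
      exact Real.log_le_log (by positivity) h3
    have h5 : (1 : ℝ) ≤ Real.log 3 := by
      rw [Real.le_log_iff_exp_le (by norm_num)]
      have := Real.exp_one_lt_d9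
      linarith
    have h6 : (0 : ℝ) ≤ (N.factorization q : ℝ) := by positivity
    nlinarith
  · rw [← Nat.support_factorization, Finsupp.notMem_support_iff] at hq
    rw [hq]
    have : 0 ≤ Real.log x := Real.log_nonneg (by linarith)
    simpa using this

/-- the members of the class up to `x` -/
def SX (E : Finset ℕ) (K B : ℕ) (x : ℝ) : Set ℕ :=
  {N : ℕ | (N : ℝ) ≤ x ∧ Odd N ∧ N.Perfect ∧ ∃ p : ℕ, N.factorization p ≤ B ∧
    (∀ q ∈ N.primeFactors, q ≠ p → N.factorization q ∈ E) ∧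
    ∑ l ∈ (∏ a ∈ E, (a + 1)).primeFactors, N.factorization l +
      (if p ∣ ∏ a ∈ E, (a + 1) then 0 else 1) ≤ K}

theorem up_to (hT : Thin) {E : Finset ℕ} (hE : ∀ a ∈ E, Even a) (hm : Pm E 1) (K : ℕ) :
    ∃ C : ℝ, 0 < C ∧ ∀ (B : ℕ) (x : ℝ), 3 ≤ x →
      ((SX E K B x).ncard : ℝ) ≤ C * B * (Real.log x / Real.log (Real.log x)) ^ K := by
  obtain ⟨C, hC⟩ := count hT hE hm K
  obtain ⟨C₀, hC₀, hω⟩ := omega_le
  refine ⟨C * C₀ ^ K + 1, by positivity, fun B x hx => ?_⟩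
  have hr := ratio_pos hx
  set R := Real.log x / Real.log (Real.log x) with hR
  set k := ⌊C₀ * R⌋₊ with hk
  have hkR : (k : ℝ) ≤ C₀ * R := Nat.floor_le (by positivity)
  obtain ⟨hfin, hcard⟩ := hC k B
  rw [max_self, one_pow, mul_one] at hcard
  have hsub : SX E K B x ⊆ SS E K k B := by
    rintro N ⟨hNx, ho, hN, p, h⟩
    exact ⟨ho, hN, Nat.le_floor (hω N x hx hN.2.ne' hNx), p, h⟩
  have h1 : ((SX E K B x).ncard : ℝ) ≤ C * B * (k : ℝ) ^ K := by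
    exact_mod_cast (Set.ncard_le_ncard hsub hfin).trans hcard
  have h2 : (k : ℝ) ^ K ≤ (C₀ * R) ^ K := pow_le_pow_left₀ (by positivity) hkR K
  have h3 : (0 : ℝ) ≤ (B : ℝ) * R ^ K := by positivity
  calc ((SX E K B x).ncard : ℝ) ≤ C * B * (k : ℝ) ^ K := h1
    _ ≤ C * B * (C₀ * R) ^ K := by gcongr
    _ = (C * C₀ ^ K) * B * R ^ K := by rw [mul_pow]; ring
    _ ≤ (C * C₀ ^ K + 1) * B * R ^ K := by nlinarith

/-- with an arbitrary exponent of the Euler prime -/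
theorem up_to_free (hT : Thin) {E : Finset ℕ} (hE : ∀ a ∈ E, Even a) (hm : Pm E 1)
    (K : ℕ) : ∃ C : ℝ, 0 < C ∧ ∀ x : ℝ, 3 ≤ x →
      ({N : ℕ | (N : ℝ) ≤ x ∧ Odd N ∧ N.Perfect ∧ ∃ p : ℕ,
        (∀ q ∈ N.primeFactors, q ≠ p → N.factorization q ∈ E) ∧
        ∑ l ∈ (∏ a ∈ E, (a + 1)).primeFactors, N.factorization l +
          (if p ∣ ∏ a ∈ E, (a + 1) then 0 else 1) ≤ K}.ncard : ℝ) ≤
        C * Real.log x * (Real.log x / Real.log (Real.log x)) ^ K := by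
  obtain ⟨C, hC0, hC⟩ := up_to hT hE hm K
  refine ⟨C, hC0, fun x hx => ?_⟩
  have h1 := hC ⌊Real.log x⌋₊ x hx
  have hlog : 0 ≤ Real.log x := Real.log_nonneg (by linarith)
  have h2 : (⌊Real.log x⌋₊ : ℝ) ≤ Real.log x := Nat.floor_le hlog
  have hr := ratio_pos hx
  have hset : {N : ℕ | (N : ℝ) ≤ x ∧ Odd N ∧ N.Perfect ∧ ∃ p : ℕ,
        (∀ q ∈ N.primeFactors, q ≠ p → N.factorization q ∈ E) ∧
        ∑ l ∈ (∏ a ∈ E, (a + 1)).primeFactors, N.factorization l +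
          (if p ∣ ∏ a ∈ E, (a + 1) then 0 else 1) ≤ K} = SX E K ⌊Real.log x⌋₊ x := by
    ext N
    constructor
    · rintro ⟨a, b, c, p, d⟩
      exact ⟨a, b, c, p, fac_le_log hx b a, d⟩
    · rintro ⟨a, b, c, p, -, d⟩
      exact ⟨a, b, c, p, d⟩
  rw [hset]
  refine h1.trans ?_
  have h3 : 0 ≤ (Real.log x / Real.log (Real.log x)) ^ K := by positivity
  gcongr

/-- odd perfect numbers free of sixth powers up to `x` -/
theorem sixth_up_to (hT : Thin) : ∃ C : ℝ, 0 < C ∧ ∀ x : ℝ, 3 ≤ x →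
    ({N : ℕ | (N : ℝ) ≤ x ∧ Odd N ∧ N.Perfect ∧ ∀ n : ℕ, n ^ 6 ∣ N → n = 1}.ncard : ℝ) ≤
      C * (Real.log x / Real.log (Real.log x)) ^ 9 ∧
    ({N : ℕ | (N : ℝ) ≤ x ∧ Odd N ∧ N.Perfect ∧ (∀ n : ℕ, n ^ 6 ∣ N → n = 1) ∧
      Nat.Coprime N 15}.ncard : ℝ) ≤ C * (Real.log x / Real.log (Real.log x)) := by
  obtain ⟨C, hC⟩ := sixth hT
  obtain ⟨C₀, hC₀, hω⟩ := omega_le
  refine ⟨C * C₀ ^ 9 + C * C₀ + 1, by positivity, fun x hx => ?_⟩
  have hr := ratio_pos hx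
  set R := Real.log x / Real.log (Real.log x) with hR
  set k := ⌊C₀ * R⌋₊ with hk
  have hkR : (k : ℝ) ≤ C₀ * R := Nat.floor_le (by positivity)
  obtain ⟨hfin, h1, h2⟩ := hC k
  constructor
  · have hsub : {N : ℕ | (N : ℝ) ≤ x ∧ Odd N ∧ N.Perfect ∧ ∀ n : ℕ, n ^ 6 ∣ N → n = 1} ⊆
        SF k := by
      rintro N ⟨hNx, ho, hN, h6⟩
      exact ⟨ho, hN, h6, Nat.le_floor (hω N x hx hN.2.ne' hNx)⟩
    have h3 : ({N : ℕ | (N : ℝ) ≤ x ∧ Odd N ∧ N.Perfect ∧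
        ∀ n : ℕ, n ^ 6 ∣ N → n = 1}.ncard : ℝ) ≤ C * (k : ℝ) ^ 9 := by
      exact_mod_cast (Set.ncard_le_ncard hsub hfin).trans h1
    have h4 : (k : ℝ) ^ 9 ≤ (C₀ * R) ^ 9 := pow_le_pow_left₀ (by positivity) hkR 9
    have h5 : (0 : ℝ) ≤ (C * C₀ + 1) * R ^ 9 := by positivity
    calc _ ≤ C * (k : ℝ) ^ 9 := h3
      _ ≤ C * (C₀ * R) ^ 9 := by gcongr
      _ = C * C₀ ^ 9 * R ^ 9 := by rw [mul_pow]; ring
      _ ≤ (C * C₀ ^ 9 + C * C₀ + 1) * R ^ 9 := by nlinarith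
  · have hsub : {N : ℕ | (N : ℝ) ≤ x ∧ Odd N ∧ N.Perfect ∧ (∀ n : ℕ, n ^ 6 ∣ N → n = 1) ∧
        Nat.Coprime N 15} ⊆ {N ∈ SF k | Nat.Coprime N 15} := by
      rintro N ⟨hNx, ho, hN, h6, h15⟩
      exact ⟨⟨ho, hN, h6, Nat.le_floor (hω N x hx hN.2.ne' hNx)⟩, h15⟩
    have hfin' : {N ∈ SF k | Nat.Coprime N 15}.Finite := hfin.subset fun N h => h.1
    have h3 : ({N : ℕ | (N : ℝ) ≤ x ∧ Odd N ∧ N.Perfect ∧ (∀ n : ℕ, n ^ 6 ∣ N → n = 1) ∧
        Nat.Coprime N 15}.ncard : ℝ) ≤ C * (k : ℝ) := by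
      exact_mod_cast (Set.ncard_le_ncard hsub hfin').trans h2
    have h5 : (0 : ℝ) ≤ (C * C₀ ^ 9 + 1) * R := by positivity
    calc _ ≤ C * (k : ℝ) := h3
      _ ≤ C * (C₀ * R) := by gcongr
      _ ≤ (C * C₀ ^ 9 + C * C₀ + 1) * R := by nlinarith

end Pool.Agent.TC
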