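import Pool.Agent.Lib.MP_f02ea4_nt.TC.EulThin
import Pool.Agent.Lib.MP_f02ea4_nt.TC.UpTo
import Pool.Agent.Lib.MP_f02ea4_nt.TC.LeastCard

/-!
# Counts which are uniform in the exponents
-/

set_option autoImplicit false

namespace Pool.Agent.TC

open Finset Nat Pool.Agent.BE

/-- if all exponents but that of `p` are at least `a` then `N` has few prime factors -/
theorem card_le_log {N p a : ℕ} {x : ℝ} (ho : Odd N) (hN0 : N ≠ 0)
    (hNx : (N : ℝ) ≤ x) (h : ∀ q ∈ N.primeFactors, q ≠ p → a ≤ N.factorization q) (ha : 0 < a) :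
    N.primeFactors.card ≤ ⌊Real.log x⌋₊ / a + 1 := by
  have h1 : 3 ^ (a * (N.primeFactors.erase p).card) ≤ N := by
    calc 3 ^ (a * (N.primeFactors.erase p).card) = ∏ _q ∈ N.primeFactors.erase p, 3 ^ a := by
          rw [prod_const, ← pow_mul]
      _ ≤ ∏ q ∈ N.primeFactors.erase p, q ^ N.factorization q := by
          refine prod_le_prod' fun q hq => ?_
          have hq' := mem_erase.1 hq
          have h2 := two_lt ho hq'.2
          calc 3 ^ a ≤ q ^ a := Nat.pow_le_pow_left (by omega) _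
            _ ≤ q ^ N.factorization q := Nat.pow_le_pow_right (by omega) (h q hq'.2 hq'.1)
      _ ≤ ∏ q ∈ N.primeFactors, q ^ N.factorization q := by
          refine prod_le_prod_of_subset_of_one_le' (erase_subset _ _) fun q hq _ => ?_
          exact Nat.one_le_pow _ _ (Nat.prime_of_mem_primeFactors hq).pos
      _ = N := Nat.prod_factorization_pow_eq_self hN0
  have h2 : ((3 : ℝ)) ^ (a * (N.primeFactors.erase p).card) ≤ x :=
    le_trans (by exact_mod_cast h1) hNx
  have h3 : ((a * (N.primeFactors.erase p).card : ℕ) : ℝ) * Real.log 3 ≤ Real.log x := by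
    rw [← Real.log_pow]
    exact Real.log_le_log (by positivity) h2
  have hl3 : 1 ≤ Real.log 3 := by
    rw [Real.le_log_iff_exp_le (by norm_num)]
    have := Real.exp_one_lt_d9
    linarith
  have h4 : a * (N.primeFactors.erase p).card ≤ ⌊Real.log x⌋₊ := by
    apply Nat.le_floor
    have h5 : (0 : ℝ) ≤ ((a * (N.primeFactors.erase p).card : ℕ) : ℝ) := by positivity
    nlinarith
  have h6 : (N.primeFactors.erase p).card ≤ ⌊Real.log x⌋₊ / a := by
    rw [Nat.le_div_iff_mul_le ha, mul_comm]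
    exact h4
  have h7 := Finset.pred_card_le_card_erase (s := N.primeFactors) (a := p)
  omega

/-- a number of the class has a prime factor besides `p` -/
theorem exists_other {N : ℕ} (ho : Odd N) (hN : N.Perfect) (p : ℕ) :
    (N.primeFactors.erase p).Nonempty := by
  rw [nonempty_iff_ne_empty]
  intro h
  have h1 : N.primeFactors ⊆ {p} := by
    intro q hq
    by_contra hqp
    have : q ∈ N.primeFactors.erase p := mem_erase.2 ⟨fun h => hqp (mem_singleton.2 h), hq⟩
    rw [h] at this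
    simp at this
  have h2 := prod_s hN
  have h3 : N.primeFactors.card ≤ 1 := by
    simpa using card_le_card h1
  have h4 := least_le_card ho hN
  obtain ⟨q, hq, -⟩ := exists_odd ho hN
  have h5 : N ≠ 1 := by rintro rfl; simp at hq
  have h6 := (Nat.minFac_prime h5).two_le
  omega

theorem log_floor {x : ℝ} (hx : 3 ≤ x) : ((⌊Real.log x⌋₊ : ℕ) : ℝ) ≤ Real.log x ∧
    ((⌊Real.log x⌋₊ : ℕ) : ℝ) + 1 ≤ 2 * Real.log x := by
  have hl : 1 ≤ Real.log x := by
    rw [Real.le_log_iff_exp_le (by linarith)]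
    have := Real.exp_one_lt_d9
    linarith
  have h1 : ((⌊Real.log x⌋₊ : ℕ) : ℝ) ≤ Real.log x := Nat.floor_le (by linarith)
  exact ⟨h1, by linarith⟩

/-- uniform in the set `E` -/
theorem uniform_set : ∃ C : ℝ, 0 < C ∧ ∀ E : Set ℕ, P1 E → (∀ a ∈ E, Even a) → ∀ x : ℝ, 3 ≤ x →
    ({N : ℕ | (N : ℝ) ≤ x ∧ Odd N ∧ N.Perfect ∧ (∀ a ∈ E, Nat.Coprime N (a + 1)) ∧ ∃ p : ℕ,
      ∀ q ∈ N.primeFactors, q ≠ p → N.factorization q ∈ E}.ncard : ℝ) ≤
      C * (Real.log x) ^ 2 * (Real.log x / Real.log (Real.log x)) ^ 2 := by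
  classical
  obtain ⟨C₀, hC₀, hω⟩ := omega_le
  refine ⟨4 * (C₀ + 1) * (2 * C₀ + 1), by positivity, fun E hE hEe x hx => ?_⟩
  have hr := ratio_pos hx
  set R := Real.log x / Real.log (Real.log x) with hR
  set k := ⌊C₀ * R⌋₊ with hk
  have hkR : (k : ℝ) ≤ C₀ * R := Nat.floor_le (by positivity)
  set L := ⌊Real.log x⌋₊ with hL
  set T : Set ℕ := {N : ℕ | (N : ℝ) ≤ x ∧ Odd N ∧ N.Perfect ∧
    (∀ a ∈ E, Nat.Coprime N (a + 1)) ∧ ∃ p : ℕ,
      ∀ q ∈ N.primeFactors, q ≠ p → N.factorization q ∈ E} with hTdef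
  set Q : Finset (ℕ × ℕ × ℕ) := range (k + 1) ×ˢ range (L + 1) ×ˢ range (L + 1) with hQ
  have key : ∀ G : Finset ℕ, (G : Set ℕ) ⊆ T → G.card ≤ Q.card * (2 * k + 1) := by
    intro G hG
    have hf : ∀ N : ℕ, ∃ p : ℕ, N ∈ G → ClsS E N p ∧ (N : ℝ) ≤ x := by
      intro N
      by_cases hN : N ∈ G
      · obtain ⟨a, b, c, d, p, e⟩ := hG (mem_coe.2 hN)
        exact ⟨p, fun _ => ⟨⟨b, c, e, d⟩, a⟩⟩
      · exact ⟨0, fun h => absurd h hN⟩
    choose f hf using hf
    have hcard : ∀ N ∈ G, N.primeFactors.card ≤ k := fun N hN =>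
      Nat.le_floor (hω N x hx (hf N hN).1.perf.2.ne' (hf N hN).2)
    refine card_le_colours (κ := fun N => (N.minFac, N.factorization N.minFac,
      N.factorization (f N))) (fun N hN => ?_) fun c hc => ?_
    · obtain ⟨h1, h2⟩ := hf N hN
      simp only [hQ, mem_product, mem_range]
      exact ⟨Nat.lt_succ_of_le ((least_le_card h1.odd h1.perf).trans (hcard N hN)),
        Nat.lt_succ_of_le (fac_le_log hx h1.odd h2), Nat.lt_succ_of_le (fac_le_log hx h1.odd h2)⟩
    · refine group_card hE hEe (f := f) (fun N hN => (hf N (mem_filter.1 hN).1).1)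
        (fun N hN N' hN' => ?_) (fun N hN N' hN' => ?_) fun N' hN' => ?_
      · have h1 := mem_filter.1 hN
        have h2 := mem_filter.1 hN'
        have h3 := h1.2.trans h2.2.symm
        simp only [Prod.mk.injEq] at h3
        exact CC_minFac (hf N h1.1).1.odd (hf N h1.1).1.perf (hf N' h2.1).1.odd
          (hf N' h2.1).1.perf h3.1 h3.2.1
      · have h1 := mem_filter.1 hN
        have h2 := mem_filter.1 hN'
        have h3 := h1.2.trans h2.2.symm
        simp only [Prod.mk.injEq] at h3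
        exact h3.2.2
      · exact (card_filter_le _ _).trans (hcard N' (mem_filter.1 hN').1)
  obtain ⟨hfin, hcard⟩ := finite_of_bound key
  have hR1 : 1 ≤ R := by
    have h1 := loglog_pos hx
    have h2 : 0 < Real.log x := Real.log_pos (by linarith)
    rw [hR, le_div_iff₀ h1, one_mul]
    have := Real.log_le_sub_one_of_pos h2
    linarith
  have hQc : Q.card = (k + 1) * ((L + 1) * (L + 1)) := by
    rw [hQ, card_product, card_product, card_range, card_range]
  have hl := log_floor hx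
  rw [← hL] at hl
  have h1 : (k : ℝ) + 1 ≤ (C₀ + 1) * R := by nlinarith
  have h2 : 2 * (k : ℝ) + 1 ≤ (2 * C₀ + 1) * R := by nlinarith
  have hlog : 0 ≤ Real.log x := Real.log_nonneg (by linarith)
  calc (T.ncard : ℝ) ≤ ((Q.card * (2 * k + 1) : ℕ) : ℝ) := by exact_mod_cast hcard
    _ = ((k : ℝ) + 1) * (((L : ℝ) + 1) * ((L : ℝ) + 1)) * (2 * k + 1) := by
        rw [hQc]
        push_cast
        ring
    _ ≤ ((C₀ + 1) * R) * ((2 * Real.log x) * (2 * Real.log x)) * ((2 * C₀ + 1) * R) := by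
        have := hl.2
        gcongr
    _ = 4 * (C₀ + 1) * (2 * C₀ + 1) * (Real.log x) ^ 2 * R ^ 2 := by ring

end Pool.Agent.TC
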