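import Pool.Agent.Lib.MP_f02ea4_nt.TC.Tour
import Pool.Agent.Lib.MP_f02ea4_nt.TC.Unif

/-!
# Odd perfect numbers with few primes which are not normal
-/

set_option autoImplicit false

namespace Pool.Agent.TC

open Finset Nat Pool.Agent.BE

/-- the normal primes -/
def Nm (E : Set ℕ) (N q : ℕ) : Prop :=
  N.factorization q ∈ E ∧ (∀ a ∈ E, ¬ q ∣ a + 1) ∧ ¬ One (N.factorization q) q

/-- the primes which can be fed by a normal prime -/
def Fed (E : Set ℕ) (r : ℕ) : Prop := ∃ a ∈ E, r ∣ a + 1 ∨ One a r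

open Classical in
/-- the least such prime which divides `σ(A)` and does not divide `2 A`; `1` if there is none -/
noncomputable def nf (E : Set ℕ) (A : ℕ) : ℕ :=
  if h : ∃ r : ℕ, r.Prime ∧ r ∣ ArithmeticFunction.sigma 1 A ∧ ¬ r ∣ 2 * A ∧ Fed E r then
    Nat.find h else 1

open Classical in
/-- the exponent of such a prime if it is normal -/
noncomputable def fx (E : Set ℕ) (r : ℕ) : ℕ := if h : ∃ a ∈ E, ¬ One a r then h.choose else 0

/-- the exploration -/
noncomputable def ex (E : Set ℕ) (A : ℕ) : ℕ → ℕ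
  | 0 => A
  | i + 1 => ex E A i * nf E (ex E A i) ^ fx E (nf E (ex E A i))

theorem ex_succ (E : Set ℕ) (A : ℕ) (i : ℕ) :
    ex E A (i + 1) = ex E (A * nf E A ^ fx E (nf E A)) i := by
  induction i with
  | zero => rfl
  | succ i ih =>
    have h1 : ex E A (i + 1 + 1) = ex E A (i + 1) * nf E (ex E A (i + 1)) ^
      fx E (nf E (ex E A (i + 1))) := rfl
    rw [h1, ih]
    rfl

theorem ex_const {E : Set ℕ} {A : ℕ} (h : nf E A = 1) (i : ℕ) : ex E A i = A := by
  induction i with
  | zero => rfl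
  | succ i ih =>
    have h1 : ex E A (i + 1) = ex E A i * nf E (ex E A i) ^ fx E (nf E (ex E A i)) := rfl
    rw [h1, ih, h, one_pow, mul_one]

theorem fx_eq {E : Set ℕ} (hE : P1 E) {N r : ℕ} (hn : Nm E N r) (hf : Fed E r) :
    fx E r = N.factorization r := by
  obtain ⟨a, ha, h1 | ⟨l, hl, hla, hlr⟩⟩ := hf
  · exact absurd h1 (hn.2.1 a ha)
  · have h : ∃ a ∈ E, ¬ One a r := ⟨_, hn.1, hn.2.2⟩
    unfold fx
    rw [dif_pos h]
    exact hE l hl a ha hla _ h.choose_spec.1 _ hn.1 (fun hh => h.choose_spec.2 ⟨l, hl, hh, hlr⟩)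
      (fun hh => hn.2.2 ⟨l, hl, hh, hlr⟩)

/-- primes dividing `σ(U N S)` -/
theorem mem_of_dvd_sigma {N : ℕ} (hN : N.Perfect) {S : Finset ℕ}
    (hS : S ⊆ N.primeFactors) {r : ℕ} (hr : r.Prime)
    (h : r ∣ ArithmeticFunction.sigma 1 (U N S)) (h2 : ¬ r ∣ 2 * U N S) :
    r ∈ N.primeFactors ∧ r ∉ S := by
  have h4 : r ∣ 2 * N := by
    refine h.trans ?_
    rw [sigma_U hS, ← prod_s hN]
    exact Finset.prod_dvd_prod_of_subset _ _ _ hS
  have h5 : r ∣ N := by
    rcases (Nat.Prime.dvd_mul hr).1 h4 with h6 | h6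
    · exact absurd (h6.mul_right _) h2
    · exact h6
  refine ⟨Nat.mem_primeFactors.2 ⟨hr, h5, hN.2.ne'⟩, fun h6 => h2 ?_⟩
  exact ((prime_dvd_U hS hr).2 h6).mul_left 2

theorem nf_cases {E : Set ℕ} {N : ℕ} (hN : N.Perfect) {S : Finset ℕ}
    (hS : S ⊆ N.primeFactors) :
    nf E (U N S) = 1 ∨ (nf E (U N S) ∈ N.primeFactors ∧ nf E (U N S) ∉ S ∧
      Fed E (nf E (U N S))) := by
  classical
  by_cases h : ∃ r : ℕ, r.Prime ∧ r ∣ ArithmeticFunction.sigma 1 (U N S) ∧
      ¬ r ∣ 2 * U N S ∧ Fed E r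
  · right
    have e : ∃ r, nf E (U N S) = r ∧ r.Prime ∧ r ∣ ArithmeticFunction.sigma 1 (U N S) ∧
        ¬ r ∣ 2 * U N S ∧ Fed E r := by
      refine ⟨_, rfl, ?_⟩
      unfold nf
      rw [dif_pos h]
      exact Nat.find_spec h
    obtain ⟨r, hr, h1, h2, h3, h4⟩ := e
    rw [hr]
    obtain ⟨h5, h6⟩ := mem_of_dvd_sigma hN hS h1 h2 h3
    exact ⟨h5, h6, h4⟩
  · left
    unfold nf
    rw [dif_neg h]

theorem nf_one {E : Set ℕ} {A : ℕ} (h : nf E A = 1) {r : ℕ} (hr : r.Prime)
    (h1 : r ∣ ArithmeticFunction.sigma 1 A) (h2 : ¬ r ∣ 2 * A) : ¬ Fed E r := by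
  classical
  intro hf
  have hex : ∃ r : ℕ, r.Prime ∧ r ∣ ArithmeticFunction.sigma 1 A ∧ ¬ r ∣ 2 * A ∧ Fed E r :=
    ⟨r, hr, h1, h2, hf⟩
  have e : (nf E A).Prime := by
    unfold nf
    rw [dif_pos hex]
    exact (Nat.find_spec hex).1
  rw [h] at e
  exact Nat.not_prime_one e

/-- the exploration meets a prime which is not normal or ends -/
theorem explore {E : Set ℕ} (hE : P1 E) {N : ℕ} (hN : N.Perfect) :
    ∀ (n : ℕ) (S : Finset ℕ), S ⊆ N.primeFactors → (N.primeFactors \ S).card = n →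
      (∃ i < n, ∃ S' : Finset ℕ, S ⊆ S' ∧ S' ⊆ N.primeFactors ∧
        ex E (U N S) i = U N S' ∧ nf E (U N S') ∈ N.primeFactors ∧ nf E (U N S') ∉ S' ∧
        ¬ Nm E N (nf E (U N S'))) ∨
      (∃ S' : Finset ℕ, S ⊆ S' ∧ S' ⊆ N.primeFactors ∧ (∀ q ∈ S', q ∉ S → Nm E N q) ∧
        (∀ m, n ≤ m → ex E (U N S) m = U N S') ∧ nf E (U N S') = 1) := by
  intro n
  induction n with
  | zero =>
    intro S hS hcard
    right
    rcases nf_cases (E := E) hN hS with h | h
    · exact ⟨S, Subset.refl _, hS, fun q h1 h2 => absurd h1 h2, fun m _ => ex_const h m, h⟩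
    · exfalso
      have h1 : nf E (U N S) ∈ N.primeFactors \ S := mem_sdiff.2 ⟨h.1, h.2.1⟩
      rw [Finset.card_eq_zero] at hcard
      rw [hcard] at h1
      simp at h1
  | succ n ih =>
    intro S hS hcard
    rcases nf_cases (E := E) hN hS with h | ⟨h1, h2, h3⟩
    · right
      exact ⟨S, Subset.refl _, hS, fun q h1 h2 => absurd h1 h2, fun m _ => ex_const h m, h⟩
    by_cases hn : Nm E N (nf E (U N S))
    · have hstep : U N (insert (nf E (U N S)) S) =
          U N S * nf E (U N S) ^ fx E (nf E (U N S)) := by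
        rw [U_insert h2, fx_eq hE hn h3]
      have hins : insert (nf E (U N S)) S ⊆ N.primeFactors := insert_subset h1 hS
      have hc : (N.primeFactors \ insert (nf E (U N S)) S).card = n := by
        rw [sdiff_insert, card_erase_of_mem (mem_sdiff.2 ⟨h1, h2⟩), hcard]
        rfl
      rcases ih _ hins hc with ⟨i, hi, S', a1, a2, a3, a4, a5, a6⟩ | ⟨S', a1, a2, a3, a4, a5⟩
      · left
        refine ⟨i + 1, by omega, S', (subset_insert _ _).trans a1, a2, ?_, a4, a5, a6⟩
        rw [ex_succ, ← hstep, a3]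
      · right
        refine ⟨S', (subset_insert _ _).trans a1, a2, fun q hq hqS => ?_, fun m hm => ?_, a5⟩
        · by_cases hq' : q = nf E (U N S)
          · rw [hq']
            exact hn
          · exact a3 q hq (fun hh => (mem_insert.1 hh).elim hq' hqS)
        · obtain ⟨m', rfl⟩ : ∃ m', m = m' + 1 := ⟨m - 1, by omega⟩
          rw [ex_succ, ← hstep]
          exact a4 m' (by omega)
    · left
      exact ⟨0, Nat.succ_pos _, S, Subset.refl _, hS, rfl, h1, h2, hn⟩

/-- the primes of `σ(A)` which do not divide `2 A` -/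
def lst (A : ℕ) : Finset ℕ :=
  (ArithmeticFunction.sigma 1 A).primeFactors.filter (fun r => ¬ r ∣ 2 * A)

/-- the same if there are at most `k` of them -/
def lst' (k A : ℕ) : Finset ℕ := if (lst A).card ≤ k then lst A else ∅

theorem card_lst' (k A : ℕ) : (lst' k A).card ≤ k := by
  unfold lst'
  split_ifs with h
  · exact h
  · simp

theorem mem_lst {N : ℕ} {S : Finset ℕ} (hS : S ⊆ N.primeFactors) {r : ℕ} :
    r ∈ lst (U N S) ↔ r.Prime ∧ r ∣ ArithmeticFunction.sigma 1 (U N S) ∧ ¬ r ∣ 2 * U N S := by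
  have h0 : ArithmeticFunction.sigma 1 (U N S) ≠ 0 := by
    rw [sigma_U hS]
    exact prod_ne_zero_iff.2 fun q _ => (s_pos N q).ne'
  unfold lst
  rw [mem_filter, Nat.mem_primeFactors]
  constructor
  · rintro ⟨⟨a, b, c⟩, d⟩
    exact ⟨a, b, d⟩
  · rintro ⟨a, b, d⟩
    exact ⟨⟨a, b, h0⟩, d⟩

theorem lst_eq {N k : ℕ} (hN : N.Perfect) {S : Finset ℕ} (hS : S ⊆ N.primeFactors)
    (hk : N.primeFactors.card ≤ k) : lst' k (U N S) = lst (U N S) := by
  have h1 : lst (U N S) ⊆ N.primeFactors := by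
    intro r hr
    obtain ⟨a, b, c⟩ := (mem_lst hS).1 hr
    exact (mem_of_dvd_sigma hN hS a b c).1
  unfold lst'
  rw [if_pos ((card_le_card h1).trans hk)]

open Classical in
/-- the possible next states -/
noncomputable def codes (E : Finset ℕ) (k B A : ℕ) : Finset ℕ :=
  ((range k ×ˢ Icc 1 B).image (fun z => ex E A z.1 * nf E (ex E A z.1) ^ z.2)) ∪
    (((lst' k (ex E A k)) ×ˢ Icc 1 B).image (fun z => ex E A k * z.1 ^ z.2)) ∪
    (((lst' k (ex E A k)) ×ˢ E ×ˢ range k ×ˢ Icc 1 B).image (fun z =>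
      ex E (ex E A k * z.1 ^ z.2.1) z.2.2.1 *
        nf E (ex E (ex E A k * z.1 ^ z.2.1) z.2.2.1) ^ z.2.2.2))

theorem card_codes {E : Finset ℕ} (hE2 : E.card ≤ 2) (k B A : ℕ) :
    (codes E k B A).card ≤ k * B + k * B + k * (2 * (k * B)) := by
  classical
  unfold codes
  refine (card_union_le _ _).trans (Nat.add_le_add ((card_union_le _ _).trans
    (Nat.add_le_add ?_ ?_)) ?_)
  · refine card_image_le.trans ?_
    simp
  · refine card_image_le.trans ?_
    rw [card_product, Nat.card_Icc]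
    simpa using Nat.mul_le_mul_right B (card_lst' k _)
  · refine card_image_le.trans ?_
    rw [card_product, card_product, card_product, Nat.card_Icc, card_range]
    simpa using Nat.mul_le_mul (card_lst' k _) (Nat.mul_le_mul_right (k * B) hE2)

/-- `A` is a unitary divisor of `N`, at most `j` primes outside of it are not normal -/
def St (E : Set ℕ) (k B A j N : ℕ) : Prop :=
  Odd N ∧ N.Perfect ∧ N.primeFactors.card ≤ k ∧ (∀ q ∈ N.primeFactors, N.factorization q ≤ B) ∧
    ∃ S : Finset ℕ, S ⊆ N.primeFactors ∧ S.Nonempty ∧ U N S = A ∧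
      ∃ Z : Finset ℕ, Z.card ≤ j ∧ ∀ q ∈ N.primeFactors, q ∉ S → q ∉ Z → Nm E N q

theorem U_fac {N : ℕ} {S : Finset ℕ} (hS : S ⊆ N.primeFactors) {q : ℕ} (hq : q ∈ S) :
    (U N S).factorization q = N.factorization q := by
  classical
  have h1 : S = insert q (S.erase q) := (insert_erase hq).symm
  have hS' : S.erase q ⊆ N.primeFactors := (erase_subset _ _).trans hS
  have hqp := Nat.prime_of_mem_primeFactors (hS hq)
  have h2 : ¬ q ∣ U N (S.erase q) := by
    rw [prime_dvd_U hS' hqp]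
    simp
  rw [h1, U_insert (notMem_erase q S), Nat.factorization_mul (U_pos hS').ne'
    (pow_pos hqp.pos _).ne', Finsupp.add_apply, Nat.factorization_eq_zero_of_not_dvd h2,
    Nat.factorization_pow, Finsupp.smul_apply, hqp.factorization_self]
  simp

theorem st_zero {E : Set ℕ} (hE : P1 E) {k B A N N' : ℕ} (h : St E k B A 0 N)
    (h' : St E k B A 0 N') : N = N' := by
  obtain ⟨ho, hN, -, -, S, hS, hne, hA, Z, hZ, hn⟩ := h
  obtain ⟨ho', hN', -, -, S', hS', hne', hA', Z', hZ', hn'⟩ := h'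
  have hZ0 : Z = ∅ := by simpa using hZ
  have hZ0' : Z' = ∅ := by simpa using hZ'
  have hSS : S = S' := by
    ext q
    constructor
    · intro hq
      have hqp := Nat.prime_of_mem_primeFactors (hS hq)
      rw [← prime_dvd_U hS' hqp, hA', ← hA]
      exact (prime_dvd_U hS hqp).2 hq
    · intro hq
      have hqp := Nat.prime_of_mem_primeFactors (hS' hq)
      rw [← prime_dvd_U hS hqp, hA, ← hA']
      exact (prime_dvd_U hS' hqp).2 hq
  subst hSS
  have hsub : S ⊆ CC N N' := by
    intro q hq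
    refine mem_filter.2 ⟨hS hq, hS' hq, ?_⟩
    rw [← U_fac hS hq, ← U_fac hS' hq, hA, hA']
  refine rigidS hE ho hN ho' hN' (hne.mono hsub) (fun q hq hqC => ?_) (fun q hq hqC => ?_)
  · exact hn q hq (fun h => hqC (hsub h)) (by rw [hZ0]; simp)
  · exact hn' q hq (fun h => hqC (hsub h)) (by rw [hZ0']; simp)

/-- a further prime which is not normal -/
theorem st_step {E : Finset ℕ} (hE2 : E.card ≤ 2) {k B A j N : ℕ}
    (h : St (E : Set ℕ) k B A (j + 1) N) :
    St (E : Set ℕ) k B A j N ∨ ∃ A' ∈ codes E k B A, St (E : Set ℕ) k B A' j N := by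
  classical
  have hE : P1 (E : Set ℕ) := P1_of_card hE2
  obtain ⟨ho, hN, hk, hB, S, hS, hne, hA, Z, hZ, hn⟩ := h
  by_cases hall : ∀ q ∈ N.primeFactors, q ∉ S → Nm (E : Set ℕ) N q
  · left
    exact ⟨ho, hN, hk, hB, S, hS, hne, hA, ∅, by simp, fun q hq hqS _ => hall q hq hqS⟩
  push Not at hall
  obtain ⟨z, hzN, hzS, hzn⟩ := hall
  right
  -- the new state
  have new : ∀ (S' : Finset ℕ) (r : ℕ), S ⊆ S' → S' ⊆ N.primeFactors → r ∈ N.primeFactors →
      r ∉ S' → ¬ Nm (E : Set ℕ) N r →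
      St (E : Set ℕ) k B (U N S' * r ^ N.factorization r) j N := by
    intro S' r h1 h2 h3 h4 h5
    have hrS : r ∉ S := fun h => h4 (h1 h)
    have hrZ : r ∈ Z := by
      by_contra h
      exact h5 (hn r h3 hrS h)
    refine ⟨ho, hN, hk, hB, insert r S', insert_subset h3 h2, insert_nonempty _ _,
      U_insert h4, Z.erase r, ?_, fun q hq hqS hqZ => ?_⟩
    · rw [card_erase_of_mem hrZ]
      omega
    · have hqr : q ≠ r := fun h => hqS (h ▸ mem_insert_self _ _)
      refine hn q hq (fun h => hqS (mem_insert_of_mem (h1 h))) fun h => hqZ ?_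
      exact mem_erase.2 ⟨hqr, h⟩
  have hIcc : ∀ q ∈ N.primeFactors, N.factorization q ∈ Icc 1 B := fun q hq =>
    mem_Icc.2 ⟨fac_pos hq, hB q hq⟩
  have hlt : ∀ T : Finset ℕ, T ⊆ N.primeFactors → T.Nonempty →
      (N.primeFactors \ T).card < k ∨ (N.primeFactors \ T).card + 1 ≤ k := by
    intro T hT hTne
    right
    have h1 := card_sdiff_add_card_eq_card hT
    have h2 := card_pos.2 hTne
    omega
  have hcardS : (N.primeFactors \ S).card ≤ k := by
    have := hlt S hS hne
    omega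
  rcases explore hE hN _ S hS rfl with ⟨i, hi, S', a1, a2, a3, a4, a5, a6⟩ |
    ⟨S', a1, a2, a3, a4, a5⟩
  · refine ⟨_, ?_, new S' _ a1 a2 a4 a5 a6⟩
    unfold codes
    refine mem_union_left _ (mem_union_left _ (mem_image.2
      ⟨(i, N.factorization (nf E (U N S'))), mem_product.2 ⟨mem_range.2 (by omega),
        hIcc _ a4⟩, ?_⟩))
    simp only
    rw [← hA, a3]
  -- the exploration ends
  have hAk : ex E A k = U N S' := by rw [← hA]; exact a4 k hcardS
  have hlst : lst' k (ex E A k) = lst (U N S') := by rw [hAk]; exact lst_eq hN a2 hk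
  have hne' : S'.Nonempty := hne.mono a1
  have hzS' : z ∉ S' := fun h => hzn (a3 z h hzS)
  have hR : ∀ r ∈ lst (U N S'), r ∈ N.primeFactors ∧ r ∉ S' := by
    intro r hr
    obtain ⟨b1, b2, b3⟩ := (mem_lst a2).1 hr
    exact mem_of_dvd_sigma hN a2 b1 b2 b3
  by_cases hnorm : ∀ r ∈ lst (U N S'), Nm (E : Set ℕ) N r
  · -- one of the primes leads to a prime which is not normal
    have hex : ∃ r ∈ lst (U N S'), ∃ i < k, ∃ S'' : Finset ℕ, insert r S' ⊆ S'' ∧
        S'' ⊆ N.primeFactors ∧ ex E (U N (insert r S')) i = U N S'' ∧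
        nf E (U N S'') ∈ N.primeFactors ∧ nf E (U N S'') ∉ S'' ∧
        ¬ Nm (E : Set ℕ) N (nf E (U N S'')) := by
      by_contra hcon
      push Not at hcon
      have hex2 : ∀ r : ℕ, ∃ S'' : Finset ℕ, r ∈ lst (U N S') → insert r S' ⊆ S'' ∧
          S'' ⊆ N.primeFactors ∧ (∀ q ∈ S'', q ∉ insert r S' → Nm (E : Set ℕ) N q) ∧
          nf E (U N S'') = 1 := by
        intro r
        by_cases hr : r ∈ lst (U N S')
        · have hins : insert r S' ⊆ N.primeFactors := insert_subset (hR r hr).1 a2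
          rcases explore hE hN _ (insert r S') hins rfl with
            ⟨i, hi, S'', b1, b2, b3, b4, b5, b6⟩ | ⟨S'', b1, b2, b3, b4, b5⟩
          · exfalso
            refine b6 (hcon r hr i ?_ S'' b1 b2 b3 b4 b5)
            have := hlt _ hins (insert_nonempty _ _)
            omega
          · exact ⟨S'', fun _ => ⟨b1, b2, b3, b5⟩⟩
        · exact ⟨∅, fun h => absurd h hr⟩
      choose T hT using hex2
      set W : Finset ℕ := S' ∪ (lst (U N S')).biUnion T with hW
      have hWsub : W ⊆ N.primeFactors := by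
        refine union_subset a2 (biUnion_subset.2 fun r hr => (hT r hr).2.1)
      have hWeq : W = N.primeFactors := by
        by_contra hWne
        have hWn : W.Nonempty := hne'.mono subset_union_left
        have h1 := nxt_ne_one ho hN hWsub hWn hWne
        obtain ⟨t1, t2, t3⟩ := (nxt_cases ho hN hWsub).resolve_left h1
        set t := nxt (U N W) with ht
        have htp := Nat.prime_of_mem_primeFactors t1
        have ht2 : t ≠ 2 := by
          have := two_lt ho t1
          omega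
        have hnd : ∀ T₀ : Finset ℕ, T₀ ⊆ N.primeFactors → t ∉ T₀ → ¬ t ∣ 2 * U N T₀ := by
          intro T₀ hT₀ htT h
          rcases (Nat.Prime.dvd_mul htp).1 h with h | h
          · exact ht2 ((Nat.prime_dvd_prime_iff_eq htp Nat.prime_two).1 h)
          · exact htT ((prime_dvd_U hT₀ htp).1 h)
        rw [sigma_U hWsub] at t3
        obtain ⟨q, hqW, hqd⟩ := (Prime.dvd_finsetProd_iff htp.prime _).1 t3
        have htS' : t ∉ S' := fun h => t2 (mem_union_left _ h)
        have hdiv : ∀ T₀ : Finset ℕ, T₀ ⊆ N.primeFactors → q ∈ T₀ →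
            t ∣ ArithmeticFunction.sigma 1 (U N T₀) := by
          intro T₀ hT₀ hq
          rw [sigma_U hT₀]
          exact hqd.trans (dvd_prod_of_mem _ hq)
        by_cases hqS' : q ∈ S'
        · have htl : t ∈ lst (U N S') := (mem_lst a2).2 ⟨htp, hdiv S' a2 hqS',
            hnd S' a2 htS'⟩
          exact t2 (mem_union_right _ (mem_biUnion.2 ⟨t, htl,
            (hT t htl).1 (mem_insert_self _ _)⟩))
        · obtain ⟨r, hr, hqr⟩ := mem_biUnion.1 ((mem_union.1 hqW).resolve_left hqS')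
          obtain ⟨c1, c2, c3, c4⟩ := hT r hr
          have htT : t ∉ T r := fun h => t2 (mem_union_right _ (mem_biUnion.2 ⟨r, hr, h⟩))
          have hqn : Nm (E : Set ℕ) N q := by
            by_cases hqr' : q = r
            · rw [hqr']
              exact hnorm r hr
            · exact c3 q hqr fun h => (mem_insert.1 h).elim hqr' hqS'
          refine nf_one c4 htp (hdiv (T r) c2 hqr) (hnd (T r) c2 htT) ⟨_, hqn.1, ?_⟩
          rcases head_order (Nat.succ_pos _) htp hqd with h | ⟨l, hl, h2, h3⟩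
          · exact Or.inl h
          · exact Or.inr ⟨l, hl, h2, h3⟩
      have hzW : z ∈ W := hWeq ▸ hzN
      obtain ⟨r, hr, hzr⟩ := mem_biUnion.1 ((mem_union.1 hzW).resolve_left hzS')
      obtain ⟨c1, c2, c3, c4⟩ := hT r hr
      by_cases hzr' : z = r
      · exact hzn (hzr' ▸ hnorm r hr)
      · exact hzn (c3 z hzr fun h => (mem_insert.1 h).elim hzr' hzS')
    obtain ⟨r, hr, i, hi, S'', b1, b2, b3, b4, b5, b6⟩ := hex
    refine ⟨_, ?_, new S'' _ ((a1.trans (subset_insert _ _)).trans b1) b2 b4 b5 b6⟩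
    unfold codes
    refine mem_union_right _ (mem_image.2 ⟨(r, N.factorization r, i,
      N.factorization (nf E (U N S''))), ?_, ?_⟩)
    · rw [hlst]
      exact mem_product.2 ⟨hr, mem_product.2 ⟨mem_coe.1 (hnorm r hr).1, mem_product.2
        ⟨mem_range.2 hi, hIcc _ b4⟩⟩⟩
    · simp only
      rw [hAk, ← U_insert (hR r hr).2, b3]
  · push Not at hnorm
    obtain ⟨r, hr, hrn⟩ := hnorm
    refine ⟨_, ?_, new S' r a1 a2 (hR r hr).1 (hR r hr).2 hrn⟩
    unfold codes
    refine mem_union_left _ (mem_union_right _ (mem_image.2 ⟨(r, N.factorization r), ?_, ?_⟩))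
    · rw [hlst]
      exact mem_product.2 ⟨hr, hIcc r (hR r hr).1⟩
    · simp only
      rw [hAk]

/-- the number of the `N` with a given state -/
theorem st_card {E : Finset ℕ} (hE2 : E.card ≤ 2) (k B : ℕ) : ∀ (j A : ℕ) (G : Finset ℕ),
    (∀ N ∈ G, St (E : Set ℕ) k B A j N) →
      G.card ≤ (1 + (k * B + k * B + k * (2 * (k * B)))) ^ j := by
  classical
  intro j
  induction j with
  | zero =>
    intro A G hG
    rw [pow_zero, card_le_one]
    intro N hN N' hN'
    exact st_zero (P1_of_card hE2) (hG N hN) (hG N' hN')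
  | succ j ih =>
    intro A G hG
    set Q := 1 + (k * B + k * B + k * (2 * (k * B))) with hQ
    have h1 : G ⊆ G.filter (fun N => St (E : Set ℕ) k B A j N) ∪
        (codes E k B A).biUnion (fun A' => G.filter (fun N => St (E : Set ℕ) k B A' j N)) := by
      intro N hN
      rcases st_step hE2 (hG N hN) with h | ⟨A', hA', h⟩
      · exact mem_union_left _ (mem_filter.2 ⟨hN, h⟩)
      · exact mem_union_right _ (mem_biUnion.2 ⟨A', hA', mem_filter.2 ⟨hN, h⟩⟩)
    have h2 : (G.filter (fun N => St (E : Set ℕ) k B A j N)).card ≤ Q ^ j :=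
      ih A _ fun N hN => (mem_filter.1 hN).2
    have h3 : ((codes E k B A).biUnion
        (fun A' => G.filter (fun N => St (E : Set ℕ) k B A' j N))).card ≤
        (codes E k B A).card * Q ^ j := by
      refine card_biUnion_le.trans ?_
      refine (sum_le_card_nsmul _ _ (Q ^ j) fun A' _ => ih A' _ fun N hN =>
        (mem_filter.1 hN).2).trans ?_
      simp
    have h4 := card_codes hE2 k B A
    calc G.card ≤ _ := card_le_card h1
      _ ≤ Q ^ j + (codes E k B A).card * Q ^ j := (card_union_le _ _).trans (Nat.add_le_add h2 h3)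
      _ ≤ Q ^ j + (k * B + k * B + k * (2 * (k * B))) * Q ^ j :=
          Nat.add_le_add_left (Nat.mul_le_mul_right _ h4) _
      _ = Q ^ (j + 1) := by rw [pow_succ, hQ]; ring

end Pool.Agent.TC
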