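import Pool.Agent.Lib.MP_f02ea4_nt.TC.UBase

/-!
# TASK TC B: the next prime of the process
Proof of `nxt_cases`: if the existence in the definition of `nxt` fails, `nxt = 1`. Otherwise
`nxt (U N S)` is (`Nat.find_spec`) a prime `r ∣ σ(U N S)`, `¬ r ∣ 2 * U N S`. By `sigma_U` and
`prod_s` (`∏ q ∈ N.primeFactors, s N q = 2 * N`) `σ(U N S) ∣ 2 N`, `r ≠ 2`, so `r ∣ N`; `r ∉ S` by
`prime_dvd_U`.
Proof of `nxt_ne_one`: Let `A = U N S`, `A' = U N (N.primeFactors \ S)`, `A * A' = N`, coprime,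
both odd, `A > 1`, `A' > 1` (`prime_dvd_U`). Suppose `nxt A = 1`; a prime is not `1`, so the
existence fails: every prime `r ∣ σ(A)` divides `2 A`, so does not divide `A'` (odd, coprime to
`A`): `σ(A)` is coprime to `A'`. As `σ(A) ∣ 2 N = 2 A A'`, `σ(A) ∣ 2 A`. But `A < σ(A)` (`1` and
`A` are divisors, `A > 1`), so `σ(A) = 2 A`. Multiplicativity: `σ(A) σ(A') = σ(N) = 2 A A'`, so
`σ(A') = A'`, but `σ(A') > A'` because `A' > 1`. Contradiction.
-/

set_option autoImplicit false

namespace Pool.Agent.TC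

open Finset Nat Pool.Agent.BE

theorem nxt_cases {N : ℕ} (ho : Odd N) (hN : N.Perfect) {S : Finset ℕ}
    (hS : S ⊆ N.primeFactors) :
    nxt (U N S) = 1 ∨ (nxt (U N S) ∈ N.primeFactors ∧ nxt (U N S) ∉ S ∧
      nxt (U N S) ∣ ArithmeticFunction.sigma 1 (U N S)) := by
  classical
  by_cases h : ∃ r : ℕ, r.Prime ∧ r ∣ ArithmeticFunction.sigma 1 (U N S) ∧ ¬ r ∣ 2 * U N S
  · right
    have e : ∃ r, nxt (U N S) = r ∧ r.Prime ∧ r ∣ ArithmeticFunction.sigma 1 (U N S) ∧ ¬ r ∣ 2 * U N S := by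
      refine ⟨_, rfl, ?_⟩
      unfold nxt
      rw [dif_pos h]
      exact Nat.find_spec h
    obtain ⟨r, hr, h1, h2, h3⟩ := e
    rw [hr]
    have hN0 : N ≠ 0 := by
      rintro rfl
      exact absurd ho (by decide)
    have h4 : r ∣ 2 * N := by
      refine h2.trans ?_
      rw [sigma_U hS, ← prod_s hN]
      exact Finset.prod_dvd_prod_of_subset _ _ _ hS
    have h5 : r ∣ N := by
      rcases (Nat.Prime.dvd_mul h1).1 h4 with h6 | h6
      · exact absurd (h6.mul_right _) h3
      · exact h6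
    refine ⟨Nat.mem_primeFactors.2 ⟨h1, h5, hN0⟩, fun h6 => h3 ?_, h2⟩
    exact ((prime_dvd_U hS h1).2 h6).mul_left 2
  · left
    unfold nxt
    rw [dif_neg h]

theorem nxt_ne_one {N : ℕ} (ho : Odd N) (hN : N.Perfect) {S : Finset ℕ}
    (hS : S ⊆ N.primeFactors) (h1 : S.Nonempty) (h2 : S ≠ N.primeFactors) :
    nxt (U N S) ≠ 1 := by
  classical
  intro hx
  have hN0 : N ≠ 0 := by
    rintro rfl
    exact absurd ho (by decide)
  have hno : ∀ r : ℕ, r.Prime → r ∣ ArithmeticFunction.sigma 1 (U N S) → r ∣ 2 * U N S := by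
    intro r hr hd
    by_contra hnd
    have h : ∃ r : ℕ, r.Prime ∧ r ∣ ArithmeticFunction.sigma 1 (U N S) ∧ ¬ r ∣ 2 * U N S :=
      ⟨r, hr, hd, hnd⟩
    have e : (nxt (U N S)).Prime := by
      unfold nxt
      rw [dif_pos h]
      exact (Nat.find_spec h).1
    rw [hx] at e
    exact Nat.not_prime_one e
  have hS' : N.primeFactors \ S ⊆ N.primeFactors := Finset.sdiff_subset
  have hne : (N.primeFactors \ S).Nonempty := by
    rw [Finset.nonempty_iff_ne_empty]
    intro h
    exact h2 (Finset.Subset.antisymm hS (Finset.sdiff_eq_empty_iff_subset.1 h))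
  have hlt : ∀ T : Finset ℕ, T ⊆ N.primeFactors → T.Nonempty →
      U N T < ArithmeticFunction.sigma 1 (U N T) := by
    intro T hT hT1
    rw [sigma_U hT]
    unfold U
    exact Finset.prod_lt_prod_of_nonempty
      (fun q hq => pow_pos (Nat.prime_of_mem_primeFactors (hT hq)).pos _) (fun q hq => lt_s (hT hq)) hT1
  have hA := hlt S hS h1
  have hA' := hlt _ hS' hne
  have hmul : ArithmeticFunction.sigma 1 (U N S) * ArithmeticFunction.sigma 1 (U N (N.primeFactors \ S)) =
      2 * (U N S * U N (N.primeFactors \ S)) := by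
    rw [sigma_U hS, sigma_U hS', U_mul_compl hN0 hS, ← prod_s hN, mul_comm]
    exact Finset.prod_sdiff hS
  have hcop : Nat.Coprime (ArithmeticFunction.sigma 1 (U N S)) (U N (N.primeFactors \ S)) := by
    refine Nat.Coprime.symm (Nat.coprime_of_dvd fun r hr h3 h4 => ?_)
    have h5 := (prime_dvd_U hS' hr).1 h3
    rw [Finset.mem_sdiff] at h5
    have h6 := two_lt ho h5.1
    rcases (Nat.Prime.dvd_mul hr).1 (hno r hr h4) with h7 | h7
    · exact absurd (Nat.le_of_dvd (by norm_num) h7) (by omega)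
    · exact h5.2 ((prime_dvd_U hS hr).1 h7)
  have hdvd : ArithmeticFunction.sigma 1 (U N S) ∣ 2 * U N S := by
    have h3 : ArithmeticFunction.sigma 1 (U N S) ∣ (2 * U N S) * U N (N.primeFactors \ S) := by
      rw [mul_assoc, ← hmul]
      exact dvd_mul_right _ _
    exact hcop.dvd_of_dvd_mul_right h3
  have hpos : 0 < U N S := U_pos hS
  have heq : ArithmeticFunction.sigma 1 (U N S) = 2 * U N S := by
    obtain ⟨k, hk⟩ := hdvd
    have hk0 : k ≠ 0 := by
      rintro rfl
      omega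
    have hk2 : k < 2 := by
      by_contra hc
      have : ArithmeticFunction.sigma 1 (U N S) * 2 ≤ ArithmeticFunction.sigma 1 (U N S) * k :=
        Nat.mul_le_mul_left _ (by omega)
      omega
    have hk1 : k = 1 := by omega
    rw [hk1, mul_one] at hk
    exact hk.symm
  rw [heq, mul_assoc] at hmul
  have h3 := Nat.eq_of_mul_eq_mul_left hpos (Nat.eq_of_mul_eq_mul_left (by norm_num) hmul)
  omega

end Pool.Agent.TC
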