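import Pool.Agent.Lib.MP_f02ea4_nt.TC.FinE

/-!
# The primes reached from the Euler prime
-/

set_option autoImplicit false

namespace Pool.Agent.TC

open Finset Nat Pool.Agent.BE

/-- one step: `l` divides `σ(r ^ 4)` if `r ≡ 1 (mod 3)` and `σ(r ^ 2)` otherwise -/
def Step (r l : ℕ) : Prop :=
  l.Prime ∧ l ∣ ArithmeticFunction.sigma 1 (r ^ (if r % 3 = 1 then 4 else 2))

/-- the residue classes modulo `15` which are allowed -/
def Good (l : ℕ) : Prop := l % 15 = 4 ∨ l % 15 = 7 ∨ l % 15 = 11 ∨ l % 15 = 13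

/-- a path uses finitely many primes -/
theorem exists_path {a b : ℕ} (h : Relation.ReflTransGen Step a b) : ∃ W : Finset ℕ, a ∈ W ∧
    Relation.ReflTransGen (fun x y => Step x y ∧ y ∈ W) a b := by
  classical
  induction h with
  | refl => exact ⟨{a}, mem_singleton_self a, Relation.ReflTransGen.refl⟩
  | @tail b c _ hbc ih =>
    obtain ⟨W, haW, hW⟩ := ih
    refine ⟨insert c W, mem_insert_of_mem haW, Relation.ReflTransGen.tail (b := b) ?_
      ⟨hbc, mem_insert_self c W⟩⟩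
    exact Relation.ReflTransGen.mono (r := fun x y => Step x y ∧ y ∈ W)
      (fun x y hxy => ⟨hxy.1, mem_insert_of_mem hxy.2⟩) _ _ hW

theorem not_dvd_of_cop {L l m : ℕ} (hc : Nat.Coprime L m) (hl : l.Prime) (hm : l ∣ m) :
    ¬ l ∣ L := fun h => by
  have h1 := Nat.dvd_gcd h hm
  rw [hc] at h1
  exact hl.one_lt.ne' (Nat.dvd_one.1 h1)

/-- the prime factors of `σ(x ^ v_x)` -/
theorem step_in {L r x l : ℕ} (ho : Odd L) (hL : L.Perfect) (h6 : ∀ n : ℕ, n ^ 6 ∣ L → n = 1)
    (hc : Nat.Coprime L 15) (hr : Odd (L.factorization r)) (hx : x ∈ L.primeFactors)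
    (hxr : x ≠ r) (hl : l.Prime)
    (h : l ∣ ArithmeticFunction.sigma 1 (x ^ L.factorization x)) (hlr : l ≠ r) :
    l ∈ L.primeFactors ∧ L.factorization l = (if l % 3 = 1 then 4 else 2) ∧ Good l := by
  have hC := six_cls ho hL h6 hc hr
  have hxp := Nat.prime_of_mem_primeFactors hx
  have hx2 : x % 2 = 1 := by
    have := two_lt ho hx
    exact Nat.odd_iff.1 (hxp.odd_of_ne_two (by omega))
  have hv := hC.mem x hx hxr
  simp only [coe_insert, coe_singleton, Set.mem_insert_iff, Set.mem_singleton_iff] at hv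
  rw [G_eq_sigma hxp] at h
  have hodd : s L x % 2 = 1 := by
    rcases hv with hv | hv
    · rw [s, hv]
      simp only [G, sum_range_succ, range_zero, sum_empty]
      have h2 : x ^ 2 % 2 = 1 := by rw [Nat.pow_mod, hx2]
      have h8 : x ^ 0 = 1 := pow_zero _
      have h9 : x ^ 1 = x := pow_one _
      omega
    · rw [s, hv]
      simp only [G, sum_range_succ, range_zero, sum_empty]
      have h2 : x ^ 2 % 2 = 1 := by rw [Nat.pow_mod, hx2]
      have h3 : x ^ 3 % 2 = 1 := by rw [Nat.pow_mod, hx2]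
      have h4 : x ^ 4 % 2 = 1 := by rw [Nat.pow_mod, hx2]
      have h8 : x ^ 0 = 1 := pow_zero _
      have h9 : x ^ 1 = x := pow_one _
      omega
  have hl2 : l ≠ 2 := by
    rintro rfl
    have h1 : 2 ∣ s L x := h
    omega
  have hlL : l ∈ L.primeFactors := head_mem hL hx hl h hl2
  have hvl := hC.mem l hlL hlr
  have hnm := (normalS (by
    intro a ha
    simp only [coe_insert, coe_singleton, Set.mem_insert_iff, Set.mem_singleton_iff] at ha
    rcases ha with rfl | rfl <;> decide) hL hC.cop hlL hvl).2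
  simp only [coe_insert, coe_singleton, Set.mem_insert_iff, Set.mem_singleton_iff] at hvl
  have hl3 : l % 3 ≠ 0 := by
    intro h0
    have h1 := (Nat.prime_dvd_prime_iff_eq Nat.prime_three hl).1 (Nat.dvd_of_mod_eq_zero h0)
    exact not_dvd_of_cop hc hl (h1 ▸ (by norm_num)) (Nat.dvd_of_mem_primeFactors hlL)
  have hl5 : l % 5 ≠ 0 := by
    intro h0
    have h1 := (Nat.prime_dvd_prime_iff_eq Nat.prime_five hl).1 (Nat.dvd_of_mod_eq_zero h0)
    exact not_dvd_of_cop hc hl (h1 ▸ (by norm_num)) (Nat.dvd_of_mem_primeFactors hlL)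
  have hone3 : l % 3 = 1 → L.factorization l ≠ 2 := by
    intro h1 h2
    exact hnm ⟨3, Nat.prime_three, by rw [h2], by omega⟩
  have hone5 : l % 5 = 1 → L.factorization l ≠ 4 := by
    intro h1 h2
    exact hnm ⟨5, Nat.prime_five, by rw [h2], by omega⟩
  have hord : ∀ m : ℕ, m.Prime → L.factorization x + 1 = m → l = m ∨ l % m = 1 := by
    intro m hm hvm
    rcases head_order (Nat.succ_pos _) hl h with h1 | ⟨k, hk, h2, h3⟩
    · rw [Nat.succ_eq_add_one, hvm] at h1
      exact Or.inl ((Nat.prime_dvd_prime_iff_eq hl hm).1 h1)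
    · rw [Nat.succ_eq_add_one, hvm] at h2
      have h4 := (Nat.prime_dvd_prime_iff_eq hk hm).1 h2
      rw [h4] at h3
      right
      have h5 : l ≡ 1 [MOD m] := ((Nat.modEq_iff_dvd' hl.one_lt.le).2 h3).symm
      rw [Nat.ModEq, Nat.mod_eq_of_lt hm.one_lt] at h5
      exact h5
  rcases hv with hv | hv
  · have h1 : l % 3 = 1 := by
      rcases hord 3 Nat.prime_three (by rw [hv]) with h1 | h1
      · exact absurd (by rw [h1]) hl3
      · exact h1
    have h2 : L.factorization l = 4 := hvl.resolve_left (hone3 h1)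
    have h3 : l % 5 ≠ 1 := fun h => hone5 h h2
    refine ⟨hlL, by rw [if_pos h1, h2], ?_⟩
    unfold Good
    omega
  · have h1 : l % 5 = 1 := by
      rcases hord 5 Nat.prime_five (by rw [hv]) with h1 | h1
      · exact absurd (by rw [h1]) hl5
      · exact h1
    have h2 : L.factorization l = 2 := hvl.resolve_right (hone5 h1)
    have h3 : l % 3 ≠ 1 := fun h => hone3 h h2
    refine ⟨hlL, by rw [if_neg h3, h2], ?_⟩
    unfold Good
    omega

/-- a path which avoids the Euler prime stays in the number -/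
theorem path_in {L r l m : ℕ} (ho : Odd L) (hL : L.Perfect) (h6 : ∀ n : ℕ, n ^ 6 ∣ L → n = 1)
    (hc : Nat.Coprime L 15) (hr : Odd (L.factorization r)) (hl : l ∈ L.primeFactors)
    (hv : L.factorization l = (if l % 3 = 1 then 4 else 2)) (hg : Good l) {W : Finset ℕ}
    (hlW : l ∈ W) (hrW : r ∉ W)
    (hW : Relation.ReflTransGen (fun x y => Step x y ∧ y ∈ W) l m) :
    m ∈ W ∧ m ∈ L.primeFactors ∧ L.factorization m = (if m % 3 = 1 then 4 else 2) ∧ Good m := by
  induction hW with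
  | refl => exact ⟨hlW, hl, hv, hg⟩
  | @tail b c _ hbc ih =>
    obtain ⟨h1, h2, h3, -⟩ := ih
    obtain ⟨⟨hcp, hcd⟩, hcW⟩ := hbc
    rw [← h3] at hcd
    exact ⟨hcW, step_in ho hL h6 hc hr h2 (fun h => hrW (h ▸ h1)) hcp hcd
      fun h => hrW (h ▸ hcW)⟩

/-- the primes reached from `p` and from the components `q ^ v_q`, `q ≤ y`, of `N` -/
def Reached (N p y x : ℕ) : Prop := Relation.ReflTransGen Step p x ∨ ∃ q ≤ y, q ∈ N.primeFactors ∧
  ∃ r : ℕ, r.Prime ∧ r ∣ ArithmeticFunction.sigma 1 (q ^ N.factorization q) ∧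
    Relation.ReflTransGen Step r x

/-- for all but finitely many odd perfect numbers `N` free of sixth powers and prime to `15` every
finite set of primes reached from the Euler prime and from the components `q ^ v_q`, `q ≤ y`, of `N`
occurs, with the exponents given by the rule, in infinitely many such numbers `N'` which have the
same exponents at all `q ≤ y` -/
theorem persist_six (hT : Thin) (y : ℕ) : {N : ℕ | Odd N ∧ N.Perfect ∧
    (∀ n : ℕ, n ^ 6 ∣ N → n = 1) ∧ Nat.Coprime N 15 ∧ ∃ p : ℕ, Odd (N.factorization p) ∧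
    ∃ F : Finset ℕ, (∀ x ∈ F, Reached N p y x) ∧
      {N' : ℕ | Odd N' ∧ N'.Perfect ∧ (∀ n : ℕ, n ^ 6 ∣ N' → n = 1) ∧ Nat.Coprime N' 15 ∧
        (∀ q ≤ y, N'.factorization q = N.factorization q) ∧
        ∀ x ∈ F, N'.factorization x = (if x % 3 = 1 then 4 else 2) ∧ Good x}.Finite}.Finite := by
  classical
  have hE2 : P1 (({2, 4} : Finset ℕ) : Set ℕ) := P1_of_card (E := {2, 4}) card_le_two
  have hEe : ∀ a ∈ (({2, 4} : Finset ℕ) : Set ℕ), Even a := by
    intro a ha
    simp only [coe_insert, coe_singleton, Set.mem_insert_iff, Set.mem_singleton_iff] at ha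
    rcases ha with rfl | rfl <;> decide
  obtain ⟨C, κ, τ, hch⟩ := chains hT hE2 hEe
  let f : ℕ → Fin C × (Fin (y + 1) → Fin 6) := fun N =>
    (κ N, fun i => Fin.ofNat 6 (N.factorization i))
  refine Set.Finite.of_finite_fibers f (Set.toFinite _) ?_
  rintro c -
  by_contra hinf
  set S : Set ℕ := {N : ℕ | Odd N ∧ N.Perfect ∧
    (∀ n : ℕ, n ^ 6 ∣ N → n = 1) ∧ Nat.Coprime N 15 ∧ ∃ p : ℕ, Odd (N.factorization p) ∧
    ∃ F : Finset ℕ, (∀ x ∈ F, Reached N p y x) ∧
      {N' : ℕ | Odd N' ∧ N'.Perfect ∧ (∀ n : ℕ, n ^ 6 ∣ N' → n = 1) ∧ Nat.Coprime N' 15 ∧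
        (∀ q ≤ y, N'.factorization q = N.factorization q) ∧
        ∀ x ∈ F, N'.factorization x = (if x % 3 = 1 then 4 else 2) ∧ Good x}.Finite} with hS
  set K : Set ℕ := S ∩ f ⁻¹' {c} with hK
  have hKinf : K.Infinite := hinf
  obtain ⟨N, hNK, hmin⟩ := (InvImage.wf τ (wellFounded_lt (α := ℕ))).has_min K hKinf.nonempty
  obtain ⟨⟨ho, hN, h6, hc, p, hp, F, hF, hbad⟩, hfN⟩ := hNK
  obtain ⟨hpN, hp1, hp12⟩ := six_alpha ho hN h6 (not_dvd_of_cop hc Nat.prime_three (by norm_num)) hp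
  -- the paths
  have hpaths : ∀ x : ℕ, ∃ W : Finset ℕ, x ∈ F → (p ∈ W ∧
      Relation.ReflTransGen (fun x y => Step x y ∧ y ∈ W) p x) ∨ ∃ q ≤ y, q ∈ N.primeFactors ∧
      ∃ r : ℕ, r.Prime ∧ r ∣ ArithmeticFunction.sigma 1 (q ^ N.factorization q) ∧ r ∈ W ∧
        Relation.ReflTransGen (fun x y => Step x y ∧ y ∈ W) r x := by
    intro x
    by_cases hx : x ∈ F
    · rcases hF x hx with h | ⟨q, hqy, hq, r, hr, hrd, h⟩
      · obtain ⟨W, h1, h2⟩ := exists_path h
        exact ⟨W, fun _ => Or.inl ⟨h1, h2⟩⟩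
      · obtain ⟨W, h1, h2⟩ := exists_path h
        exact ⟨W, fun _ => Or.inr ⟨q, hqy, hq, r, hr, hrd, h1, h2⟩⟩
    · exact ⟨∅, fun h => absurd h hx⟩
  choose W hW using hpaths
  -- the numbers of the class whose Euler prime is not on the paths
  have hfin : {N' ∈ K | ∃ p' ∈ insert p (F.biUnion W), Odd (N'.factorization p')}.Finite := by
    refine (Set.Finite.biUnion (finite_toSet (insert p (F.biUnion W))) (t := fun z =>
      {N' : ℕ | N' ∈ K ∧ Odd (N'.factorization z)}) fun z _ => ?_).subset ?_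
    · apply Set.Subsingleton.finite
      rintro N₁ ⟨hN₁, h₁⟩ N₂ ⟨hN₂, h₂⟩
      obtain ⟨⟨a1, a2, a3, a4, -⟩, -⟩ := hN₁
      obtain ⟨⟨b1, b2, b3, b4, -⟩, -⟩ := hN₂
      exact six_unique a1 a2 b1 b2 a3 b3 a4 b4 h₁ h₂
    · rintro N' ⟨h1, z, hz, h2⟩
      exact Set.mem_biUnion (Finset.mem_coe.2 hz) ⟨h1, h2⟩
  refine (hKinf.sdiff hfin) (hbad.subset ?_)
  rintro N' ⟨hN'K, hN'n⟩
  obtain ⟨⟨ho', hN', h6', hc', p', hp', -⟩, hfN'⟩ := id hN'K
  have hp'W : p' ∉ insert p (F.biUnion W) := fun h => hN'n ⟨hN'K, p', h, hp'⟩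
  have hpp : p ≠ p' := fun h => hp'W (h ▸ mem_insert_self p _)
  have hp'W' : ∀ x ∈ F, p' ∉ W x := fun x hx h =>
    hp'W (mem_insert_of_mem (mem_biUnion.2 ⟨x, hx, h⟩))
  have hf : f N = f N' := by
    have h1 : f N = c := hfN
    have h2 : f N' = c := hfN'
    rw [h1, h2]
  have hτ : τ N ≤ τ N' := not_lt.1 (hmin N' hN'K)
  have hdvd : p ∣ N' := hch N N' p p' (six_cls ho hN h6 hc hp) (six_cls ho' hN' h6' hc' hp')
    (congrArg Prod.fst hf) hτ
  have hpN' : p ∈ N'.primeFactors :=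
    Nat.mem_primeFactors.2 ⟨Nat.prime_of_mem_primeFactors hpN, hdvd, hN'.2.ne'⟩
  have hC' := six_cls ho' hN' h6' hc' hp'
  have hvp := hC'.mem p hpN' hpp
  have hnm := (normalS hEe hN' hC'.cop hpN' hvp).2
  simp only [coe_insert, coe_singleton, Set.mem_insert_iff, Set.mem_singleton_iff] at hvp
  have hv4 : N'.factorization p = 4 :=
    hvp.resolve_left fun h2 => hnm ⟨3, Nat.prime_three, by rw [h2], by omega⟩
  have hpg : Good p := by
    have h1 : p % 5 ≠ 1 := fun h => hnm ⟨5, Nat.prime_five, by rw [hv4], by omega⟩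
    have h2 : p % 5 ≠ 0 := by
      intro h0
      have h1 := (Nat.prime_dvd_prime_iff_eq Nat.prime_five
        (Nat.prime_of_mem_primeFactors hpN)).1 (Nat.dvd_of_mod_eq_zero h0)
      exact not_dvd_of_cop hc Nat.prime_five (by norm_num) (h1 ▸ Nat.dvd_of_mem_primeFactors hpN)
    unfold Good
    omega
  have hsame : ∀ q ≤ y, N'.factorization q = N.factorization q := by
    intro q hqy
    have h1 := congrFun (congrArg Prod.snd hf) ⟨q, Nat.lt_succ_of_le hqy⟩
    simp only [f] at h1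
    by_cases hqp : q.Prime
    · have h2 := fac_le_five hN.2.ne' h6 hqp
      have h3 := fac_le_five hN'.2.ne' h6' hqp
      have h4 := congrArg Fin.val h1
      simp only [Fin.val_ofNat] at h4
      rw [Nat.mod_eq_of_lt (by omega), Nat.mod_eq_of_lt (by omega)] at h4
      exact h4.symm
    · rw [Nat.factorization_eq_zero_of_not_prime _ hqp, Nat.factorization_eq_zero_of_not_prime _ hqp]
  refine ⟨ho', hN', h6', hc', hsame, fun x hx => ?_⟩
  rcases hW x hx with ⟨h1, h2⟩ | ⟨q, hqy, hq, r, hr, hrd, h1, h2⟩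
  · exact (path_in ho' hN' h6' hc' hp' hpN' (by rw [hv4, if_pos (by omega)]) hpg h1
      (hp'W' x hx) h2).2.2
  · have h4 := hsame q hqy
    have h5 := fac_pos hq
    have hq' : q ∈ N'.primeFactors := by
      rw [← Nat.support_factorization, Finsupp.mem_support_iff]
      omega
    have hqp' : q ≠ p' := by
      intro hqp'
      have h6a := (six_alpha ho' hN' h6'
        (not_dvd_of_cop hc' Nat.prime_three (by norm_num)) hp').2.1
      rw [hqp'] at h4
      rw [h6a] at h4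
      have h7 : Odd (N.factorization p') := by rw [← h4]; exact odd_one
      have h8 : p' = p := odd_unique ho hN hpN (hqp' ▸ hq) hp h7
      exact hpp h8.symm
    rw [← h4] at hrd
    obtain ⟨a1, a2, a3⟩ := step_in ho' hN' h6' hc' hp' hq' hqp' hr hrd
      fun h => hp'W' x hx (h ▸ h1)
    exact (path_in ho' hN' h6' hc' hp' a1 a2 a3 h1 (hp'W' x hx) h2).2.2

end Pool.Agent.TC
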