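import Pool.Agent.Lib.MP_f02ea4_nt.TC.Next

/-!
# Rigidity: odd perfect numbers with a common part and at most two exponents outside of it
-/

set_option autoImplicit false

namespace Pool.Agent.TC

open Finset Nat Pool.Agent.BE

/-- the rule gives the right exponent of a normal prime if all exponents outside of `S` are in
`E` -/
theorem rule_gen {E : Finset ℕ} (hE2 : E.card ≤ 2) {N : ℕ} (ho : Odd N) (hN : N.Perfect)
    {S : Finset ℕ} (hS : S ⊆ N.primeFactors)
    (hE : ∀ q ∈ N.primeFactors, q ∉ S → N.factorization q ∈ E) {r : ℕ}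
    (hr : r ∈ N.primeFactors) (hrS : r ∉ S) (hrL : r ∉ LL E)
    (hr1 : ¬ One (N.factorization r) r) :
    rule E (U N S) r 0 = N.factorization r := by
  classical
  have hrp := Nat.prime_of_mem_primeFactors hr
  have hv : N.factorization r ∈ E := hE r hr hrS
  unfold rule
  split_ifs with h
  · obtain ⟨a, ha, ha1⟩ := h
    have hvc : N.factorization r ∈ cand E r := mem_filter.2 ⟨hv, hr1⟩
    have hsub : cand E r ⊆ E.erase a := by
      intro b hb
      have hb' := mem_filter.1 hb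
      refine mem_erase.2 ⟨?_, hb'.1⟩
      rintro rfl
      exact hb'.2 ha1
    have hcard : (cand E r).card ≤ 1 := by
      have h1 := card_le_card hsub
      rw [card_erase_of_mem ha] at h1
      omega
    have hsing : cand E r = {N.factorization r} :=
      (card_le_one_iff_subset_singleton.1 hcard).elim fun b hb => by
        have h2 := hb hvc
        rw [mem_singleton] at h2
        subst h2
        exact Subset.antisymm hb (singleton_subset_iff.2 hvc)
    rw [hsing, sort_singleton]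
    rfl
  · push Not at h
    have hzero : ∀ q ∈ N.primeFactors, q ∉ S → (s N q).factorization r = 0 := by
      intro q hq hqS
      apply Nat.factorization_eq_zero_of_not_dvd
      intro hd
      have hvq := hE q hq hqS
      rcases head_order (Nat.succ_pos _) hrp hd with h1 | ⟨l, hl, h1, h2⟩
      · exact hrL (mem_LL hvq hrp h1)
      · exact h _ hvq ⟨l, hl, h1, h2⟩
    rw [sigma_U hS, Nat.factorization_prod_apply fun q _ => (s_pos N q).ne',
      ← sum_fac_odd ho hN (r := r) (by have := two_lt ho hr; omega)]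
    exact sum_subset hS fun q hq hqS => hzero q hq hqS

/-- nothing is found after `N` itself -/
theorem nxt_self {N : ℕ} (ho : Odd N) (hN : N.Perfect) : nxt N = 1 := by
  rcases nxt_cases ho hN (Subset.refl N.primeFactors) with h | h
  · rwa [U_full hN.2.ne'] at h
  · exact absurd h.1 h.2.1

/-- the common part of two numbers -/
def CC (N N' : ℕ) : Finset ℕ :=
  N.primeFactors.filter (fun q => q ∈ N'.primeFactors ∧ N.factorization q = N'.factorization q)

theorem CC_left (N N' : ℕ) : CC N N' ⊆ N.primeFactors := filter_subset _ _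

theorem CC_right (N N' : ℕ) : CC N N' ⊆ N'.primeFactors := fun _ h => (mem_filter.1 h).2.1

theorem U_CC (N N' : ℕ) : U N (CC N N') = U N' (CC N N') :=
  prod_congr rfl fun q hq => by rw [(mem_filter.1 hq).2.2]

/-- if the common part is all of `N` then `N = N'` -/
theorem eq_of_CC {N N' : ℕ} (ho : Odd N) (hN : N.Perfect) (ho' : Odd N') (hN' : N'.Perfect)
    (h : CC N N' = N.primeFactors) : N = N' := by
  have h1 : U N' (CC N N') = N := by rw [← U_CC, h, U_full hN.2.ne']
  by_cases h2 : CC N N' = N'.primeFactors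
  · rw [h2, U_full hN'.2.ne'] at h1
    exact h1.symm
  · exfalso
    have h3 : (CC N N').Nonempty := by
      obtain ⟨q, hq, -⟩ := exists_odd ho hN
      exact ⟨q, h ▸ hq⟩
    apply nxt_ne_one ho' hN' (CC_right N N') h3 h2
    rw [h1, nxt_self ho hN]

theorem CC_comm (N N' : ℕ) : CC N N' = CC N' N := by
  ext q
  simp only [CC, mem_filter]
  constructor
  · rintro ⟨h1, h2, h3⟩
    exact ⟨h2, h1, h3.symm⟩
  · rintro ⟨h1, h2, h3⟩
    exact ⟨h2, h1, h3.symm⟩

/-- **Rigidity.** -/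
theorem rigid {E : Finset ℕ} (hE2 : E.card ≤ 2) {N N' : ℕ} (ho : Odd N) (hN : N.Perfect)
    (ho' : Odd N') (hN' : N'.Perfect) (hne : (CC N N').Nonempty)
    (h : ∀ q ∈ N.primeFactors, q ∉ CC N N' → N.factorization q ∈ E ∧ q ∉ LL E ∧
      ¬ One (N.factorization q) q)
    (h' : ∀ q ∈ N'.primeFactors, q ∉ CC N N' → N'.factorization q ∈ E ∧ q ∉ LL E ∧
      ¬ One (N'.factorization q) q) : N = N' := by
  by_cases h1 : CC N N' = N.primeFactors
  · exact eq_of_CC ho hN ho' hN' h1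
  by_cases h2 : CC N N' = N'.primeFactors
  · exact (eq_of_CC ho' hN' ho hN (by rw [CC_comm, h2])).symm
  exfalso
  set S := CC N N' with hS
  have hU : U N S = U N' S := U_CC N N'
  have hr := nxt_cases ho hN (CC_left N N')
  have hr' := nxt_cases ho' hN' (CC_right N N')
  have hne1 := nxt_ne_one ho hN (CC_left N N') hne h1
  rw [← hS] at hr hr' hne1
  rw [← hU] at hr'
  obtain ⟨a1, a2, a3⟩ := hr.resolve_left hne1
  obtain ⟨b1, b2, b3⟩ := hr'.resolve_left hne1
  have e1 := rule_gen hE2 ho hN (CC_left N N') (fun q hq hq2 => (h q hq hq2).1) a1 a2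
    (h _ a1 a2).2.1 (h _ a1 a2).2.2
  have e2 := rule_gen hE2 ho' hN' (CC_right N N') (fun q hq hq2 => (h' q hq hq2).1) b1 b2
    (h' _ b1 b2).2.1 (h' _ b1 b2).2.2
  rw [← hS] at e1 e2
  rw [← hU] at e2
  exact a2 (mem_filter.2 ⟨a1, b1, e1.symm.trans e2⟩)

/-- a unitary divisor has the exponents of `N` -/
theorem fac_unitary {N D q : ℕ} (hN : N ≠ 0) (hD : D ∣ N) (hc : Nat.Coprime D (N / D))
    (hq : q ∈ D.primeFactors) : D.factorization q = N.factorization q := by
  have hD0 : D ≠ 0 := fun h => hN (by rw [h] at hD; exact Nat.eq_zero_of_zero_dvd hD)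
  have hqp := Nat.prime_of_mem_primeFactors hq
  have h1 : N = D * (N / D) := (Nat.mul_div_cancel' hD).symm
  have h2 : N / D ≠ 0 := (Nat.div_pos (Nat.le_of_dvd (Nat.pos_of_ne_zero hN) hD)
    (Nat.pos_of_ne_zero hD0)).ne'
  have h3 : ¬ q ∣ N / D := fun h4 => by
    have h5 := Nat.dvd_gcd (Nat.dvd_of_mem_primeFactors hq) h4
    rw [hc] at h5
    exact hqp.one_lt.ne' (Nat.dvd_one.1 h5)
  conv_rhs => rw [h1]
  rw [Nat.factorization_mul hD0 h2, Finsupp.add_apply,
    Nat.factorization_eq_zero_of_not_dvd h3, add_zero]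

/-- rigidity with a common unitary divisor `D` -/
theorem rigid_dvd {E : Finset ℕ} (hE2 : E.card ≤ 2) {N N' D : ℕ} (ho : Odd N) (hN : N.Perfect)
    (ho' : Odd N') (hN' : N'.Perfect) (hD : 1 < D) (hDN : D ∣ N) (hDN' : D ∣ N')
    (hc : Nat.Coprime D (N / D)) (hc' : Nat.Coprime D (N' / D))
    (h : ∀ q ∈ (N / D).primeFactors, N.factorization q ∈ E ∧ ¬ q ∣ ∏ a ∈ E, (a + 1) ∧
      Nat.Coprime (q - 1) (N.factorization q + 1))
    (h' : ∀ q ∈ (N' / D).primeFactors, N'.factorization q ∈ E ∧ ¬ q ∣ ∏ a ∈ E, (a + 1) ∧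
      Nat.Coprime (q - 1) (N'.factorization q + 1)) : N = N' := by
  have hsub : D.primeFactors ⊆ CC N N' := by
    intro q hq
    have hqp := Nat.prime_of_mem_primeFactors hq
    have hqD := Nat.dvd_of_mem_primeFactors hq
    refine mem_filter.2 ⟨Nat.mem_primeFactors.2 ⟨hqp, hqD.trans hDN, hN.2.ne'⟩,
      Nat.mem_primeFactors.2 ⟨hqp, hqD.trans hDN', hN'.2.ne'⟩, ?_⟩
    rw [← fac_unitary hN.2.ne' hDN hc hq, ← fac_unitary hN'.2.ne' hDN' hc' hq]
  have key : ∀ {L : ℕ}, L ≠ 0 → D ∣ L →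
      (∀ q ∈ (L / D).primeFactors, L.factorization q ∈ E ∧ ¬ q ∣ ∏ a ∈ E, (a + 1) ∧
        Nat.Coprime (q - 1) (L.factorization q + 1)) →
      ∀ q ∈ L.primeFactors, q ∉ CC N N' → L.factorization q ∈ E ∧ q ∉ LL E ∧
        ¬ One (L.factorization q) q := by
    intro L hL hDL hh q hq hqC
    have hqp := Nat.prime_of_mem_primeFactors hq
    have hqD : ¬ q ∣ D := fun h1 => hqC (hsub (Nat.mem_primeFactors.2 ⟨hqp, h1, by omega⟩))
    have h1 : q ∈ (L / D).primeFactors := by
      have h2 : L = D * (L / D) := (Nat.mul_div_cancel' hDL).symm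
      have h3 : q ∣ D * (L / D) := by rw [← h2]; exact Nat.dvd_of_mem_primeFactors hq
      refine Nat.mem_primeFactors.2 ⟨hqp, ((Nat.Prime.dvd_mul hqp).1 h3).resolve_left hqD, ?_⟩
      exact (Nat.div_pos (Nat.le_of_dvd (Nat.pos_of_ne_zero hL) hDL) (by omega)).ne'
    obtain ⟨a1, a2, a3⟩ := hh q h1
    refine ⟨a1, fun h4 => a2 (Nat.dvd_of_mem_primeFactors h4), ?_⟩
    rintro ⟨l, hl, hl1, hl2⟩
    have h5 := Nat.dvd_gcd hl2 hl1
    rw [a3] at h5
    exact hl.one_lt.ne' (Nat.dvd_one.1 h5)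
  refine rigid hE2 ho hN ho' hN' ?_ (key hN.2.ne' hDN h) (key hN'.2.ne' hDN' h')
  obtain ⟨q, hq⟩ := Nat.nonempty_primeFactors.2 hD
  exact ⟨q, hsub hq⟩

/-- in a number prime to `∏ (a + 1)` all primes with an exponent in `E` are normal -/
theorem normal_of_coprime {E : Finset ℕ} (hEe : ∀ a ∈ E, Even a) {N : ℕ} (hN : N.Perfect)
    (hc : Nat.Coprime N (∏ a ∈ E, (a + 1))) {q : ℕ} (hq : q ∈ N.primeFactors)
    (hv : N.factorization q ∈ E) : q ∉ LL E ∧ ¬ One (N.factorization q) q := by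
  have key : ∀ l ∈ LL E, ¬ l ∣ N := by
    intro l hl h1
    have h2 := Nat.dvd_gcd h1 (Nat.dvd_of_mem_primeFactors hl)
    rw [hc] at h2
    exact (prime_of_mem_LL hl).one_lt.ne' (Nat.dvd_one.1 h2)
  refine ⟨fun h => key q h (Nat.dvd_of_mem_primeFactors hq), ?_⟩
  rintro ⟨l, hl, hl1, hl2⟩
  have h1 : l ∣ s N q := dvd_G_of_one (Nat.prime_of_mem_primeFactors hq).one_lt.le hl2 hl1
  have h2 : l ≠ 2 := by
    rintro rfl
    obtain ⟨m, hm⟩ := hEe _ hv
    omega
  exact key l (mem_LL hv hl hl1) (Nat.dvd_of_mem_primeFactors (head_mem hN hq hl h1 h2))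

/-- **Rigidity**, numbers prime to `∏ (a + 1)`: they are determined by their Euler component -/
theorem rigid_euler {E : Finset ℕ} (hE2 : E.card ≤ 2) (hEe : ∀ a ∈ E, Even a) {N N' p : ℕ}
    (hC : Cls E N p) (hC' : Cls E N' p) (hc : Nat.Coprime N (∏ a ∈ E, (a + 1)))
    (hc' : Nat.Coprime N' (∏ a ∈ E, (a + 1))) (hp : N.factorization p = N'.factorization p) :
    N = N' := by
  have hpE : ∀ {L : ℕ}, Cls E L p → p ∈ L.primeFactors := by
    intro L hL
    obtain ⟨q, hq, hqo⟩ := exists_odd hL.odd hL.perf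
    by_cases hqp : q = p
    · exact hqp ▸ hq
    · exact absurd (hEe _ (hL.mem q hq hqp)) (Nat.not_even_iff_odd.2 hqo)
  have hpC : p ∈ CC N N' := mem_filter.2 ⟨hpE hC, hpE hC', hp⟩
  have key : ∀ {L : ℕ}, Cls E L p → Nat.Coprime L (∏ a ∈ E, (a + 1)) →
      ∀ q ∈ L.primeFactors, q ∉ CC N N' → L.factorization q ∈ E ∧ q ∉ LL E ∧
        ¬ One (L.factorization q) q := by
    intro L hL hcL q hq hqC
    have hqp : q ≠ p := fun h => hqC (h ▸ hpC)
    exact ⟨hL.mem q hq hqp, normal_of_coprime hEe hL.perf hcL hq (hL.mem q hq hqp)⟩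
  exact rigid hE2 hC.odd hC.perf hC'.odd hC'.perf ⟨p, hpC⟩ (key hC hc) (key hC' hc')

end Pool.Agent.TC
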