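import Pool.Agent.Lib.MP_f02ea4_nt.TC.Next

/-!
# The sets `sq N M j`
-/

set_option autoImplicit false

namespace Pool.Agent.TC

open Finset Nat Pool.Agent.BE

theorem sq_subset {N : ℕ} {M : Finset ℕ} (j : ℕ) : sq N M j ⊆ N.primeFactors := by
  cases j with
  | zero => exact filter_subset _ _
  | succ j => exact inter_subset_right

theorem sq_succ_subset {N : ℕ} {M : Finset ℕ} (j : ℕ) : sq N M j ⊆ sq N M (j + 1) := by
  intro q hq
  rw [sq, mem_inter, mem_insert]
  exact ⟨Or.inr hq, sq_subset j hq⟩

theorem sq_mono {N : ℕ} {M : Finset ℕ} {i j : ℕ} (hij : i ≤ j) : sq N M i ⊆ sq N M j := by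
  induction j, hij using Nat.le_induction with
  | base => exact Subset.refl _
  | succ j _ ih => exact ih.trans (sq_succ_subset j)

theorem rr_not_mem {N : ℕ} {M : Finset ℕ} {j : ℕ} (ho : Odd N) (hN : N.Perfect)
    (h : rr N M j ∈ N.primeFactors) : rr N M j ∉ sq N M j := by
  rcases nxt_cases ho hN (sq_subset (N := N) (M := M) j) with h1 | h1
  · have h2 : rr N M j = 1 := h1
    rw [h2] at h
    exact absurd (Nat.prime_of_mem_primeFactors h) Nat.not_prime_one
  · exact h1.2.1

theorem sq_full {N : ℕ} {M : Finset ℕ} {k : ℕ} (ho : Odd N) (hN : N.Perfect)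
    (hmin : (sq N M 0).Nonempty) (hk : N.primeFactors.card ≤ k) : sq N M k = N.primeFactors := by
  have key : ∀ j, sq N M j = N.primeFactors ∨ j + 1 ≤ (sq N M j).card := by
    intro j
    induction j with
    | zero => exact Or.inr (by simpa using card_pos.2 hmin)
    | succ j ih =>
      by_cases h1 : sq N M j = N.primeFactors
      · exact Or.inl (Subset.antisymm (sq_subset _) (h1 ▸ sq_succ_subset j))
      · right
        have h2 := ih.resolve_left h1
        have hne := nxt_ne_one ho hN (sq_subset j) (hmin.mono (sq_mono (Nat.zero_le j))) h1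
        rcases nxt_cases ho hN (sq_subset (N := N) (M := M) j) with h3 | ⟨h3, h4, -⟩
        · exact absurd h3 hne
        · have h5 : insert (nxt (U N (sq N M j))) (sq N M j) ⊆ sq N M (j + 1) := by
            intro x hx
            rw [sq, mem_inter]
            refine ⟨hx, ?_⟩
            rcases mem_insert.1 hx with rfl | hx
            · exact h3
            · exact sq_subset j hx
          have h6 := card_le_card h5
          rw [card_insert_of_notMem h4] at h6
          omega
  rcases key k with h | h
  · exact h
  · have h1 := card_le_card (sq_subset (N := N) (M := M) k)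
    omega

theorem rr_inj {N : ℕ} {M : Finset ℕ} {i j : ℕ} (ho : Odd N) (hN : N.Perfect)
    (hi : rr N M i ∈ N.primeFactors) (hj : rr N M j ∈ N.primeFactors)
    (h : rr N M i = rr N M j) : i = j := by
  have key : ∀ i j : ℕ, rr N M i ∈ N.primeFactors → rr N M j ∈ N.primeFactors →
      rr N M i = rr N M j → ¬ i < j := by
    intro i j hi hj h hij
    apply rr_not_mem ho hN hj
    apply sq_mono (Nat.succ_le_of_lt hij)
    rw [← h, Nat.succ_eq_add_one, sq, mem_inter]
    exact ⟨mem_insert_self _ _, hi⟩
  rcases lt_trichotomy i j with h1 | h1 | h1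
  · exact absurd h1 (key i j hi hj h)
  · exact h1
  · exact absurd h1 (key j i hj hi h.symm)

end Pool.Agent.TC
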