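import Pool.Agent.Lib.MP_f02ea4_nt.TC.Count

/-!
# Odd perfect numbers free of sixth powers
-/

set_option autoImplicit false

namespace Pool.Agent.TC

open Finset Nat Pool.Agent.BE

/-- a number free of sixth powers has exponents at most `5` -/
theorem fac_le_five {N q : ℕ} (hN : N ≠ 0) (h6 : ∀ n : ℕ, n ^ 6 ∣ N → n = 1) (hq : q.Prime) :
    N.factorization q ≤ 5 := by
  by_contra hcon
  push Not at hcon
  have h7 : q ^ 6 ∣ N := (hq.pow_dvd_iff_le_factorization hN).2 hcon
  exact hq.one_lt.ne' (h6 q h7)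

theorem odd_unique {N p q : ℕ} (ho : Odd N) (hN : N.Perfect) (hp : p ∈ N.primeFactors)
    (hq : q ∈ N.primeFactors) (hpo : Odd (N.factorization p)) (hqo : Odd (N.factorization q)) :
    q = p := by
  have hcard := card_odd_le ho hN
  rw [card_le_one] at hcard
  exact hcard q (mem_filter.2 ⟨hq, hqo⟩) p (mem_filter.2 ⟨hp, hpo⟩)

theorem prod_two_four : ∏ a ∈ ({2, 4} : Finset ℕ), (a + 1) = 15 := by
  rw [prod_insert (by decide), prod_singleton]
  norm_num

theorem primeFactors_fifteen : (15 : ℕ).primeFactors = {3, 5} := by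
  rw [show (15 : ℕ) = 3 * 5 by norm_num, Nat.primeFactors_mul (by norm_num) (by norm_num),
    Nat.Prime.primeFactors Nat.prime_three, Nat.Prime.primeFactors Nat.prime_five]
  rfl

/-- odd perfect numbers free of sixth powers belong to the class `{2, 4}` -/
theorem mem_SS {N k : ℕ} (ho : Odd N) (hN : N.Perfect) (h6 : ∀ n : ℕ, n ^ 6 ∣ N → n = 1)
    (hk : N.primeFactors.card ≤ k) : N ∈ SS {2, 4} 9 k 5 ∧
      (Nat.Coprime N 15 → N ∈ SS {2, 4} 1 k 5) := by
  have hN0 : N ≠ 0 := hN.2.ne'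
  obtain ⟨p, hp, hpo⟩ := exists_odd ho hN
  have hpp := Nat.prime_of_mem_primeFactors hp
  have h5 := fun q hq => fac_le_five (q := q) hN0 h6 hq
  have hmem : ∀ q ∈ N.primeFactors, q ≠ p → N.factorization q ∈ ({2, 4} : Finset ℕ) := by
    intro q hq hqp
    have h1 := h5 q (Nat.prime_of_mem_primeFactors hq)
    have h2 := fac_pos hq
    have h3 : ¬ Odd (N.factorization q) := fun h => hqp (odd_unique ho hN hp hq hpo h)
    rw [Nat.not_odd_iff_even, Nat.even_iff] at h3
    simp only [mem_insert, mem_singleton]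
    omega
  have hsum : ∑ l ∈ (∏ a ∈ ({2, 4} : Finset ℕ), (a + 1)).primeFactors, N.factorization l =
      N.factorization 3 + N.factorization 5 := by
    rw [prod_two_four, primeFactors_fifteen, sum_insert (by decide), sum_singleton]
  have heven : ∀ q : ℕ, q.Prime → q ≠ p → N.factorization q ≤ 4 := by
    intro q hq hqp
    by_cases hqN : q ∈ N.primeFactors
    · have := hmem q hqN hqp
      simp only [mem_insert, mem_singleton] at this
      omega
    · have h1 : ¬ q ∣ N := fun h => hqN (Nat.mem_primeFactors.2 ⟨hq, h, hN0⟩)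
      rw [Nat.factorization_eq_zero_of_not_dvd h1]
      omega
  refine ⟨⟨ho, hN, hk, p, h5 p hpp, hmem, ?_⟩, fun hc => ⟨ho, hN, hk, p, h5 p hpp, hmem, ?_⟩⟩
  · rw [hsum, prod_two_four]
    have e3 := h5 3 Nat.prime_three
    have e5 := h5 5 Nat.prime_five
    split_ifs with h
    · have h35 : p = 3 ∨ p = 5 := by
        have : p ∈ (15 : ℕ).primeFactors := Nat.mem_primeFactors.2 ⟨hpp, h, by norm_num⟩
        rw [primeFactors_fifteen] at this
        simpa using this
      rcases h35 with rfl | rfl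
      · have := heven 5 Nat.prime_five (by norm_num)
        omega
      · have := heven 3 Nat.prime_three (by norm_num)
        omega
    · have h3 : p ≠ 3 := by rintro rfl; exact h (by norm_num)
      have h5' : p ≠ 5 := by rintro rfl; exact h (by norm_num)
      have := heven 5 Nat.prime_five h5'.symm
      have := heven 3 Nat.prime_three h3.symm
      omega
  · rw [hsum, prod_two_four]
    have e3 : N.factorization 3 = 0 := by
      apply Nat.factorization_eq_zero_of_not_dvd
      intro h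
      have := Nat.dvd_gcd h (show 3 ∣ 15 by norm_num)
      rw [Nat.Coprime] at hc
      rw [hc] at this
      omega
    have e5 : N.factorization 5 = 0 := by
      apply Nat.factorization_eq_zero_of_not_dvd
      intro h
      have := Nat.dvd_gcd h (show 5 ∣ 15 by norm_num)
      rw [Nat.Coprime] at hc
      rw [hc] at this
      omega
    rw [e3, e5]
    split_ifs <;> omega

/-- the odd perfect numbers free of sixth powers with at most `k` prime factors -/
def SF (k : ℕ) : Set ℕ :=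
  {N : ℕ | Odd N ∧ N.Perfect ∧ (∀ n : ℕ, n ^ 6 ∣ N → n = 1) ∧ N.primeFactors.card ≤ k}

theorem sixth (hT : Thin) : ∃ C : ℕ, ∀ k : ℕ, (SF k).Finite ∧ (SF k).ncard ≤ C * k ^ 9 ∧
    {N ∈ SF k | Nat.Coprime N 15}.ncard ≤ C * k := by
  have hE : ∀ a ∈ ({2, 4} : Finset ℕ), Even a := by decide
  have hm : Pm {2, 4} 1 := pm_card {2, 4}
  obtain ⟨C₁, h₁⟩ := count hT hE hm 9
  obtain ⟨C₂, h₂⟩ := count hT hE hm 1
  refine ⟨C₁ * 5 + C₂ * 5, fun k => ?_⟩
  obtain ⟨f₁, n₁⟩ := h₁ k 5
  obtain ⟨f₂, n₂⟩ := h₂ k 5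
  rw [max_self, one_pow, mul_one] at n₁ n₂
  have s₁ : SF k ⊆ SS {2, 4} 9 k 5 := fun N hN => (mem_SS hN.1 hN.2.1 hN.2.2.1 hN.2.2.2).1
  have s₂ : {N ∈ SF k | Nat.Coprime N 15} ⊆ SS {2, 4} 1 k 5 := fun N hN =>
    (mem_SS hN.1.1 hN.1.2.1 hN.1.2.2.1 hN.1.2.2.2).2 hN.2
  refine ⟨f₁.subset s₁, ?_, ?_⟩
  · refine (Set.ncard_le_ncard s₁ f₁).trans (n₁.trans ?_)
    exact Nat.mul_le_mul_right _ (Nat.le_add_right _ _)
  · refine (Set.ncard_le_ncard s₂ f₂).trans (n₂.trans ?_)
    rw [pow_one]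
    exact Nat.mul_le_mul_right _ (Nat.le_add_left _ _)

end Pool.Agent.TC
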