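import Pool.Agent.Lib.MP_f02ea4_nt.TC.Rigid
import Pool.Agent.Lib.MP_f02ea4_nt.TC.Sixth

/-!
# Odd perfect numbers free of sixth powers are determined by their Euler prime
-/

set_option autoImplicit false

namespace Pool.Agent.TC

open Finset Nat Pool.Agent.BE

theorem G_two (p : ℕ) : G 2 p = p + 1 := by
  simp only [G, sum_range_succ, range_zero, sum_empty]
  ring

theorem G_six (p : ℕ) : G 6 p = (p + 1) * G 3 (p ^ 2) := by
  simp only [G, sum_range_succ, range_zero, sum_empty]
  ring

theorem G_four (p : ℕ) : G 4 p = (p + 1) * (p ^ 2 + 1) := by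
  simp only [G, sum_range_succ, range_zero, sum_empty]
  ring

/-- the exponent of the Euler prime is `1` or `5` -/
theorem one_or_five {N p : ℕ} (ho : Odd N) (hN : N.Perfect) (h5 : N.factorization p ≤ 5)
    (hp : Odd (N.factorization p)) : N.factorization p = 1 ∨ N.factorization p = 5 := by
  have hpN : p ∈ N.primeFactors := by
    rw [← Nat.support_factorization, Finsupp.mem_support_iff]
    rintro h
    rw [h] at hp
    exact absurd hp (by decide)
  have h3 : N.factorization p ≠ 3 := by
    intro h3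
    have hpo : Odd p := by
      have := two_lt ho hpN
      exact (Nat.prime_of_mem_primeFactors hpN).odd_of_ne_two (by omega)
    have h4 : 2 ^ 2 ∣ s N p := by
      rw [s, h3, G_four, pow_two]
      refine mul_dvd_mul ?_ ?_
      · exact (hpo.add_odd odd_one).two_dvd
      · exact ((hpo.pow).add_odd odd_one).two_dvd
    have h6 : 2 ≤ (s N p).factorization 2 :=
      (Nat.prime_two.pow_dvd_iff_le_factorization (s_pos N p).ne').1 h4
    have h7 := sum_fac_two ho hN
    have h8 : (s N p).factorization 2 ≤ ∑ q ∈ N.primeFactors, (s N q).factorization 2 :=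
      single_le_sum (f := fun q => (s N q).factorization 2) (fun _ _ => Nat.zero_le _) hpN
    omega
  obtain ⟨m, hm⟩ := hp
  omega

/-- a unitary divisor of a perfect number is not abundant -/
theorem sigma_U_le {N : ℕ} (hN : N.Perfect) {S : Finset ℕ} (hS : S ⊆ N.primeFactors) :
    ∏ q ∈ S, s N q ≤ 2 * U N S := by
  have h1 := prod_s hN
  rw [← prod_sdiff hS] at h1
  have h2 := U_mul_compl hN.2.ne' hS
  have h3 : U N (N.primeFactors \ S) ≤ ∏ q ∈ N.primeFactors \ S, s N q := by
    unfold U
    exact prod_le_prod' fun q hq => (lt_s (mem_sdiff.1 hq).1).le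
  have h4 : 0 < U N (N.primeFactors \ S) := U_pos sdiff_subset
  have h5 : U N (N.primeFactors \ S) * ∏ q ∈ S, s N q ≤
      U N (N.primeFactors \ S) * (2 * U N S) := by
    calc U N (N.primeFactors \ S) * ∏ q ∈ S, s N q
        ≤ (∏ q ∈ N.primeFactors \ S, s N q) * ∏ q ∈ S, s N q := Nat.mul_le_mul_right _ h3
      _ = 2 * N := h1
      _ = 2 * (U N S * U N (N.primeFactors \ S)) := by rw [h2]
      _ = U N (N.primeFactors \ S) * (2 * U N S) := by ring
  exact Nat.le_of_mul_le_mul_left h5 h4

private theorem six_aux {N N' p : ℕ} (ho : Odd N) (hN : N.Perfect) (ho' : Odd N')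
    (hN' : N'.Perfect) (hC : Cls {2, 4} N p) (hC' : Cls {2, 4} N' p)
    (hc : Nat.Coprime N 15) (hc' : Nat.Coprime N' 15)
    (h1 : N.factorization p = 1) (h5 : N'.factorization p = 5) : False := by
  have hE2 : ({2, 4} : Finset ℕ).card ≤ 2 := by decide
  have hEe : ∀ a ∈ ({2, 4} : Finset ℕ), Even a := by decide
  have hpN : p ∈ N.primeFactors := by
    rw [← Nat.support_factorization, Finsupp.mem_support_iff]; omega
  have hpN' : p ∈ N'.primeFactors := by
    rw [← Nat.support_factorization, Finsupp.mem_support_iff]; omega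
  have hpC : p ∉ CC N N' := fun h => by
    have := (mem_filter.1 h).2.2
    omega
  set S := insert p (CC N N') with hSdef
  have hS : S ⊆ N.primeFactors := insert_subset hpN (CC_left N N')
  have hS' : S ⊆ N'.primeFactors := insert_subset hpN' (CC_right N N')
  have hsp : s N p = p + 1 := by rw [s, h1, G_two]
  have hsp' : s N' p = (p + 1) * G 3 (p ^ 2) := by rw [s, h5, G_six]
  have hsC : ∏ q ∈ CC N N', s N q = ∏ q ∈ CC N N', s N' q :=
    prod_congr rfl fun q hq => by rw [s, s, (mem_filter.1 hq).2.2]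
  have hpS : ∏ q ∈ S, s N q = (p + 1) * ∏ q ∈ CC N N', s N q := by
    rw [hSdef, prod_insert hpC, hsp]
  have hpS' : ∏ q ∈ S, s N' q = G 3 (p ^ 2) * ∏ q ∈ S, s N q := by
    rw [hpS, hSdef, prod_insert hpC, hsp', hsC]
    ring
  have hnorm : ∀ {L : ℕ}, L.Perfect → Cls {2, 4} L p → Nat.Coprime L 15 →
      ∀ q ∈ L.primeFactors, q ∉ S → L.factorization q ∈ ({2, 4} : Finset ℕ) ∧
        q ∉ LL {2, 4} ∧ ¬ One (L.factorization q) q := by
    intro L hL hCL hcL q hq hqS
    have hqp : q ≠ p := fun h => hqS (h ▸ mem_insert_self _ _)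
    have hm := hCL.mem q hq hqp
    exact ⟨hm, normal_of_coprime hEe hL (by rw [prod_two_four]; exact hcL) hq hm⟩
  by_cases hfull : S = N.primeFactors
  · -- then `p ^ 5 m` divides `N'` and is abundant
    have e1 := prod_s hN
    rw [← hfull] at e1
    have e2 : U N S = N := by rw [hfull, U_full hN.2.ne']
    have e3 := sigma_U_le hN' hS'
    have e4 : U N' S = p ^ 4 * U N S := by
      rw [hSdef, U_insert hpC, U_insert hpC, ← U_CC, h1, h5]
      ring
    have e5 : G 3 (p ^ 2) * (2 * N) ≤ p ^ 4 * (2 * N) := by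
      calc G 3 (p ^ 2) * (2 * N) = ∏ q ∈ S, s N' q := by rw [hpS', e1]
        _ ≤ 2 * U N' S := e3
        _ = p ^ 4 * (2 * N) := by rw [e4, e2]; ring
    have e6 : 0 < 2 * N := by have := hN.2; omega
    have e7 := Nat.le_of_mul_le_mul_right e5 e6
    have e8 : G 3 (p ^ 2) = 1 + p ^ 2 + p ^ 4 := by
      simp only [G, sum_range_succ, range_zero, sum_empty]
      ring
    rw [e8] at e7
    omega
  · have hne : S.Nonempty := ⟨p, mem_insert_self _ _⟩
    obtain ⟨a1, a2, a3⟩ := (nxt_cases ho hN hS).resolve_left (nxt_ne_one ho hN hS hne hfull)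
    set r := nxt (U N S) with hr
    have hrp := Nat.prime_of_mem_primeFactors a1
    have b3 : r ∣ ArithmeticFunction.sigma 1 (U N' S) := by
      rw [sigma_U hS', hpS']
      rw [sigma_U hS] at a3
      exact a3.mul_left _
    have b1 : r ∈ N'.primeFactors := by
      rw [sigma_U hS'] at b3
      have h2N : r ∣ 2 * N' := by
        rw [← prod_s hN', ← prod_sdiff hS']
        exact b3.mul_left _
      have hr2 : r ≠ 2 := by have := two_lt ho a1; omega
      rcases (Nat.Prime.dvd_mul hrp).1 h2N with h | h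
      · exact absurd ((Nat.prime_dvd_prime_iff_eq hrp Nat.prime_two).1 h) hr2
      · exact Nat.mem_primeFactors.2 ⟨hrp, h, hN'.2.ne'⟩
    obtain ⟨c1, c2, c3⟩ := hnorm hN hC hc r a1 a2
    obtain ⟨d1, d2, d3⟩ := hnorm hN' hC' hc' r b1 a2
    have e1 := rule_gen hE2 ho hN hS (fun q hq hq2 => (hnorm hN hC hc q hq hq2).1) a1 a2 c2 c3
    have e2 := rule_gen hE2 ho' hN' hS' (fun q hq hq2 => (hnorm hN' hC' hc' q hq hq2).1) b1 a2
      d2 d3
    have hcop : ¬ (∃ a ∈ ({2, 4} : Finset ℕ), One a r) → ¬ r ∣ G 3 (p ^ 2) := by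
      intro hno hd
      rcases head_order (by norm_num) hrp hd with h | ⟨l, hl, h6, h7⟩
      · exact c2 (mem_LL (a := 2) (by decide) hrp h)
      · exact hno ⟨2, by decide, l, hl, h6, h7⟩
    have e3 : rule {2, 4} (U N S) r 0 = rule {2, 4} (U N' S) r 0 := by
      unfold rule
      split_ifs with h
      · rfl
      · rw [sigma_U hS, sigma_U hS', hpS', Nat.factorization_mul, Finsupp.add_apply,
          Nat.factorization_eq_zero_of_not_dvd (hcop h), zero_add]
        · exact (G_pos (by norm_num)).ne'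
        · exact prod_ne_zero_iff.2 fun q _ => (s_pos N q).ne'
    exact a2 (mem_insert_of_mem (mem_filter.2 ⟨a1, b1, by rw [← e1, ← e2, e3]⟩))

/-- **Rigidity of the odd perfect numbers free of sixth powers and prime to `15`.** -/
theorem six_unique {N N' p : ℕ} (ho : Odd N) (hN : N.Perfect) (ho' : Odd N') (hN' : N'.Perfect)
    (h6 : ∀ n : ℕ, n ^ 6 ∣ N → n = 1) (h6' : ∀ n : ℕ, n ^ 6 ∣ N' → n = 1)
    (hc : Nat.Coprime N 15) (hc' : Nat.Coprime N' 15)
    (hp : Odd (N.factorization p)) (hp' : Odd (N'.factorization p)) : N = N' := by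
  have key : ∀ {L : ℕ}, Odd L → L.Perfect → (∀ n : ℕ, n ^ 6 ∣ L → n = 1) →
      Odd (L.factorization p) → Cls {2, 4} L p ∧
        (L.factorization p = 1 ∨ L.factorization p = 5) := by
    intro L hoL hL h6L hpL
    have hpL' : p ∈ L.primeFactors := by
      rw [← Nat.support_factorization, Finsupp.mem_support_iff]
      rintro h
      rw [h] at hpL
      exact absurd hpL (by decide)
    refine ⟨⟨hoL, hL, fun q hq hqp => ?_⟩, one_or_five hoL hL
      (fac_le_five hL.2.ne' h6L (Nat.prime_of_mem_primeFactors hpL')) hpL⟩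
    have h1 := fac_le_five hL.2.ne' h6L (Nat.prime_of_mem_primeFactors hq)
    have h2 := fac_pos hq
    have h3 : ¬ Odd (L.factorization q) := fun h => hqp (odd_unique hoL hL hpL' hq hpL h)
    rw [Nat.not_odd_iff_even, Nat.even_iff] at h3
    simp only [mem_insert, mem_singleton]
    omega
  obtain ⟨hC, h1⟩ := key ho hN h6 hp
  obtain ⟨hC', h2⟩ := key ho' hN' h6' hp'
  have hE2 : ({2, 4} : Finset ℕ).card ≤ 2 := by decide
  have hEe : ∀ a ∈ ({2, 4} : Finset ℕ), Even a := by decide
  by_cases h : N.factorization p = N'.factorization p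
  · exact rigid_euler hE2 hEe hC hC' (by rw [prod_two_four]; exact hc)
      (by rw [prod_two_four]; exact hc') h
  · exfalso
    rcases h1 with h1 | h1 <;> rcases h2 with h2 | h2
    · exact h (h1.trans h2.symm)
    · exact six_aux ho hN ho' hN' hC hC' hc hc' h1 h2
    · exact six_aux ho' hN' ho hN hC' hC hc' hc h2 h1
    · exact h (h1.trans h2.symm)

end Pool.Agent.TC
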