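import Pool.Agent.Lib.MP_f02ea4_nt.TC.RigidS

/-!
# Groups of numbers with a common component: the tournament
-/

set_option autoImplicit false

namespace Pool.Agent.TC

open Finset Nat Pool.Agent.BE

/-- a relation which compares any two elements, and by which at most `W` others point to any
element, lives on a set of at most `2 W + 1` elements -/
theorem tour {G : Finset ℕ} {R : ℕ → ℕ → Prop} [DecidableRel R]
    (hR : ∀ a ∈ G, ∀ b ∈ G, a ≠ b → R a b ∨ R b a) {W : ℕ}
    (hW : ∀ b ∈ G, (G.filter (fun a => a ≠ b ∧ R a b)).card ≤ W) : G.card ≤ 2 * W + 1 := by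
  rcases G.eq_empty_or_nonempty with rfl | hne
  · simp
  have hpos := card_pos.2 hne
  set T : Finset (ℕ × ℕ) := G.offDiag.filter (fun z => R z.1 z.2) with hT
  set T' : Finset (ℕ × ℕ) := G.offDiag.filter (fun z => R z.2 z.1) with hT'
  have h1 : G.offDiag ⊆ T ∪ T' := by
    intro z hz
    have hz' := mem_offDiag.1 hz
    rcases hR _ hz'.1 _ hz'.2.1 hz'.2.2 with h | h
    · exact mem_union_left _ (mem_filter.2 ⟨hz, h⟩)
    · exact mem_union_right _ (mem_filter.2 ⟨hz, h⟩)
  have h2 : T'.card ≤ T.card := by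
    refine card_le_card_of_injOn Prod.swap ?_ (Prod.swap_injective.injOn)
    intro z hz
    have hz' := mem_filter.1 (mem_coe.1 hz)
    have hz'' := mem_offDiag.1 hz'.1
    exact mem_coe.2 (mem_filter.2 ⟨mem_offDiag.2 ⟨hz''.2.1, hz''.1, hz''.2.2.symm⟩, hz'.2⟩)
  have h3 : T.card ≤ G.card * W := by
    have h4 : T ⊆ G.biUnion (fun b => (G.filter (fun a => a ≠ b ∧ R a b)).image
        (fun a => (a, b))) := by
      intro z hz
      have hz' := mem_filter.1 hz
      have hz'' := mem_offDiag.1 hz'.1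
      exact mem_biUnion.2 ⟨z.2, hz''.2.1, mem_image.2 ⟨z.1, mem_filter.2
        ⟨hz''.1, hz''.2.2, hz'.2⟩, rfl⟩⟩
    refine (card_le_card h4).trans (card_biUnion_le.trans ?_)
    refine (sum_le_card_nsmul _ _ W fun b hb => card_image_le.trans (hW b hb)).trans ?_
    simp
  have h5 : G.offDiag.card ≤ 2 * (G.card * W) := by
    have := (card_le_card h1).trans (card_union_le T T')
    omega
  rw [offDiag_card] at h5
  have h6 : G.card * G.card ≤ G.card * (2 * W + 1) := by
    have : G.card * (2 * W + 1) = 2 * (G.card * W) + G.card := by ring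
    omega
  exact Nat.le_of_mul_le_mul_left h6 hpos

/-- numbers of the class with the same exponent of the special prime and the same special prime
are equal -/
theorem eq_of_special {E : Set ℕ} (hE : P1 E) (hEe : ∀ a ∈ E, Even a) {N N' p : ℕ}
    (hC : ClsS E N p) (hC' : ClsS E N' p) (hv : N.factorization p = N'.factorization p) :
    N = N' := by
  have hpE : ∀ {L : ℕ}, ClsS E L p → p ∈ L.primeFactors := by
    intro L hL
    obtain ⟨q, hq, hqo⟩ := exists_odd hL.odd hL.perf
    by_cases hqp : q = p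
    · exact hqp ▸ hq
    · exact absurd (hEe _ (hL.mem q hq hqp)) (Nat.not_even_iff_odd.2 hqo)
  rcases dichotomy hE hEe hC hC' ⟨p, mem_filter.2 ⟨hpE hC, hpE hC', hv⟩⟩ with h | h | h
  · exact h
  · exact absurd hv.symm h.2
  · exact absurd hv h.2

/-- the group of the numbers with a common component -/
theorem group_card {E : Set ℕ} (hE : P1 E) (hEe : ∀ a ∈ E, Even a) {G : Finset ℕ} {f : ℕ → ℕ}
    (hG : ∀ N ∈ G, ClsS E N (f N)) (hc : ∀ N ∈ G, ∀ N' ∈ G, (CC N N').Nonempty)
    (hα : ∀ N ∈ G, ∀ N' ∈ G, N.factorization (f N) = N'.factorization (f N')) {W : ℕ}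
    (hW : ∀ N' ∈ G, (N'.primeFactors.filter (fun q => q ∈ G.image f)).card ≤ W) :
    G.card ≤ 2 * W + 1 := by
  classical
  have hinj : ∀ N ∈ G, ∀ N' ∈ G, f N = f N' → N = N' := by
    intro N hN N' hN' h
    refine eq_of_special hE hEe (hG N hN) (h ▸ hG N' hN') ?_
    rw [hα N hN N' hN', h]
  have hmem : ∀ N ∈ G, f N ∈ N.primeFactors := by
    intro N hN
    obtain ⟨q, hq, hqo⟩ := exists_odd (hG N hN).odd (hG N hN).perf
    by_cases hqp : q = f N
    · exact hqp ▸ hq
    · exact absurd (hEe _ ((hG N hN).mem q hq hqp)) (Nat.not_even_iff_odd.2 hqo)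
  refine tour (R := fun N N' => f N ∣ N') (fun N hN N' hN' hne => ?_) fun N' hN' => ?_
  · rcases dichotomy hE hEe (hG N hN) (hG N' hN') (hc N hN N' hN') with h | h | h
    · exact absurd h hne
    · exact Or.inl h.1
    · exact Or.inr h.1
  · refine le_trans ?_ (hW N' hN')
    refine card_le_card_of_injOn f ?_ ?_
    · intro N hN
      have h1 := mem_filter.1 (mem_coe.1 hN)
      refine mem_coe.2 (mem_filter.2 ⟨Nat.mem_primeFactors.2 ⟨Nat.prime_of_mem_primeFactors
        (hmem N h1.1), h1.2.2, (hG N' hN').perf.2.ne'⟩, mem_image_of_mem f h1.1⟩)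
    · intro N hN N₁ hN₁ h
      exact hinj N (mem_filter.1 (mem_coe.1 hN)).1 N₁ (mem_filter.1 (mem_coe.1 hN₁)).1 h

/-- a set is finite if its finite subsets are bounded -/
theorem finite_of_bound {T : Set ℕ} {b : ℕ} (h : ∀ G : Finset ℕ, (G : Set ℕ) ⊆ T → G.card ≤ b) :
    T.Finite ∧ T.ncard ≤ b := by
  have hfin : T.Finite := by
    by_contra hinf
    obtain ⟨G, hG, hGc⟩ := Set.Infinite.exists_subset_card_eq (s := T) hinf (b + 1)
    have := h G hG
    omega
  refine ⟨hfin, ?_⟩
  rw [Set.ncard_eq_toFinset_card T hfin]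
  exact h _ (by simp)

/-- colouring -/
theorem card_le_colours {G : Finset ℕ} {ι : Type*} [DecidableEq ι] {κ : ℕ → ι} {Q : Finset ι}
    (hκ : ∀ N ∈ G, κ N ∈ Q) {w : ℕ} (h : ∀ c ∈ Q, (G.filter (fun N => κ N = c)).card ≤ w) :
    G.card ≤ Q.card * w := by
  rw [card_eq_sum_card_fiberwise hκ, mul_comm]
  calc ∑ c ∈ Q, (G.filter (fun N => κ N = c)).card ≤ ∑ _c ∈ Q, w := sum_le_sum h
    _ = w * Q.card := by rw [sum_const, smul_eq_mul, mul_comm]

end Pool.Agent.TC
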