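import Pool.Agent.Lib.MP_f02ea4_nt.TC.Defs

/-!
# TASK TC A: the unitary divisors `U N S`
`U N S = ∏ q ∈ S, q ^ N.factorization q` (Defs.lean).
Proofs: `U_full` is `Nat.factorization_prod_pow_eq_self`; `sigma_U`: `ArithmeticFunction.sigma 1`
is multiplicative (`ArithmeticFunction.isMultiplicative_sigma`, `IsMultiplicative.map_prod` over
pairwise coprime prime powers) and `G_eq_sigma` of BE/Base.lean.
-/

set_option autoImplicit false

namespace Pool.Agent.TC

open Finset Nat Pool.Agent.BE

theorem U_full {N : ℕ} (hN : N ≠ 0) : U N N.primeFactors = N := by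
  have h := Nat.prod_factorization_pow_eq_self hN
  rw [Finsupp.prod, Nat.support_factorization] at h
  exact h

theorem U_insert {N r : ℕ} {S : Finset ℕ} (h : r ∉ S) :
    U N (insert r S) = U N S * r ^ N.factorization r := by
  unfold U
  rw [prod_insert h, mul_comm]

theorem U_pos {N : ℕ} {S : Finset ℕ} (hS : S ⊆ N.primeFactors) : 0 < U N S := by
  unfold U
  exact prod_pos fun q hq => pow_pos (Nat.prime_of_mem_primeFactors (hS hq)).pos _

theorem prime_dvd_U {N r : ℕ} {S : Finset ℕ} (hS : S ⊆ N.primeFactors) (hr : r.Prime) :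
    r ∣ U N S ↔ r ∈ S := by
  unfold U
  rw [Prime.dvd_finsetProd_iff hr.prime]
  constructor
  · rintro ⟨q, hq, h⟩
    have h1 := hr.dvd_of_dvd_pow h
    rwa [(Nat.prime_dvd_prime_iff_eq hr (Nat.prime_of_mem_primeFactors (hS hq))).1 h1]
  · intro h
    exact ⟨r, h, dvd_pow_self r (Nat.one_le_iff_ne_zero.1 (fac_pos (hS h)))⟩

theorem U_mul_compl {N : ℕ} {S : Finset ℕ} (hN : N ≠ 0) (hS : S ⊆ N.primeFactors) :
    U N S * U N (N.primeFactors \ S) = N := by
  conv_rhs => rw [← U_full hN]
  unfold U
  rw [mul_comm]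
  exact prod_sdiff hS

theorem U_coprime {N : ℕ} {S T : Finset ℕ} (hS : S ⊆ N.primeFactors) (hT : T ⊆ N.primeFactors)
    (hST : Disjoint S T) : Nat.Coprime (U N S) (U N T) := by
  refine Nat.coprime_of_dvd fun r hr h1 h2 => ?_
  rw [prime_dvd_U hS hr] at h1
  rw [prime_dvd_U hT hr] at h2
  exact (Finset.disjoint_left.1 hST) h1 h2

theorem sigma_U {N : ℕ} {S : Finset ℕ} (hS : S ⊆ N.primeFactors) :
    ArithmeticFunction.sigma 1 (U N S) = ∏ q ∈ S, s N q := by
  classical
  induction S using Finset.induction_on with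
  | empty => simp [U]
  | insert r S hr ih =>
    have hS' : S ⊆ N.primeFactors := fun x hx => hS (mem_insert_of_mem hx)
    have hrN : r ∈ N.primeFactors := hS (mem_insert_self _ _)
    have hrp := Nat.prime_of_mem_primeFactors hrN
    have hc : Nat.Coprime (U N S) (r ^ N.factorization r) := by
      refine Nat.Coprime.pow_right _ ?_
      rw [Nat.coprime_comm, Nat.Prime.coprime_iff_not_dvd hrp, prime_dvd_U hS' hrp]
      exact hr
    rw [U_insert hr, ArithmeticFunction.isMultiplicative_sigma.map_mul_of_coprime hc, ih hS', G_eq_sigma hrp,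
      prod_insert hr, mul_comm]
    rfl

end Pool.Agent.TC
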